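import Pool.Agent.DTW.Targets

/-!
# DTW: the boosts form a one-parameter group and are contracting
-/

set_option autoImplicit false

noncomputable section

namespace Pool.Agent.DTW

variable (E : Type) [NormedAddCommGroup E] [InnerProductSpace ℝ E] [FiniteDimensional ℝ E]

namespace BSC_

/-- the decomposition of the denominator of the boost -/
theorem bD_exp (l c : ℝ) : bD l c =
    (1 + c) / 2 * Real.exp l + (1 - c) / 2 * Real.exp (-l) := by
  unfold bD
  rw [← Real.cosh_add_sinh, ← Real.cosh_sub_sinh]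
  ring

theorem bD_sub (l c : ℝ) : bD l c - (Real.cosh l * c + Real.sinh l) =
    (1 - c) * Real.exp (-l) := by
  unfold bD
  rw [← Real.cosh_sub_sinh]
  ring

theorem far (c₀ ε l c : ℝ) (h0 : -1 < c₀) (hε : 0 < ε) (hl : 4 / (ε * (1 + c₀)) ≤ l)
    (hc : c₀ ≤ c) (hc1 : c ≤ 1) :
    1 - ε ≤ (Real.cosh l * c + Real.sinh l) / bD l c := by
  have h1 : 0 < 1 + c₀ := by linarith
  have h2 : 0 < ε * (1 + c₀) := mul_pos hε h1
  have hl0 : 0 ≤ l := le_trans (by positivity) hl
  have hD := bD_pos l (by linarith : -1 ≤ c) hc1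
  have h3 : 4 ≤ l * (ε * (1 + c₀)) := (div_le_iff₀ h2).1 hl
  have h4 : l ≤ Real.exp l := by
    have := Real.add_one_le_exp l
    linarith
  have h5 : 4 ≤ Real.exp l * (ε * (1 + c₀)) :=
    le_trans h3 (mul_le_mul_of_nonneg_right h4 h2.le)
  have h6 : Real.exp (-l) ≤ 1 := Real.exp_le_one_iff.2 (by linarith)
  have h6' : 0 < Real.exp (-l) := Real.exp_pos _
  have h7 : (1 + c₀) / 2 * Real.exp l ≤ bD l c := by
    rw [bD_exp]
    have e1 : (1 + c₀) / 2 * Real.exp l ≤ (1 + c) / 2 * Real.exp l :=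
      mul_le_mul_of_nonneg_right (by linarith) (Real.exp_pos l).le
    have e2 : 0 ≤ (1 - c) / 2 * Real.exp (-l) := mul_nonneg (by linarith) h6'.le
    linarith
  have h8 : ε * ((1 + c₀) / 2 * Real.exp l) ≤ ε * bD l c :=
    mul_le_mul_of_nonneg_left h7 hε.le
  have h9 := bD_sub l c
  have h10 : (1 - c) * Real.exp (-l) ≤ 2 * 1 :=
    mul_le_mul (by linarith) h6 h6'.le (by norm_num)
  rw [le_div_iff₀ hD]
  nlinarith

theorem near (l c : ℝ) (hl : 0 ≤ l) (hc : -1 ≤ c) (hc1 : c ≤ 1) :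
    c ≤ (Real.cosh l * c + Real.sinh l) / bD l c := by
  have hD := bD_pos l hc hc1
  rw [le_div_iff₀ hD]
  unfold bD
  have h1 : 0 ≤ Real.sinh l := Real.sinh_nonneg_iff.2 hl
  have h2 : 0 ≤ Real.sinh l * ((1 - c) * (1 + c)) :=
    mul_nonneg h1 (mul_nonneg (by linarith) (by linarith))
  nlinarith

end BSC_

theorem p_BSC : T_BSC E := by
  intro a
  refine ⟨fun l k => ?_, fun l y hl => ?_, fun c ε hc hε => ?_⟩
  · refine Equiv.ext fun y => Subtype.ext ?_
    show bstFun (a : E) l (bstFun (a : E) k y) = bstFun (a : E) (l + k) y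
    rw [bst_add, add_comm k l]
  · show inner ℝ (y : E) (a : E) ≤ inner ℝ (bstFun (a : E) l y) (a : E)
    rw [bst_inner]
    exact BSC_.near l _ hl (S_neg_le_inner y a) (S_inner_le y a)
  · refine ⟨4 / (ε * (1 + c)), ?_, fun l hl y hy => ?_⟩
    · have : 0 < ε * (1 + c) := mul_pos hε (by linarith)
      positivity
    · show 1 - ε ≤ inner ℝ (bstFun (a : E) l y) (a : E)
      rw [bst_inner]
      exact BSC_.far c ε l _ hc hε hl hy (S_inner_le y a)

end Pool.Agent.DTW
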