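import Pool.Agent.DTW.Targets

/-!
# DTW-BSP: boosts form a smooth path
-/

set_option autoImplicit false

open scoped ContDiff

noncomputable section

namespace Pool.Agent.DTW

variable (E : Type) [NormedAddCommGroup E] [InnerProductSpace ℝ E] [FiniteDimensional ℝ E]

namespace BSP_

omit [FiniteDimensional ℝ E] in
theorem aux (a : S E) (μ : ℝ → ℝ) (hμ : ContDiff ℝ ∞ μ) :
    ContDiffOn ℝ ∞ (fun w : ℝ × E => lift (S E) (bst a (μ w.1)) w.2) (Set.univ ×ˢ S E) := by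
  have h0 : ContDiff ℝ ∞ fun w : ℝ × E => μ w.1 := hμ.comp contDiff_fst
  have h1 : ContDiff ℝ ∞ fun w : ℝ × E => inner ℝ w.2 (a : E) :=
    contDiff_snd.inner ℝ contDiff_const
  have hc : ContDiff ℝ ∞ fun w : ℝ × E => Real.cosh (μ w.1) := Real.contDiff_cosh.comp h0
  have hs : ContDiff ℝ ∞ fun w : ℝ × E => Real.sinh (μ w.1) := Real.contDiff_sinh.comp h0
  have hD : ContDiff ℝ ∞ fun w : ℝ × E => bD (μ w.1) (inner ℝ w.2 (a : E)) :=
    hc.add (hs.mul h1)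
  have hv : ContDiff ℝ ∞ fun w : ℝ × E => w.2 + ((Real.cosh (μ w.1) - 1) *
      inner ℝ w.2 (a : E) + Real.sinh (μ w.1)) • (a : E) :=
    contDiff_snd.add ((((hc.sub contDiff_const).mul h1).add hs).smul contDiff_const)
  have h2 : ContDiffOn ℝ ∞ (fun w : ℝ × E => bstFun (a : E) (μ w.1) w.2) (Set.univ ×ˢ S E) := by
    refine ContDiffOn.smul (hD.contDiffOn.inv fun w hw => ?_) hv.contDiffOn
    exact (bD_pos _ (S_neg_le_inner ⟨w.2, hw.2⟩ a) (S_inner_le ⟨w.2, hw.2⟩ a)).ne'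
  refine h2.congr fun w hw => ?_
  rw [lift_of_mem _ hw.2]
  rfl

end BSP_

omit [FiniteDimensional ℝ E] in
theorem p_BSP : T_BSP E := by
  intro a μ hμ
  refine ⟨BSP_.aux E a μ hμ, ?_⟩
  simp only [bst_inv]
  exact BSP_.aux E a (fun t => -μ t) hμ.neg

end Pool.Agent.DTW
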