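import Pool.Agent.DTW.Targets

/-!
# DTW: CAP, shrinking the support of a diffeomorphism of the sphere to a small cap
-/

set_option autoImplicit false

open scoped ContDiff

noncomputable section

namespace Pool.Agent.DTW

variable (E : Type) [NormedAddCommGroup E] [InnerProductSpace ℝ E] [FiniteDimensional ℝ E]

namespace CAP_

omit [FiniteDimensional ℝ E] in
/-- conjugation by an isotopically trivial diffeomorphism does not change the isotopy class -/
theorem conj {φ ψ R : Equiv.Perm (S E)} (hφ : IsDiffeo (S E) φ) (hψ : ψ ∈ IS E)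
    (hR : R ∈ IS E) : ∃ ψ' ∈ IS E, ψ' * φ = R * (ψ * φ) * R⁻¹ := by
  have h1 : IsDiffeo (S E) (ψ * φ) := (IsoS.isDiffeo hψ).mul hφ
  have h2 : (ψ * φ) * R⁻¹ * (ψ * φ)⁻¹ ∈ IS E := IS_conj h1 ((IS E).inv_mem hR)
  refine ⟨R * ((ψ * φ) * R⁻¹ * (ψ * φ)⁻¹) * ψ, (IS E).mul_mem ((IS E).mul_mem hR h2) hψ, ?_⟩
  group

omit [FiniteDimensional ℝ E] in
theorem bst_mem (h_BSP : T_BSP E) (a : S E) (l : ℝ) : bst a l ∈ IS E := by
  refine ⟨fun t => bst a (t * l), h_BSP a (fun t => t * l) (contDiff_id.mul contDiff_const),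
    ?_, ?_⟩
  · refine Equiv.ext fun y => Subtype.ext ?_
    show bstFun (a : E) (0 * l) y = y
    rw [zero_mul, bst_zero]
  · show bst a (1 * l) = bst a l
    rw [one_mul]

omit [FiniteDimensional ℝ E] in
theorem refl_apply (a : S E) (x : E) :
    refl E a x = x - (2 * inner ℝ (a : E) x) • (a : E) := rfl

omit [FiniteDimensional ℝ E] in
theorem refl_symm (a : S E) (x : E) : (refl E a).symm x = refl E a x := rfl

omit [FiniteDimensional ℝ E] in
theorem refl_adj (a : S E) (x y : E) :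
    inner ℝ (refl E a x) y = inner ℝ x (refl E a y) := by
  rw [refl_apply, refl_apply, inner_sub_left, inner_sub_right, inner_smul_left,
    inner_smul_right, real_inner_comm x (a : E)]
  simp only [conj_trivial]
  ring

omit [FiniteDimensional ℝ E] in
theorem refl_refl (a : S E) (x : E) : refl E a (refl E a x) = x :=
  (refl E a).left_inv x

omit [FiniteDimensional ℝ E] in
theorem refl_norm (a : S E) (x : E) : ‖refl E a x‖ = ‖x‖ := by
  have h1 : ‖refl E a x‖ ^ 2 = ‖x‖ ^ 2 := by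
    rw [← real_inner_self_eq_norm_sq, ← real_inner_self_eq_norm_sq, refl_adj, refl_refl]
  exact (sq_eq_sq₀ (norm_nonneg _) (norm_nonneg _)).1 h1

omit [FiniteDimensional ℝ E] in
theorem lam_inner {a b u w : S E} (h : refl E a (-(u : E)) = w) (hb : refl E b (u : E) = -(u : E))
    (y : S E) :
    inner ℝ (((lam (refl E a * refl E b))⁻¹ y : S E) : E) (u : E) = inner ℝ (y : E) (w : E) := by
  have h1 : (((lam (refl E a * refl E b))⁻¹ y : S E) : E) =
      ‖refl E b (refl E a (y : E))‖⁻¹ • refl E b (refl E a (y : E)) := rfl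
  rw [h1, refl_norm, refl_norm, S_norm, inv_one, one_smul, refl_adj, hb, refl_adj, h]

omit [FiniteDimensional ℝ E] in
/-- rotations which are isotopic to the identity act transitively -/
theorem rot (h_REF : T_REF E) (hd : 2 ≤ Module.finrank ℝ E) (u w : S E) :
    ∃ R ∈ IS E, ∀ y : S E,
      inner ℝ ((R⁻¹ y : S E) : E) (u : E) = inner ℝ (y : E) (w : E) := by
  have hb : refl E u (u : E) = -(u : E) := by
    rw [refl_apply, S_inner_self]
    module
  by_cases hw : (w : E) + (u : E) = 0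
  · have h1 : ∃ a : S E, inner ℝ (a : E) (u : E) = 0 := by
      have h2 : ∃ v : E, inner ℝ (u : E) v = 0 ∧ v ≠ 0 := by
        by_contra hcon
        push Not at hcon
        have h3 : (⊤ : Submodule ℝ E) ≤ Submodule.span ℝ {(u : E)} := by
          intro v _
          have h4 : v - inner ℝ (u : E) v • (u : E) = 0 := by
            apply hcon
            rw [inner_sub_right, inner_smul_right, S_inner_self]
            ring
          rw [Submodule.mem_span_singleton]
          exact ⟨inner ℝ (u : E) v, (sub_eq_zero.1 h4).symm⟩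
        have h5 := Submodule.finrank_mono h3
        rw [finrank_top] at h5
        have h6 := finrank_span_singleton (K := ℝ) (v := (u : E)) (by
          intro h7
          have h8 := S_norm u
          rw [h7, norm_zero] at h8
          exact zero_ne_one h8)
        omega
      obtain ⟨v, hv, hv0⟩ := h2
      refine ⟨⟨‖v‖⁻¹ • v, nrm_mem (norm_pos_iff.2 hv0)⟩, ?_⟩
      show inner ℝ (‖v‖⁻¹ • v) (u : E) = 0
      rw [inner_smul_left, real_inner_comm, hv, mul_zero]
    obtain ⟨a, ha⟩ := h1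
    refine ⟨lam (refl E a * refl E u), h_REF a u, fun y => lam_inner E ?_ hb y⟩
    rw [refl_apply, inner_neg_right, ha]
    rw [neg_zero, mul_zero, zero_smul, sub_zero]
    exact (eq_neg_of_add_eq_zero_left hw).symm
  · refine ⟨lam (refl E ⟨‖(w : E) + u‖⁻¹ • ((w : E) + u), nrm_mem (norm_pos_iff.2 hw)⟩ *
      refl E u), h_REF _ u, fun y => lam_inner E ?_ hb y⟩
    rw [refl_apply]
    show -(u : E) - (2 * inner ℝ (‖(w : E) + u‖⁻¹ • ((w : E) + u)) (-(u : E))) •
      (‖(w : E) + u‖⁻¹ • ((w : E) + u)) = w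
    have hn : 0 < ‖(w : E) + u‖ := norm_pos_iff.2 hw
    have h1 : ‖(w : E) + u‖ ^ 2 = 2 * (inner ℝ (w : E) (u : E) + 1) := by
      rw [@norm_add_sq_real, S_norm, S_norm]
      ring
    have h2 : inner ℝ (‖(w : E) + u‖⁻¹ • ((w : E) + u)) (-(u : E)) =
        -(‖(w : E) + u‖⁻¹ * (inner ℝ (w : E) (u : E) + 1)) := by
      rw [inner_neg_right, inner_smul_left, inner_add_left, S_inner_self]
      rfl
    rw [h2, smul_smul]
    have h3 : 2 * -(‖(w : E) + u‖⁻¹ * (inner ℝ (w : E) (u : E) + 1)) * ‖(w : E) + u‖⁻¹ = -1 := by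
      have h4 : 2 * -(‖(w : E) + u‖⁻¹ * (inner ℝ (w : E) (u : E) + 1)) * ‖(w : E) + u‖⁻¹ =
          -(2 * (inner ℝ (w : E) (u : E) + 1)) * (‖(w : E) + u‖⁻¹ * ‖(w : E) + u‖⁻¹) := by ring
      rw [h4, ← h1]
      field_simp
    rw [h3]
    module

end CAP_

theorem p_CAP (h_DSC : T_DSC E) (h_BSP : T_BSP E) (h_BSC : T_BSC E) (h_REF : T_REF E) :
    T_CAP E := by
  intro hd φ hφ ho w η hη
  obtain ⟨x, ψ₀, hψ₀, κ, hκ, h1⟩ := h_DSC φ hφ ho
  have hx : -(x : E) ∈ S E := by
    rw [mem_S, norm_neg]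
    exact S_norm x
  obtain ⟨L, hL, h2⟩ := (h_BSC ⟨-(x : E), hx⟩).2.2 (-1 + κ) η (by linarith) hη
  have hδ := CAP_.bst_mem E h_BSP ⟨-(x : E), hx⟩ L
  obtain ⟨ψ₁, hψ₁, h3⟩ := CAP_.conj E hφ hψ₀ hδ
  obtain ⟨R, hR, h4⟩ := CAP_.rot E h_REF hd ⟨-(x : E), hx⟩ w
  obtain ⟨ψ, hψ, h5⟩ := CAP_.conj E hφ hψ₁ hR
  refine ⟨ψ, hψ, fun y hy => ?_⟩
  rw [h5, h3]
  set δ := bst (⟨-(x : E), hx⟩ : S E) L with hδdef
  have h6 : ∀ v : S E, inner ℝ (v : E) (-(x : E)) < 1 - η → (δ * (ψ₀ * φ) * δ⁻¹) v = v := by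
    intro v hv
    have h7 : (ψ₀ * φ) (δ⁻¹ v) = δ⁻¹ v := by
      apply h1
      by_contra hcon
      push Not at hcon
      have h8 := h2 L le_rfl (δ⁻¹ v) (by
        show -1 + κ ≤ inner ℝ ((δ⁻¹ v : S E) : E) (-(x : E))
        rw [inner_neg_right]
        linarith)
      have h9 : bst (⟨-(x : E), hx⟩ : S E) L (δ⁻¹ v) = v := Equiv.apply_symm_apply δ v
      rw [h9] at h8
      change 1 - η ≤ inner ℝ (v : E) (-(x : E)) at h8
      linarith
    rw [Equiv.Perm.mul_apply, Equiv.Perm.mul_apply, h7]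
    exact Equiv.apply_symm_apply δ v
  have h10 := h6 (R⁻¹ y) (by
    have h11 := h4 y
    change inner ℝ ((R⁻¹ y : S E) : E) (-(x : E)) = inner ℝ (y : E) (w : E) at h11
    rw [h11]
    exact hy)
  rw [Equiv.Perm.mul_apply, Equiv.Perm.mul_apply, h10]
  exact Equiv.apply_symm_apply R y

end Pool.Agent.DTW
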