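import Pool.Agent.DTW.Targets

/-!
# DTW: CMM, commutators of paths whose supports meet in a compact set
-/

set_option autoImplicit false

open scoped ContDiff

noncomputable section

namespace Pool.Agent.DTW

namespace CMM_

theorem comm_fix {α : Type} (f g : Equiv.Perm α) (P Q K : Set α) (hf : ∀ z ∉ P, f z = z)
    (hg : ∀ z ∉ Q, g z = z) (hK : ∀ z, z ∈ P → z ∈ Q → z ∈ K) (z : α) (h0 : z ∉ K)
    (h1 : ∀ w ∈ K, f w ≠ z) (h2 : ∀ w ∈ K, g w ≠ z) : (f * g * f⁻¹ * g⁻¹) z = z := by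
  show f (g (f⁻¹ (g⁻¹ z))) = z
  by_cases hQ : z ∈ Q
  · have e1 : g (g⁻¹ z) = z := g.apply_symm_apply z
    have a1 : g⁻¹ z ∈ Q := by
      by_contra h
      rw [hg _ h] at e1
      rw [e1] at h
      exact h hQ
    have a2 : g⁻¹ z ∉ P := fun h => h2 _ (hK _ h a1) e1
    have a3 : f⁻¹ (g⁻¹ z) = g⁻¹ z := by
      rw [Equiv.Perm.inv_eq_iff_eq]
      exact (hf _ a2).symm
    rw [a3, e1]
    exact hf z fun h => h0 (hK z h hQ)
  · have a1 : g⁻¹ z = z := by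
      rw [Equiv.Perm.inv_eq_iff_eq]
      exact (hg z hQ).symm
    rw [a1]
    have e1 : f (f⁻¹ z) = z := f.apply_symm_apply z
    by_cases hw : f⁻¹ z ∈ Q
    · have a2 : f⁻¹ z ∉ P := fun h => h1 _ (hK _ h hw) e1
      have a3 : f⁻¹ z = z := by
        rw [← hf _ a2]
        exact e1
      rw [a3] at hw
      exact absurd hw hQ
    · rw [hg _ hw]
      exact e1

variable {E : Type} [NormedAddCommGroup E] [InnerProductSpace ℝ E]

/-- the image of a compact set under a path is bounded -/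
theorem bdd {f : ℝ → Equiv.Perm (TS E)} (hf : IsPath (TS E) f) {K : Set (E × E)}
    (hK : IsCompact K) (hKT : K ⊆ TS E) :
    ∃ R : ℝ, ∀ s ∈ Set.Icc (0 : ℝ) 1, ∀ w : TS E, (w : E × E) ∈ K → ‖((f s) w : E × E)‖ ≤ R := by
  have h1 : IsCompact (Set.Icc (0 : ℝ) 1 ×ˢ K) := isCompact_Icc.prod hK
  have h2 : ContinuousOn (fun w : ℝ × (E × E) => lift (TS E) (f w.1) w.2)
      (Set.Icc (0 : ℝ) 1 ×ˢ K) :=
    hf.1.continuousOn.mono (Set.prod_mono (Set.subset_univ _) hKT)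
  obtain ⟨R, hR⟩ := (h1.image_of_continuousOn h2).isBounded.exists_norm_le
  refine ⟨R, fun s hs w hw => ?_⟩
  have h3 := hR _ ⟨(s, (w : E × E)), ⟨hs, hw⟩, rfl⟩
  simpa only [lift_coe] using h3

end CMM_

variable (E : Type) [NormedAddCommGroup E] [InnerProductSpace ℝ E] [FiniteDimensional ℝ E]

open CMM_ in
omit [FiniteDimensional ℝ E] in
theorem p_CMM : T_CMM E := by
  intro f g P Q K hf hfs hg hgs hP hQ hK hKT hPQ
  -- a common bound of the supports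
  obtain ⟨R1, hR1⟩ := bdd hf hK hKT
  obtain ⟨R2, hR2⟩ := bdd hg hK hKT
  obtain ⟨R3, hR3⟩ := hK.isBounded.exists_norm_le
  set R := max (max R1 R2) R3 with hR
  have key : ∀ s ∈ Set.Icc (0 : ℝ) 1, ∀ z : TS E, R < ‖z.1.2‖ →
      (f s * g s * (f s)⁻¹ * (g s)⁻¹) z = z := by
    intro s hs z hz
    have hzn : R < ‖(z : E × E)‖ := hz.trans_le (norm_snd_le (z : E × E))
    refine comm_fix (f s) (g s) P Q {z : TS E | (z : E × E) ∈ K} (hP s) (hQ s) hPQ z ?_ ?_ ?_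
    · intro h
      have h1 := hR3 _ h
      have h2 : R3 ≤ R := le_max_right _ _
      linarith
    · intro w hw h
      have h1 := hR1 s hs w hw
      rw [h] at h1
      have h2 : R1 ≤ R := (le_max_left _ _).trans (le_max_left _ _)
      linarith
    · intro w hw h
      have h1 := hR2 s hs w hw
      rw [h] at h1
      have h2 : R2 ≤ R := (le_max_right _ _).trans (le_max_left _ _)
      linarith
  have hSf : ∀ t, f t ∈ SG E := fun t => ⟨hf.isDiffeo t, hfs t⟩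
  have hSg : ∀ t, g t ∈ SG E := fun t => ⟨hg.isDiffeo t, hgs t⟩
  have hSc : ∀ t, f t * g t * (f t)⁻¹ * (g t)⁻¹ ∈ SG E := fun t =>
    (SG E).mul_mem ((SG E).mul_mem ((SG E).mul_mem (hSf t) (hSg t)) ((SG E).inv_mem (hSf t)))
      ((SG E).inv_mem (hSg t))
  have hC : ∀ t ∈ Set.Icc (0 : ℝ) 1, f t * g t * (f t)⁻¹ * (g t)⁻¹ ∈ CG E := fun t ht =>
    ⟨(hSc t).1, (hSc t).2, R, key t ht⟩
  have hC0 := hC 0 ⟨le_rfl, zero_le_one⟩
  refine ⟨hC 1 ⟨zero_le_one, le_rfl⟩, ?_⟩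
  have hp : IsPath (TS E) fun t => f t * g t * (f t)⁻¹ * (g t)⁻¹ :=
    ((hf.mul hg).mul hf.inv).mul hg.inv
  have hp2 : IsPath (TS E) fun t => f (sg t) * g (sg t) * (f (sg t))⁻¹ * (g (sg t))⁻¹ :=
    hp.reparam sg_smooth
  have hc0 : IsDiffeo (TS E) (f 0 * g 0 * (f 0)⁻¹ * (g 0)⁻¹)⁻¹ := hC0.1.inv
  refine ⟨fun t => (f (sg t) * g (sg t) * (f (sg t))⁻¹ * (g (sg t))⁻¹) *
    (f 0 * g 0 * (f 0)⁻¹ * (g 0)⁻¹)⁻¹, hp2.mul (IsPath.const hc0), ?_, ?_, ?_, ?_⟩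
  · intro t
    exact ((SG E).mul_mem (hSc (sg t)) ((SG E).inv_mem (hSc 0))).2
  · have u1 : UCS fun t => f (sg t) * g (sg t) * (f (sg t))⁻¹ * (g (sg t))⁻¹ :=
      ⟨R, fun t z hz => key (sg t) ⟨sg_nonneg t, sg_le_one t⟩ z hz⟩
    have u2 : UCS fun _ : ℝ => f 0 * g 0 * (f 0)⁻¹ * (g 0)⁻¹ :=
      ⟨R, fun t z hz => key 0 ⟨le_rfl, zero_le_one⟩ z hz⟩
    exact u1.mul u2.inv
  · simp only [sg_zero]
    exact mul_inv_cancel _
  · simp only [sg_one]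

end Pool.Agent.DTW
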