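import Pool.Agent.DTW.Targets

/-!
# DTW: the deformation of the commutator
-/

set_option autoImplicit false

open scoped ContDiff

noncomputable section

namespace Pool.Agent.DTW

variable (E : Type) [NormedAddCommGroup E] [InnerProductSpace ℝ E] [FiniteDimensional ℝ E]

namespace CMP_

variable {E}

omit [FiniteDimensional ℝ E] in
theorem trn_zero : (trn (0 : E)) = 1 := by
  refine Equiv.ext fun z => Subtype.ext (Prod.ext rfl ?_)
  show z.1.2 + 0 - inner ℝ (0 : E) z.1.1 • z.1.1 = z.1.2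
  rw [inner_zero_left, zero_smul, add_zero, sub_zero]

omit [FiniteDimensional ℝ E] in
theorem bst_zero' (a : S E) : bst a 0 = 1 :=
  Equiv.ext fun y => Subtype.ext (bst_zero (a : E) (y : E))

theorem fl_zero (a : S E) (φ : Equiv.Perm (S E)) : fl a 0 φ 0 = pull φ := by
  unfold fl
  rw [trn_zero, bst_zero', one_mul, one_mul, inv_one, mul_one, inv_one, mul_one]

omit [FiniteDimensional ℝ E] in
/-- the conjugates by boosts form a path -/
theorem conj_path (h1 : T_BSP E) (a : S E) (φ : Equiv.Perm (S E)) (hφ : IsDiffeo (S E) φ)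
    (l : ℝ) : IsPath (S E) fun t => bst a (sg t * l) * φ * (bst a (sg t * l))⁻¹ := by
  have h2 := h1 a (fun t => sg t * l) (sg_smooth.mul contDiff_const)
  exact (h2.mul (IsPath.const hφ)).mul h2.inv

/-- the lifts form a path -/
theorem fl_path (hB : T_BSP E) (hP : T_PBP E) (hT : T_TRN E) (a : S E) (p : E)
    (φ : Equiv.Perm (S E)) (hφ : IsDiffeo (S E) φ) (l : ℝ) :
    IsPath (TS E) fun t => fl a (sg t • p) φ (sg t * l) := by
  have h1 := (hT p sg sg_smooth).1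
  have h2 := hP _ (conj_path hB a φ hφ l)
  exact (h1.mul h2).mul h1.inv

theorem fl_symp (hB : T_BSP E) (hS : T_PBS E) (hT : T_TRN E) (a : S E) (p : E)
    (φ : Equiv.Perm (S E)) (hφ : IsDiffeo (S E) φ) (l t : ℝ) :
    fl a (sg t • p) φ (sg t * l) ∈ SG E := by
  have h1 := hT p sg sg_smooth
  have h2 : trn (sg t • p) ∈ SG E := ⟨h1.1.isDiffeo t, h1.2 t⟩
  have h3 : pull (bst a (sg t * l) * φ * (bst a (sg t * l))⁻¹) ∈ SG E :=
    hS _ ((conj_path hB a φ hφ l).isDiffeo t)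
  exact mul_mem (mul_mem h2 h3) (inv_mem h2)

/-- the supports of the lifts -/
theorem fl_supp (hB : T_BSP E) (hL : T_PBL E) (hU : T_SUP E) (a : S E) (p : E)
    (φ : Equiv.Perm (S E)) (hφ : IsDiffeo (S E) φ)
    (h : ∀ y : S E, inner ℝ (y : E) (a : E) < 3 / 4 → φ y = y) (l : ℝ) (hl : 0 ≤ l) (t : ℝ)
    (z : TS E) (hz : inner ℝ z.1.1 (a : E) < 3 / 4) :
    fl a (sg t • p) φ (sg t * l) z = z := by
  have h1 : pull (bst a (sg t * l) * φ * (bst a (sg t * l))⁻¹) ((trn (sg t • p))⁻¹ z) =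
      (trn (sg t • p))⁻¹ z := by
    refine hL _ {y : E | inner ℝ y (a : E) < 3 / 4} ((conj_path hB a φ hφ l).isDiffeo t) ?_ ?_ _ ?_
    · exact isOpen_lt (Continuous.inner continuous_id continuous_const) continuous_const
    · intro y hy
      exact (hU a φ h).1 (sg t * l) (mul_nonneg (sg_nonneg t) hl) y hy
    · exact hz
  show (trn (sg t • p)) (pull (bst a (sg t * l) * φ * (bst a (sg t * l))⁻¹)
    ((trn (sg t • p))⁻¹ z)) = z
  rw [h1, ← Equiv.Perm.mul_apply, mul_inv_cancel, Equiv.Perm.one_apply]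

omit [FiniteDimensional ℝ E] in
/-- the flow is continuous -/
theorem dt_cont (hD : T_DTS E) (A : Angle) : Continuous fun w : E × E => dtFun A.θ w := by
  have h1 : ∃ ε > 0, ∃ k : ℤ, ∀ t r : ℝ, r < ε → (fun u : ℝ × ℝ => A.θ u.2) (t, r) =
      k * Real.pi := by
    obtain ⟨ε, hε, h | h⟩ := A.zero
    · refine ⟨ε, hε, 1, fun t r hr => ?_⟩
      show A.θ r = _
      rw [h r hr]
      push_cast
      ring
    · refine ⟨ε, hε, -1, fun t r hr => ?_⟩
      show A.θ r = _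
      rw [h r hr]
      push_cast
      ring
  have h2 : Continuous fun w : ℝ × (E × E) => dtFun (fun r => A.θ r) w.2 :=
    (hD (fun u => A.θ u.2) (A.smooth.comp contDiff_snd) h1).continuous
  have h3 : Continuous fun w : E × E => ((0 : ℝ), w) := by fun_prop
  have h4 := Continuous.comp h2 h3
  simp only [Function.comp_def] at h4
  exact h4

omit [FiniteDimensional ℝ E] in
theorem TS_closed : IsClosed (TS E) := by
  have h1 : IsClosed {z : E × E | ‖z.1‖ = 1} :=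
    isClosed_eq (continuous_norm.comp continuous_fst) continuous_const
  have h2 : IsClosed {z : E × E | inner ℝ z.1 z.2 = 0} :=
    isClosed_eq (Continuous.inner continuous_fst continuous_snd) continuous_const
  exact h1.inter h2

/-- the intersection of the supports is compact -/
theorem K_compact (hD : T_DTS E) (A : Angle) (a b : S E)
    (hI : ∀ z : TS E, 3 / 4 ≤ inner ℝ z.1.1 (a : E) →
      3 / 4 ≤ inner ℝ (dtFun A.θ z.1).1 (b : E) → ‖z.1.2‖ < 2) :
    IsCompact {w : E × E | w ∈ TS E ∧ 3 / 4 ≤ inner ℝ w.1 (a : E) ∧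
      3 / 4 ≤ inner ℝ (dtFun A.θ w).1 (b : E)} := by
  have c1 : IsClosed {w : E × E | 3 / 4 ≤ inner ℝ w.1 (a : E)} :=
    isClosed_le continuous_const (Continuous.inner continuous_fst continuous_const)
  have c2 : IsClosed {w : E × E | 3 / 4 ≤ inner ℝ (dtFun A.θ w).1 (b : E)} :=
    isClosed_le continuous_const
      (Continuous.inner (continuous_fst.comp (dt_cont hD A)) continuous_const)
  refine Metric.isCompact_of_isClosed_isBounded (TS_closed.inter (c1.inter c2)) ?_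
  refine (Metric.isBounded_closedBall (x := (0 : E × E)) (r := 2)).subset ?_
  rintro w ⟨hw, h1, h2⟩
  rw [mem_closedBall_zero_iff, Prod.norm_def]
  refine max_le ?_ ?_
  · rw [hw.1]
    norm_num
  · exact (hI ⟨w, hw⟩ h1 h2).le

end CMP_

namespace CMP_

variable {E}

/-- the statement for an arbitrary angle function -/
theorem main (hB : T_BSP E) (hL : T_PBL E) (hP : T_PBP E) (hS : T_PBS E) (hU : T_SUP E)
    (hT : T_TRN E) (hC : T_CMM E) (hD : T_DTS E) (A : Angle) (hτ : dt A ∈ SG E) (a b : S E)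
    (hI : ∀ z : TS E, 3 / 4 ≤ inner ℝ z.1.1 (a : E) →
      3 / 4 ≤ inner ℝ (dtFun A.θ z.1).1 (b : E) → ‖z.1.2‖ < 2)
    (φ ψ : Equiv.Perm (S E)) (l : ℝ) (hl : 0 ≤ l) (hφ : IsDiffeo (S E) φ)
    (hψ : IsDiffeo (S E) ψ) (hφa : ∀ y : S E, inner ℝ (y : E) (a : E) < 3 / 4 → φ y = y)
    (hψb : ∀ y : S E, inner ℝ (y : E) (b : E) < 3 / 4 → ψ y = y) (p q : E)
    (f g : Equiv.Perm (TS E)) (hf : f = fl a p φ l) (hg : g = (dt A)⁻¹ * fl b q ψ l * dt A) :
    f * g * f⁻¹ * g⁻¹ ∈ CG E ∧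
    (pull φ * ((dt A)⁻¹ * pull ψ * dt A) * (pull φ)⁻¹ * ((dt A)⁻¹ * pull ψ * dt A)⁻¹) *
      (f * g * f⁻¹ * g⁻¹)⁻¹ ∈ NG E := by
  have hGS : ∀ t, (dt A)⁻¹ * fl b (sg t • q) ψ (sg t * l) * dt A ∈ SG E := fun t =>
    mul_mem (mul_mem (inv_mem hτ) (fl_symp hB hS hT b q ψ hψ l t)) hτ
  have key := hC (fun t => fl a (sg t • p) φ (sg t * l))
    (fun t => (dt A)⁻¹ * fl b (sg t • q) ψ (sg t * l) * dt A)
    {z : TS E | 3 / 4 ≤ inner ℝ z.1.1 (a : E)}
    {z : TS E | 3 / 4 ≤ inner ℝ (dtFun A.θ z.1).1 (b : E)}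
    {w : E × E | w ∈ TS E ∧ 3 / 4 ≤ inner ℝ w.1 (a : E) ∧
      3 / 4 ≤ inner ℝ (dtFun A.θ w).1 (b : E)}
    (fl_path hB hP hT a p φ hφ l)
    (fun t => (fl_symp hB hS hT a p φ hφ l t).2)
    (((IsPath.const hτ.1.inv).mul (fl_path hB hP hT b q ψ hψ l)).mul
      (IsPath.const hτ.1))
    (fun t => (hGS t).2)
    (fun t z hz => fl_supp hB hL hU a p φ hφ hφa l hl t z (not_le.1 hz))
    (fun t z hz => by
      have h1 : fl b (sg t • q) ψ (sg t * l) (dt A z) = dt A z :=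
        fl_supp hB hL hU b q ψ hψ hψb l hl t (dt A z) (not_le.1 hz)
      show (dt A)⁻¹ (fl b (sg t • q) ψ (sg t * l) (dt A z)) = z
      rw [h1, ← Equiv.Perm.mul_apply, inv_mul_cancel, Equiv.Perm.one_apply])
    (K_compact hD A a b hI) (fun w hw => hw.1)
    (fun z hz1 hz2 => ⟨z.2, hz1, hz2⟩)
  simp only [sg_zero, sg_one, one_smul, zero_smul, one_mul, zero_mul, fl_zero] at key
  rw [← hf, ← hg] at key
  refine ⟨key.1, ?_⟩
  have h2 := inv_mem key.2
  rw [mul_inv_rev, inv_inv] at h2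
  exact h2

end CMP_

theorem p_CMP (hB : T_BSP E) (hL : T_PBL E) (hP : T_PBP E) (hS : T_PBS E) (hU : T_SUP E)
    (hT : T_TRN E) (hC : T_CMM E) (hDC : T_DTC E) (hI : T_INB E) (hD : T_DTS E) :
    T_CMP E := by
  intro a b φ ψ l hl hab hφ hψ hφa hψb f g hf hg
  exact CMP_.main hB hL hP hS hU hT hC hD A0 (CG_le_SG (hDC A0)) a b (hI a b hab) φ ψ l hl
    hφ hψ hφa hψb _ _ f g hf hg

end Pool.Agent.DTW
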