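import Pool.Agent.DTW.Targets

/-!
# DTW: conjugation by a path (CPT)
-/

set_option autoImplicit false

open scoped ContDiff

noncomputable section

namespace Pool.Agent.DTW

variable (E : Type) [NormedAddCommGroup E] [InnerProductSpace ℝ E] [FiniteDimensional ℝ E]

namespace CPT_

/-- the part of `TS` with bounded covectors is compact -/
theorem compact_part (R : ℝ) : IsCompact {z : E × E | z ∈ TS E ∧ ‖z.2‖ ≤ R} := by
  refine Metric.isCompact_of_isClosed_isBounded ?_ ?_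
  · have h1 : IsClosed {z : E × E | ‖z.1‖ = 1} :=
      isClosed_eq (continuous_norm.comp continuous_fst) continuous_const
    have h2 : IsClosed {z : E × E | inner ℝ z.1 z.2 = 0} :=
      isClosed_eq (continuous_fst.inner continuous_snd) continuous_const
    have h3 : IsClosed {z : E × E | ‖z.2‖ ≤ R} :=
      isClosed_le (continuous_norm.comp continuous_snd) continuous_const
    have h4 : {z : E × E | z ∈ TS E ∧ ‖z.2‖ ≤ R} =
        ({z : E × E | ‖z.1‖ = 1} ∩ {z : E × E | inner ℝ z.1 z.2 = 0}) ∩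
          {z : E × E | ‖z.2‖ ≤ R} := by
      ext z
      constructor
      · rintro ⟨⟨a, b⟩, c⟩
        exact ⟨⟨a, b⟩, c⟩
      · rintro ⟨⟨a, b⟩, c⟩
        exact ⟨⟨a, b⟩, c⟩
    rw [h4]
    exact (h1.inter h2).inter h3
  · refine (Metric.isBounded_closedBall (x := (0 : E × E)) (r := max 1 R)).subset ?_
    rintro z ⟨⟨h1, _⟩, h2⟩
    rw [mem_closedBall_zero_iff]
    exact max_le (h1.le.trans (le_max_left _ _)) (h2.trans (le_max_right _ _))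

/-- a path moves bounded sets to bounded sets, uniformly for `t ∈ [0, 1]` -/
theorem bdd {Φ : ℝ → Equiv.Perm (TS E)} (h : IsPath (TS E) Φ) (R : ℝ) :
    ∃ R' : ℝ, ∀ s ∈ Set.Icc (0 : ℝ) 1, ∀ w : TS E, ‖w.1.2‖ ≤ R → ‖(Φ s w).1.2‖ ≤ R' := by
  have h1 : IsCompact (Set.Icc (0 : ℝ) 1 ×ˢ {z : E × E | z ∈ TS E ∧ ‖z.2‖ ≤ R}) :=
    isCompact_Icc.prod (compact_part E R)
  have h2 : ContinuousOn (fun w : ℝ × (E × E) => lift (TS E) (Φ w.1) w.2)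
      (Set.Icc (0 : ℝ) 1 ×ˢ {z : E × E | z ∈ TS E ∧ ‖z.2‖ ≤ R}) :=
    h.1.continuousOn.mono fun w hw => ⟨Set.mem_univ _, hw.2.1⟩
  have h3 := h1.image_of_continuousOn h2
  obtain ⟨R', hR'⟩ := h3.isBounded.exists_norm_le
  refine ⟨R', fun s hs w hw => ?_⟩
  have h4 := hR' _ ⟨(s, (w : E × E)), ⟨hs, w.2, hw⟩, rfl⟩
  simp only [lift_coe] at h4
  exact (norm_snd_le _).trans h4

end CPT_

theorem p_CPT : T_CPT E := by
  intro Φ hP hS g hg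
  obtain ⟨hd, hs, R, hR⟩ := hg
  have hc0 : Φ 0 * g * (Φ 0)⁻¹ ∈ SG E :=
    (SG E).mul_mem ((SG E).mul_mem ⟨hP.isDiffeo 0, hS 0⟩ ⟨hd, hs⟩)
      ((SG E).inv_mem ⟨hP.isDiffeo 0, hS 0⟩)
  have hc0' := (SG E).inv_mem hc0
  obtain ⟨R', hR'⟩ := CPT_.bdd E hP R
  have key : ∀ s ∈ Set.Icc (0 : ℝ) 1, ∀ z : TS E, R' < ‖z.1.2‖ →
      (Φ s * g * (Φ s)⁻¹) z = z := by
    intro s hs' z hz
    have h1 : R < ‖((Φ s)⁻¹ z).1.2‖ := by
      by_contra hcon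
      push Not at hcon
      have h2 := hR' s hs' _ hcon
      rw [show Φ s ((Φ s)⁻¹ z) = z from (Φ s).apply_symm_apply z] at h2
      linarith
    rw [Equiv.Perm.mul_apply, Equiv.Perm.mul_apply, hR _ h1]
    exact (Φ s).apply_symm_apply z
  refine ⟨fun t => (Φ (sg t) * g * (Φ (sg t))⁻¹) * (Φ 0 * g * (Φ 0)⁻¹)⁻¹, ?_, ?_, ?_, ?_, ?_⟩
  · exact (((hP.reparam sg_smooth).mul (IsPath.const hd)).mul
      (hP.reparam sg_smooth).inv).mul (IsPath.const hc0'.1)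
  · intro t
    have h1 : Φ (sg t) ∈ SG E := ⟨hP.isDiffeo _, hS _⟩
    exact ((SG E).mul_mem ((SG E).mul_mem ((SG E).mul_mem h1 ⟨hd, hs⟩)
      ((SG E).inv_mem h1)) hc0').2
  · refine ⟨R', fun t z hz => ?_⟩
    have h0 : (Φ 0 * g * (Φ 0)⁻¹)⁻¹ z = z := by
      rw [Equiv.Perm.inv_eq_iff_eq, key 0 ⟨le_rfl, zero_le_one⟩ z hz]
    show ((Φ (sg t) * g * (Φ (sg t))⁻¹) * (Φ 0 * g * (Φ 0)⁻¹)⁻¹) z = z
    rw [Equiv.Perm.mul_apply, h0]
    exact key _ ⟨sg_nonneg t, sg_le_one t⟩ z hz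
  · show (Φ (sg 0) * g * (Φ (sg 0))⁻¹) * (Φ 0 * g * (Φ 0)⁻¹)⁻¹ = 1
    rw [sg_zero, mul_inv_cancel]
  · show (Φ (sg 1) * g * (Φ (sg 1))⁻¹) * (Φ 0 * g * (Φ 0)⁻¹)⁻¹ = _
    rw [sg_one]

end Pool.Agent.DTW
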