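import Pool.Agent.DTW.Targets

/-!
# DTW: DSC
-/

set_option autoImplicit false

open scoped ContDiff

noncomputable section

namespace Pool.Agent.DTW

variable (E : Type) [NormedAddCommGroup E] [InnerProductSpace ℝ E] [FiniteDimensional ℝ E]

namespace DSC_

variable {E}

omit [FiniteDimensional ℝ E] in
theorem hasFDerivAt_norm {x : E} (hx : ‖x‖ = 1) :
    HasFDerivAt (fun y : E => ‖y‖) (innerSL ℝ x) x := by
  have h1 : HasFDerivAt (fun y : E => ‖y‖ ^ 2) (2 • innerSL ℝ x) x :=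
    (hasStrictFDerivAt_norm_sq x).hasFDerivAt
  have h2 := h1.sqrt (by rw [hx]; norm_num)
  have h3 : (fun y : E => √(‖y‖ ^ 2)) = fun y => ‖y‖ :=
    funext fun y => Real.sqrt_sq (norm_nonneg y)
  rw [h3] at h2
  have h4 : ((1 / (2 * √(‖x‖ ^ 2))) • 2 • innerSL ℝ x : E →L[ℝ] ℝ) = innerSL ℝ x := by
    ext v
    rw [hx]
    simp
  rw [h4] at h2
  exact h2

omit [FiniteDimensional ℝ E] in
theorem hasFDerivAt_nrm {x : E} (hx : ‖x‖ = 1) :
    HasFDerivAt (fun y : E => ‖y‖⁻¹ • y)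
      (ContinuousLinearMap.id ℝ E - (innerSL ℝ x).smulRight x) x := by
  have h1 := hasFDerivAt_norm hx
  have h2 : HasFDerivAt (fun y : E => ‖y‖⁻¹) (-(innerSL ℝ x)) x := by
    have h := (hasDerivAt_inv (x := ‖x‖) (by rw [hx]; exact one_ne_zero)).comp_hasFDerivAt x h1
    have h4 : (-(‖x‖ ^ 2)⁻¹ • innerSL ℝ x : E →L[ℝ] ℝ) = -(innerSL ℝ x) := by
      ext v
      rw [hx]
      simp
    rw [h4] at h
    exact h
  have h3 := h2.smul (hasFDerivAt_id x)
  have h4 : (‖x‖⁻¹ • ContinuousLinearMap.id ℝ E + (-(innerSL ℝ x)).smulRight (id x) :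
      E →L[ℝ] E) = ContinuousLinearMap.id ℝ E - (innerSL ℝ x).smulRight x := by
    ext v
    rw [hx]
    simp [sub_eq_add_neg]
  rw [h4] at h3
  exact h3

omit [FiniteDimensional ℝ E] in
theorem ext_diff (h_EXT : T_EXT E) {φ : Equiv.Perm (S E)} (hφ : IsDiffeo (S E) φ) {x : E}
    (hx : x ≠ 0) : DifferentiableAt ℝ (ext φ) x := by
  have h1 := h_EXT (fun _ => φ) (IsPath.const hφ)
  have h2 : ContDiffAt ℝ ∞ (fun w : ℝ × E => ext φ w.2) ((0 : ℝ), x) := by
    refine h1.contDiffAt ?_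
    have h3 : IsOpen {w : ℝ × E | w.2 ≠ 0} := isOpen_ne.preimage continuous_snd
    exact h3.mem_nhds hx
  have h3 : ContDiffAt ℝ ∞ (fun y : E => ((0 : ℝ), y)) x :=
    contDiffAt_const.prodMk contDiffAt_id
  have h4 : ContDiffAt ℝ ∞ (ext φ) x :=
    ContDiffAt.comp (g := fun w : ℝ × E => ext φ w.2) (f := fun y : E => ((0 : ℝ), y)) x h2 h3
  exact h4.differentiableAt (by simp)

omit [FiniteDimensional ℝ E] in
theorem ext_norm (φ : Equiv.Perm (S E)) {y : E} (hy : y ≠ 0) : ‖ext φ y‖ = 1 := by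
  unfold ext
  exact mem_S.1 (lift_mem φ (nrm_mem (norm_pos_iff.2 hy)))

omit [FiniteDimensional ℝ E] in
theorem ext_self (φ : Equiv.Perm (S E)) (x : S E) : ext φ x = φ x := by
  unfold ext
  rw [S_norm, inv_one, one_smul, lift_coe]

omit [FiniteDimensional ℝ E] in
theorem ext_lam (B : E ≃ₗ[ℝ] E) (φ : Equiv.Perm (S E)) {y : E} (hy : y ≠ 0) :
    ext (lam B * φ) y = ‖B (ext φ y)‖⁻¹ • B (ext φ y) := by
  have h1 : ext (lam B * φ) y = lift (S E) (lam B) (ext φ y) := by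
    unfold ext
    rw [lift_mul]
  rw [h1, lift_of_mem _ (mem_S.2 (ext_norm φ hy))]
  rfl

omit [FiniteDimensional ℝ E] in
/-- the derivative of the extension homogeneous of degree one -/
theorem fd_apply (h_EXT : T_EXT E) {φ : Equiv.Perm (S E)} (hφ : IsDiffeo (S E) φ) (x : S E)
    (v : E) : fderiv ℝ (fun y : E => ‖y‖ • ext φ y) (x : E) v =
      inner ℝ (x : E) v • (φ x : E) + fderiv ℝ (ext φ) (x : E) v := by
  have hx0 : (x : E) ≠ 0 := by
    rw [← norm_pos_iff, S_norm]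
    exact one_pos
  have h1 := (hasFDerivAt_norm (S_norm x)).smul (ext_diff h_EXT hφ hx0).hasFDerivAt
  have h2 := h1.fderiv
  have h3 : fderiv ℝ (fun y : E => ‖y‖ • ext φ y) (x : E) =
      ‖(x : E)‖ • fderiv ℝ (ext φ) (x : E) + (innerSL ℝ (x : E)).smulRight (ext φ x) := h2
  rw [h3, S_norm, ext_self, one_smul]
  simp [add_comm]

end DSC_

open DSC_ in
theorem p_DSC (h_EXT : T_EXT E) (h_GRM : T_GRM E) (h_GLP : T_GLP E) : T_DSC E := by
  rintro φ hφ ⟨x, hx⟩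
  set M : E →L[ℝ] E := fderiv ℝ (fun y : E => ‖y‖ • ext φ y) (x : E) with hM
  have hx0 : (x : E) ≠ 0 := by
    rw [← norm_pos_iff, S_norm]
    exact one_pos
  have hdet : 0 < LinearMap.det (M : E →ₗ[ℝ] E) := hx
  set B : E ≃ₗ[ℝ] E := LinearMap.equivOfDetNeZero (M : E →ₗ[ℝ] E) hdet.ne' with hB
  have hBM : ∀ v, B v = M v := fun v => rfl
  have hBc : (B : E →ₗ[ℝ] E) = (M : E →ₗ[ℝ] E) := LinearMap.ext hBM
  have hL : lam B.symm ∈ IS E := by
    refine h_GLP B.symm ?_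
    rw [LinearEquiv.det_coe_symm, hBc]
    exact inv_pos.2 hdet
  have hMx : M x = φ x := by
    rw [hM, fd_apply h_EXT hφ, fderiv_ext_self, S_inner_self, one_smul, add_zero]
  have hMξ : ∀ ξ : E, inner ℝ (x : E) ξ = 0 → M ξ = fderiv ℝ (ext φ) (x : E) ξ := by
    intro ξ hξ
    rw [hM, fd_apply h_EXT hφ, hξ, zero_smul, zero_add]
  have hBx : B.symm (φ x : E) = x := by
    rw [LinearEquiv.symm_apply_eq, hBM, hMx]
  have h1 : IsDiffeo (S E) (lam B.symm * φ) := (IsoS.isDiffeo hL).mul hφ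
  have h2 : (lam B.symm * φ) x = x := by
    refine Subtype.ext ?_
    show ‖B.symm (φ x : E)‖⁻¹ • B.symm (φ x : E) = x
    rw [hBx, S_norm, inv_one, one_smul]
  have h3 : ∀ ξ : E, inner ℝ (x : E) ξ = 0 →
      fderiv ℝ (ext (lam B.symm * φ)) (x : E) ξ = ξ := by
    intro ξ hξ
    set C : E →L[ℝ] E := LinearMap.toContinuousLinearMap (B.symm : E →ₗ[ℝ] E) with hC
    have hCB : ∀ v, C v = B.symm v := fun v => rfl
    have e1 : HasFDerivAt (fun y => C (ext φ y)) (C.comp (fderiv ℝ (ext φ) (x : E)))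
        (x : E) := C.hasFDerivAt.comp (x : E) (ext_diff h_EXT hφ hx0).hasFDerivAt
    have e2 : C (ext φ (x : E)) = x := by
      rw [ext_self, hCB, hBx]
    have e3 : HasFDerivAt (fun y : E => ‖y‖⁻¹ • y)
        (ContinuousLinearMap.id ℝ E - (innerSL ℝ (x : E)).smulRight (x : E))
        (C (ext φ (x : E))) := by
      rw [e2]
      exact hasFDerivAt_nrm (S_norm x)
    have e4 := HasFDerivAt.comp (x : E) e3 e1
    have e5 : ext (lam B.symm * φ) =ᶠ[nhds (x : E)]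
        ((fun y : E => ‖y‖⁻¹ • y) ∘ fun y => C (ext φ y)) := by
      filter_upwards [isOpen_ne.mem_nhds hx0] with y hy
      rw [ext_lam _ _ hy]
      rfl
    have e6 := (e4.congr_of_eventuallyEq e5).fderiv
    rw [e6]
    have e7 : C (fderiv ℝ (ext φ) (x : E) ξ) = ξ := by
      rw [← hMξ ξ hξ, hCB, ← hBM, LinearEquiv.symm_apply_apply]
    rw [ContinuousLinearMap.comp_apply, ContinuousLinearMap.comp_apply, e7]
    simp [hξ]
  obtain ⟨ψ, hψ, κ, hκ, h4⟩ := h_GRM (lam B.symm * φ) x h1 h2 h3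
  refine ⟨x, ψ * lam B.symm, (IS E).mul_mem hψ hL, κ, hκ, fun y hy => ?_⟩
  rw [mul_assoc]
  exact h4 y hy

end Pool.Agent.DTW
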