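import Pool.Agent.DTW.Targets

/-!
# DTW: target DTC, the Dehn twist is a compactly supported symplectomorphism
-/

set_option autoImplicit false
set_option linter.unusedSectionVars false

open scoped ContDiff

noncomputable section

namespace Pool.Agent.DTW

variable (E : Type) [NormedAddCommGroup E] [InnerProductSpace ℝ E] [FiniteDimensional ℝ E]

namespace DTC_

variable {E}

theorem smooth (h_DTS : T_DTS E) (θ : ℝ → ℝ) (hθ : ContDiff ℝ ∞ θ)
    (h0 : ∃ ε > 0, ∃ k : ℤ, ∀ r, r < ε → θ r = k * Real.pi) :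
    ContDiff ℝ ∞ fun z : E × E => dtFun θ z := by
  obtain ⟨ε, hε, k, hk⟩ := h0
  have h1 : ContDiff ℝ ∞ (fun w : ℝ × (E × E) => dtFun θ w.2) :=
    h_DTS (fun w => θ w.2) (hθ.comp contDiff_snd) ⟨ε, hε, k, fun _ r hr => hk r hr⟩
  have h2 : ContDiff ℝ ∞ (fun z : E × E => ((0 : ℝ), z)) := contDiff_const.prodMk contDiff_id
  have h3 := h1.comp h2
  have h4 : (fun w : ℝ × (E × E) => dtFun θ w.2) ∘ (fun z : E × E => ((0 : ℝ), z)) =
      fun z : E × E => dtFun θ z := funext fun z => rfl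
  rw [h4] at h3
  exact h3

theorem near (A : Angle) : ∃ ε > 0, ∃ k : ℤ, ∀ r, r < ε → A.θ r = k * Real.pi := by
  obtain ⟨ε, h1, h2 | h2⟩ := A.zero
  · exact ⟨ε, h1, 1, fun r hr => by rw [h2 r hr]; simp⟩
  · exact ⟨ε, h1, -1, fun r hr => by rw [h2 r hr]; simp⟩

theorem near' (A : Angle) : ∃ ε > 0, ∃ k : ℤ, ∀ r, r < ε → (-A.θ) r = k * Real.pi := by
  obtain ⟨ε, h1, k, h2⟩ := near A
  exact ⟨ε, h1, -k, fun r hr => by rw [Pi.neg_apply, h2 r hr]; push_cast; ring⟩

theorem lift_dt (A : Angle) {v : E × E} (hv : v ∈ TS E) : lift (TS E) (dt A) v = dtFun A.θ v := by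
  rw [lift_of_mem _ hv]
  rfl

theorem lift_dt_inv (A : Angle) {v : E × E} (hv : v ∈ TS E) :
    lift (TS E) (dt A)⁻¹ v = dtFun (-A.θ) v := by
  rw [lift_of_mem _ hv]
  rfl

theorem diffeo (h_DTS : T_DTS E) (A : Angle) : IsDiffeo (TS E) (dt A) := by
  constructor
  · exact (smooth h_DTS A.θ A.smooth (near A)).contDiffOn.congr fun v hv => lift_dt A hv
  · exact (smooth h_DTS (-A.θ) A.smooth.neg (near' A)).contDiffOn.congr
      fun v hv => lift_dt_inv A hv

theorem symp (h_DTM : T_DTM E) (A : Angle) : IsSymp (E := E) (dt A) := by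
  intro c hc hm s
  have h1 : (fun u => lift (TS E) (dt A) (c u)) = fun u => dtFun A.θ (c u) :=
    funext fun u => lift_dt A (hm u)
  rw [h1]
  exact h_DTM A.θ A.smooth (near A) c hc hm s

end DTC_

open DTC_ in
theorem p_DTC (h_DTS : T_DTS E) (h_DTM : T_DTM E) : T_DTC E := by
  intro A
  obtain ⟨R, hR⟩ := A.inf
  refine ⟨diffeo h_DTS A, symp h_DTM A, R, fun z hz => Subtype.ext ?_⟩
  show dtFun A.θ (z : E × E) = (z : E × E)
  unfold dtFun
  rw [hR _ hz.le]
  simp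

end Pool.Agent.DTW
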