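import Pool.Agent.DTW.Targets

/-!
# DTW: two angle functions of the same kind give isotopic Dehn twists
-/

set_option autoImplicit false

open scoped ContDiff

noncomputable section

namespace Pool.Agent.DTW

namespace DTI_

/-- the interpolation of two angle functions -/
def mixF (A B : Angle) (w : ℝ × ℝ) : ℝ := (1 - sg w.1) * B.θ w.2 + sg w.1 * A.θ w.2

theorem mixF_smooth (A B : Angle) : ContDiff ℝ ∞ (mixF A B) := by
  have h1 : ContDiff ℝ ∞ (fun w : ℝ × ℝ => sg w.1) := sg_smooth.comp contDiff_fst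
  have h2 : ContDiff ℝ ∞ (fun w : ℝ × ℝ => B.θ w.2) := B.smooth.comp contDiff_snd
  have h3 : ContDiff ℝ ∞ (fun w : ℝ × ℝ => A.θ w.2) := A.smooth.comp contDiff_snd
  exact ((contDiff_const.sub h1).mul h2).add (h1.mul h3)

theorem common (A B : Angle) (h : A.θ 0 = B.θ 0) : ∃ ε > 0, ∃ s : ℝ, (s = 1 ∨ s = -1) ∧
    ∀ r < ε, A.θ r = s * Real.pi ∧ B.θ r = s * Real.pi := by
  obtain ⟨ε, hε, hA⟩ := A.zero
  obtain ⟨ε', hε', hB⟩ := B.zero
  have hpi := Real.pi_pos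
  refine ⟨min ε ε', lt_min hε hε', ?_⟩
  rcases hA with hA | hA <;> rcases hB with hB | hB
  · refine ⟨1, Or.inl rfl, fun r hr => ?_⟩
    rw [hA r (lt_of_lt_of_le hr (min_le_left _ _)), hB r (lt_of_lt_of_le hr (min_le_right _ _))]
    simp
  · exfalso
    rw [hA 0 hε, hB 0 hε'] at h
    linarith
  · exfalso
    rw [hA 0 hε, hB 0 hε'] at h
    linarith
  · refine ⟨-1, Or.inr rfl, fun r hr => ?_⟩
    rw [hA r (lt_of_lt_of_le hr (min_le_left _ _)), hB r (lt_of_lt_of_le hr (min_le_right _ _))]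
    simp

theorem mixF_zero (A B : Angle) (h : A.θ 0 = B.θ 0) : ∃ ε > 0, ∃ s : ℝ, (s = 1 ∨ s = -1) ∧
    ∀ t r : ℝ, r < ε → mixF A B (t, r) = s * Real.pi := by
  obtain ⟨ε, hε, s, hs, h1⟩ := common A B h
  refine ⟨ε, hε, s, hs, fun t r hr => ?_⟩
  unfold mixF
  simp only
  rw [(h1 r hr).1, (h1 r hr).2]
  ring

theorem mixF_inf (A B : Angle) : ∃ R : ℝ, ∀ t r : ℝ, R ≤ r → mixF A B (t, r) = 0 := by
  obtain ⟨R, hR⟩ := A.inf
  obtain ⟨R', hR'⟩ := B.inf
  refine ⟨max R R', fun t r hr => ?_⟩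
  unfold mixF
  simp only
  rw [hR r (le_trans (le_max_left _ _) hr), hR' r (le_trans (le_max_right _ _) hr)]
  ring

/-- the interpolating angle functions -/
def mix (A B : Angle) (h : A.θ 0 = B.θ 0) (t : ℝ) : Angle where
  θ r := mixF A B (t, r)
  smooth := (mixF_smooth A B).comp (contDiff_const.prodMk contDiff_id)
  zero := by
    obtain ⟨ε, hε, s, hs, h1⟩ := mixF_zero A B h
    refine ⟨ε, hε, ?_⟩
    rcases hs with rfl | rfl
    · exact Or.inl fun r hr => by rw [h1 t r hr, one_mul]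
    · exact Or.inr fun r hr => by rw [h1 t r hr, neg_one_mul]
  inf := by
    obtain ⟨R, hR⟩ := mixF_inf A B
    exact ⟨R, fun r hr => hR t r hr⟩

variable {E : Type} [NormedAddCommGroup E] [InnerProductSpace ℝ E]

theorem dt_congr {A B : Angle} (h : ∀ r, A.θ r = B.θ r) :
    (dt A : Equiv.Perm (TS E)) = dt B := by
  have h1 : A.θ = B.θ := funext h
  refine Equiv.ext fun z => Subtype.ext ?_
  show dtFun A.θ z.1 = dtFun B.θ z.1
  rw [h1]

theorem dt_mix_zero (A B : Angle) (h : A.θ 0 = B.θ 0) :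
    (dt (mix A B h 0) : Equiv.Perm (TS E)) = dt B :=
  dt_congr fun r => by
    show (1 - sg 0) * B.θ r + sg 0 * A.θ r = B.θ r
    rw [sg_zero]
    ring

theorem dt_mix_one (A B : Angle) (h : A.θ 0 = B.θ 0) :
    (dt (mix A B h 1) : Equiv.Perm (TS E)) = dt A :=
  dt_congr fun r => by
    show (1 - sg 1) * B.θ r + sg 1 * A.θ r = A.θ r
    rw [sg_one]
    ring

theorem dt_fix (A : Angle) (R : ℝ) (hR : ∀ r, R ≤ r → A.θ r = 0) (z : TS E)
    (hz : R < ‖z.1.2‖) : dt A z = z := by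
  refine Subtype.ext ?_
  show dtFun A.θ z.1 = z.1
  unfold dtFun
  rw [hR _ hz.le]
  simp

theorem ucs_mix (A B : Angle) (h : A.θ 0 = B.θ 0) :
    UCS fun t => (dt (mix A B h t) : Equiv.Perm (TS E)) := by
  obtain ⟨R, hR⟩ := mixF_inf A B
  exact ⟨R, fun t z hz => dt_fix (mix A B h t) R (fun r hr => hR t r hr) z hz⟩

theorem path_mix [FiniteDimensional ℝ E] (h_DTS : T_DTS E) (A B : Angle) (h : A.θ 0 = B.θ 0) :
    IsPath (TS E) fun t => (dt (mix A B h t) : Equiv.Perm (TS E)) := by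
  obtain ⟨ε, hε, s, hs, h1⟩ := mixF_zero A B h
  constructor
  · have h2 := h_DTS (mixF A B) (mixF_smooth A B) (by
      refine ⟨ε, hε, ?_⟩
      rcases hs with rfl | rfl
      · exact ⟨1, fun t r hr => by rw [h1 t r hr]; simp⟩
      · exact ⟨-1, fun t r hr => by rw [h1 t r hr]; simp⟩)
    refine h2.contDiffOn.congr fun w hw => ?_
    rw [lift_of_mem _ hw.2]
    rfl
  · have h2 := h_DTS (fun w => -mixF A B w) (mixF_smooth A B).neg (by
      refine ⟨ε, hε, ?_⟩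
      rcases hs with rfl | rfl
      · exact ⟨-1, fun t r hr => by rw [h1 t r hr]; simp⟩
      · exact ⟨1, fun t r hr => by rw [h1 t r hr]; simp⟩)
    refine h2.contDiffOn.congr fun w hw => ?_
    rw [lift_of_mem _ hw.2]
    rfl

end DTI_

variable (E : Type) [NormedAddCommGroup E] [InnerProductSpace ℝ E] [FiniteDimensional ℝ E]

theorem p_DTI (h_DTS : T_DTS E) (h_DTC : T_DTC E) : T_DTI E := by
  intro A B h
  have hB : (dt B : Equiv.Perm (TS E)) ∈ CG E := h_DTC B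
  have hBi : (dt B : Equiv.Perm (TS E))⁻¹ ∈ CG E := (CG E).inv_mem hB
  rw [mem_NG]
  refine ⟨fun t => dt (DTI_.mix A B h t) * (dt B)⁻¹,
    (DTI_.path_mix h_DTS A B h).mul (IsPath.const hBi.1), fun t => ?_, ?_, ?_, ?_⟩
  · have h1 : (dt (DTI_.mix A B h t) : Equiv.Perm (TS E)) ∈ CG E := h_DTC _
    exact IsSymp.mul hBi.1 h1.2.1 hBi.2.1
  · obtain ⟨R, hR⟩ := hBi.2.2
    exact (DTI_.ucs_mix A B h).mul ⟨R, fun _ z hz => hR z hz⟩
  · show dt (DTI_.mix A B h 0) * (dt B)⁻¹ = 1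
    rw [DTI_.dt_mix_zero, mul_inv_cancel]
  · show dt (DTI_.mix A B h 1) * (dt B)⁻¹ = dt A * (dt B)⁻¹
    rw [DTI_.dt_mix_one]

end Pool.Agent.DTW
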