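import Pool.Agent.DTW.Targets

/-!
# DTW: target DTM (the geodesic flow with time depending on `‖p‖` is symplectic)
-/

set_option autoImplicit false

open scoped ContDiff

noncomputable section

namespace Pool.Agent.DTW

variable (E : Type) [NormedAddCommGroup E] [InnerProductSpace ℝ E] [FiniteDimensional ℝ E]

namespace DTM_

variable {E}

omit [FiniteDimensional ℝ E] in
lemma om_calc (x p X1 X2 P1 P2 : E) (a b g a' b' g' r r1 r2 : ℝ)
    (hxx : inner ℝ x x = 1) (hxp : inner ℝ x p = 0) (hpp : inner ℝ p p = r ^ 2)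
    (hX1 : inner ℝ x X1 = 0) (hX2 : inner ℝ x X2 = 0)
    (hP1 : inner ℝ x P1 = -inner ℝ p X1) (hP2 : inner ℝ x P2 = -inner ℝ p X2)
    (hr1 : inner ℝ p P1 = r * r1) (hr2 : inner ℝ p P2 = r * r2)
    (h1 : a ^ 2 + b * g = 1) (h2 : 2 * a * a' + b * g' + b' * g = 0) :
    om (E := E) ((a • X1 + (a' * r1) • x) + (b • P1 + (b' * r1) • p),
      (a • P1 + (a' * r1) • p) - (g • X1 + (g' * r1) • x))
      ((a • X2 + (a' * r2) • x) + (b • P2 + (b' * r2) • p),
      (a • P2 + (a' * r2) • p) - (g • X2 + (g' * r2) • x)) = om (X1, P1) (X2, P2) := by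
  have c1 : inner ℝ p x = 0 := by rw [real_inner_comm]; exact hxp
  have c2 : inner ℝ X1 x = 0 := by rw [real_inner_comm]; exact hX1
  have c3 : inner ℝ X2 x = 0 := by rw [real_inner_comm]; exact hX2
  have c4 : inner ℝ P1 x = -inner ℝ p X1 := by rw [real_inner_comm]; exact hP1
  have c5 : inner ℝ P2 x = -inner ℝ p X2 := by rw [real_inner_comm]; exact hP2
  have c6 : inner ℝ P1 p = r * r1 := by rw [real_inner_comm]; exact hr1
  have c7 : inner ℝ P2 p = r * r2 := by rw [real_inner_comm]; exact hr2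
  have c8 : inner ℝ X1 p = inner ℝ p X1 := real_inner_comm _ _
  have c9 : inner ℝ X2 p = inner ℝ p X2 := real_inner_comm _ _
  have c10 : inner ℝ X2 X1 = inner ℝ X1 X2 := real_inner_comm _ _
  have c11 : inner ℝ P2 P1 = inner ℝ P1 P2 := real_inner_comm _ _
  have c12 : inner ℝ X1 P2 = inner ℝ P2 X1 := real_inner_comm _ _
  have c13 : inner ℝ X2 P1 = inner ℝ P1 X2 := real_inner_comm _ _
  unfold om
  simp only [inner_add_left, inner_sub_left, inner_add_right, inner_smul_left,
    inner_smul_right, conj_trivial, hxx, hxp, hpp, hX1, hX2, hP1, hP2, hr1, hr2, c1, c2, c3, c4,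
    c5, c6, c7, c8, c9, c10, c11, c12, c13]
  linear_combination (inner ℝ P1 X2 - inner ℝ P2 X1) * h1 +
    (r1 * inner ℝ p X2 - r2 * inner ℝ p X1) * h2

end DTM_

omit [FiniteDimensional ℝ E] in
open DTM_ in
theorem p_DTM : T_DTM E := by
  rintro θ hθ ⟨ε, hε, k, hk⟩ c hc hm s
  have hcd : ∀ u, HasFDerivAt c (fderiv ℝ c u) u := fun u =>
    (hc.differentiable (by simp) u).hasFDerivAt
  by_cases hs : ‖(c s).2‖ < ε
  · -- the angle is constant near the point
    have hsin : Real.sin (k * Real.pi) = 0 := Real.sin_int_mul_pi k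
    have hcos : Real.cos (k * Real.pi) ^ 2 = 1 := by
      have := Real.sin_sq_add_cos_sq (k * Real.pi)
      rw [hsin] at this
      linarith
    have hev : (fun u => dtFun θ (c u)) =ᶠ[nhds s] fun u => Real.cos (k * Real.pi) • c u := by
      have hcont : Continuous fun u => ‖(c u).2‖ := (continuous_snd.comp hc.continuous).norm
      filter_upwards [hcont.continuousAt.eventually (gt_mem_nhds hs)] with u hu
      unfold dtFun
      rw [hk _ hu, hsin, zero_div, zero_smul, mul_zero, zero_smul, add_zero, sub_zero]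
      rfl
    have hd : HasFDerivAt (fun u => Real.cos (k * Real.pi) • c u)
        (Real.cos (k * Real.pi) • fderiv ℝ c s) s := (hcd s).const_smul (Real.cos (k * Real.pi))
    rw [hev.fderiv_eq, hd.fderiv]
    unfold om
    simp only [smul_apply, Prod.smul_fst, Prod.smul_snd, inner_smul_left,
      inner_smul_right, conj_trivial]
    linear_combination (inner ℝ (fderiv ℝ c s (1, 0)).2 (fderiv ℝ c s (0, 1)).1 -
      inner ℝ (fderiv ℝ c s (0, 1)).2 (fderiv ℝ c s (1, 0)).1) * hcos
  · have hp : 0 < ‖(c s).2‖ := hε.trans_le (not_lt.1 hs)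
    have hp0 : (c s).2 ≠ 0 := norm_pos_iff.1 hp
    set r := ‖(c s).2‖ with hr
    -- the functions of the norm
    have hθd : HasDerivAt θ (deriv θ r) r := (hθ.differentiable (by simp) r).hasDerivAt
    have ha : HasDerivAt (fun t => Real.cos (θ t)) (-Real.sin (θ r) * deriv θ r) r := hθd.cos
    have hsn : HasDerivAt (fun t => Real.sin (θ t)) (Real.cos (θ r) * deriv θ r) r := hθd.sin
    have hb : HasDerivAt (fun t => Real.sin (θ t) / t)
        ((Real.cos (θ r) * deriv θ r * r - Real.sin (θ r) * 1) / r ^ 2) r :=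
      hsn.div (hasDerivAt_id r) hp.ne'
    have hg : HasDerivAt (fun t => t * Real.sin (θ t))
        (1 * Real.sin (θ r) + r * (Real.cos (θ r) * deriv θ r)) r :=
      (hasDerivAt_id r).mul hsn
    -- derivatives of the components
    have hx : HasFDerivAt (fun u => (c u).1)
        ((ContinuousLinearMap.fst ℝ E E).comp (fderiv ℝ c s)) s :=
      (ContinuousLinearMap.fst ℝ E E).hasFDerivAt.comp s (hcd s)
    have hq : HasFDerivAt (fun u => (c u).2)
        ((ContinuousLinearMap.snd ℝ E E).comp (fderiv ℝ c s)) s :=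
      (ContinuousLinearMap.snd ℝ E E).hasFDerivAt.comp s (hcd s)
    have hρd : DifferentiableAt ℝ (fun u => ‖(c u).2‖) s := hq.differentiableAt.norm ℝ hp0
    have hρ := hρd.hasFDerivAt
    set ρ' := fderiv ℝ (fun u => ‖(c u).2‖) s with hρ'
    have ha2 : HasFDerivAt (fun u => Real.cos (θ ‖(c u).2‖))
        ((-Real.sin (θ r) * deriv θ r) • ρ') s :=
      HasDerivAt.comp_hasFDerivAt (h₂ := fun t => Real.cos (θ t)) s ha hρ
    have hb2 : HasFDerivAt (fun u => Real.sin (θ ‖(c u).2‖) / ‖(c u).2‖)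
        (((Real.cos (θ r) * deriv θ r * r - Real.sin (θ r) * 1) / r ^ 2) • ρ') s :=
      HasDerivAt.comp_hasFDerivAt (h₂ := fun t => Real.sin (θ t) / t) s hb hρ
    have hg2 : HasFDerivAt (fun u => ‖(c u).2‖ * Real.sin (θ ‖(c u).2‖))
        ((1 * Real.sin (θ r) + r * (Real.cos (θ r) * deriv θ r)) • ρ') s :=
      HasDerivAt.comp_hasFDerivAt (h₂ := fun t => t * Real.sin (θ t)) s hg hρ
    have hF := ((ha2.smul hx).add (hb2.smul hq)).prodMk ((ha2.smul hq).sub (hg2.smul hx))
    have hF' : HasFDerivAt (fun u => dtFun θ (c u)) _ s := hF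
    rw [hF'.fderiv]
    -- the relations
    have e1 : ∀ v, inner ℝ (c s).1 (fderiv ℝ c s v).1 = 0 := by
      intro v
      have h1 := hx.inner ℝ hx
      have h2 : (fun u => inner ℝ (c u).1 (c u).1) = fun _ => (1 : ℝ) := by
        funext u
        rw [real_inner_self_eq_norm_sq, (hm u).1, one_pow]
      rw [h2] at h1
      have h3 := congrArg (fun L => L v) (h1.unique (hasFDerivAt_const (1 : ℝ) s))
      simp only [ContinuousLinearMap.comp_apply, ContinuousLinearMap.prod_apply,
        fderivInnerCLM_apply, ContinuousLinearMap.coe_fst', zero_apply] at h3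
      rw [real_inner_comm (c s).1 (fderiv ℝ c s v).1] at h3
      have h4 : 2 * inner ℝ (c s).1 (fderiv ℝ c s v).1 = 0 := by
        rw [real_inner_comm] at h3
        linarith [real_inner_comm (c s).1 (fderiv ℝ c s v).1]
      linarith
    have e2 : ∀ v, inner ℝ (c s).1 (fderiv ℝ c s v).2 = -inner ℝ (c s).2 (fderiv ℝ c s v).1 := by
      intro v
      have h1 := hx.inner ℝ hq
      have h2 : (fun u => inner ℝ (c u).1 (c u).2) = fun _ => (0 : ℝ) := by
        funext u
        exact (hm u).2
      rw [h2] at h1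
      have h3 := congrArg (fun L => L v) (h1.unique (hasFDerivAt_const (0 : ℝ) s))
      simp only [ContinuousLinearMap.comp_apply, ContinuousLinearMap.prod_apply,
        fderivInnerCLM_apply, ContinuousLinearMap.coe_fst', ContinuousLinearMap.coe_snd',
        zero_apply] at h3
      rw [real_inner_comm (c s).2 (fderiv ℝ c s v).1] at h3
      linarith
    have e3 : ∀ v, inner ℝ (c s).2 (fderiv ℝ c s v).2 = r * ρ' v := by
      intro v
      have h1 := hq.inner ℝ hq
      have h2 : (fun u => inner ℝ (c u).2 (c u).2) = fun u => ‖(c u).2‖ * ‖(c u).2‖ := by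
        funext u
        rw [real_inner_self_eq_norm_mul_norm]
      rw [h2] at h1
      have h3 := congrArg (fun L => L v) (h1.unique (hρ.mul hρ))
      simp only [ContinuousLinearMap.comp_apply, ContinuousLinearMap.prod_apply,
        fderivInnerCLM_apply, ContinuousLinearMap.coe_snd', add_apply,
        smul_apply, smul_eq_mul] at h3
      have h4 := real_inner_comm (c s).2 (fderiv ℝ c s v).2
      linarith
    have hpp : inner ℝ (c s).2 (c s).2 = r ^ 2 := real_inner_self_eq_norm_sq _
    have hxx : inner ℝ (c s).1 (c s).1 = 1 := by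
      rw [real_inner_self_eq_norm_sq, (hm s).1, one_pow]
    have hsc := Real.sin_sq_add_cos_sq (θ r)
    have h1 : Real.cos (θ r) ^ 2 + Real.sin (θ r) / r * (r * Real.sin (θ r)) = 1 := by
      field_simp
      linarith
    have h2 : 2 * Real.cos (θ r) * (-Real.sin (θ r) * deriv θ r) +
        Real.sin (θ r) / r * (1 * Real.sin (θ r) + r * (Real.cos (θ r) * deriv θ r)) +
        (Real.cos (θ r) * deriv θ r * r - Real.sin (θ r) * 1) / r ^ 2 *
          (r * Real.sin (θ r)) = 0 := by
      field_simp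
      ring
    exact om_calc (c s).1 (c s).2 (fderiv ℝ c s (1, 0)).1 (fderiv ℝ c s (0, 1)).1
      (fderiv ℝ c s (1, 0)).2 (fderiv ℝ c s (0, 1)).2 (Real.cos (θ r)) (Real.sin (θ r) / r)
      (r * Real.sin (θ r)) (-Real.sin (θ r) * deriv θ r)
      ((Real.cos (θ r) * deriv θ r * r - Real.sin (θ r) * 1) / r ^ 2)
      (1 * Real.sin (θ r) + r * (Real.cos (θ r) * deriv θ r)) r (ρ' (1, 0)) (ρ' (0, 1))
      hxx (hm s).2 hpp (e1 _) (e1 _) (e2 _) (e2 _) (e3 _) (e3 _) h1 h2

end Pool.Agent.DTW
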