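import Pool.Agent.DTW.Targets

/-!
# DTW, target DTS: smoothness of the geodesic flow with variable time
-/

set_option autoImplicit false

open scoped ContDiff

noncomputable section

namespace Pool.Agent.DTW

variable (E : Type) [NormedAddCommGroup E] [InnerProductSpace ℝ E] [FiniteDimensional ℝ E]

theorem p_DTS : T_DTS E := by
  intro Θ hΘ hk
  obtain ⟨ε, hε, k, hk⟩ := hk
  rw [contDiff_iff_contDiffAt]
  intro w
  by_cases hw : w.2.2 = 0
  · -- near the zero section
    have h1 : ContDiff ℝ ∞ fun w : ℝ × (E × E) =>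
        (Real.cos (k * Real.pi) • w.2.1, Real.cos (k * Real.pi) • w.2.2) := by
      have h2 : ContDiff ℝ ∞ fun w : ℝ × (E × E) => w.2.1 := contDiff_fst.comp contDiff_snd
      have h3 : ContDiff ℝ ∞ fun w : ℝ × (E × E) => w.2.2 := contDiff_snd.comp contDiff_snd
      exact (h2.const_smul _).prodMk (h3.const_smul _)
    refine h1.contDiffAt.congr_of_eventuallyEq ?_
    have h4 : Continuous fun w : ℝ × (E × E) => ‖w.2.2‖ :=
      (continuous_snd.comp continuous_snd).norm
    have h5 : ∀ᶠ v in nhds w, ‖v.2.2‖ < ε := by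
      apply h4.continuousAt.eventually_lt continuousAt_const
      rw [hw, norm_zero]
      exact hε
    filter_upwards [h5] with v hv
    unfold dtFun
    simp only [hk v.1 ‖v.2.2‖ hv, Real.sin_int_mul_pi, zero_div, zero_smul, mul_zero, add_zero,
      sub_zero]
  · -- away from the zero section
    have hx : ContDiffAt ℝ ∞ (fun w : ℝ × (E × E) => w.2.1) w :=
      (contDiff_fst.comp contDiff_snd).contDiffAt
    have hp : ContDiffAt ℝ ∞ (fun w : ℝ × (E × E) => w.2.2) w :=
      (contDiff_snd.comp contDiff_snd).contDiffAt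
    have hn : ContDiffAt ℝ ∞ (fun w : ℝ × (E × E) => ‖w.2.2‖) w := hp.norm ℝ hw
    have hT : ContDiffAt ℝ ∞ (fun w : ℝ × (E × E) => Θ (w.1, ‖w.2.2‖)) w :=
      hΘ.contDiffAt.comp w (contDiffAt_fst.prodMk hn)
    have hc : ContDiffAt ℝ ∞ (fun w : ℝ × (E × E) => Real.cos (Θ (w.1, ‖w.2.2‖))) w :=
      Real.contDiff_cos.contDiffAt.comp w hT
    have hs : ContDiffAt ℝ ∞ (fun w : ℝ × (E × E) => Real.sin (Θ (w.1, ‖w.2.2‖))) w :=
      Real.contDiff_sin.contDiffAt.comp w hT
    have hne : ‖w.2.2‖ ≠ 0 := norm_ne_zero_iff.2 hw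
    exact ((hc.smul hx).add ((hs.div hn hne).smul hp)).prodMk
      ((hc.smul hp).sub ((hn.mul hs).smul hx))

end Pool.Agent.DTW
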