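import Pool.Agent.DTW.Targets

/-! # DTW-EXT: the radial extensions of a path are jointly smooth -/

set_option autoImplicit false

open scoped ContDiff

noncomputable section

namespace Pool.Agent.DTW

variable (E : Type) [NormedAddCommGroup E] [InnerProductSpace ℝ E] [FiniteDimensional ℝ E]

theorem p_EXT : T_EXT E := by
  intro φ hφ
  have h1 : ContDiffOn ℝ ∞ (fun w : ℝ × E => (w.1, ‖w.2‖⁻¹ • w.2)) {w | w.2 ≠ 0} := by
    refine contDiffOn_fst.prodMk ?_
    have h2 : ContDiffOn ℝ ∞ (fun w : ℝ × E => ‖w.2‖) {w | w.2 ≠ 0} := by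
      intro w hw
      exact (contDiff_snd.contDiffAt.norm ℝ hw).contDiffWithinAt
    exact (h2.inv fun w hw => norm_ne_zero_iff.2 hw).smul contDiffOn_snd
  have h3 := hφ.1.comp h1 (fun w hw => ⟨Set.mem_univ _, nrm_mem (norm_pos_iff.2 hw)⟩)
  exact h3

end Pool.Agent.DTW
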