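import Pool.Agent.DTW.P_MAI

/-!
# DTW: the theorem for all angle functions and up to rotations (FIN)
-/

set_option autoImplicit false

open scoped ContDiff

noncomputable section

namespace Pool.Agent.DTW

variable (E : Type) [NormedAddCommGroup E] [InnerProductSpace ℝ E] [FiniteDimensional ℝ E]

namespace FIN_

/-- the commutators of congruent elements are congruent -/
theorem comm_congr {G : Type} [Group G] {S₀ N : Subgroup G}
    (hSN : ∀ s ∈ S₀, ∀ g ∈ N, s * g * s⁻¹ ∈ N) {t u P : G} (ht : t ∈ S₀) (hu : u ∈ S₀)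
    (hP : P ∈ S₀) (htu : t * u⁻¹ ∈ N) :
    (t⁻¹ * (P * t * P⁻¹)) * (u⁻¹ * (P * u * P⁻¹))⁻¹ ∈ N := by
  have h1 : (t⁻¹ * (P * t * P⁻¹)) * (u⁻¹ * (P * u * P⁻¹))⁻¹ =
      (t⁻¹ * (P * (t * u⁻¹) * P⁻¹) * (t⁻¹)⁻¹) * (u⁻¹ * (t * u⁻¹) * (u⁻¹)⁻¹)⁻¹ := by
    group
  rw [h1]
  exact N.mul_mem (hSN _ (S₀.inv_mem ht) _ (hSN _ hP _ htu))
    (N.inv_mem (hSN _ (S₀.inv_mem hu) _ htu))

/-- the opposite angle function -/
def neg (A : Angle) : Angle where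
  θ r := -A.θ r
  smooth := A.smooth.neg
  zero := by
    obtain ⟨ε, h1, h2 | h2⟩ := A.zero
    · exact ⟨ε, h1, Or.inr fun r hr => by rw [h2 r hr]⟩
    · exact ⟨ε, h1, Or.inl fun r hr => by rw [h2 r hr, neg_neg]⟩
  inf := by
    obtain ⟨R, h⟩ := A.inf
    exact ⟨R, fun r hr => by rw [h r hr, neg_zero]⟩

omit [FiniteDimensional ℝ E] in
theorem dt_neg (A : Angle) : (dt (neg A) : Equiv.Perm (TS E)) = (dt A)⁻¹ :=
  Equiv.ext fun _ => rfl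

end FIN_

open MAI_ FIN_ in
theorem p_FIN (h_PB1 : T_PB1 E) (h_PBS : T_PBS E) (h_PBR : T_PBR E) (h_DTC : T_DTC E)
    (h_DTI : T_DTI E) (h_NRM : T_NRM E) (h_MAI : T_MAI E) : T_FIN E := by
  intro hdim A φ ρ m hφ hor hm
  have hSN : ∀ s ∈ SG E, ∀ g ∈ NG E, s * g * s⁻¹ ∈ NG E := fun s hs => (h_NRM s hs).2
  have hSC : ∀ s ∈ SG E, ∀ g ∈ CG E, s * g * s⁻¹ ∈ CG E := fun s hs => (h_NRM s hs).1
  have hρ : IsDiffeo (S E) (rot ρ) := (h_PBR ρ A0).1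
  have hρφ : IsDiffeo (S E) (rot ρ * φ) := hρ.mul hφ
  have hP : pull φ ∈ SG E := h_PBS φ hφ
  -- the special case
  have h1 : ((dt A0)⁻¹ * (pull φ * dt A0 * (pull φ)⁻¹)) ^ (2 * m) ∈ NG E := by
    have h2 := h_MAI hdim (rot ρ * φ) m hρφ hor hm
    have h3 : pull (rot ρ * φ) * dt A0 * (pull (rot ρ * φ))⁻¹ =
        pull φ * dt A0 * (pull φ)⁻¹ := by
      rw [h_PB1.2.1 _ _ hρ hφ, mul_inv_rev]
      have h4 := (h_PBR ρ A0).2
      calc pull φ * pull (rot ρ) * dt A0 * ((pull (rot ρ))⁻¹ * (pull φ)⁻¹) =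
          pull φ * (pull (rot ρ) * dt A0) * (pull (rot ρ))⁻¹ * (pull φ)⁻¹ := by group
        _ = pull φ * (dt A0 * pull (rot ρ)) * (pull (rot ρ))⁻¹ * (pull φ)⁻¹ := by rw [h4]
        _ = pull φ * dt A0 * (pull φ)⁻¹ := by group
    rw [h3] at h2
    exact h2
  -- positive twists
  have pos : ∀ B : Angle, B.θ 0 = Real.pi →
      ((dt B)⁻¹ * (pull φ * dt B * (pull φ)⁻¹)) ^ (2 * m) ∈ NG E := by
    intro B hB
    have e0 : A0.θ 0 = Real.pi := by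
      show Real.pi * (1 - sg (0 - 1)) = Real.pi
      have : sg (0 - 1) = 0 := Real.smoothTransition.zero_of_nonpos (by norm_num)
      rw [this, sub_zero, mul_one]
    have h2 : (dt B : Equiv.Perm (TS E)) * (dt A0)⁻¹ ∈ NG E := h_DTI B A0 (hB.trans e0.symm)
    have h3 := comm_congr hSN (CG_le_SG (h_DTC B)) (CG_le_SG (h_DTC A0)) hP h2
    have hu : (dt B)⁻¹ * (pull φ * dt B * (pull φ)⁻¹) ∈ SG E :=
      (SG E).mul_mem ((SG E).inv_mem (CG_le_SG (h_DTC B)))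
        (CG_le_SG (hSC _ hP _ (h_DTC B)))
    have h4 := (NG E).mul_mem (pow_congr hSN hu h3 (2 * m)) h1
    rwa [inv_mul_cancel_right] at h4
  have hinv : pull φ⁻¹ = (pull φ)⁻¹ := (h_PB1.1 φ hφ).2
  rw [hinv]
  show _ ∈ NG E
  obtain ⟨ε, hε, h | h⟩ := A.zero
  · exact pos A (h 0 hε)
  · have h2 := pos (neg A) (by
      show -A.θ 0 = Real.pi
      rw [h 0 hε, neg_neg])
    rw [dt_neg, inv_inv] at h2
    have h3 := hSN (dt A)⁻¹ ((SG E).inv_mem (CG_le_SG (h_DTC A))) _ ((NG E).inv_mem h2)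
    have h4 : (dt A)⁻¹ * ((dt A * (pull φ * (dt A)⁻¹ * (pull φ)⁻¹)) ^ (2 * m))⁻¹ * ((dt A)⁻¹)⁻¹ =
        ((dt A)⁻¹ * (pull φ * dt A * (pull φ)⁻¹)) ^ (2 * m) := by
      rw [← inv_pow, ← conj_pow]
      congr 1
      group
    rw [h4] at h3
    exact h3

end Pool.Agent.DTW
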