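import Pool.Agent.DTW.Targets

/-!
# DTW-FLN: the lifts of the conjugates near `(a, p)`
-/

set_option autoImplicit false

open scoped ContDiff

noncomputable section

namespace Pool.Agent.DTW

variable (E : Type) [NormedAddCommGroup E] [InnerProductSpace ℝ E] [FiniteDimensional ℝ E]

namespace FLN_

omit [FiniteDimensional ℝ E] in
theorem dist_a (a x : S E) (s : ℝ) (hs : 0 < s) (h : 1 - s ^ 2 / 2 ≤ inner ℝ (x : E) (a : E)) :
    ‖(x : E) - (a : E)‖ ≤ s := by
  have h1 : ‖(x : E) - (a : E)‖ ^ 2 ≤ s ^ 2 := by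
    rw [@norm_sub_sq_real, S_norm, S_norm]
    linarith
  exact (sq_le_sq₀ (norm_nonneg _) hs.le).1 h1

end FLN_

open FLN_ in
theorem p_FLN (h_PB1 : T_PB1 E) (h_UNB : T_UNB E) (h_BSP : T_BSP E) : T_FLN E := by
  intro a p φ hφ hap hsupp V hV
  obtain ⟨M, hM0, hM⟩ := h_UNB a φ hφ hsupp
  obtain ⟨δ, hδ, hball⟩ := Metric.mem_nhds_iff.1 hV
  set K : ℝ := 1 + M + M * ‖p‖ + ‖p‖ with hK
  have hp0 : 0 ≤ ‖p‖ := norm_nonneg p
  have hK1 : 1 ≤ K := by
    have := mul_nonneg hM0 hp0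
    linarith
  set s : ℝ := δ / (2 * K) with hs
  have hs0 : 0 < s := by positivity
  have hsK : s * K = δ / 2 := by
    rw [hs]
    field_simp
  refine ⟨Metric.ball (((a : E), p) : E × E) s, Metric.ball_mem_nhds _ hs0, s ^ 2 / 2,
    by positivity, ?_⟩
  intro l z hl hfix hzW hza
  have hbst : IsDiffeo (S E) (bst a l) := (h_BSP a (fun _ => l) contDiff_const).isDiffeo 0
  set ψ : Equiv.Perm (S E) := bst a l * φ * (bst a l)⁻¹ with hψ
  have hψd : IsDiffeo (S E) ψ := (hbst.mul hφ).mul hbst.inv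
  set z1 : TS E := (trn p)⁻¹ z with hz1
  set z2 : TS E := pull ψ z1 with hz2
  have e0 : fl a p φ l z = trn p z2 := rfl
  -- first components
  have hz1S : z.1.1 ∈ S E := mem_S.2 z.2.1
  set x0 : S E := ⟨z.1.1, hz1S⟩ with hx0
  set x2 : S E := ψ⁻¹ x0 with hx2
  have e1 : z2.1.1 = (x2 : E) := by
    rw [hz2, (h_PB1.1 ψ hψd).1 z1]
    rfl
  have hx2a : 1 - s ^ 2 / 2 ≤ inner ℝ (x2 : E) (a : E) := by
    by_contra h
    push Not at h
    have h1 := hfix x2 h
    have h2 : ψ x2 = x0 := ψ.apply_symm_apply x0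
    rw [h2] at h1
    rw [← h1] at h
    exact absurd hza (not_le.2 h)
  have hd2 := dist_a E a x2 s hs0 hx2a
  have hd0 : ‖z.1.1 - (a : E)‖ ≤ s := dist_a E a x0 s hs0 hza
  -- second components
  have hq : ‖z.1.2 - p‖ < s := by
    have h1 : dist z.1 (((a : E), p) : E × E) < s := hzW
    rw [Prod.dist_eq] at h1
    have h2 := lt_of_le_of_lt (le_max_right _ _) h1
    rwa [dist_eq_norm] at h2
  have hpa : inner ℝ p (a : E) = 0 := by
    rw [real_inner_comm]
    exact hap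
  have hpx : ∀ x : S E, ‖(x : E) - (a : E)‖ ≤ s → |inner ℝ p (x : E)| ≤ ‖p‖ * s := by
    intro x hx
    have h1 : inner ℝ p (x : E) = inner ℝ p ((x : E) - (a : E)) := by
      rw [inner_sub_right, hpa, sub_zero]
    rw [h1]
    exact (abs_real_inner_le_norm _ _).trans (mul_le_mul_of_nonneg_left hx hp0)
  have e2 : z1.1.2 = (z.1.2 - p) + inner ℝ p z.1.1 • z.1.1 := by
    show z.1.2 + -p - inner ℝ (-p) z.1.1 • z.1.1 = _
    rw [inner_neg_left, neg_smul]
    abel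
  have h3 : ‖z1.1.2‖ ≤ s + ‖p‖ * s := by
    rw [e2]
    refine (norm_add_le _ _).trans ?_
    have h4 := hpx x0 hd0
    rw [norm_smul, Real.norm_eq_abs, z.2.1, mul_one]
    exact add_le_add hq.le h4
  have h5 : ‖z2.1.2‖ ≤ M * (s + ‖p‖ * s) :=
    (hM l z1 hl).trans (mul_le_mul_of_nonneg_left h3 hM0)
  apply hball
  rw [e0, Metric.mem_ball, Prod.dist_eq]
  refine max_lt ?_ ?_
  · show dist z2.1.1 (a : E) < δ
    rw [e1, dist_eq_norm]
    refine lt_of_le_of_lt hd2 ?_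
    nlinarith
  · show dist (z2.1.2 + p - inner ℝ p z2.1.1 • z2.1.1) p < δ
    rw [dist_eq_norm, e1]
    have e3 : z2.1.2 + p - inner ℝ p (x2 : E) • (x2 : E) - p =
        z2.1.2 - inner ℝ p (x2 : E) • (x2 : E) := by abel
    rw [e3]
    refine lt_of_le_of_lt (norm_sub_le _ _) ?_
    rw [norm_smul, Real.norm_eq_abs, S_norm, mul_one]
    have h6 := hpx x2 hd2
    have h7 : M * (s + ‖p‖ * s) + ‖p‖ * s ≤ s * K := by
      rw [hK]
      nlinarith
    linarith

end Pool.Agent.DTW
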