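import Pool.Agent.DTW.Targets

/-!
# DTW: diagonal maps (GLD)
-/

set_option autoImplicit false

open scoped ContDiff

noncomputable section

namespace Pool.Agent.DTW

variable (E : Type) [NormedAddCommGroup E] [InnerProductSpace ℝ E] [FiniteDimensional ℝ E]

namespace GLD_

variable {E} {n : ℕ}

/-- the diagonal map -/
def dgf (b : OrthonormalBasis (Fin n) ℝ E) (d : Fin n → ℝ) (x : E) : E :=
  ∑ i, (d i * inner ℝ (b i) x) • b i

omit [FiniteDimensional ℝ E] in
theorem inner_dgf (b : OrthonormalBasis (Fin n) ℝ E) (d : Fin n → ℝ) (x : E) (j : Fin n) :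
    inner ℝ (b j) (dgf b d x) = d j * inner ℝ (b j) x := by
  unfold dgf
  rw [inner_sum, Finset.sum_eq_single j]
  · rw [inner_smul_right, b.inner_eq_one, mul_one]
  · intro i _ hij
    rw [inner_smul_right, b.inner_eq_zero (Ne.symm hij), mul_zero]
  · intro h
    exact absurd (Finset.mem_univ j) h

omit [FiniteDimensional ℝ E] in
theorem dgf_dgf (b : OrthonormalBasis (Fin n) ℝ E) (d e : Fin n → ℝ) (x : E) :
    dgf b d (dgf b e x) = dgf b (fun i => d i * e i) x := by
  show ∑ i, (d i * inner ℝ (b i) (dgf b e x)) • b i = ∑ i, (d i * e i * inner ℝ (b i) x) • b i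
  refine Finset.sum_congr rfl fun i _ => ?_
  rw [inner_dgf, mul_assoc]

omit [FiniteDimensional ℝ E] in
theorem dgf_one (b : OrthonormalBasis (Fin n) ℝ E) (x : E) : dgf b (fun _ => 1) x = x := by
  unfold dgf
  simp only [one_mul]
  exact b.sum_repr' x

omit [FiniteDimensional ℝ E] in
theorem dgf_basis (b : OrthonormalBasis (Fin n) ℝ E) (d : Fin n → ℝ) (j : Fin n) :
    dgf b d (b j) = d j • b j := by
  unfold dgf
  rw [Finset.sum_eq_single j]
  · rw [b.inner_eq_one, mul_one]
  · intro i _ hij
    rw [b.inner_eq_zero hij, mul_zero, zero_smul]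
  · intro h
    exact absurd (Finset.mem_univ j) h

/-- the diagonal map, as a linear equivalence -/
def dg (b : OrthonormalBasis (Fin n) ℝ E) (d : Fin n → ℝ) (hd : ∀ i, d i ≠ 0) : E ≃ₗ[ℝ] E where
  toFun := dgf b d
  map_add' x y := by
    unfold dgf
    simp only [inner_add_right, mul_add, add_smul, Finset.sum_add_distrib]
  map_smul' c x := by
    unfold dgf
    rw [RingHom.id_apply, Finset.smul_sum]
    refine Finset.sum_congr rfl fun i _ => ?_
    rw [inner_smul_right, smul_smul]
    congr 1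
    ring
  invFun := dgf b fun i => (d i)⁻¹
  left_inv x := by
    rw [dgf_dgf]
    have : (fun i => (d i)⁻¹ * d i) = fun _ => (1 : ℝ) :=
      funext fun i => inv_mul_cancel₀ (hd i)
    rw [this, dgf_one]
  right_inv x := by
    rw [dgf_dgf]
    have : (fun i => d i * (d i)⁻¹) = fun _ => (1 : ℝ) :=
      funext fun i => mul_inv_cancel₀ (hd i)
    rw [this, dgf_one]

omit [FiniteDimensional ℝ E] in
theorem dg_apply (b : OrthonormalBasis (Fin n) ℝ E) (d : Fin n → ℝ) (hd : ∀ i, d i ≠ 0) (x : E) :
    dg b d hd x = dgf b d x := rfl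

omit [FiniteDimensional ℝ E] in
theorem dg_symm_apply (b : OrthonormalBasis (Fin n) ℝ E) (d : Fin n → ℝ) (hd : ∀ i, d i ≠ 0)
    (x : E) : (dg b d hd).symm x = dgf b (fun i => (d i)⁻¹) x := rfl

omit [FiniteDimensional ℝ E] in
/-- a linear equivalence is determined by its values on the basis -/
theorem eq_of (b : OrthonormalBasis (Fin n) ℝ E) (B C : E ≃ₗ[ℝ] E) (h : ∀ i, B (b i) = C (b i)) :
    B = C := by
  have h1 : (B : E →ₗ[ℝ] E) = (C : E →ₗ[ℝ] E) := by
    refine b.toBasis.ext fun i => ?_
    simpa using h i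
  exact LinearEquiv.toLinearMap_injective h1

omit [FiniteDimensional ℝ E] in
theorem lam_one : lam (1 : E ≃ₗ[ℝ] E) = 1 := by
  refine Equiv.ext fun x => Subtype.ext ?_
  show ‖(x : E)‖⁻¹ • (x : E) = x
  rw [S_norm, inv_one, one_smul]

omit [FiniteDimensional ℝ E] in
theorem dgf_smooth (b : OrthonormalBasis (Fin n) ℝ E) {e : ℝ → Fin n → ℝ}
    (he : ∀ i, ContDiff ℝ ∞ fun t => e t i) :
    ContDiff ℝ ∞ fun w : ℝ × E => dgf b (e w.1) w.2 := by
  unfold dgf
  refine ContDiff.sum fun i _ => ?_
  exact (((he i).comp contDiff_fst).mul (contDiff_const.inner ℝ contDiff_snd)).smul contDiff_const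

omit [FiniteDimensional ℝ E] in
/-- positive entries -/
theorem pos_mem (h : (∀ B C : E ≃ₗ[ℝ] E, lam (B * C) = lam B * lam C) ∧
    ∀ B : ℝ → (E ≃ₗ[ℝ] E), ContDiff ℝ ∞ (fun w : ℝ × E => B w.1 w.2) →
      ContDiff ℝ ∞ (fun w : ℝ × E => (B w.1).symm w.2) → IsPath (S E) fun t => lam (B t))
    (b : OrthonormalBasis (Fin n) ℝ E) (d : Fin n → ℝ)
    (hd : ∀ i, 0 < d i) : lam (dg b d fun i => (hd i).ne') ∈ IS E := by
  have hpos : ∀ (t : ℝ) (i : Fin n), 0 < (1 - sg t) + sg t * d i := by
    intro t i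
    have h1 := sg_nonneg t
    have h2 := sg_le_one t
    rcases eq_or_lt_of_le h2 with h3 | h3
    · rw [h3]
      linarith [hd i]
    · have := mul_nonneg h1 (hd i).le
      linarith
  have hs : ∀ i, ContDiff ℝ ∞ fun t : ℝ => (1 - sg t) + sg t * d i := fun i =>
    (contDiff_const.sub sg_smooth).add (sg_smooth.mul contDiff_const)
  refine ⟨fun t => lam (dg b (fun i => (1 - sg t) + sg t * d i) fun i => (hpos t i).ne'), ?_,
    ?_, ?_⟩
  · refine h.2 _ ?_ ?_
    · exact dgf_smooth b (e := fun t i => (1 - sg t) + sg t * d i) hs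
    · exact dgf_smooth b (e := fun t i => ((1 - sg t) + sg t * d i)⁻¹) fun i =>
        (hs i).inv fun t => (hpos t i).ne'
  · have : (dg b (fun i => (1 - sg 0) + sg 0 * d i) fun i => (hpos 0 i).ne') =
        (1 : E ≃ₗ[ℝ] E) := by
      refine eq_of b _ _ fun i => ?_
      rw [dg_apply, dgf_basis, sg_zero, sub_zero, zero_mul, add_zero, one_smul]
      rfl
    show lam (dg b (fun i => (1 - sg 0) + sg 0 * d i) fun i => (hpos 0 i).ne') = 1
    rw [this, lam_one]
  · have : (dg b (fun i => (1 - sg 1) + sg 1 * d i) fun i => (hpos 1 i).ne') =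
        dg b d fun i => (hd i).ne' := by
      refine eq_of b _ _ fun i => ?_
      rw [dg_apply, dgf_basis, dg_apply, dgf_basis, sg_one, sub_self, zero_add, one_mul]
    show lam (dg b (fun i => (1 - sg 1) + sg 1 * d i) fun i => (hpos 1 i).ne') = _
    rw [this]

/-- the sign function of a set of indices -/
def sn (s : Finset (Fin n)) (i : Fin n) : ℝ := if i ∈ s then -1 else 1

theorem sn_ne (s : Finset (Fin n)) (i : Fin n) : sn s i ≠ 0 := by
  unfold sn
  split_ifs <;> norm_num

omit [FiniteDimensional ℝ E] in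
theorem basis_mem (b : OrthonormalBasis (Fin n) ℝ E) (i : Fin n) : b i ∈ S E := by
  rw [mem_S]
  exact b.norm_eq_one i

omit [FiniteDimensional ℝ E] in
theorem sn_mem (h : ∀ B C : E ≃ₗ[ℝ] E, lam (B * C) = lam B * lam C)
    (hR : ∀ a b : S E, lam (refl E a * refl E b) ∈ IS E)
    (b : OrthonormalBasis (Fin n) ℝ E) (s : Finset (Fin n)) :
    (Even s.card → lam (dg b (sn s) (sn_ne s)) ∈ IS E) ∧
      (Odd s.card → ∀ a : S E, lam (refl E a * dg b (sn s) (sn_ne s)) ∈ IS E) := by
  classical
  induction s using Finset.induction_on with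
  | empty =>
    refine ⟨fun _ => ?_, fun h0 => ?_⟩
    · have : dg b (sn ∅) (sn_ne ∅) = (1 : E ≃ₗ[ℝ] E) := by
        refine eq_of b _ _ fun i => ?_
        rw [dg_apply, dgf_basis]
        simp [sn]
      rw [this, lam_one]
      exact Subgroup.one_mem _
    · simp at h0
  | insert i s his ih =>
    have key : dg b (sn (insert i s)) (sn_ne (insert i s)) =
        refl E ⟨b i, basis_mem b i⟩ * dg b (sn s) (sn_ne s) := by
      refine eq_of b _ _ fun j => ?_
      rw [LinearEquiv.mul_apply, dg_apply, dg_apply, dgf_basis, dgf_basis, map_smul]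
      show sn (insert i s) j • b j = sn s j • (b j - (2 * inner ℝ (b i) (b j)) • b i)
      by_cases hij : j = i
      · subst hij
        rw [b.inner_eq_one]
        have h1 : sn (insert j s) j = -1 := by simp [sn]
        have h2 : sn s j = 1 := by simp [sn, his]
        rw [h1, h2]
        module
      · rw [b.inner_eq_zero (Ne.symm hij)]
        have h1 : sn (insert i s) j = sn s j := by simp [sn, hij]
        rw [h1]
        simp
    rw [Finset.card_insert_of_notMem his, key]
    refine ⟨fun h0 => ?_, fun h0 a => ?_⟩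
    · exact ih.2 (by
        rcases Nat.even_or_odd s.card with h1 | h1
        · exact absurd h0 (by
            rw [Nat.not_even_iff_odd]
            exact h1.add_one)
        · exact h1) _
    · have h1 : Even s.card := by
        rcases Nat.even_or_odd s.card with h1 | h1
        · exact h1
        · exact absurd h0 (by
            rw [Nat.not_odd_iff_even]
            exact h1.add_one)
      rw [← mul_assoc, h]
      exact Subgroup.mul_mem _ (hR _ _) (ih.1 h1)

theorem prod_sn (s : Finset (Fin n)) : ∏ i, sn s i = (-1) ^ s.card := by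
  classical
  unfold sn
  rw [Finset.prod_ite]
  simp

end GLD_

open GLD_ in
/-- diagonal maps -/
theorem p_GLD (h_LMP : T_LMP E) (h_REF : T_REF E) : T_GLD E := by
  classical
  intro n b d B hd hB
  have habs : ∀ i, 0 < |d i| := fun i => abs_pos.2 (hd i)
  obtain ⟨s, hs⟩ : ∃ s : Finset (Fin n), ∀ i, i ∈ s ↔ d i < 0 :=
    ⟨Finset.univ.filter fun i => d i < 0, fun i => by simp⟩
  have hsd : ∀ i, sn s i * |d i| = d i := by
    intro i
    unfold sn
    split_ifs with h1
    · rw [abs_of_neg ((hs i).1 h1)]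
      ring
    · rw [abs_of_nonneg (not_lt.1 fun h2 => h1 ((hs i).2 h2)), one_mul]
  have hBe : B = dg b (sn s) (sn_ne s) * dg b (fun i => |d i|) fun i => (habs i).ne' := by
    refine eq_of b _ _ fun i => ?_
    rw [LinearEquiv.mul_apply, dg_apply, dg_apply, dgf_basis, hB, ← dg_apply b (sn s) (sn_ne s),
      map_smul, dg_apply, dgf_basis, smul_smul, mul_comm, hsd]
  have hp : ∏ i, d i = (-1) ^ s.card * ∏ i, |d i| := by
    rw [← prod_sn, ← Finset.prod_mul_distrib]
    exact Finset.prod_congr rfl fun i _ => (hsd i).symm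
  have hpp : 0 < ∏ i, |d i| := Finset.prod_pos fun i _ => habs i
  have hm := sn_mem h_LMP.1 h_REF b s
  have hq := pos_mem h_LMP b (fun i => |d i|) habs
  refine ⟨fun h0 => ?_, fun h0 a => ?_⟩
  · have hev : Even s.card := by
      rcases Nat.even_or_odd s.card with h1 | h1
      · exact h1
      · rw [hp, h1.neg_one_pow] at h0
        linarith
    rw [hBe, h_LMP.1]
    exact Subgroup.mul_mem _ (hm.1 hev) hq
  · have hod : Odd s.card := by
      rcases Nat.even_or_odd s.card with h1 | h1
      · rw [hp, h1.neg_one_pow] at h0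
        linarith
      · exact h1
    rw [hBe, ← mul_assoc, h_LMP.1]
    exact Subgroup.mul_mem _ (hm.2 hod a) hq

end Pool.Agent.DTW
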