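import Pool.Agent.DTW.Targets

/-!
# DTW: cutting off
-/

set_option autoImplicit false

open scoped ContDiff

noncomputable section

namespace Pool.Agent.DTW

variable (E : Type) [NormedAddCommGroup E] [InnerProductSpace ℝ E] [FiniteDimensional ℝ E]

namespace GRB_

variable {E}

omit [FiniteDimensional ℝ E] in
theorem nrm_smooth {y : E} (hy : y ≠ 0) : ContDiffAt ℝ ∞ (fun y : E => ‖y‖⁻¹ • y) y :=
  ((contDiffAt_norm ℝ hy).inv (norm_ne_zero_iff.2 hy)).smul contDiffAt_id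

omit [FiniteDimensional ℝ E] in
/-- the derivative of the normalisation at a unit vector -/
theorem nrm_fderiv {y : E} (hy : ‖y‖ = 1) : ‖fderiv ℝ (fun y : E => ‖y‖⁻¹ • y) y‖ ≤ 2 := by
  have hy0 : y ≠ 0 := by
    rintro rfl
    simp at hy
  have h1 : DifferentiableAt ℝ (fun y : E => ‖y‖) y :=
    (contDiffAt_norm ℝ hy0 (n := 1)).differentiableAt (by simp)
  have h2 : ‖fderiv ℝ (fun y : E => ‖y‖) y‖ ≤ 1 := by
    have := norm_fderiv_le_of_lipschitz ℝ (x₀ := y) (lipschitzWith_one_norm (E := E))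
    simpa using this
  have h3 : HasFDerivAt (fun y : E => ‖y‖⁻¹) (-(‖y‖ ^ 2)⁻¹ • fderiv ℝ (fun y : E => ‖y‖) y) y :=
    (hasDerivAt_inv (norm_ne_zero_iff.2 hy0)).comp_hasFDerivAt y h1.hasFDerivAt
  have h4 := h3.smul (hasFDerivAt_id y)
  have h5 : fderiv ℝ (fun y : E => ‖y‖⁻¹ • y) y = _ := h4.fderiv
  rw [h5]
  refine (norm_add_le _ _).trans ?_
  rw [hy]
  have h6 : ‖(1 : ℝ)⁻¹ • ContinuousLinearMap.id ℝ E‖ ≤ 1 := by
    rw [inv_one, one_smul]
    exact ContinuousLinearMap.norm_id_le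
  have h7 : ‖(-((1 : ℝ) ^ 2)⁻¹ • fderiv ℝ (fun y : E => ‖y‖) y).smulRight (id y)‖ ≤ 1 := by
    rw [ContinuousLinearMap.norm_smulRight_apply, norm_smul, id, hy, mul_one]
    simpa using h2
  linarith

/-- the cut off function -/
def chi (x : E) (δ : ℝ) (y : E) : ℝ := 1 - sg (‖y - x‖ ^ 2 / δ ^ 2 - 1)

omit [FiniteDimensional ℝ E] in
theorem chi_smooth (x : E) (δ : ℝ) : ContDiff ℝ ∞ (chi x δ) := by
  unfold chi
  refine contDiff_const.sub (sg_smooth.comp ?_)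
  exact (((contDiff_id.sub contDiff_const).norm_sq ℝ).div_const _).sub contDiff_const

omit [InnerProductSpace ℝ E] [FiniteDimensional ℝ E] in
theorem chi_abs (x : E) (δ : ℝ) (y : E) : |chi x δ y| ≤ 1 := by
  unfold chi
  have h1 := sg_nonneg (‖y - x‖ ^ 2 / δ ^ 2 - 1)
  have h2 := sg_le_one (‖y - x‖ ^ 2 / δ ^ 2 - 1)
  rw [abs_le]
  constructor <;> linarith

omit [InnerProductSpace ℝ E] [FiniteDimensional ℝ E] in
theorem chi_one {x : E} {δ : ℝ} (hδ : 0 < δ) {y : E} (h : ‖y - x‖ ≤ δ) : chi x δ y = 1 := by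
  unfold chi
  have h1 : ‖y - x‖ ^ 2 ≤ δ ^ 2 := pow_le_pow_left₀ (norm_nonneg _) h 2
  have h2 : ‖y - x‖ ^ 2 / δ ^ 2 ≤ 1 := (div_le_one (by positivity)).2 h1
  have h3 : sg (‖y - x‖ ^ 2 / δ ^ 2 - 1) = 0 :=
    Real.smoothTransition.zero_of_nonpos (by linarith)
  rw [h3, sub_zero]

omit [InnerProductSpace ℝ E] [FiniteDimensional ℝ E] in
theorem chi_zero {x : E} {δ : ℝ} (hδ : 0 < δ) {y : E} (h : 2 * δ < ‖y - x‖) :
    chi x δ y = 0 := by
  unfold chi
  have h1 : (2 * δ) ^ 2 ≤ ‖y - x‖ ^ 2 := pow_le_pow_left₀ (by positivity) h.le 2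
  have h2 : 4 ≤ ‖y - x‖ ^ 2 / δ ^ 2 := by
    rw [le_div_iff₀ (by positivity)]
    linarith
  have h3 : sg (‖y - x‖ ^ 2 / δ ^ 2 - 1) = 1 :=
    Real.smoothTransition.one_of_one_le (by linarith)
  rw [h3, sub_self]

omit [FiniteDimensional ℝ E] in
theorem chi_fderiv {x : E} {δ M : ℝ} (hδ : 0 < δ) (hM0 : 0 ≤ M)
    (hM : ∀ s ∈ Set.Icc (-1 : ℝ) 3, |deriv sg s| ≤ M)
    {y : E} (h : ‖y - x‖ ≤ 2 * δ) : ‖fderiv ℝ (chi x δ) y‖ ≤ 4 * M / δ := by
  have h1 : HasFDerivAt (fun y : E => ‖y - x‖ ^ 2)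
      (2 • (innerSL ℝ (y - x)).comp (ContinuousLinearMap.id ℝ E)) y :=
    ((hasFDerivAt_id y).sub_const x).norm_sq
  have h2 : HasFDerivAt (fun y : E => ‖y - x‖ ^ 2 / δ ^ 2 - 1)
      ((δ ^ 2)⁻¹ • (2 • (innerSL ℝ (y - x)).comp (ContinuousLinearMap.id ℝ E))) y := by
    have := (h1.const_mul ((δ ^ 2)⁻¹)).sub_const 1
    refine this.congr_of_eventuallyEq (Filter.Eventually.of_forall fun z => ?_)
    show ‖z - x‖ ^ 2 / δ ^ 2 - 1 = (δ ^ 2)⁻¹ * ‖z - x‖ ^ 2 - 1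
    ring
  obtain ⟨s, hs⟩ : ∃ s, s = ‖y - x‖ ^ 2 / δ ^ 2 - 1 := ⟨_, rfl⟩
  have hsg : HasDerivAt sg (deriv sg (‖y - x‖ ^ 2 / δ ^ 2 - 1)) (‖y - x‖ ^ 2 / δ ^ 2 - 1) :=
    (sg_smooth.differentiable (by simp) _).hasDerivAt
  have h3 : HasFDerivAt (chi x δ) (-(deriv sg (‖y - x‖ ^ 2 / δ ^ 2 - 1) •
      ((δ ^ 2)⁻¹ • (2 • (innerSL ℝ (y - x)).comp (ContinuousLinearMap.id ℝ E))))) y :=
    (hsg.comp_hasFDerivAt y h2).const_sub 1
  rw [h3.fderiv, norm_neg, ← hs, norm_smul, norm_smul]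
  have h4 : ‖2 • (innerSL ℝ (y - x)).comp (ContinuousLinearMap.id ℝ E)‖ ≤ 2 * ‖y - x‖ := by
    rw [ContinuousLinearMap.comp_id, two_smul, two_mul]
    refine (norm_add_le _ _).trans ?_
    rw [innerSL_apply_norm]
  have h5 : |deriv sg s| ≤ M := by
    refine hM s ⟨?_, ?_⟩
    · rw [hs]
      have : 0 ≤ ‖y - x‖ ^ 2 / δ ^ 2 := by positivity
      linarith
    · have h6 : ‖y - x‖ ^ 2 ≤ (2 * δ) ^ 2 := pow_le_pow_left₀ (norm_nonneg _) h 2
      have h7 : ‖y - x‖ ^ 2 / δ ^ 2 ≤ 4 := by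
        rw [div_le_iff₀ (by positivity)]
        linarith
      rw [hs]
      linarith
  rw [Real.norm_eq_abs, norm_inv, Real.norm_of_nonneg (by positivity : 0 ≤ δ ^ 2)]
  calc |deriv sg s| * ((δ ^ 2)⁻¹ * ‖2 • (innerSL ℝ (y - x)).comp (ContinuousLinearMap.id ℝ E)‖)
      ≤ M * ((δ ^ 2)⁻¹ * (2 * (2 * δ))) := by
        refine mul_le_mul h5 (mul_le_mul_of_nonneg_left (h4.trans ?_) (by positivity))
          (by positivity) hM0
        linarith
    _ = 4 * M / δ := by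
        field_simp
        ring

end GRB_

open GRB_ in
/-- GRB -/
theorem p_GRB : T_GRB E := by
  intro x v hv hhom hvx hdv
  have hx1 : ‖(x : E)‖ = 1 := S_norm x
  have hx0 : (x : E) ≠ 0 := by
    intro h
    rw [h, norm_zero] at hx1
    exact zero_ne_one hx1
  have hop : IsOpen ({0}ᶜ : Set E) := isOpen_compl_singleton
  have hvat : ∀ y : E, y ≠ 0 → ContDiffAt ℝ ∞ v y := fun y hy =>
    hv.contDiffAt (hop.mem_nhds hy)
  have hdlip : ContDiffAt ℝ 1 (fderiv ℝ v) x :=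
    (hvat x hx0).fderiv_right (m := 1) (by norm_cast)
  obtain ⟨C, t, ht, hC⟩ := hdlip.exists_lipschitzOnWith
  obtain ⟨r, hr0, hr⟩ := Metric.mem_nhds_iff.1 (Filter.inter_mem ht (hop.mem_nhds hx0))
  have hCn : (0 : ℝ) ≤ C := C.2
  have hDv : ∀ y ∈ Metric.ball (x : E) r, ‖fderiv ℝ v y‖ ≤ C * ‖y - x‖ := by
    intro y hy
    have h1 := hC.norm_sub_le (hr hy).1 (hr (Metric.mem_ball_self hr0)).1
    rwa [hdv, sub_zero] at h1
  have hV : ∀ y ∈ Metric.ball (x : E) r, ‖v y‖ ≤ C * ‖y - x‖ ^ 2 := by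
    intro y hy
    have hsub : Metric.closedBall (x : E) ‖y - x‖ ⊆ Metric.ball (x : E) r := by
      refine Metric.closedBall_subset_ball ?_
      rwa [Metric.mem_ball, dist_eq_norm] at hy
    have h1 := Convex.norm_image_sub_le_of_norm_fderiv_le (𝕜 := ℝ) (f := v)
      (C := C * ‖y - x‖) (s := Metric.closedBall (x : E) ‖y - x‖) (x := x) (y := y)
      (fun z hz => (hvat z (hr (hsub hz)).2).differentiableAt (by simp))
      (fun z hz => (hDv z (hsub hz)).trans (mul_le_mul_of_nonneg_left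
        (by rwa [Metric.mem_closedBall, dist_eq_norm] at hz) hCn))
      (convex_closedBall _ _) (Metric.mem_closedBall_self (norm_nonneg _))
      (by rw [Metric.mem_closedBall, dist_eq_norm])
    rw [hvx, sub_zero] at h1
    linarith
  obtain ⟨M, hM⟩ := (isCompact_Icc (a := (-1 : ℝ)) (b := 3)).exists_bound_of_continuousOn
    (f := deriv sg) (sg_smooth.continuous_deriv (by simp)).continuousOn
  have hM0 : 0 ≤ M := (norm_nonneg _).trans (hM 0 ⟨by norm_num, by norm_num⟩)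
  have hM' : ∀ s ∈ Set.Icc (-1 : ℝ) 3, |deriv sg s| ≤ M := hM
  -- the choice of `δ`
  obtain ⟨A, hA⟩ : ∃ A : ℝ, A = 8 * ((2 + 16 * M) * (C + 1)) := ⟨_, rfl⟩
  have hA0 : 0 < A := by rw [hA]; positivity
  obtain ⟨δ, hδ⟩ : ∃ δ : ℝ, δ = min 1 (min (r / 4) (1 / A)) := ⟨_, rfl⟩
  have hδ0 : 0 < δ := by
    rw [hδ]
    exact lt_min one_pos (lt_min (by linarith) (by positivity))
  have hδ1 : δ ≤ 1 := by rw [hδ]; exact min_le_left _ _
  have hδr : δ ≤ r / 4 := by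
    rw [hδ]; exact (min_le_right _ _).trans (min_le_left _ _)
  have hδA : δ ≤ 1 / A := by
    rw [hδ]; exact (min_le_right _ _).trans (min_le_right _ _)
  have hδA' : 8 * ((2 + 16 * M) * C * δ) ≤ 1 := by
    have h1 : δ * A ≤ 1 := by
      rwa [le_div_iff₀ hA0] at hδA
    have h2 : 0 ≤ (2 + 16 * M) * δ := by positivity
    rw [hA] at h1
    nlinarith
  obtain ⟨U, hU⟩ : ∃ U : E → E, U = fun y => chi (x : E) δ y • v y := ⟨_, rfl⟩
  have hUs : ∀ y : E, y ≠ 0 → ContDiffAt ℝ ∞ U y := by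
    intro y hy
    rw [hU]
    exact (chi_smooth _ _).contDiffAt.smul (hvat y hy)
  -- bounds for `U`
  have hUb : ∀ y : E, ‖y‖ = 1 → ‖U y‖ ≤ 1 / 4 ∧ ‖fderiv ℝ U y‖ ≤ 1 / 8 := by
    intro y hy
    have hy0 : y ≠ 0 := by
      rintro rfl
      simp at hy
    by_cases hc : 2 * δ < ‖y - x‖
    · have h1 : U =ᶠ[nhds y] fun _ => 0 := by
        have h2 : ∀ᶠ z in nhds y, 2 * δ < ‖z - (x : E)‖ := by
          have h3 : IsOpen {z : E | 2 * δ < ‖z - (x : E)‖} :=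
            isOpen_lt continuous_const (continuous_id.sub continuous_const).norm
          exact h3.mem_nhds hc
        filter_upwards [h2] with z hz
        rw [hU]
        show chi (x : E) δ z • v z = 0
        rw [chi_zero hδ0 hz, zero_smul]
      rw [h1.fderiv_eq, h1.eq_of_nhds]
      simp
    · have hc' : ‖y - x‖ ≤ 2 * δ := not_lt.1 hc
      have hyb : y ∈ Metric.ball (x : E) r := by
        rw [Metric.mem_ball, dist_eq_norm]
        linarith
      have h1 : ‖v y‖ ≤ C * (2 * δ) ^ 2 :=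
        (hV y hyb).trans (mul_le_mul_of_nonneg_left (pow_le_pow_left₀ (norm_nonneg _) hc' 2) hCn)
      have h2 : ‖fderiv ℝ v y‖ ≤ C * (2 * δ) :=
        (hDv y hyb).trans (mul_le_mul_of_nonneg_left hc' hCn)
      have h3 := chi_fderiv (x := (x : E)) hδ0 hM0 hM' hc'
      have h4 := chi_abs (x : E) δ y
      have hb : 2 * C * δ ≤ 1 / 8 := by
        have : 0 ≤ M * (C * δ) := by positivity
        nlinarith
      constructor
      · rw [hU]
        show ‖chi (x : E) δ y • v y‖ ≤ 1 / 4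
        rw [norm_smul, Real.norm_eq_abs]
        calc |chi (x : E) δ y| * ‖v y‖ ≤ 1 * (C * (2 * δ) ^ 2) :=
              mul_le_mul h4 h1 (norm_nonneg _) one_pos.le
          _ = 2 * (2 * C * δ) * δ := by ring
          _ ≤ 2 * (1 / 8) * 1 := by
              refine mul_le_mul (by linarith) hδ1 hδ0.le (by norm_num)
          _ = 1 / 4 := by norm_num
      · have h5 : HasFDerivAt U (chi (x : E) δ y • fderiv ℝ v y +
            (fderiv ℝ (chi (x : E) δ) y).smulRight (v y)) y := by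
          rw [hU]
          exact ((chi_smooth (x : E) δ).differentiable (by simp) y).hasFDerivAt.smul
            ((hvat y hy0).differentiableAt (by simp)).hasFDerivAt
        rw [h5.fderiv]
        refine (norm_add_le _ _).trans ?_
        rw [norm_smul, ContinuousLinearMap.norm_smulRight_apply, Real.norm_eq_abs]
        calc |chi (x : E) δ y| * ‖fderiv ℝ v y‖ + ‖fderiv ℝ (chi (x : E) δ) y‖ * ‖v y‖
            ≤ 1 * (C * (2 * δ)) + 4 * M / δ * (C * (2 * δ) ^ 2) :=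
              add_le_add (mul_le_mul h4 h2 (norm_nonneg _) one_pos.le)
                (mul_le_mul h3 h1 (norm_nonneg _) (by positivity))
          _ = (2 + 16 * M) * C * δ := by
              field_simp
              ring
          _ ≤ 1 / 8 := by linarith
  refine ⟨fun y => U (‖y‖⁻¹ • y), ?_, ?_, ?_, δ ^ 2 / 2, by positivity, ?_⟩
  · intro y hy
    have hy0 : y ≠ 0 := hy
    refine ContDiffAt.contDiffWithinAt ?_
    have h1 : ‖y‖⁻¹ • y ≠ 0 := smul_ne_zero (inv_ne_zero (norm_ne_zero_iff.2 hy0)) hy0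
    exact ContDiffAt.comp (f := fun y : E => ‖y‖⁻¹ • y) y (hUs _ h1) (nrm_smooth hy0)
  · intro c y hc hy
    show U (‖c • y‖⁻¹ • c • y) = U (‖y‖⁻¹ • y)
    congr 1
    rw [norm_smul, Real.norm_of_nonneg hc.le, smul_smul]
    congr 1
    field_simp
  · intro y hy
    have hy0 : y ≠ 0 := by
      rintro rfl
      simp at hy
    have hny : ‖y‖⁻¹ • y = y := by rw [hy, inv_one, one_smul]
    obtain ⟨h1, h2⟩ := hUb y hy
    constructor
    · show ‖U (‖y‖⁻¹ • y)‖ ≤ 1 / 4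
      rw [hny]
      exact h1
    · have h3 : HasFDerivAt U (fderiv ℝ U y) (‖y‖⁻¹ • y) := by
        rw [hny]
        exact ((hUs y hy0).differentiableAt (by simp)).hasFDerivAt
      have h4 := HasFDerivAt.comp (f := fun y : E => ‖y‖⁻¹ • y) y h3
        ((nrm_smooth hy0).differentiableAt (by simp)).hasFDerivAt
      have h5 : fderiv ℝ (fun y => U (‖y‖⁻¹ • y)) y =
          (fderiv ℝ U y).comp (fderiv ℝ (fun y : E => ‖y‖⁻¹ • y) y) := h4.fderiv
      rw [h5]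
      refine (ContinuousLinearMap.opNorm_comp_le _ _).trans ?_
      calc ‖fderiv ℝ U y‖ * ‖fderiv ℝ (fun y : E => ‖y‖⁻¹ • y) y‖ ≤ 1 / 8 * 2 :=
            mul_le_mul h2 (nrm_fderiv hy) (norm_nonneg _) (by norm_num)
        _ = 1 / 4 := by norm_num
  · intro y hy
    show U (‖(y : E)‖⁻¹ • (y : E)) = v y
    rw [S_norm, inv_one, one_smul, hU]
    show chi (x : E) δ y • v y = v y
    have h1 : ‖(y : E) - x‖ ^ 2 ≤ δ ^ 2 := by
      rw [@norm_sub_sq_real, S_norm, S_norm]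
      linarith
    have h2 : ‖(y : E) - x‖ ≤ δ := by
      exact (pow_le_pow_iff_left₀ (norm_nonneg _) hδ0.le (by norm_num)).1 h1
    rw [chi_one hδ0 h2, one_smul]

end Pool.Agent.DTW
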