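import Pool.Agent.DTW.Targets

set_option autoImplicit false

open scoped ContDiff

noncomputable section

namespace Pool.Agent.DTW

variable (E : Type) [NormedAddCommGroup E] [InnerProductSpace ℝ E] [FiniteDimensional ℝ E]

namespace GRM_

variable {E}

omit [FiniteDimensional ℝ E] in
theorem ext_coe (φ : Equiv.Perm (S E)) (y : S E) : ext φ (y : E) = φ y := by
  unfold ext
  rw [S_norm, inv_one, one_smul, lift_coe]

omit [FiniteDimensional ℝ E] in
theorem ext_ray (φ : Equiv.Perm (S E)) {c : ℝ} (y : E) (hc : 0 < c) :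
    ext φ (c • y) = ext φ y := by
  unfold ext
  rw [norm_smul, Real.norm_of_nonneg hc.le, smul_smul, mul_inv, mul_comm c⁻¹, mul_assoc,
    inv_mul_cancel₀ hc.ne', mul_one]

omit [FiniteDimensional ℝ E] in
theorem ext_mem (φ : Equiv.Perm (S E)) {y : E} (hy : y ≠ 0) : ext φ y ∈ S E :=
  lift_mem φ (nrm_mem (norm_pos_iff.2 hy))

omit [FiniteDimensional ℝ E] in
theorem ext_inv (φ : Equiv.Perm (S E)) {y : E} (hy : y ≠ 0) :
    ext φ⁻¹ (ext φ y) = ext 1 y := by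
  have h1 := ext_mem φ hy
  have h2 : ‖ext φ y‖ = 1 := mem_S.1 h1
  have h3 : ext φ⁻¹ (ext φ y) = lift (S E) φ⁻¹ (ext φ y) := by
    conv_lhs => rw [ext.eq_def φ⁻¹]
    rw [h2, inv_one, one_smul]
  rw [h3]
  unfold ext
  rw [lift_inv_self, lift_one]

omit [FiniteDimensional ℝ E] in
theorem ext_smooth (h : T_EXT E) {φ : Equiv.Perm (S E)} (hφ : IsDiffeo (S E) φ) :
    ContDiffOn ℝ ∞ (ext φ) {0}ᶜ := by
  have h1 := h (fun _ => φ) (IsPath.const hφ)
  have h2 : ContDiffOn ℝ ∞ (fun y : E => ((0 : ℝ), y)) {0}ᶜ :=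
    contDiffOn_const.prodMk contDiffOn_id
  exact h1.comp h2 fun y hy => hy

theorem ext_diff (h : T_EXT E) {φ : Equiv.Perm (S E)} (hφ : IsDiffeo (S E) φ) (x : S E) :
    DifferentiableAt ℝ (ext φ) (x : E) := by
  have h1 : (x : E) ≠ 0 := by
    intro h0
    have := S_norm x
    rw [h0, norm_zero] at this
    exact zero_ne_one this
  exact ((ext_smooth h hφ).contDiffAt (isOpen_compl_singleton.mem_nhds h1)).differentiableAt
    (by simp)

omit [InnerProductSpace ℝ E] [FiniteDimensional ℝ E] in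
theorem ne_zero (x : S E) : (x : E) ≠ 0 := by
  intro h0
  have := S_norm x
  rw [h0, norm_zero] at this
  exact zero_ne_one this

theorem deriv_inv (h : T_EXT E) {φ : Equiv.Perm (S E)} {x : S E} (hφ : IsDiffeo (S E) φ)
    (hx : φ x = x) (hd : ∀ ξ : E, inner ℝ (x : E) ξ = 0 → fderiv ℝ (ext φ) (x : E) ξ = ξ)
    (ξ : E) : fderiv ℝ (ext φ⁻¹) (x : E) ξ = fderiv ℝ (ext (1 : Equiv.Perm (S E))) (x : E) ξ := by
  have hxx : ext φ (x : E) = x := by rw [ext_coe, hx]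
  have h1 : fderiv ℝ (fun y => ext φ⁻¹ (ext φ y)) (x : E) =
      (fderiv ℝ (ext φ⁻¹) (x : E)).comp (fderiv ℝ (ext φ) (x : E)) := by
    have h2 : DifferentiableAt ℝ (ext φ⁻¹) (ext φ (x : E)) := by
      rw [hxx]
      exact ext_diff h hφ.inv x
    have h3 := fderiv_comp (x : E) h2 (ext_diff h hφ x)
    rw [hxx] at h3
    exact h3
  have h2 : (fun y => ext φ⁻¹ (ext φ y)) =ᶠ[nhds (x : E)] ext (1 : Equiv.Perm (S E)) := by
    filter_upwards [isOpen_compl_singleton.mem_nhds (ne_zero x)] with y hy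
    exact ext_inv φ hy
  rw [h2.fderiv_eq] at h1
  have h3 : ∀ η : E, inner ℝ (x : E) η = 0 → fderiv ℝ (ext φ⁻¹) (x : E) η =
      fderiv ℝ (ext (1 : Equiv.Perm (S E))) (x : E) η := by
    intro η hη
    rw [h1, ContinuousLinearMap.comp_apply, hd η hη]
  have h4 : inner ℝ (x : E) (ξ - inner ℝ (x : E) ξ • (x : E)) = 0 := by
    rw [inner_sub_right, inner_smul_right, S_inner_self, mul_one, sub_self]
  have h5 := h3 _ h4
  rw [map_sub, map_sub, map_smul, map_smul, fderiv_ext_self, fderiv_ext_self, smul_zero,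
    sub_zero, sub_zero] at h5
  exact h5

omit [FiniteDimensional ℝ E] in
theorem cap_cont {φ : Equiv.Perm (S E)} {x : S E} (hφ : IsDiffeo (S E) φ) (hx : φ x = x)
    {κ : ℝ} (hκ : 0 < κ) : ∃ κ' > 0, ∀ y : S E, 1 - κ' < inner ℝ (y : E) (x : E) →
      1 - κ < inner ℝ (φ y : E) (x : E) := by
  have h1 : ContinuousWithinAt (lift (S E) φ) (S E) (x : E) := hφ.1.continuousOn x x.2
  have h2 : 0 < Real.sqrt (2 * κ) := Real.sqrt_pos.2 (by linarith)
  obtain ⟨δ, hδ, h3⟩ := Metric.continuousWithinAt_iff.1 h1 _ h2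
  have h4 : ∀ y z : S E, ‖(y : E) - z‖ ^ 2 = 2 - 2 * inner ℝ (y : E) (z : E) := by
    intro y z
    rw [@norm_sub_sq_real, S_norm, S_norm]
    ring
  refine ⟨δ ^ 2 / 2, by positivity, fun y hy => ?_⟩
  have h5 : dist (y : E) (x : E) < δ := by
    rw [dist_eq_norm]
    refine lt_of_pow_lt_pow_left₀ 2 hδ.le ?_
    rw [h4]
    linarith
  have h6 := h3 y.2 h5
  rw [lift_coe, lift_coe, hx, dist_eq_norm] at h6
  have h7 : ‖(φ y : E) - x‖ ^ 2 < 2 * κ := by
    have h8 := pow_lt_pow_left₀ h6 (norm_nonneg _) two_ne_zero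
    rwa [Real.sq_sqrt (by linarith)] at h8
  rw [h4] at h7
  linarith

end GRM_

open GRM_ in
theorem p_GRM (h_EXT : T_EXT E) (h_SMP : T_SMP E) (h_GRB : T_GRB E) : T_GRM E := by
  intro φ x hφ hx hd
  set v : E → E := fun y => ext φ⁻¹ y - ext (1 : Equiv.Perm (S E)) y with hv
  have v1 : ContDiffOn ℝ ∞ v {0}ᶜ :=
    (ext_smooth h_EXT hφ.inv).sub (ext_smooth h_EXT IsDiffeo.one)
  have v2 : ∀ (c : ℝ) (y : E), 0 < c → y ≠ 0 → v (c • y) = v y := by
    intro c y hc _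
    rw [hv]
    simp only
    rw [ext_ray _ _ hc, ext_ray _ _ hc]
  have hxi : φ⁻¹ x = x := by rw [Equiv.Perm.inv_eq_iff_eq, hx]
  have v3 : v x = 0 := by
    rw [hv]
    simp only
    rw [ext_coe, ext_coe, hxi, Equiv.Perm.one_apply, sub_self]
  have v4 : fderiv ℝ v x = 0 := by
    refine ContinuousLinearMap.ext fun ξ => ?_
    have h1 : fderiv ℝ v x = fderiv ℝ (ext φ⁻¹) (x : E) -
        fderiv ℝ (ext (1 : Equiv.Perm (S E))) (x : E) :=
      fderiv_fun_sub (ext_diff h_EXT hφ.inv x) (ext_diff h_EXT IsDiffeo.one x)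
    rw [h1, sub_apply, deriv_inv h_EXT hφ hx hd, sub_self,
      zero_apply]
  obtain ⟨u, u1, u2, u3, κ, hκ, u4⟩ := h_GRB x v v1 v2 v3 v4
  obtain ⟨ψ, hψ, hψ2⟩ := h_SMP u u1 u2 u3
  obtain ⟨κ', hκ', h5⟩ := cap_cont hφ hx hκ
  refine ⟨ψ, hψ, κ', hκ', fun y hy => ?_⟩
  have h6 := h5 y hy
  have h7 : ((φ y : S E) : E) + u (φ y : S E) = y := by
    rw [u4 (φ y) h6, hv]
    simp only
    have h8 : φ⁻¹ (φ y) = y := by
      rw [Equiv.Perm.inv_eq_iff_eq]
    rw [ext_coe, ext_coe, Equiv.Perm.one_apply, h8, add_sub_cancel]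
  refine Subtype.ext ?_
  rw [Equiv.Perm.mul_apply, hψ2, h7, S_norm, inv_one, one_smul]

end Pool.Agent.DTW
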