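import Pool.Agent.DTW.Targets

/-!
# DTW: target `INB` (the supports meet in a bounded set)
-/

set_option autoImplicit false

open scoped ContDiff

noncomputable section

namespace Pool.Agent.DTW

variable (E : Type) [NormedAddCommGroup E] [InnerProductSpace ℝ E] [FiniteDimensional ℝ E]

theorem p_INB : T_INB E := by
  intro a b hab z h1 h2
  by_contra hcon
  rw [not_lt] at hcon
  have hθ : A0.θ ‖z.1.2‖ = 0 := by
    show Real.pi * (1 - sg (‖z.1.2‖ - 1)) = 0
    have : sg (‖z.1.2‖ - 1) = 1 := Real.smoothTransition.one_of_one_le (by linarith)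
    rw [this, sub_self, mul_zero]
  have hd : (dtFun A0.θ z.1).1 = z.1.1 := by
    unfold dtFun
    simp only [hθ, Real.cos_zero, Real.sin_zero, zero_div, zero_smul, one_smul, add_zero]
  rw [hd] at h2
  have hz : ‖z.1.1‖ = 1 := z.2.1
  have h3 := real_inner_le_norm z.1.1 ((a : E) + (b : E))
  rw [inner_add_right, hz, one_mul] at h3
  have h4 : ‖(a : E) + (b : E)‖ ^ 2 = 2 := by
    rw [@norm_add_sq_real, S_norm, S_norm, hab]
    norm_num
  have h5 : (3 / 2 : ℝ) ≤ ‖(a : E) + (b : E)‖ := by linarith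
  nlinarith [norm_nonneg ((a : E) + (b : E))]

end Pool.Agent.DTW
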