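import Pool.Agent.DTW.Targets

/-!
# DTW: INT (two fibres meet in one point)
-/

set_option autoImplicit false

open scoped ContDiff

noncomputable section

namespace Pool.Agent.DTW

variable (E : Type) [NormedAddCommGroup E] [InnerProductSpace ℝ E] [FiniteDimensional ℝ E]

namespace INT_

theorem sg_half {u : ℝ} (h : sg u = 1 / 2) : u = 1 / 2 := by
  unfold sg Real.smoothTransition at h
  have hp := Real.smoothTransition.pos_denom u
  rw [div_eq_div_iff hp.ne' (by norm_num)] at h
  have h1 : expNegInvGlue u = expNegInvGlue (1 - u) := by linarith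
  have h2 : 0 < u := by
    by_contra hc
    have h3 := expNegInvGlue.zero_of_nonpos (not_lt.1 hc)
    have h4 : 0 < expNegInvGlue (1 - u) :=
      expNegInvGlue.pos_of_pos (by linarith [not_lt.1 hc])
    linarith
  have h2' : 0 < 1 - u := by
    by_contra hc
    have h3 := expNegInvGlue.zero_of_nonpos (not_lt.1 hc)
    have h4 : 0 < expNegInvGlue u := expNegInvGlue.pos_of_pos h2
    linarith
  unfold expNegInvGlue at h1
  rw [if_neg (not_le.2 h2), if_neg (not_le.2 h2')] at h1
  have h5 := Real.exp_injective h1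
  have h6 : u⁻¹ = (1 - u)⁻¹ := by linarith
  have h7 := inv_injective h6
  linarith

theorem theta_half {r : ℝ} (h : Real.cos (A0.θ r) = 0) : r = 3 / 2 ∧ A0.θ r = Real.pi / 2 := by
  have e : A0.θ r = Real.pi * (1 - sg (r - 1)) := rfl
  have h0 : 0 ≤ A0.θ r := by
    rw [e]
    exact mul_nonneg Real.pi_pos.le (by linarith [sg_le_one (r - 1)])
  have h1 : A0.θ r ≤ Real.pi := by
    rw [e]
    have := sg_nonneg (r - 1)
    nlinarith [Real.pi_pos]
  have h2 : A0.θ r = Real.pi / 2 := by
    refine Real.injOn_cos ⟨h0, h1⟩ ⟨by positivity, by linarith [Real.pi_pos]⟩ ?_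
    rw [h, Real.cos_pi_div_two]
  refine ⟨?_, h2⟩
  rw [e] at h2
  have h3 : sg (r - 1) = 1 / 2 := by
    have h4 : Real.pi * (1 - sg (r - 1)) = Real.pi * (1 / 2) := by rw [h2]; ring
    have h5 := mul_left_cancel₀ Real.pi_pos.ne' h4
    linarith
  have := sg_half h3
  linarith

variable {E}

omit [FiniteDimensional ℝ E] in
theorem point {a b : S E} (hab : inner ℝ (a : E) (b : E) = 0) {z : E × E} (hz : z ∈ TS E)
    (h1 : 1 ≤ inner ℝ z.1 (a : E)) (h2 : 1 ≤ inner ℝ (dtFun A0.θ z).1 (b : E)) :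
    z = ((a : E), (3 / 2 : ℝ) • (b : E)) := by
  have hd := dtFun_mem A0.θ A0.sin_zero hz
  have k1 : z.1 = (a : E) := by
    rw [← inner_eq_one_iff_of_norm_eq_one (𝕜 := ℝ) hz.1 (S_norm a)]
    refine le_antisymm ?_ h1
    have := real_inner_le_norm z.1 (a : E)
    rwa [hz.1, S_norm, one_mul] at this
  have k2 : (dtFun A0.θ z).1 = (b : E) := by
    rw [← inner_eq_one_iff_of_norm_eq_one (𝕜 := ℝ) hd.1 (S_norm b)]
    refine le_antisymm ?_ h2
    have := real_inner_le_norm (dtFun A0.θ z).1 (b : E)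
    rwa [hd.1, S_norm, one_mul] at this
  have k3 : Real.cos (A0.θ ‖z.2‖) • z.1 + (Real.sin (A0.θ ‖z.2‖) / ‖z.2‖) • z.2 = (b : E) := k2
  have k4 := congrArg (fun v => inner ℝ z.1 v) k3
  simp only [inner_add_right, inner_smul_right, real_inner_self_eq_norm_sq, hz.1, hz.2] at k4
  rw [k1, hab] at k4
  have k5 : Real.cos (A0.θ ‖z.2‖) = 0 := by linarith
  obtain ⟨k6, k7⟩ := theta_half k5
  rw [k5, k7, k6, Real.sin_pi_div_two, zero_smul, zero_add] at k3
  refine Prod.ext k1 ?_
  show z.2 = (3 / 2 : ℝ) • (b : E)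
  rw [← k3, smul_smul]
  norm_num

end INT_

open INT_ in
theorem p_INT (h_INB : T_INB E) (h_DTS : T_DTS E) : T_INT E := by
  intro a b hab V hV
  -- continuity of the flow
  have hc : Continuous (dtFun (E := E) A0.θ) := by
    have h0 : ∀ t r : ℝ, r < 1 → (fun w : ℝ × ℝ => A0.θ w.2) (t, r) = ((1 : ℤ) : ℝ) * Real.pi := by
      intro t r hr
      have h2 : sg (r - 1) = 0 := Real.smoothTransition.zero_of_nonpos (by linarith)
      have h3 : A0.θ r = Real.pi * (1 - sg (r - 1)) := rfl
      simp only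
      rw [h3, h2]
      simp
    have h1 := (h_DTS (fun w => A0.θ w.2) (A0.smooth.comp contDiff_snd)
      ⟨1, one_pos, 1, h0⟩).continuous
    have h3 : Continuous fun z : E × E => ((0 : ℝ), z) := by fun_prop
    have h4 := h1.comp h3
    exact h4
  have hc1 : Continuous fun z : E × E => inner ℝ z.1 (a : E) := by fun_prop
  have hc2 : Continuous fun z : E × E => inner ℝ (dtFun A0.θ z).1 (b : E) :=
    (continuous_fst.comp hc).inner continuous_const
  set m : E × E → ℝ := fun z => min (inner ℝ z.1 (a : E)) (inner ℝ (dtFun A0.θ z).1 (b : E))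
    with hm
  have hmc : Continuous m := hc1.min hc2
  set K : Set (E × E) := (TS E ∩ {z | ‖z.2‖ ≤ 2}) ∩ (interior V)ᶜ with hK
  have hTS : IsClosed (TS E) := by
    have h1 : IsClosed {z : E × E | ‖z.1‖ = 1} := isClosed_eq (by fun_prop) continuous_const
    have h2 : IsClosed {z : E × E | inner ℝ z.1 z.2 = 0} :=
      isClosed_eq (continuous_fst.inner continuous_snd) continuous_const
    exact h1.inter h2
  have hKcl : IsClosed K := by
    refine (hTS.inter ?_).inter isOpen_interior.isClosed_compl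
    exact isClosed_le (by fun_prop) continuous_const
  have hKcpt : IsCompact K := by
    have hpr : ProperSpace E := FiniteDimensional.proper_real E
    refine Metric.isCompact_of_isClosed_isBounded hKcl ?_
    refine Metric.isBounded_closedBall (x := (0 : E × E)) (r := 2) |>.subset ?_
    intro z hz
    rw [mem_closedBall_zero_iff, Prod.norm_def]
    refine max_le ?_ hz.1.2
    rw [hz.1.1.1]
    norm_num
  have hlt : ∀ z ∈ K, m z < 1 := by
    intro z hz
    by_contra hcon
    have h1 := not_lt.1 hcon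
    have h2 := point hab hz.1.1 (h1.trans (min_le_left _ _)) (h1.trans (min_le_right _ _))
    apply hz.2
    rw [h2]
    exact mem_interior_iff_mem_nhds.2 hV
  obtain ⟨M, hM, hKM⟩ : ∃ M < 1, ∀ z ∈ K, m z ≤ M := by
    rcases K.eq_empty_or_nonempty with h0 | h0
    · exact ⟨0, one_pos, fun z hz => by rw [h0] at hz; exact absurd hz (Set.notMem_empty z)⟩
    · obtain ⟨z, hz, hzm⟩ := hKcpt.exists_isMaxOn h0 hmc.continuousOn
      exact ⟨m z, hlt z hz, fun w hw => hzm hw⟩
  refine ⟨min (1 / 4) ((1 - M) / 2), lt_min (by norm_num) (by linarith), ?_⟩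
  intro z h1 h2
  have e1 : min (1 / 4) ((1 - M) / 2) ≤ 1 / 4 := min_le_left _ _
  have e2 : min (1 / 4) ((1 - M) / 2) ≤ (1 - M) / 2 := min_le_right _ _
  have h3 : ‖z.1.2‖ < 2 := h_INB a b hab z (by linarith) (by linarith)
  by_contra hcon
  have h4 : z.1 ∈ K := ⟨⟨z.2, h3.le⟩, fun h => hcon (interior_subset h)⟩
  have h5 := hKM z.1 h4
  have h6 : 1 - (1 - M) / 2 ≤ m z.1 := le_min (by linarith) (by linarith)
  linarith

end Pool.Agent.DTW
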