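import Pool.Agent.DTW.Targets

/-!
# DTW: isotopic diffeomorphisms act in the same way (ISO)
-/

set_option autoImplicit false

open scoped ContDiff

noncomputable section

namespace Pool.Agent.DTW

variable (E : Type) [NormedAddCommGroup E] [InnerProductSpace ℝ E] [FiniteDimensional ℝ E]

theorem p_ISO (h_PBP : T_PBP E) (h_PBS : T_PBS E) (h_CPT : T_CPT E) : T_ISO E := by
  intro φ ψ hφ hψ g hg
  obtain ⟨k, h1, h2, rfl⟩ := hψ
  have h3 : IsPath (S E) fun t => k t * φ := h1.mul (IsPath.const hφ)
  have h4 := h_CPT (fun t => pull (k t * φ)) (h_PBP _ h3)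
    (fun t => (h_PBS _ (h3.isDiffeo t)).2) g hg
  simp only [h2, one_mul] at h4
  exact h4

end Pool.Agent.DTW
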