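import Pool.Agent.DTW.Targets

/-!
# DTW-LMP: linear maps acting on the sphere
-/

set_option autoImplicit false

open scoped ContDiff

noncomputable section

namespace Pool.Agent.DTW

variable (E : Type) [NormedAddCommGroup E] [InnerProductSpace ℝ E] [FiniteDimensional ℝ E]

namespace LMP_

variable {E}

omit [FiniteDimensional ℝ E] in
theorem smooth_aux (B : ℝ → (E ≃ₗ[ℝ] E)) (h : ContDiff ℝ ∞ (fun w : ℝ × E => B w.1 w.2)) :
    ContDiffOn ℝ ∞ (fun w : ℝ × E => ‖B w.1 w.2‖⁻¹ • B w.1 w.2) (Set.univ ×ˢ S E) := by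
  intro w hw
  have hw2 : ‖w.2‖ = 1 := mem_S.1 hw.2
  have h0 : B w.1 w.2 ≠ 0 := norm_pos_iff.1 (lin_pos (B w.1) hw2)
  have h1 : ContDiffAt ℝ ∞ (fun w : ℝ × E => B w.1 w.2) w := h.contDiffAt
  have h2 : ContDiffAt ℝ ∞ (fun w : ℝ × E => ‖B w.1 w.2‖) w := h1.norm ℝ h0
  exact ((h2.inv (norm_ne_zero_iff.2 h0)).smul h1).contDiffWithinAt

end LMP_

theorem p_LMP : T_LMP E := by
  refine ⟨fun B C => Equiv.ext fun x => Subtype.ext ?_, fun B hB hB' => ⟨?_, ?_⟩⟩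
  · show ‖B (C x)‖⁻¹ • B (C x) = ‖B (‖C x‖⁻¹ • C x)‖⁻¹ • B (‖C x‖⁻¹ • C x)
    have h1 := lin_pos C (S_norm x)
    rw [map_smul, norm_smul, norm_inv, norm_norm, smul_smul, mul_inv, inv_inv, mul_comm ‖C x‖,
      mul_assoc, mul_inv_cancel₀ h1.ne', mul_one]
  · refine (LMP_.smooth_aux B hB).congr fun w hw => ?_
    have hw2 : w.2 ∈ S E := hw.2
    unfold lift
    rw [dif_pos hw2]
    rfl
  · refine (LMP_.smooth_aux (fun t => (B t).symm) hB').congr fun w hw => ?_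
    have hw2 : w.2 ∈ S E := hw.2
    unfold lift
    rw [dif_pos hw2]
    rfl

end Pool.Agent.DTW
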