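import Pool.Agent.DTW.Targets

/-! # DTW-LOC: localisation of the commutator -/

set_option autoImplicit false

open scoped ContDiff

noncomputable section

namespace Pool.Agent.DTW

variable (E : Type) [NormedAddCommGroup E] [InnerProductSpace ℝ E] [FiniteDimensional ℝ E]

namespace LOC_

theorem comm_fix {α : Type} (f g : Equiv.Perm α) (P Q : Set α) (z : α)
    (hf : ∀ z ∉ P, f z = z) (hg : ∀ z ∉ Q, g z = z) (h1 : ¬ (z ∈ P ∧ z ∈ Q))
    (h2 : ∀ w, w ∈ P → w ∈ Q → f w ≠ z) (h3 : ∀ w, w ∈ P → w ∈ Q → g w ≠ z) :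
    (f * g * f⁻¹ * g⁻¹) z = z := by
  have e : (f * g * f⁻¹ * g⁻¹) z = f (g (f⁻¹ (g⁻¹ z))) := rfl
  rw [e]
  by_cases hz : z ∈ Q
  · have hv : g (g⁻¹ z) = z := g.apply_symm_apply z
    set v := g⁻¹ z with hvdef
    have hvQ : v ∈ Q := by
      by_contra h
      have h4 := hg v h
      rw [hv] at h4
      rw [← h4] at h
      exact h hz
    have hvP : v ∉ P := fun h => h3 v h hvQ hv
    have h5 : f⁻¹ v = v := by
      rw [Equiv.Perm.inv_eq_iff_eq, hf v hvP]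
    have hzP : z ∉ P := fun h => h1 ⟨h, hz⟩
    rw [h5, hv, hf z hzP]
  · have h4 : g⁻¹ z = z := by
      rw [Equiv.Perm.inv_eq_iff_eq, hg z hz]
    rw [h4]
    have hw : f (f⁻¹ z) = z := f.apply_symm_apply z
    set w := f⁻¹ z with hwdef
    by_cases hwQ : w ∈ Q
    · have hwP : w ∉ P := fun h => h2 w h hwQ hw
      have h5 := hf w hwP
      rw [hw] at h5
      rw [← h5] at hwQ
      exact absurd hwQ hz
    · rw [hg w hwQ, hw]

theorem sg_half : sg (1 / 2) = 1 / 2 := by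
  unfold sg Real.smoothTransition
  have h1 : (0 : ℝ) < expNegInvGlue (1 / 2) := expNegInvGlue.pos_of_pos (by norm_num)
  have h2 : (1 : ℝ) - 1 / 2 = 1 / 2 := by norm_num
  rw [h2]
  field_simp
  norm_num

theorem theta_half : A0.θ (3 / 2) = Real.pi / 2 := by
  show Real.pi * (1 - sg (3 / 2 - 1)) = Real.pi / 2
  have h1 : (3 : ℝ) / 2 - 1 = 1 / 2 := by norm_num
  rw [h1, sg_half]
  ring

theorem cont_dt (hDTS : T_DTS E) : Continuous fun w : E × E => dtFun A0.θ w := by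
  have h1 := hDTS (fun q => A0.θ q.2) (A0.smooth.comp contDiff_snd) ⟨1, one_pos, 1, by
    intro t r hr
    have : sg (r - 1) = 0 := Real.smoothTransition.zero_of_nonpos (by linarith)
    show Real.pi * (1 - sg (r - 1)) = _
    rw [this]
    simp⟩
  exact h1.continuous.comp (f := fun w : E × E => ((0 : ℝ), w)) (by fun_prop)

theorem cont_dt_neg (hDTS : T_DTS E) : Continuous fun w : E × E => dtFun (-A0.θ) w := by
  have h1 := hDTS (fun q => -A0.θ q.2) (A0.smooth.comp contDiff_snd).neg ⟨1, one_pos, -1, by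
    intro t r hr
    have : sg (r - 1) = 0 := Real.smoothTransition.zero_of_nonpos (by linarith)
    show -(Real.pi * (1 - sg (r - 1))) = _
    rw [this]
    simp⟩
  exact h1.continuous.comp (f := fun w : E × E => ((0 : ℝ), w)) (by fun_prop)

variable {E}

omit [FiniteDimensional ℝ E] in
theorem dt_P (a b : S E) : dtFun A0.θ ((a : E), (3 / 2 : ℝ) • (b : E)) =
    ((b : E), -(3 / 2 : ℝ) • (a : E)) := by
  unfold dtFun
  have h1 : ‖(3 / 2 : ℝ) • (b : E)‖ = 3 / 2 := by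
    rw [norm_smul, S_norm, mul_one, Real.norm_of_nonneg (by norm_num)]
  simp only [h1, theta_half, Real.cos_pi_div_two, Real.sin_pi_div_two, zero_smul, zero_add,
    mul_one, zero_sub, smul_smul]
  refine Prod.ext ?_ ?_
  · show ((1 : ℝ) / (3 / 2) * (3 / 2)) • (b : E) = b
    have : (1 : ℝ) / (3 / 2) * (3 / 2) = 1 := by norm_num
    rw [this, one_smul]
  · show ((0 : ℝ) * (3 / 2)) • (b : E) - (3 / 2 : ℝ) • (a : E) = -(3 / 2 : ℝ) • (a : E)
    rw [zero_mul, zero_smul, zero_sub, neg_smul]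

/-- the lift fixes the points outside the cap -/
theorem fl_fix (hPBL : T_PBL E) (hBSP : T_BSP E) (a : S E) (p : E) (φ : Equiv.Perm (S E))
    (hφ : IsDiffeo (S E) φ) (l e : ℝ)
    (h : ∀ y : S E, inner ℝ (y : E) (a : E) < 1 - e → (bst a l * φ * (bst a l)⁻¹) y = y)
    (z : TS E) (hz : inner ℝ z.1.1 (a : E) < 1 - e) : fl a p φ l z = z := by
  have hb : IsDiffeo (S E) (bst a l) := (hBSP a (fun _ => l) contDiff_const).isDiffeo 0
  have hd : IsDiffeo (S E) (bst a l * φ * (bst a l)⁻¹) := (hb.mul hφ).mul hb.inv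
  have hU : IsOpen {y : E | inner ℝ y (a : E) < 1 - e} :=
    isOpen_lt (by fun_prop) continuous_const
  have h1 : pull (bst a l * φ * (bst a l)⁻¹) ((trn p)⁻¹ z) = (trn p)⁻¹ z := by
    refine hPBL _ _ hd hU (fun y hy => h y hy) ((trn p)⁻¹ z) ?_
    exact hz
  show trn p (pull (bst a l * φ * (bst a l)⁻¹) ((trn p)⁻¹ z)) = z
  rw [h1]
  exact Equiv.apply_symm_apply (trn p) z

end LOC_

open LOC_ in
/-- LOC -/
theorem p_LOC (hPBL : T_PBL E) (hBSP : T_BSP E) (hINT : T_INT E) (hSUP : T_SUP E)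
    (hFLN : T_FLN E) (hDTS : T_DTS E) : T_LOC E := by
  intro a b φ ψ hab hφ hψ hφa hψb V hV
  have hTS : (((a : E), (3 / 2 : ℝ) • (b : E)) : E × E) ∈ TS E := by
    refine ⟨S_norm a, ?_⟩
    show inner ℝ (a : E) ((3 / 2 : ℝ) • (b : E)) = 0
    rw [inner_smul_right, hab, mul_zero]
  have hPQ := dt_P a b
  have hQP : dtFun (-A0.θ) ((b : E), -(3 / 2 : ℝ) • (a : E)) =
      ((a : E), (3 / 2 : ℝ) • (b : E)) := by
    rw [← hPQ]
    exact dtFun_neg A0.θ A0.sin_zero hTS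
  -- the two neighbourhoods
  obtain ⟨W, hW, ε₁, hε₁, hf⟩ := hFLN a ((3 / 2 : ℝ) • (b : E)) φ hφ
    (by rw [inner_smul_right, hab, mul_zero]) hφa V hV
  have hV' : (fun w : E × E => dtFun (-A0.θ) w) ⁻¹' V ∈
      nhds (((b : E), -(3 / 2 : ℝ) • (a : E)) : E × E) := by
    refine (cont_dt_neg E hDTS).continuousAt.preimage_mem_nhds ?_
    show V ∈ nhds (dtFun (-A0.θ) ((b : E), -(3 / 2 : ℝ) • (a : E)))
    rw [hQP]
    exact hV
  obtain ⟨W', hW', ε₂, hε₂, hg⟩ := hFLN b (-(3 / 2 : ℝ) • (a : E)) ψ hψ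
    (by rw [inner_smul_right, real_inner_comm, hab, mul_zero]) hψb _ hV'
  have hW'' : (fun w : E × E => dtFun A0.θ w) ⁻¹' W' ∈
      nhds (((a : E), (3 / 2 : ℝ) • (b : E)) : E × E) := by
    refine (cont_dt E hDTS).continuousAt.preimage_mem_nhds ?_
    show W' ∈ nhds (dtFun A0.θ ((a : E), (3 / 2 : ℝ) • (b : E)))
    rw [hPQ]
    exact hW'
  obtain ⟨ε₃, hε₃, hint⟩ := hINT a b hab _ (Filter.inter_mem hV (Filter.inter_mem hW hW''))
  set e := min ε₁ (min ε₂ ε₃) with he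
  have he0 : 0 < e := lt_min hε₁ (lt_min hε₂ hε₃)
  have he1 : e ≤ ε₁ := min_le_left _ _
  have he2 : e ≤ ε₂ := (min_le_right _ _).trans (min_le_left _ _)
  have he3 : e ≤ ε₃ := (min_le_right _ _).trans (min_le_right _ _)
  obtain ⟨L₁, hL₁, hs₁⟩ := (hSUP a φ hφa).2 e he0
  obtain ⟨L₂, hL₂, hs₂⟩ := (hSUP b ψ hψb).2 e he0
  set l := max L₁ L₂ with hl
  have hl0 : 0 ≤ l := hL₁.trans (le_max_left _ _)
  have hSa := hs₁ l (le_max_left _ _)
  have hSb := hs₂ l (le_max_right _ _)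
  refine ⟨l, hl0, fun z hz => ?_⟩
  set f := fl a ((3 / 2 : ℝ) • (b : E)) φ l with hfdef
  set G := fl b (-(3 / 2 : ℝ) • (a : E)) ψ l with hGdef
  -- the supports
  have ffix : ∀ w : TS E, w ∉ {w : TS E | 1 - e ≤ inner ℝ w.1.1 (a : E)} → f w = w :=
    fun w hw => fl_fix hPBL hBSP a _ φ hφ l e hSa w (not_le.1 hw)
  have gfix : ∀ w : TS E, w ∉ {w : TS E | 1 - e ≤ inner ℝ (dtFun A0.θ w.1).1 (b : E)} →
      ((dt A0)⁻¹ * G * dt A0 : Equiv.Perm (TS E)) w = w := by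
    intro w hw
    have h1 : G (dt A0 w) = dt A0 w :=
      fl_fix hPBL hBSP b _ ψ hψ l e hSb (dt A0 w) (not_le.1 hw)
    show (dt A0)⁻¹ (G (dt A0 w)) = w
    rw [h1]
    exact Equiv.symm_apply_apply (dt A0) w
  have hK : ∀ w : TS E, w ∈ {w : TS E | 1 - e ≤ inner ℝ w.1.1 (a : E)} →
      w ∈ {w : TS E | 1 - e ≤ inner ℝ (dtFun A0.θ w.1).1 (b : E)} →
      w.1 ∈ V ∧ w.1 ∈ W ∧ dtFun A0.θ w.1 ∈ W' := by
    intro w h1 h2
    have h1' : 1 - e ≤ inner ℝ w.1.1 (a : E) := h1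
    have h2' : 1 - e ≤ inner ℝ (dtFun A0.θ w.1).1 (b : E) := h2
    exact hint w (by linarith) (by linarith)
  have fK : ∀ w : TS E, w ∈ {w : TS E | 1 - e ≤ inner ℝ w.1.1 (a : E)} →
      w ∈ {w : TS E | 1 - e ≤ inner ℝ (dtFun A0.θ w.1).1 (b : E)} → (f w).1 ∈ V := by
    intro w h1 h2
    have h1' : 1 - e ≤ inner ℝ w.1.1 (a : E) := h1
    exact hf l w hl0 (fun y hy => hSa y (by linarith)) (hK w h1 h2).2.1 (by linarith)
  have gK : ∀ w : TS E, w ∈ {w : TS E | 1 - e ≤ inner ℝ w.1.1 (a : E)} →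
      w ∈ {w : TS E | 1 - e ≤ inner ℝ (dtFun A0.θ w.1).1 (b : E)} →
      (((dt A0)⁻¹ * G * dt A0 : Equiv.Perm (TS E)) w).1 ∈ V := by
    intro w h1 h2
    have h2' : 1 - e ≤ inner ℝ (dtFun A0.θ w.1).1 (b : E) := h2
    have h3 := hg l (dt A0 w) hl0 (fun y hy => hSb y (by linarith)) (hK w h1 h2).2.2
      (by show 1 - ε₂ ≤ inner ℝ (dtFun A0.θ w.1).1 (b : E); linarith)
    exact h3
  -- membership of `z` in the intersection of the supports is impossible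
  refine comm_fix f ((dt A0)⁻¹ * G * dt A0) _ _ z ffix gfix ?_ ?_ ?_
  · rintro ⟨h1, h2⟩
    exact hz (hK z h1 h2).1
  · intro w h1 h2 h3
    exact hz (h3 ▸ fK w h1 h2)
  · intro w h1 h2 h3
    exact hz (h3 ▸ gK w h1 h2)

end Pool.Agent.DTW
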