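import Pool.Agent.DTW.Targets

/-!
# DTW: the theorem for the special angle function (MAI)
-/

set_option autoImplicit false

open scoped ContDiff

noncomputable section

namespace Pool.Agent.DTW

variable (E : Type) [NormedAddCommGroup E] [InnerProductSpace ℝ E] [FiniteDimensional ℝ E]

namespace MAI_

variable {E}

theorem sg_half : sg (1 / 2) = 1 / 2 := by
  have h : (1 : ℝ) - 1 / 2 = 1 / 2 := by norm_num
  have h1 : 0 < expNegInvGlue (1 / 2 : ℝ) := expNegInvGlue.pos_of_pos (by norm_num)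
  show Real.smoothTransition (1 / 2) = 1 / 2
  unfold Real.smoothTransition
  rw [h]
  field_simp
  ring

theorem angle_half : A0.θ (3 / 2) = Real.pi / 2 := by
  show Real.pi * (1 - sg (3 / 2 - 1)) = Real.pi / 2
  have h : (3 / 2 : ℝ) - 1 = 1 / 2 := by norm_num
  rw [h, sg_half]
  ring

omit [FiniteDimensional ℝ E] in
theorem dt_P (a b : S E) :
    (dtFun A0.θ (((a : E), (3 / 2 : ℝ) • (b : E)) : E × E)).1 = b := by
  have h1 : ‖(3 / 2 : ℝ) • (b : E)‖ = 3 / 2 := by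
    rw [norm_smul, S_norm, mul_one, Real.norm_of_nonneg (by norm_num)]
  unfold dtFun
  simp only [h1, angle_half, Real.cos_pi_div_two, Real.sin_pi_div_two, zero_smul, zero_add,
    smul_smul]
  norm_num

omit [FiniteDimensional ℝ E] in
theorem dt_cont' (h_DTS : T_DTS E) (A : Angle) : Continuous fun z : E × E => dtFun A.θ z := by
  have h1 : ContDiff ℝ ∞ fun w : ℝ × ℝ => A.θ w.2 := A.smooth.comp contDiff_snd
  have h2 : ∃ ε > 0, ∃ k : ℤ, ∀ t r : ℝ, r < ε → A.θ (t, r).2 = k * Real.pi := by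
    obtain ⟨ε, hε, h | h⟩ := A.zero
    · exact ⟨ε, hε, 1, fun t r hr => by
        show A.θ r = _
        rw [h r hr, Int.cast_one, one_mul]⟩
    · exact ⟨ε, hε, -1, fun t r hr => by
        show A.θ r = _
        rw [h r hr, Int.cast_neg, Int.cast_one, neg_mul, one_mul]⟩
  have h3 := (h_DTS (fun w => A.θ w.2) h1 h2).continuous
  have h4 : Continuous fun z : E × E => ((0 : ℝ), z) := by fun_prop
  have h5 := h3.comp h4
  exact h5

theorem dt_cont (h_DTS : T_DTS E) : Continuous fun z : E × E => dtFun A0.θ z :=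
  dt_cont' h_DTS A0

omit [FiniteDimensional ℝ E] in
theorem bessel (a b y : S E) (hab : inner ℝ (a : E) (b : E) = 0) :
    (inner ℝ (y : E) (a : E)) ^ 2 + (inner ℝ (y : E) (b : E)) ^ 2 ≤ 1 := by
  have h0 : 0 ≤ ‖(y : E) - (inner ℝ (y : E) (a : E)) • (a : E) -
      (inner ℝ (y : E) (b : E)) • (b : E)‖ ^ 2 := sq_nonneg _
  rw [@norm_sub_sq_real, @norm_sub_sq_real, norm_smul, norm_smul, inner_smul_right,
    inner_smul_right, inner_sub_left, inner_smul_left, hab, S_norm, S_norm, S_norm] at h0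
  simp only [mul_one, Real.norm_eq_abs, sq_abs, conj_trivial, mul_zero, sub_zero, one_pow] at h0
  nlinarith

theorem commute_of {α : Type} {u v : Equiv.Perm α} (h : ∀ x, u x = x ∨ v x = x) :
    u * v = v * u :=
  (Equiv.Perm.Disjoint.commute (f := u) (g := v) h).eq

omit [FiniteDimensional ℝ E] in
theorem IS_pow {φ ψ : Equiv.Perm (S E)} (hφ : IsDiffeo (S E) φ) (hψ : ψ ∈ IS E) (k : ℕ) :
    (ψ * φ) ^ k * (φ ^ k)⁻¹ ∈ IS E := by
  have hp : ∀ k : ℕ, IsDiffeo (S E) (φ ^ k) := by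
    intro k
    induction k with
    | zero => rw [pow_zero]; exact IsDiffeo.one
    | succ k ih => rw [pow_succ]; exact ih.mul hφ
  induction k with
  | zero => simp
  | succ k ih =>
    have h1 : (ψ * φ) ^ (k + 1) * (φ ^ (k + 1))⁻¹ =
        ((ψ * φ) ^ k * (φ ^ k)⁻¹) * (φ ^ k * ψ * (φ ^ k)⁻¹) := by
      rw [pow_succ, pow_succ]
      group
    rw [h1]
    exact (IS E).mul_mem ih (IS_conj (hp k) hψ)

theorem pow_congr {G : Type} [Group G] {S₀ N : Subgroup G}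
    (hSN : ∀ s ∈ S₀, ∀ g ∈ N, s * g * s⁻¹ ∈ N) {u v : G} (hu : u ∈ S₀)
    (huv : u * v⁻¹ ∈ N) (k : ℕ) : u ^ k * (v ^ k)⁻¹ ∈ N := by
  induction k with
  | zero => simp
  | succ k ih =>
    have h1 : u ^ (k + 1) * (v ^ (k + 1))⁻¹ = (u * (u ^ k * (v ^ k)⁻¹) * u⁻¹) * (u * v⁻¹) := by
      rw [pow_succ' u, pow_succ' v, mul_inv_rev]
      group
    rw [h1]
    exact N.mul_mem (hSN u hu _ ih) huv

end MAI_

open MAI_ in
theorem p_MAI (h_PB1 : T_PB1 E) (h_PBS : T_PBS E) (h_PBL : T_PBL E) (h_CAP : T_CAP E)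
    (h_DTS : T_DTS E) (h_DTC : T_DTC E) (h_NRM : T_NRM E) (h_ALG : T_ALG) (h_LOC : T_LOC E)
    (h_ISO : T_ISO E) (h_CMP : T_CMP E) : T_MAI E := by
  intro hdim φ m hφ hor hm
  -- two orthonormal vectors
  obtain ⟨a, b, hab⟩ : ∃ a b : S E, inner ℝ (a : E) (b : E) = 0 := by
    let B := stdOrthonormalBasis ℝ E
    refine ⟨⟨B ⟨0, by omega⟩, mem_S.2 (B.norm_eq_one _)⟩,
      ⟨B ⟨1, by omega⟩, mem_S.2 (B.norm_eq_one _)⟩, ?_⟩
    exact B.inner_eq_zero (by simp)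
  obtain ⟨c, hc⟩ : ∃ c : S E, (c : E) = -(a : E) :=
    ⟨⟨-(a : E), mem_S.2 (by rw [norm_neg, S_norm])⟩, rfl⟩
  obtain ⟨ψa, hψa, ha⟩ := h_CAP hdim φ hφ hor a (1 / 4) (by norm_num)
  obtain ⟨ψb, hψb, hb⟩ := h_CAP hdim φ hφ hor b (1 / 4) (by norm_num)
  obtain ⟨ψc, hψc, hcc⟩ := h_CAP hdim φ hφ hor c (1 / 4) (by norm_num)
  have e34 : (1 : ℝ) - 1 / 4 = 3 / 4 := by norm_num
  rw [e34] at ha hb hcc
  have hda : IsDiffeo (S E) (ψa * φ) := (IsoS.isDiffeo hψa).mul hφ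
  have hdb : IsDiffeo (S E) (ψb * φ) := (IsoS.isDiffeo hψb).mul hφ
  have hdc : IsDiffeo (S E) (ψc * φ) := (IsoS.isDiffeo hψc).mul hφ
  -- the neighbourhood
  have hVo : IsOpen {z : E × E | inner ℝ z.1 (c : E) < 3 / 4 ∧
      inner ℝ (dtFun A0.θ z).1 (c : E) < 3 / 4} := by
    have h1 : IsOpen {z : E × E | inner ℝ z.1 (c : E) < 3 / 4} :=
      isOpen_lt (by fun_prop) continuous_const
    have h2 : IsOpen {z : E × E | inner ℝ (dtFun A0.θ z).1 (c : E) < 3 / 4} :=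
      isOpen_lt ((continuous_fst.comp (dt_cont h_DTS)).inner continuous_const)
        continuous_const
    exact h1.inter h2
  have hVm : (((a : E), (3 / 2 : ℝ) • (b : E)) : E × E) ∈ {z : E × E |
      inner ℝ z.1 (c : E) < 3 / 4 ∧ inner ℝ (dtFun A0.θ z).1 (c : E) < 3 / 4} := by
    constructor
    · show inner ℝ (a : E) (c : E) < 3 / 4
      rw [hc, inner_neg_right, S_inner_self]
      norm_num
    · rw [dt_P, hc, inner_neg_right, real_inner_comm, hab]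
      norm_num
  obtain ⟨l, hl, hloc⟩ := h_LOC a b (ψa * φ) (ψb * φ) hab hda hdb ha hb _
    (hVo.mem_nhds hVm)
  obtain ⟨f, hf⟩ : ∃ f, f = fl a ((3 / 2 : ℝ) • (b : E)) (ψa * φ) l := ⟨_, rfl⟩
  obtain ⟨g, hg⟩ : ∃ g, g = (dt A0)⁻¹ * fl b (-(3 / 2 : ℝ) • (a : E)) (ψb * φ) l * dt A0 :=
    ⟨_, rfl⟩
  rw [← hf, ← hg] at hloc
  obtain ⟨hz1, hz2⟩ := h_CMP a b (ψa * φ) (ψb * φ) l hl hab hda hdb ha hb f g hf hg
  have hSN : ∀ s ∈ SG E, ∀ g ∈ NG E, s * g * s⁻¹ ∈ NG E := fun s hs => (h_NRM s hs).2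
  have hSC : ∀ s ∈ SG E, ∀ g ∈ CG E, s * g * s⁻¹ ∈ CG E := fun s hs => (h_NRM s hs).1
  have hpulll : ∀ k : ℕ, pull ((ψb * φ) ^ k) = (pull (ψb * φ)) ^ k := by
    have hp : ∀ k : ℕ, IsDiffeo (S E) ((ψb * φ) ^ k) := by
      intro k
      induction k with
      | zero => rw [pow_zero]; exact IsDiffeo.one
      | succ k ih => rw [pow_succ]; exact ih.mul hdb
    intro k
    induction k with
    | zero => rw [pow_zero, pow_zero]; exact h_PB1.2.2
    | succ k ih => rw [pow_succ, h_PB1.2.1 _ _ (hp k) hdb, ih, pow_succ']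
  have hisom : (ψb * φ) ^ m ∈ IS E := by
    have h1 := IS_pow hφ hψb m
    have h2 := (IS E).mul_mem h1 hm
    rwa [inv_mul_cancel_right] at h2
  have key := h_ALG (Equiv.Perm (TS E)) (SG E) (CG E) (NG E) NG_le_CG CG_le_SG hSC hSN
    (dt A0) (pull (ψb * φ)) (pull (ψa * φ)) (pull (ψc * φ)) (f * g * f⁻¹ * g⁻¹) m (h_DTC A0)
    (h_PBS _ hdb) (h_PBS _ hda) (h_PBS _ hdc) hz1
    (fun x hx => by
      have h1 := h_ISO (ψa * φ) (ψb * ψa⁻¹) hda
        ((IS E).mul_mem hψb ((IS E).inv_mem hψa)) x hx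
      have e : ψb * ψa⁻¹ * (ψa * φ) = ψb * φ := by group
      rwa [e] at h1)
    (fun x hx => by
      have h1 := h_ISO (ψc * φ) (ψb * ψc⁻¹) hdc
        ((IS E).mul_mem hψb ((IS E).inv_mem hψc)) x hx
      have e : ψb * ψc⁻¹ * (ψc * φ) = ψb * φ := by group
      rwa [e] at h1)
    (by
      rw [← h_PB1.2.1 _ _ hda hdb, ← h_PB1.2.1 _ _ hdb hda]
      congr 1
      refine commute_of fun y => ?_
      by_contra h
      push Not at h
      have h1 : 3 / 4 ≤ inner ℝ (y : E) (a : E) := by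
        by_contra h2
        exact h.1 (ha y (not_le.1 h2))
      have h2 : 3 / 4 ≤ inner ℝ (y : E) (b : E) := by
        by_contra h2
        exact h.2 (hb y (not_le.1 h2))
      have h3 := bessel a b y hab
      nlinarith)
    hz2
    (commute_of fun z => by
      by_cases hz : z.1 ∈ {z : E × E | inner ℝ z.1 (c : E) < 3 / 4 ∧
          inner ℝ (dtFun A0.θ z).1 (c : E) < 3 / 4}
      · left
        exact h_PBL (ψc * φ) {y | inner ℝ y (c : E) < 3 / 4} hdc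
          (isOpen_lt (by fun_prop) continuous_const) (fun y hy => hcc y hy) z hz.1
      · right
        exact hloc z hz)
    (commute_of fun z => by
      by_cases hz : z.1 ∈ {z : E × E | inner ℝ z.1 (c : E) < 3 / 4 ∧
          inner ℝ (dtFun A0.θ z).1 (c : E) < 3 / 4}
      · left
        have h1 : pull (ψc * φ) (dt A0 z) = dt A0 z :=
          h_PBL (ψc * φ) {y | inner ℝ y (c : E) < 3 / 4} hdc
            (isOpen_lt (by fun_prop) continuous_const) (fun y hy => hcc y hy) (dt A0 z) hz.2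
        rw [Equiv.Perm.mul_apply, Equiv.Perm.mul_apply, h1]
        exact (dt A0).symm_apply_apply z
      · right
        exact hloc z hz)
    (fun x hx => by
      have h1 := h_ISO 1 ((ψb * φ) ^ m) IsDiffeo.one hisom x hx
      rw [mul_one, h_PB1.2.2, hpulll, one_mul, inv_one, mul_one] at h1
      exact h1)
  -- from `ψb * φ` to `φ`
  have h1 := h_ISO φ ψb hφ hψb (dt A0) (h_DTC A0)
  have hu : (dt A0)⁻¹ * (pull (ψb * φ) * dt A0 * (pull (ψb * φ))⁻¹) ∈ SG E :=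
    (SG E).mul_mem ((SG E).inv_mem (CG_le_SG (h_DTC A0)))
      (CG_le_SG (hSC _ (h_PBS _ hdb) _ (h_DTC A0)))
  have h2 : ((dt A0)⁻¹ * (pull (ψb * φ) * dt A0 * (pull (ψb * φ))⁻¹)) *
      ((dt A0)⁻¹ * (pull φ * dt A0 * (pull φ)⁻¹))⁻¹ ∈ NG E := by
    have h3 := hSN (dt A0)⁻¹ ((SG E).inv_mem (CG_le_SG (h_DTC A0))) _ h1
    have h4 : ((dt A0)⁻¹ * (pull (ψb * φ) * dt A0 * (pull (ψb * φ))⁻¹)) *
        ((dt A0)⁻¹ * (pull φ * dt A0 * (pull φ)⁻¹))⁻¹ =
        (dt A0)⁻¹ * ((pull (ψb * φ) * dt A0 * (pull (ψb * φ))⁻¹) *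
          (pull φ * dt A0 * (pull φ)⁻¹)⁻¹) * ((dt A0)⁻¹)⁻¹ := by group
    rw [h4]
    exact h3
  have h3 := pow_congr hSN hu h2 (2 * m)
  have h4 := (NG E).mul_mem ((NG E).inv_mem h3) key
  rw [mul_inv_rev, inv_inv, mul_assoc, inv_mul_cancel, mul_one] at h4
  exact h4

end Pool.Agent.DTW
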