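import Pool.Agent.DTW.Targets

/-!
# DTW: conjugation by symplectomorphisms preserves compact supports and isotopies
-/

set_option autoImplicit false

open scoped ContDiff

noncomputable section

namespace Pool.Agent.DTW

variable (E : Type) [NormedAddCommGroup E] [InnerProductSpace ℝ E] [FiniteDimensional ℝ E]

namespace NRM_

variable {E}

omit [FiniteDimensional ℝ E] in
theorem isClosed_TS : IsClosed (TS E) := by
  have h1 : IsClosed {z : E × E | ‖z.1‖ = 1} :=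
    isClosed_eq continuous_fst.norm continuous_const
  have h2 : IsClosed {z : E × E | inner ℝ z.1 z.2 = 0} :=
    isClosed_eq (continuous_fst.inner continuous_snd) continuous_const
  exact h1.inter h2

/-- the part of the cotangent bundle where the covector has norm at most `R` is compact -/
theorem isCompact_disc (R : ℝ) : IsCompact {z : E × E | z ∈ TS E ∧ ‖z.2‖ ≤ R} := by
  have : ProperSpace E := FiniteDimensional.proper_real E
  refine Metric.isCompact_of_isClosed_isBounded ?_ ?_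
  · exact isClosed_TS.inter (isClosed_le continuous_snd.norm continuous_const)
  · refine isBounded_iff_forall_norm_le.2 ⟨max 1 R, fun z hz => ?_⟩
    rw [Prod.norm_def]
    exact max_le_max hz.1.1.le hz.2

omit [FiniteDimensional ℝ E] in
theorem apply_inv (Φ : Equiv.Perm (TS E)) (z : TS E) : Φ (Φ⁻¹ z) = z := by
  rw [← Equiv.Perm.mul_apply, mul_inv_cancel, Equiv.Perm.one_apply]

/-- The image of a disc bundle under a diffeomorphism is contained in a disc bundle. -/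
theorem exists_bound {Φ : Equiv.Perm (TS E)} (hΦ : IsDiffeo (TS E) Φ) (R : ℝ) :
    ∃ R' : ℝ, ∀ z : TS E, R' < ‖z.1.2‖ → R < ‖(Φ⁻¹ z).1.2‖ := by
  have hc : ContinuousOn (lift (TS E) Φ) {z : E × E | z ∈ TS E ∧ ‖z.2‖ ≤ R} :=
    hΦ.1.continuousOn.mono fun z hz => hz.1
  obtain ⟨C, hC⟩ := (isCompact_disc (E := E) R).exists_bound_of_continuousOn hc
  refine ⟨C, fun z hz => ?_⟩
  by_contra hcon
  have h1 := hC (Φ⁻¹ z).1 ⟨(Φ⁻¹ z).2, not_lt.1 hcon⟩
  rw [lift_coe, apply_inv] at h1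
  exact absurd (lt_of_lt_of_le hz ((norm_snd_le z.1).trans h1)) (lt_irrefl _)

omit [FiniteDimensional ℝ E] in
theorem conj_apply {Φ g : Equiv.Perm (TS E)} {z : TS E} (h : g (Φ⁻¹ z) = Φ⁻¹ z) :
    (Φ * g * Φ⁻¹) z = z := by
  rw [Equiv.Perm.mul_apply, Equiv.Perm.mul_apply, h, apply_inv]

end NRM_

theorem p_NRM : T_NRM E := by
  intro Φ hΦ
  refine ⟨fun g hg => ?_, fun g hg => ?_⟩
  · obtain ⟨h1, h2, R, hR⟩ := hg
    refine ⟨(hΦ.1.mul h1).mul hΦ.1.inv,
      (hΦ.2.mul h1 h2).mul hΦ.1.inv (hΦ.2.inv hΦ.1), ?_⟩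
    obtain ⟨R', hR'⟩ := NRM_.exists_bound hΦ.1 R
    exact ⟨R', fun z hz => NRM_.conj_apply (hR _ (hR' z hz))⟩
  · obtain ⟨h, h1, h2, ⟨R, hR⟩, h4, rfl⟩ := hg
    refine ⟨fun t => Φ * h t * Φ⁻¹, ((IsPath.const hΦ.1).mul h1).mul (IsPath.const hΦ.1.inv),
      fun t => (hΦ.2.mul (h1.isDiffeo t) (h2 t)).mul hΦ.1.inv (hΦ.2.inv hΦ.1), ?_, ?_, rfl⟩
    · obtain ⟨R', hR'⟩ := NRM_.exists_bound hΦ.1 R
      exact ⟨R', fun t z hz => NRM_.conj_apply (hR t _ (hR' z hz))⟩
    · simp [h4]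

end Pool.Agent.DTW
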