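import Pool.Agent.DTW.Targets

/-!
# DTW: target PB1 (functoriality of the pull-back)
-/

set_option autoImplicit false

open scoped ContDiff

noncomputable section

namespace Pool.Agent.DTW

namespace PB1_

section

variable {E : Type} [NormedAddCommGroup E] [InnerProductSpace ℝ E]

theorem nrm_mem' {y : E} (h : y ≠ 0) : ‖y‖⁻¹ • y ∈ S E := nrm_mem (norm_pos_iff.2 h)

omit [InnerProductSpace ℝ E] in
theorem zero_not : (0 : E) ∉ S E := by
  rw [mem_S, norm_zero]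
  exact zero_ne_one

theorem ext_coe (φ : Equiv.Perm (S E)) (x : S E) : ext φ (x : E) = (φ x : E) := by
  unfold ext
  rw [S_norm, inv_one, one_smul, lift_coe]

theorem ext_mul (φ ψ : Equiv.Perm (S E)) : ext (φ * ψ) = ext φ ∘ ext ψ := by
  funext y
  rcases eq_or_ne y 0 with rfl | hy
  · have h0 : ∀ χ : Equiv.Perm (S E), ext χ (0 : E) = 0 := fun χ => by
      unfold ext
      rw [smul_zero, lift_of_not χ zero_not]
    rw [Function.comp_apply, h0 ψ, h0 φ, h0]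
  · have h1 := nrm_mem' hy
    have h2 : ext ψ y ∈ S E := lift_mem ψ h1
    have h3 : ‖ext ψ y‖ = 1 := mem_S.1 h2
    rw [Function.comp_apply]
    have h4 : ext φ (ext ψ y) = lift (S E) φ (ext ψ y) := by
      conv_lhs => rw [ext, h3, inv_one, one_smul]
    rw [h4]
    exact lift_mul φ ψ _

theorem inner_ext_one {x q : E} (hx : ‖x‖ = 1) (hq : inner ℝ x q = 0) (ξ : E) :
    inner ℝ q (fderiv ℝ (ext (1 : Equiv.Perm (S E))) x ξ) = inner ℝ q ξ := by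
  have hx0 : x ≠ 0 := fun h => by
    rw [h, norm_zero] at hx
    exact zero_ne_one hx
  have hn : DifferentiableAt ℝ (fun y : E => ‖y‖⁻¹) x :=
    ((contDiffAt_norm ℝ hx0 (n := 1)).differentiableAt (by simp)).inv (norm_ne_zero_iff.2 hx0)
  have h1 := hn.hasFDerivAt.smul (hasFDerivAt_id x)
  have e : ext (1 : Equiv.Perm (S E)) = fun y : E => ‖y‖⁻¹ • id y := by
    funext y
    unfold ext
    rw [lift_one]
    rfl
  rw [e]
  have h2 := h1.fderiv
  have h3 : fderiv ℝ (fun y : E => ‖y‖⁻¹ • id y) x = _ := h2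
  rw [h3]
  have hq' : inner ℝ q x = 0 := by
    rw [real_inner_comm]
    exact hq
  simp only [add_apply,
    ContinuousLinearMap.id_apply, ContinuousLinearMap.smulRight_apply, id, hx, inv_one, one_smul,
    inner_add_right, inner_smul_right, hq', mul_zero, add_zero]

end

variable {E : Type} [NormedAddCommGroup E] [InnerProductSpace ℝ E] [FiniteDimensional ℝ E]

omit [FiniteDimensional ℝ E] in
theorem diff_ext (h_EXT : T_EXT E) {φ : Equiv.Perm (S E)} (hφ : IsDiffeo (S E) φ) {x : E}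
    (hx : x ≠ 0) : DifferentiableAt ℝ (ext φ) x := by
  have h1 := h_EXT (fun _ => φ) (IsPath.const hφ)
  have h2 : ContDiffOn ℝ ∞ (ext φ) {y : E | y ≠ 0} := by
    have h3 : ContDiffOn ℝ ∞ (fun y : E => ((0 : ℝ), y)) {y : E | y ≠ 0} :=
      contDiffOn_const.prodMk contDiffOn_id
    exact h1.comp h3 fun y hy => hy
  have ho : IsOpen {y : E | y ≠ 0} := isOpen_ne
  exact (h2.contDiffAt (ho.mem_nhds hx)).differentiableAt (by simp)

theorem pullFun_one (z : TS E) : pullFun (1 : Equiv.Perm (S E)) z = z := by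
  refine Subtype.ext (Prod.ext rfl ?_)
  have hz := z.2
  have h1 : ∀ ξ : E, inner ℝ (LinearMap.adjoint
      (fderiv ℝ (ext (1 : Equiv.Perm (S E))) z.1.1 : E →ₗ[ℝ] E) z.1.2) ξ =
      inner ℝ z.1.2 ξ := by
    intro ξ
    rw [LinearMap.adjoint_inner_left]
    exact inner_ext_one hz.1 hz.2 ξ
  exact ext_inner_right ℝ h1

theorem pullFun_mul (h_EXT : T_EXT E) {φ ψ : Equiv.Perm (S E)} (hφ : IsDiffeo (S E) φ)
    (hψ : IsDiffeo (S E) ψ) (z : TS E) :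
    pullFun (φ * ψ) z = pullFun ψ (pullFun φ z) := by
  refine Subtype.ext (Prod.ext ?_ ?_)
  · show (((φ * ψ)⁻¹ ⟨z.1.1, _⟩ : S E) : E) = ((ψ⁻¹ ⟨((φ⁻¹ ⟨z.1.1, _⟩ : S E) : E), _⟩ : S E) : E)
    rw [mul_inv_rev]
    rfl
  · have hy : z.1.1 ∈ S E := by
      rw [mem_S]
      exact z.2.1
    have e0 : ((φ * ψ)⁻¹ ⟨z.1.1, hy⟩ : S E) = ψ⁻¹ (φ⁻¹ ⟨z.1.1, hy⟩) := by
      rw [mul_inv_rev]
      rfl
    have e1 : (ψ (ψ⁻¹ (φ⁻¹ ⟨z.1.1, hy⟩)) : S E) = φ⁻¹ ⟨z.1.1, hy⟩ :=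
      Equiv.apply_symm_apply ψ _
    have hx0 : ∀ x : S E, (x : E) ≠ 0 := fun x h => by
      have := S_norm x
      rw [h, norm_zero] at this
      exact zero_ne_one this
    have e2 : fderiv ℝ (ext (φ * ψ)) ((ψ⁻¹ (φ⁻¹ ⟨z.1.1, hy⟩) : S E) : E) =
        (fderiv ℝ (ext φ) ((φ⁻¹ ⟨z.1.1, hy⟩ : S E) : E)).comp
          (fderiv ℝ (ext ψ) ((ψ⁻¹ (φ⁻¹ ⟨z.1.1, hy⟩) : S E) : E)) := by
      rw [ext_mul, fderiv_comp]
      · rw [ext_coe, e1]
      · rw [ext_coe, e1]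
        exact diff_ext h_EXT hφ (hx0 _)
      · exact diff_ext h_EXT hψ (hx0 _)
    show LinearMap.adjoint (fderiv ℝ (ext (φ * ψ)) (((φ * ψ)⁻¹ ⟨z.1.1, hy⟩ : S E) : E) :
        E →ₗ[ℝ] E) z.1.2 =
      LinearMap.adjoint (fderiv ℝ (ext ψ) ((ψ⁻¹ (φ⁻¹ ⟨z.1.1, hy⟩) : S E) : E) : E →ₗ[ℝ] E)
        (LinearMap.adjoint (fderiv ℝ (ext φ) ((φ⁻¹ ⟨z.1.1, hy⟩ : S E) : E) : E →ₗ[ℝ] E) z.1.2)
    rw [e0, e2]
    refine ext_inner_right ℝ fun ξ => ?_
    rw [LinearMap.adjoint_inner_left, LinearMap.adjoint_inner_left, LinearMap.adjoint_inner_left]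
    rfl

theorem pullFun_bij (h_EXT : T_EXT E) {φ : Equiv.Perm (S E)} (hφ : IsDiffeo (S E) φ) :
    Function.Bijective (pullFun φ) := by
  refine Function.bijective_iff_has_inverse.2 ⟨pullFun φ⁻¹, fun z => ?_, fun z => ?_⟩
  · rw [← pullFun_mul h_EXT hφ hφ.inv, mul_inv_cancel, pullFun_one]
  · rw [← pullFun_mul h_EXT hφ.inv hφ, inv_mul_cancel, pullFun_one]

theorem pull_apply (h_EXT : T_EXT E) {φ : Equiv.Perm (S E)} (hφ : IsDiffeo (S E) φ) (z : TS E) :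
    pull φ z = pullFun φ z := by
  unfold pull
  rw [dif_pos (pullFun_bij h_EXT hφ)]
  rfl

end PB1_

variable (E : Type) [NormedAddCommGroup E] [InnerProductSpace ℝ E] [FiniteDimensional ℝ E]

open PB1_ in
/-- PB1 -/
theorem p_PB1 (h_EXT : T_EXT E) : T_PB1 E := by
  refine ⟨fun φ hφ => ⟨fun z => pull_apply h_EXT hφ z, ?_⟩, fun φ ψ hφ hψ => ?_, ?_⟩
  · refine (inv_eq_of_mul_eq_one_left ?_).symm
    refine Equiv.ext fun z => ?_
    rw [Equiv.Perm.mul_apply, pull_apply h_EXT hφ, pull_apply h_EXT hφ.inv,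
      ← pullFun_mul h_EXT hφ hφ.inv, mul_inv_cancel, pullFun_one]
    rfl
  · refine Equiv.ext fun z => ?_
    rw [Equiv.Perm.mul_apply, pull_apply h_EXT (hφ.mul hψ), pull_apply h_EXT hψ,
      pull_apply h_EXT hφ, pullFun_mul h_EXT hφ hψ]
  · refine Equiv.ext fun z => ?_
    rw [pull_apply h_EXT IsDiffeo.one, pullFun_one]
    rfl

end Pool.Agent.DTW
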