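import Pool.Agent.DTW.Targets

/-!
# DTW: target PBB (helper91)
-/

set_option autoImplicit false

open scoped ContDiff

noncomputable section

namespace Pool.Agent.DTW

namespace PBB_

section

variable {E : Type} [NormedAddCommGroup E] [InnerProductSpace ℝ E]

theorem hasFDerivAt_norm {x : E} (hx : ‖x‖ = 1) :
    HasFDerivAt (fun y : E => ‖y‖) (innerSL ℝ x) x := by
  have h1 := (hasStrictFDerivAt_norm_sq x).hasFDerivAt.sqrt (by rw [hx]; norm_num)
  have h2 : (fun y : E => Real.sqrt (‖y‖ ^ 2)) = fun y => ‖y‖ := by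
    funext y
    exact Real.sqrt_sq (norm_nonneg _)
  rw [h2] at h1
  refine h1.congr_fderiv ?_
  ext ξ
  simp [hx]

theorem ext_eq (a : S E) (l : ℝ) (q : E) {y : E} (hy : y ≠ 0) :
    inner ℝ q (ext (bst a l) y) =
      (Real.cosh l * ‖y‖ + Real.sinh l * inner ℝ (a : E) y)⁻¹ *
        (inner ℝ q y + ((Real.cosh l - 1) * inner ℝ (a : E) y + Real.sinh l * ‖y‖) *
          inner ℝ q (a : E)) := by
  have h0 : ‖y‖ ≠ 0 := norm_ne_zero_iff.2 hy
  have h1 : ‖y‖⁻¹ • y ∈ S E := nrm_mem (norm_pos_iff.2 hy)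
  have h2 : ext (bst a l) y = bstFun (a : E) l (‖y‖⁻¹ • y) := by
    unfold ext
    rw [lift_of_mem _ h1]
    rfl
  rw [h2]
  unfold bstFun bD
  rw [inner_smul_right, inner_add_right, inner_smul_right, inner_smul_right, inner_smul_left,
    real_inner_comm (a : E) y]
  simp only [conj_trivial]
  generalize inner ℝ (a : E) y = c
  generalize inner ℝ q y = d
  generalize inner ℝ q (a : E) = e
  have h3 : Real.cosh l + Real.sinh l * (‖y‖⁻¹ * c) =
      ‖y‖⁻¹ * (Real.cosh l * ‖y‖ + Real.sinh l * c) := by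
    field_simp
  have h4 : ‖y‖⁻¹ * d + ((Real.cosh l - 1) * (‖y‖⁻¹ * c) + Real.sinh l) * e =
      ‖y‖⁻¹ * (d + ((Real.cosh l - 1) * c + Real.sinh l * ‖y‖) * e) := by
    field_simp
  rw [h3, h4, mul_inv, inv_inv]
  generalize (Real.cosh l * ‖y‖ + Real.sinh l * c)⁻¹ = m
  field_simp

theorem key (a x : S E) (l : ℝ) (q : E) (hq : inner ℝ q (bstFun (a : E) l x) = 0)
    (hd : DifferentiableAt ℝ (ext (bst a l)) (x : E)) (ξ : E) :
    inner ℝ q (fderiv ℝ (ext (bst a l)) (x : E) ξ) =
      (bD l (inner ℝ (x : E) (a : E)))⁻¹ * (inner ℝ q ξ + ((Real.cosh l - 1) *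
        inner ℝ (a : E) ξ + Real.sinh l * inner ℝ (x : E) ξ) * inner ℝ q (a : E)) := by
  have hx : ‖(x : E)‖ = 1 := S_norm x
  have hx0 : (x : E) ≠ 0 := by
    intro h
    rw [h, norm_zero] at hx
    exact zero_ne_one hx
  have hD := bD_pos l (S_neg_le_inner x a) (S_inner_le x a)
  have hn := hasFDerivAt_norm hx
  have ha : HasFDerivAt (fun y : E => inner ℝ (a : E) y) (innerSL ℝ (a : E)) (x : E) :=
    (innerSL ℝ (a : E)).hasFDerivAt
  have hqd : HasFDerivAt (fun y : E => inner ℝ q y) (innerSL ℝ q) (x : E) :=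
    (innerSL ℝ q).hasFDerivAt
  have hM := (hn.const_mul (Real.cosh l)).add (ha.const_mul (Real.sinh l))
  have hN := hqd.add (((ha.const_mul (Real.cosh l - 1)).add (hn.const_mul (Real.sinh l))).mul_const
    (inner ℝ q (a : E)))
  have hM0 : Real.cosh l * ‖(x : E)‖ + Real.sinh l * inner ℝ (a : E) (x : E) =
      bD l (inner ℝ (x : E) (a : E)) := by
    rw [hx, mul_one, real_inner_comm]
    rfl
  have hN0 : inner ℝ q (x : E) + ((Real.cosh l - 1) * inner ℝ (a : E) (x : E) +
      Real.sinh l * ‖(x : E)‖) * inner ℝ q (a : E) = 0 := by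
    unfold bstFun at hq
    rw [inner_smul_right, mul_eq_zero] at hq
    rcases hq with h | h
    · exact absurd h (inv_ne_zero hD.ne')
    · rw [inner_add_right, inner_smul_right] at h
      rw [hx, mul_one, real_inner_comm (x : E) (a : E)]
      exact h
  have hMi : DifferentiableAt ℝ (fun y : E => (Real.cosh l * ‖y‖ + Real.sinh l *
      inner ℝ (a : E) y)⁻¹) (x : E) :=
    hM.differentiableAt.inv (by
      show Real.cosh l * ‖(x : E)‖ + Real.sinh l * inner ℝ (a : E) (x : E) ≠ 0
      rw [hM0]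
      exact hD.ne')
  have hF := hMi.hasFDerivAt.mul hN
  have hev : (fun y : E => innerSL ℝ q (ext (bst a l) y)) =ᶠ[nhds (x : E)]
      fun y : E => (Real.cosh l * ‖y‖ + Real.sinh l * inner ℝ (a : E) y)⁻¹ *
        (inner ℝ q y + ((Real.cosh l - 1) * inner ℝ (a : E) y + Real.sinh l * ‖y‖) *
          inner ℝ q (a : E)) := by
    filter_upwards [isOpen_ne.mem_nhds hx0] with y hy
    exact ext_eq a l q hy
  have hF' := hF.congr_of_eventuallyEq hev
  have hG : HasFDerivAt (fun y : E => innerSL ℝ q (ext (bst a l) y))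
      ((innerSL ℝ q).comp (fderiv ℝ (ext (bst a l)) (x : E))) (x : E) :=
    (innerSL ℝ q).hasFDerivAt.comp (x : E) hd.hasFDerivAt
  have hu := congrArg (fun L : E →L[ℝ] ℝ => L ξ) (hG.unique hF')
  simp only [ContinuousLinearMap.comp_apply, innerSL_apply_apply, add_apply,
    smul_apply, smul_eq_mul, Pi.add_apply] at hu
  rw [hu, hM0, hN0, zero_mul, add_zero]
  ring

end

end PBB_

variable (E : Type) [NormedAddCommGroup E] [InnerProductSpace ℝ E] [FiniteDimensional ℝ E]

open PBB_ in
/-- boosts are conformal -/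
theorem p_PBB (hEXT : T_EXT E) (hPB1 : T_PB1 E) (hBSP : T_BSP E) : T_PBB E := by
  intro a l z
  have hp := hBSP a (fun _ => l) contDiff_const
  have hdf : IsDiffeo (S E) (bst a l) := hp.isDiffeo 0
  rw [(hPB1.1 (bst a l) hdf).1 z]
  have hS : z.1.1 ∈ S E := by simpa using z.2.1
  set x : S E := (bst a l)⁻¹ ⟨z.1.1, hS⟩ with hx
  have hy : bstFun (a : E) l x = z.1.1 := by
    have h1 : bst a l x = ⟨z.1.1, hS⟩ := by
      rw [hx, ← Equiv.Perm.mul_apply, mul_inv_cancel]
      rfl
    exact congrArg Subtype.val h1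
  have hd : DifferentiableAt ℝ (ext (bst a l)) (x : E) := by
    have h1 := hEXT (fun _ => bst a l) hp
    have hx0 : (x : E) ≠ 0 := by
      intro h
      have h2 := S_norm x
      rw [h, norm_zero] at h2
      exact zero_ne_one h2
    have h3 : IsOpen {w : ℝ × E | w.2 ≠ 0} := isOpen_ne.preimage continuous_snd
    have h4 := (h1.contDiffAt (h3.mem_nhds (show ((0 : ℝ), (x : E)) ∈ _ from hx0))).differentiableAt
      (by simp)
    have h5 : DifferentiableAt ℝ (fun y : E => ((0 : ℝ), y)) (x : E) := by fun_prop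
    exact DifferentiableAt.comp (g := fun w : ℝ × E => ext (bst a l) w.2)
      (f := fun y : E => ((0 : ℝ), y)) (x : E) h4 h5
  have hD := bD_pos l (S_neg_le_inner x a) (S_inner_le x a)
  have hq : inner ℝ z.1.2 (bstFun (a : E) l x) = 0 := by
    rw [hy, real_inner_comm]
    exact z.2.2
  show ‖LinearMap.adjoint (fderiv ℝ (ext (bst a l)) (x : E) : E →ₗ[ℝ] E) z.1.2‖ *
    bD l (inner ℝ (x : E) (a : E)) = ‖z.1.2‖
  set q := z.1.2 with hqq
  have hadj : LinearMap.adjoint (fderiv ℝ (ext (bst a l)) (x : E) : E →ₗ[ℝ] E) q =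
      (bD l (inner ℝ (x : E) (a : E)))⁻¹ • (q + ((Real.cosh l - 1) * inner ℝ q (a : E)) •
        (a : E) + (Real.sinh l * inner ℝ q (a : E)) • (x : E)) := by
    refine ext_inner_right ℝ fun ξ => ?_
    rw [LinearMap.adjoint_inner_left]
    have h1 := key a x l q hq hd ξ
    rw [inner_smul_left, inner_add_left, inner_add_left, inner_smul_left, inner_smul_left]
    simp only [conj_trivial]
    refine h1.trans ?_
    ring
  have hnorm : ‖q + ((Real.cosh l - 1) * inner ℝ q (a : E)) • (a : E) +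
      (Real.sinh l * inner ℝ q (a : E)) • (x : E)‖ = ‖q‖ := by
    have hqu : inner ℝ q (x : E) + ((Real.cosh l - 1) * inner ℝ (x : E) (a : E) + Real.sinh l) *
        inner ℝ q (a : E) = 0 := by
      unfold bstFun at hq
      rw [inner_smul_right, mul_eq_zero] at hq
      rcases hq with h | h
      · exact absurd h (inv_ne_zero hD.ne')
      · rw [inner_add_right, inner_smul_right] at h
        exact h
    have hc := Real.cosh_sq l
    have h1 : ‖q + ((Real.cosh l - 1) * inner ℝ q (a : E)) • (a : E) +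
        (Real.sinh l * inner ℝ q (a : E)) • (x : E)‖ ^ 2 = ‖q‖ ^ 2 := by
      rw [@norm_add_sq_real, @norm_add_sq_real, norm_smul, norm_smul, S_norm, S_norm,
        inner_smul_right, inner_smul_right, inner_add_left, inner_smul_left,
        real_inner_comm (x : E) (a : E)]
      simp only [conj_trivial, mul_one, Real.norm_eq_abs, sq_abs]
      generalize inner ℝ q (a : E) = e at *
      generalize inner ℝ q (x : E) = d at *
      generalize inner ℝ (x : E) (a : E) = c at *
      have hd' : d = -(((Real.cosh l - 1) * c + Real.sinh l) * e) := by linarith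
      rw [hd']
      linear_combination (e ^ 2) * hc
    exact (sq_eq_sq₀ (norm_nonneg _) (norm_nonneg _)).1 h1
  rw [hadj, norm_smul, hnorm, norm_inv, Real.norm_of_nonneg hD.le]
  field_simp

end Pool.Agent.DTW
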