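import Pool.Agent.DTW.Targets

/-!
# DTW: target PBL (locality of the pull-back)
-/

set_option autoImplicit false

open scoped ContDiff

noncomputable section

namespace Pool.Agent.DTW

variable (E : Type) [NormedAddCommGroup E] [InnerProductSpace ℝ E] [FiniteDimensional ℝ E]

variable {E} in
omit [FiniteDimensional ℝ E] in
theorem PBL_ext_eventually (φ : Equiv.Perm (S E)) (U : Set E) (hU : IsOpen U)
    (h : ∀ y : S E, (y : E) ∈ U → φ y = y) (y : S E) (hy : (y : E) ∈ U) :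
    ext φ =ᶠ[nhds (y : E)] ext (1 : Equiv.Perm (S E)) := by
  have hy0 : (y : E) ≠ 0 := by
    intro h0
    have h1 := S_norm y
    rw [h0, norm_zero] at h1
    exact zero_ne_one h1
  have hc : ContinuousAt (fun w : E => ‖w‖⁻¹ • w) (y : E) :=
    (continuousAt_id.norm.inv₀ (norm_ne_zero_iff.2 hy0)).smul continuousAt_id
  have hv : (fun w : E => ‖w‖⁻¹ • w) (y : E) = (y : E) := by
    show ‖(y : E)‖⁻¹ • (y : E) = (y : E)
    rw [S_norm, inv_one, one_smul]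
  have h1 : ∀ᶠ w in nhds (y : E), ‖w‖⁻¹ • w ∈ U :=
    hc (hU.mem_nhds (by rw [hv]; exact hy))
  have h2 : ∀ᶠ w in nhds (y : E), w ≠ 0 := isOpen_ne.mem_nhds hy0
  filter_upwards [h1, h2] with w hw hw0
  have hm : ‖w‖⁻¹ • w ∈ S E := nrm_mem (norm_pos_iff.2 hw0)
  unfold ext
  rw [lift_one, lift_of_mem φ hm, h ⟨_, hm⟩ hw]

theorem p_PBL (h_PB1 : T_PB1 E) : T_PBL E := by
  intro φ U hφ hU h z hz
  have h1 : pull φ z = pullFun φ z := (h_PB1.1 φ hφ).1 z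
  have h2 : pullFun (1 : Equiv.Perm (S E)) z = z := by
    rw [← (h_PB1.1 1 IsDiffeo.one).1 z, h_PB1.2.2]
    rfl
  have hm : z.1.1 ∈ S E := mem_S.2 z.2.1
  have h3 : φ⁻¹ ⟨z.1.1, hm⟩ = ⟨z.1.1, hm⟩ := by
    rw [Equiv.Perm.inv_eq_iff_eq]
    exact (h ⟨z.1.1, hm⟩ hz).symm
  have h4 : fderiv ℝ (ext φ) z.1.1 = fderiv ℝ (ext (1 : Equiv.Perm (S E))) z.1.1 :=
    (PBL_ext_eventually φ U hU h ⟨z.1.1, hm⟩ hz).fderiv_eq
  rw [h1]
  conv_rhs => rw [← h2]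
  refine Subtype.ext ?_
  show (((φ⁻¹ ⟨z.1.1, hm⟩ : S E) : E),
      LinearMap.adjoint (fderiv ℝ (ext φ) ((φ⁻¹ ⟨z.1.1, hm⟩ : S E) : E) : E →ₗ[ℝ] E) z.1.2) =
    ((((1 : Equiv.Perm (S E))⁻¹ ⟨z.1.1, hm⟩ : S E) : E),
      LinearMap.adjoint (fderiv ℝ (ext (1 : Equiv.Perm (S E)))
        (((1 : Equiv.Perm (S E))⁻¹ ⟨z.1.1, hm⟩ : S E) : E) : E →ₗ[ℝ] E) z.1.2)
  rw [h3, inv_one]
  show ((z.1.1 : E), LinearMap.adjoint (fderiv ℝ (ext φ) z.1.1 : E →ₗ[ℝ] E) z.1.2) =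
    ((z.1.1 : E), LinearMap.adjoint (fderiv ℝ (ext (1 : Equiv.Perm (S E))) z.1.1 : E →ₗ[ℝ] E)
      z.1.2)
  rw [h4]

end Pool.Agent.DTW
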