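import Pool.Agent.DTW.Targets

/-!
# DTW: target PBN (the pull-back is bounded)
-/

set_option autoImplicit false

open scoped ContDiff

noncomputable section

namespace Pool.Agent.DTW

variable (E : Type) [NormedAddCommGroup E] [InnerProductSpace ℝ E] [FiniteDimensional ℝ E]

variable {E} in
theorem PBN_adjoint (L : E →L[ℝ] E) (q : E) :
    ‖LinearMap.adjoint (L : E →ₗ[ℝ] E) q‖ ≤ ‖L‖ * ‖q‖ := by
  set r : E := LinearMap.adjoint (L : E →ₗ[ℝ] E) q with hr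
  have h1 : ‖r‖ * ‖r‖ = inner ℝ q (L r) := by
    rw [← real_inner_self_eq_norm_mul_norm]
    conv_lhs => rw [hr]
    rw [LinearMap.adjoint_inner_left]
    rfl
  have h2 : inner ℝ q (L r) ≤ ‖q‖ * ‖L r‖ := real_inner_le_norm _ _
  have h3 : ‖L r‖ ≤ ‖L‖ * ‖r‖ := L.le_opNorm r
  have h4 : ‖r‖ * ‖r‖ ≤ (‖L‖ * ‖q‖) * ‖r‖ := by
    calc ‖r‖ * ‖r‖ ≤ ‖q‖ * ‖L r‖ := by rw [h1]; exact h2
      _ ≤ ‖q‖ * (‖L‖ * ‖r‖) := mul_le_mul_of_nonneg_left h3 (norm_nonneg _)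
      _ = (‖L‖ * ‖q‖) * ‖r‖ := by ring
  rcases (norm_nonneg r).eq_or_lt with h5 | h5
  · rw [← h5]
    positivity
  · exact le_of_mul_le_mul_right h4 h5

theorem p_PBN (h_EXT : T_EXT E) (h_PB1 : T_PB1 E) : T_PBN E := by
  intro φ hφ
  have h1 : ContDiffOn ℝ ∞ (ext φ) {y : E | y ≠ 0} := by
    have h2 := h_EXT (fun _ => φ) (IsPath.const hφ)
    have h3 : ContDiffOn ℝ ∞ (fun y : E => ((0, y) : ℝ × E)) {y : E | y ≠ 0} :=
      contDiffOn_const.prodMk contDiffOn_id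
    exact h2.comp h3 fun y hy => hy
  have h2 : ContinuousOn (fderiv ℝ (ext φ)) {y : E | y ≠ 0} :=
    h1.continuousOn_fderiv_of_isOpen isOpen_ne (by simp)
  have h3 : ContinuousOn (fderiv ℝ (ext φ)) (S E) := h2.mono fun y hy => by
    intro h0
    have h4 : ‖y‖ = 1 := mem_S.1 hy
    rw [h0, norm_zero] at h4
    exact zero_ne_one h4
  obtain ⟨M, hM⟩ := (isCompact_sphere (0 : E) 1).exists_bound_of_continuousOn h3
  refine ⟨max M 0, le_max_right _ _, fun z => ?_⟩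
  rw [(h_PB1.1 φ hφ).1 z]
  have hm : z.1.1 ∈ S E := mem_S.2 z.2.1
  show ‖LinearMap.adjoint (fderiv ℝ (ext φ) ((φ⁻¹ ⟨z.1.1, hm⟩ : S E) : E) : E →ₗ[ℝ] E) z.1.2‖ ≤ _
  refine (PBN_adjoint _ _).trans (mul_le_mul_of_nonneg_right ?_ (norm_nonneg _))
  exact (hM _ (Subtype.coe_prop _)).trans (le_max_left _ _)

end Pool.Agent.DTW
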