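import Pool.Agent.DTW.Targets

/-! DTW target PBP: the pull-backs of a path are a path. -/

set_option autoImplicit false

open scoped ContDiff

noncomputable section

namespace Pool.Agent.DTW

variable (E : Type) [NormedAddCommGroup E] [InnerProductSpace ℝ E] [FiniteDimensional ℝ E]

namespace PBP_

variable {E}

theorem adj_eq (L : E →ₗ[ℝ] E) (q : E) :
    LinearMap.adjoint L q = ∑ i, inner ℝ (L (stdOrthonormalBasis ℝ E i)) q •
      stdOrthonormalBasis ℝ E i := by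
  rw [← (stdOrthonormalBasis ℝ E).sum_repr' (LinearMap.adjoint L q)]
  refine Finset.sum_congr rfl fun i _ => ?_
  rw [LinearMap.adjoint_inner_right]

/-- The total derivative in vertical directions is the derivative of the radial extension. -/
theorem fd_eq {φ : ℝ → Equiv.Perm (S E)}
    (hG : ContDiffOn ℝ ∞ (fun w : ℝ × E => ext (φ w.1) w.2) {w | w.2 ≠ 0})
    (t : ℝ) {x : E} (hx : x ≠ 0) (ξ : E) :
    fderiv ℝ (ext (φ t)) x ξ = fderiv ℝ (fun w : ℝ × E => ext (φ w.1) w.2) (t, x) (0, ξ) := by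
  have ho : IsOpen {w : ℝ × E | w.2 ≠ 0} := isOpen_ne_fun continuous_snd continuous_const
  have hd : DifferentiableAt ℝ (fun w : ℝ × E => ext (φ w.1) w.2) (t, x) :=
    (hG.contDiffAt (ho.mem_nhds (show (t, x) ∈ {w : ℝ × E | w.2 ≠ 0} from hx))).differentiableAt
      (by simp)
  have h1 : HasFDerivAt (fun y : E => ((t, y) : ℝ × E))
      (ContinuousLinearMap.inr ℝ ℝ E) x := hasFDerivAt_prodMk_right t x
  have h2 := HasFDerivAt.comp x (g := fun w : ℝ × E => ext (φ w.1) w.2) hd.hasFDerivAt h1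
  have h3 : ((fun w : ℝ × E => ext (φ w.1) w.2) ∘ fun y : E => ((t, y) : ℝ × E)) = ext (φ t) :=
    rfl
  rw [h3] at h2
  rw [h2.fderiv]
  simp

theorem smooth_aux (hE : T_EXT E) (hP : T_PB1 E) {φ : ℝ → Equiv.Perm (S E)}
    (hφ : IsPath (S E) φ) :
    ContDiffOn ℝ ∞ (fun w : ℝ × (E × E) => lift (TS E) (pull (φ w.1)) w.2)
      (Set.univ ×ˢ TS E) := by
  have hG := hE φ hφ
  have ho : IsOpen {w : ℝ × E | w.2 ≠ 0} := isOpen_ne_fun continuous_snd continuous_const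
  have hDG : ContDiffOn ℝ ∞ (fderiv ℝ (fun w : ℝ × E => ext (φ w.1) w.2)) {w | w.2 ≠ 0} :=
    hG.fderiv_of_isOpen ho (by simp)
  have hX : ContDiffOn ℝ ∞ (fun w : ℝ × (E × E) => lift (S E) (φ w.1)⁻¹ w.2.1)
      (Set.univ ×ˢ TS E) := by
    have h1 : ContDiffOn ℝ ∞ (fun w : ℝ × (E × E) => ((w.1, w.2.1) : ℝ × E))
        (Set.univ ×ˢ TS E) :=
      (contDiff_fst.prodMk (contDiff_fst.comp contDiff_snd)).contDiffOn
    exact hφ.2.comp h1 fun w hw => ⟨Set.mem_univ _, mem_S.2 hw.2.1⟩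
  have hne : ∀ w : ℝ × (E × E), w ∈ (Set.univ : Set ℝ) ×ˢ TS E →
      lift (S E) (φ w.1)⁻¹ w.2.1 ≠ 0 := by
    intro w hw h0
    have h1 := mem_S.1 (lift_mem (φ w.1)⁻¹ (mem_S.2 hw.2.1))
    rw [h0, norm_zero] at h1
    exact zero_ne_one h1
  have hY : ContDiffOn ℝ ∞ (fun w : ℝ × (E × E) => ((w.1, lift (S E) (φ w.1)⁻¹ w.2.1) : ℝ × E))
      (Set.univ ×ˢ TS E) := contDiffOn_fst.prodMk hX
  have hD : ContDiffOn ℝ ∞ (fun w : ℝ × (E × E) =>
      fderiv ℝ (fun w : ℝ × E => ext (φ w.1) w.2) (w.1, lift (S E) (φ w.1)⁻¹ w.2.1))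
      (Set.univ ×ˢ TS E) := hDG.comp hY fun w hw => hne w hw
  have hS : ContDiffOn ℝ ∞ (fun w : ℝ × (E × E) => ∑ i,
      inner ℝ (fderiv ℝ (fun w : ℝ × E => ext (φ w.1) w.2)
        (w.1, lift (S E) (φ w.1)⁻¹ w.2.1) (0, stdOrthonormalBasis ℝ E i)) w.2.2 •
        stdOrthonormalBasis ℝ E i) (Set.univ ×ˢ TS E) := by
    refine ContDiffOn.sum fun i _ => ?_
    refine ContDiffOn.smul ?_ contDiffOn_const
    refine ContDiffOn.inner ℝ (hD.clm_apply contDiffOn_const) ?_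
    exact (contDiff_snd.comp contDiff_snd).contDiffOn
  refine (hX.prodMk hS).congr ?_
  rintro ⟨t, z⟩ hz
  have hz' : z ∈ TS E := hz.2
  have h1 : lift (TS E) (pull (φ t)) z = (pullFun (φ t) ⟨z, hz'⟩ : TS E).1 := by
    rw [lift_of_mem _ hz', (hP.1 (φ t) (hφ.isDiffeo t)).1]
  have h2 : lift (S E) (φ t)⁻¹ z.1 = ((φ t)⁻¹ ⟨z.1, mem_S.2 hz'.1⟩ : S E) :=
    lift_of_mem _ (mem_S.2 hz'.1)
  have h3 : ((φ t)⁻¹ ⟨z.1, mem_S.2 hz'.1⟩ : S E).1 ≠ 0 := by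
    rw [← h2]
    exact hne (t, z) hz
  show lift (TS E) (pull (φ t)) z = _
  rw [h1]
  refine Prod.ext ?_ ?_
  · exact h2.symm
  · show LinearMap.adjoint (fderiv ℝ (ext (φ t)) ((φ t)⁻¹ ⟨z.1, mem_S.2 hz'.1⟩ : S E) :
      E →ₗ[ℝ] E) z.2 = _
    rw [adj_eq]
    refine Finset.sum_congr rfl fun i _ => ?_
    show inner ℝ (fderiv ℝ (ext (φ t)) ((φ t)⁻¹ ⟨z.1, mem_S.2 hz'.1⟩ : S E)
      (stdOrthonormalBasis ℝ E i)) z.2 • _ = _
    rw [fd_eq hG t h3, h2]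

end PBP_

theorem p_PBP (hE : T_EXT E) (hP : T_PB1 E) : T_PBP E := by
  intro φ hφ
  refine ⟨PBP_.smooth_aux hE hP hφ, ?_⟩
  have h1 := PBP_.smooth_aux hE hP hφ.inv
  have h2 : (fun w : ℝ × (E × E) => lift (TS E) (pull (φ w.1))⁻¹ w.2) =
      fun w : ℝ × (E × E) => lift (TS E) (pull (φ w.1)⁻¹) w.2 := by
    funext w
    rw [(hP.1 (φ w.1) (hφ.isDiffeo w.1)).2]
  show ContDiffOn ℝ ∞ (fun w : ℝ × (E × E) => lift (TS E) (pull (φ w.1))⁻¹ w.2) _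
  rw [h2]
  exact h1

end Pool.Agent.DTW
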