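import Pool.Agent.DTW.Targets

/-!
# DTW: target PBR (rotations), helper75
-/

set_option autoImplicit false

open scoped ContDiff

noncomputable section

namespace Pool.Agent.DTW

variable (E : Type) [NormedAddCommGroup E] [InnerProductSpace ℝ E] [FiniteDimensional ℝ E]

namespace PBR_

variable {E}

omit [FiniteDimensional ℝ E] in
theorem rot_inv (ρ : E ≃ₗᵢ[ℝ] E) : (rot ρ)⁻¹ = rot ρ.symm := Equiv.ext fun _ => rfl

omit [FiniteDimensional ℝ E] in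
theorem smooth_aux (ρ : E ≃ₗᵢ[ℝ] E) : ContDiffOn ℝ ∞ (lift (S E) (rot ρ)) (S E) := by
  have h : ContDiffOn ℝ ∞ (fun v : E => ρ v) (S E) :=
    (ρ.toContinuousLinearEquiv.contDiff).contDiffOn
  exact h.congr fun v hv => lift_of_mem (rot ρ) hv

omit [FiniteDimensional ℝ E] in
theorem isDiffeo (ρ : E ≃ₗᵢ[ℝ] E) : IsDiffeo (S E) (rot ρ) :=
  ⟨smooth_aux ρ, by rw [rot_inv]; exact smooth_aux ρ.symm⟩

omit [FiniteDimensional ℝ E] in
/-- the derivative of the extension of a rotation -/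
theorem fderiv_ext (ρ : E ≃ₗᵢ[ℝ] E) (x : S E) (ξ : E) :
    fderiv ℝ (ext (rot ρ)) (x : E) ξ = ρ (fderiv ℝ (ext (1 : Equiv.Perm (S E))) (x : E) ξ) := by
  have hx0 : (x : E) ≠ 0 := by
    intro h0
    have h1 := S_norm x
    rw [h0, norm_zero] at h1
    exact zero_ne_one h1
  have h1 : ext (rot ρ) =ᶠ[nhds (x : E)]
      fun y => ρ.toContinuousLinearEquiv (ext (1 : Equiv.Perm (S E)) y) := by
    filter_upwards [isOpen_ne.mem_nhds hx0] with w hw0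
    have hm : ‖w‖⁻¹ • w ∈ S E := nrm_mem (norm_pos_iff.2 hw0)
    unfold ext
    rw [lift_one, lift_of_mem _ hm]
    rfl
  rw [h1.fderiv_eq]
  have h2 : fderiv ℝ (fun y => ρ.toContinuousLinearEquiv (ext (1 : Equiv.Perm (S E)) y)) (x : E) =
      (ρ.toContinuousLinearEquiv : E →L[ℝ] E).comp
        (fderiv ℝ (ext (1 : Equiv.Perm (S E))) (x : E)) :=
    ρ.toContinuousLinearEquiv.comp_fderiv
  rw [h2]
  rfl

omit [FiniteDimensional ℝ E] in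
theorem rot_mem (ρ : E ≃ₗᵢ[ℝ] E) {z : E × E} (hz : z ∈ TS E) : (ρ z.1, ρ z.2) ∈ TS E :=
  ⟨by rw [ρ.norm_map]; exact hz.1, by
    show inner ℝ (ρ z.1) (ρ z.2) = 0
    rw [ρ.inner_map_map]; exact hz.2⟩

/-- the pull-back by a rotation -/
theorem pull_rot (h_PB1 : T_PB1 E) (ρ : E ≃ₗᵢ[ℝ] E) (z : TS E) :
    pull (rot ρ) z = ⟨(ρ.symm z.1.1, ρ.symm z.1.2), rot_mem ρ.symm z.2⟩ := by
  have h1 : pull (rot ρ) z = pullFun (rot ρ) z := (h_PB1.1 (rot ρ) (isDiffeo ρ)).1 z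
  set w : TS E := ⟨(ρ.symm z.1.1, ρ.symm z.1.2), rot_mem ρ.symm z.2⟩ with hw
  have h2 : pullFun (1 : Equiv.Perm (S E)) w = w := by
    rw [← (h_PB1.1 1 IsDiffeo.one).1 w, h_PB1.2.2]
    rfl
  have hm : ρ.symm z.1.1 ∈ S E := mem_S.2 w.2.1
  have h3 : LinearMap.adjoint (fderiv ℝ (ext (1 : Equiv.Perm (S E))) (ρ.symm z.1.1) :
      E →ₗ[ℝ] E) (ρ.symm z.1.2) = ρ.symm z.1.2 :=
    congrArg (fun u : TS E => u.1.2) h2
  rw [h1]
  refine Subtype.ext (Prod.ext rfl ?_)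
  show LinearMap.adjoint (fderiv ℝ (ext (rot ρ)) (ρ.symm z.1.1) : E →ₗ[ℝ] E) z.1.2 =
    ρ.symm z.1.2
  refine ext_inner_right ℝ fun ξ => ?_
  rw [LinearMap.adjoint_inner_left]
  have h4 : (fderiv ℝ (ext (rot ρ)) (ρ.symm z.1.1) : E →ₗ[ℝ] E) ξ =
      ρ (fderiv ℝ (ext (1 : Equiv.Perm (S E))) (ρ.symm z.1.1) ξ) := fderiv_ext ρ ⟨_, hm⟩ ξ
  rw [h4, ← ρ.symm.inner_map_map, ρ.symm_apply_apply]
  conv_rhs => rw [← h3, LinearMap.adjoint_inner_left]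
  rfl

omit [FiniteDimensional ℝ E] in
/-- the model twist commutes with linear isometries -/
theorem dtFun_map (θ : ℝ → ℝ) (ρ : E ≃ₗᵢ[ℝ] E) (z : E × E) :
    dtFun θ (ρ z.1, ρ z.2) = (ρ (dtFun θ z).1, ρ (dtFun θ z).2) := by
  unfold dtFun
  simp only [ρ.norm_map, map_add, map_sub, map_smul]

end PBR_

open PBR_ in
theorem p_PBR (h_PB1 : T_PB1 E) : T_PBR E := by
  intro ρ A
  refine ⟨isDiffeo ρ, Equiv.ext fun z => ?_⟩
  rw [Equiv.Perm.mul_apply, Equiv.Perm.mul_apply, pull_rot h_PB1, pull_rot h_PB1]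
  exact Subtype.ext (dtFun_map A.θ ρ.symm z.1).symm

end Pool.Agent.DTW
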