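import Pool.Agent.DTW.Targets

/-!
# DTW: target PBS (pull-backs are symplectic)
-/

set_option autoImplicit false

open scoped ContDiff

noncomputable section

namespace Pool.Agent.DTW

variable (E : Type) [NormedAddCommGroup E] [InnerProductSpace ℝ E] [FiniteDimensional ℝ E]

theorem p_PBS (hEXT : T_EXT E) (hPB1 : T_PB1 E) (hPBP : T_PBP E) : T_PBS E := by
  intro φ hφ
  have hd : IsDiffeo (TS E) (pull φ) := (hPBP (fun _ => φ) (IsPath.const hφ)).isDiffeo 0
  refine ⟨hd, ?_⟩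
  intro c hc hm s
  -- the extension is smooth off zero
  have hΦ : ∀ y : E, y ≠ 0 → ContDiffAt ℝ ∞ (ext φ) y := by
    intro y hy
    have h1 := hEXT (fun _ => φ) (IsPath.const hφ)
    have ho : IsOpen {w : ℝ × E | w.2 ≠ 0} := isOpen_ne_fun continuous_snd continuous_const
    have h2 : ContDiffAt ℝ ∞ (fun w : ℝ × E => ext φ w.2) ((0 : ℝ), y) :=
      h1.contDiffAt (ho.mem_nhds hy)
    have h3 : ContDiffAt ℝ ∞ (fun v : E => ((0 : ℝ), v)) y :=
      contDiffAt_const.prodMk contDiffAt_id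
    have h4 : ContDiffAt ℝ ∞ ((fun w : ℝ × E => ext φ w.2) ∘ fun v : E => ((0 : ℝ), v)) y :=
      ContDiffAt.comp y h2 h3
    exact h4
  -- the lifted map
  have hcs : ContDiff ℝ ∞ fun u => lift (TS E) (pull φ) (c u) := comp_smooth hd hc hm
  have h2le : (2 : WithTop ℕ∞) ≤ ∞ := ENat.LEInfty.out
  set cc : ℝ × ℝ → E × E := fun u => lift (TS E) (pull φ) (c u) with hcc
  have hval : ∀ u, cc u = ((lift (S E) φ⁻¹ (c u).1),
      LinearMap.adjoint (fderiv ℝ (ext φ) (lift (S E) φ⁻¹ (c u).1) : E →ₗ[ℝ] E) (c u).2) := by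
    intro u
    have h1 : cc u = pull φ ⟨c u, hm u⟩ := lift_of_mem _ (hm u)
    have hS : (c u).1 ∈ S E := mem_S.2 (hm u).1
    have h2 : lift (S E) φ⁻¹ (c u).1 = φ⁻¹ ⟨(c u).1, hS⟩ := lift_of_mem _ hS
    rw [h1, (hPB1.1 φ hφ).1, h2]
    rfl
  have hx1 : ∀ u, (cc u).1 = lift (S E) φ⁻¹ (c u).1 := fun u => by rw [hval]
  have hxS : ∀ u, (cc u).1 ∈ S E := by
    intro u
    rw [hx1]
    exact lift_mem _ (mem_S.2 (hm u).1)
  have hΦx : ∀ u, ext φ (cc u).1 = (c u).1 := by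
    intro u
    unfold ext
    rw [mem_S.1 (hxS u), inv_one, one_smul, hx1, lift_self_inv]
  have hadj : ∀ u ξ, inner ℝ (cc u).2 ξ = inner ℝ (c u).2 (fderiv ℝ (ext φ) (cc u).1 ξ) := by
    intro u ξ
    have h1 : (cc u).2 = LinearMap.adjoint (fderiv ℝ (ext φ) (cc u).1 : E →ₗ[ℝ] E) (c u).2 := by
      rw [hx1 u, hval u]
    rw [h1, LinearMap.adjoint_inner_left]
    rfl
  -- derivatives
  have hcd : HasFDerivAt c (fderiv ℝ c s) s := (hc.differentiable (by simp) s).hasFDerivAt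
  have hccd : HasFDerivAt cc (fderiv ℝ cc s) s := (hcs.differentiable (by simp) s).hasFDerivAt
  have hy : HasFDerivAt (fun u => (c u).1)
      ((ContinuousLinearMap.fst ℝ E E).comp (fderiv ℝ c s)) s :=
    (ContinuousLinearMap.fst ℝ E E).hasFDerivAt.comp s hcd
  have hq : HasFDerivAt (fun u => (c u).2)
      ((ContinuousLinearMap.snd ℝ E E).comp (fderiv ℝ c s)) s :=
    (ContinuousLinearMap.snd ℝ E E).hasFDerivAt.comp s hcd
  have hx : HasFDerivAt (fun u => (cc u).1)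
      ((ContinuousLinearMap.fst ℝ E E).comp (fderiv ℝ cc s)) s :=
    (ContinuousLinearMap.fst ℝ E E).hasFDerivAt.comp s hccd
  have hp : HasFDerivAt (fun u => (cc u).2)
      ((ContinuousLinearMap.snd ℝ E E).comp (fderiv ℝ cc s)) s :=
    (ContinuousLinearMap.snd ℝ E E).hasFDerivAt.comp s hccd
  have hx0 : (cc s).1 ≠ 0 := by
    intro h
    have h1 := mem_S.1 (hxS s)
    rw [h, norm_zero] at h1
    exact zero_ne_one h1
  have hΦs := hΦ _ hx0
  have hD1 : HasFDerivAt (ext φ) (fderiv ℝ (ext φ) (cc s).1) (cc s).1 :=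
    (hΦs.differentiableAt (by simp)).hasFDerivAt
  have hD2 : HasFDerivAt (fderiv ℝ (ext φ)) (fderiv ℝ (fderiv ℝ (ext φ)) (cc s).1) (cc s).1 := by
    have h1 : ContDiffAt ℝ 1 (fderiv ℝ (ext φ)) (cc s).1 :=
      hΦs.fderiv_right (m := 1) (by rw [one_add_one_eq_two]; exact h2le)
    exact (h1.differentiableAt (by simp)).hasFDerivAt
  -- chain rule for the base point
  have hY : ∀ v, (fderiv ℝ c s v).1 = fderiv ℝ (ext φ) (cc s).1 (fderiv ℝ cc s v).1 := by
    intro v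
    have h1 := HasFDerivAt.comp (g := ext φ) s hD1 hx
    have h2 : (ext φ ∘ fun u => (cc u).1) = fun u => (c u).1 := funext hΦx
    rw [h2] at h1
    exact congrArg (fun L => L v) (hy.unique h1)
  -- derivative of the covector
  have hP : ∀ v ξ, inner ℝ (fderiv ℝ cc s v).2 ξ =
      inner ℝ (fderiv ℝ c s v).2 (fderiv ℝ (ext φ) (cc s).1 ξ) +
        inner ℝ (c s).2 (fderiv ℝ (fderiv ℝ (ext φ)) (cc s).1 (fderiv ℝ cc s v).1 ξ) := by
    intro v ξ
    have h1 := hp.inner ℝ (hasFDerivAt_const ξ s)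
    have h2 : HasFDerivAt (fun u => fderiv ℝ (ext φ) (cc u).1)
        ((fderiv ℝ (fderiv ℝ (ext φ)) (cc s).1).comp
          ((ContinuousLinearMap.fst ℝ E E).comp (fderiv ℝ cc s))) s :=
      HasFDerivAt.comp (g := fderiv ℝ (ext φ)) s hD2 hx
    have h3 := h2.clm_apply (hasFDerivAt_const ξ s)
    have h4 := hq.inner ℝ h3
    have h5 : (fun u => inner ℝ (cc u).2 ξ) =
        fun u => inner ℝ (c u).2 (fderiv ℝ (ext φ) (cc u).1 ξ) := funext fun u => hadj u ξ
    rw [h5] at h1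
    have h6 := congrArg (fun L => L v) (h1.unique h4)
    simp only [ContinuousLinearMap.comp_apply, ContinuousLinearMap.prod_apply,
      fderivInnerCLM_apply, ContinuousLinearMap.coe_fst', ContinuousLinearMap.coe_snd',
      zero_apply, inner_zero_right, add_apply, ContinuousLinearMap.flip_apply, map_zero,
      zero_add] at h6
    rw [h6]
    ring
  have hsym : IsSymmSndFDerivAt ℝ (ext φ) (cc s).1 :=
    hΦs.isSymmSndFDerivAt (by rw [minSmoothness_of_isRCLikeNormedField]; exact h2le)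
  have h12 := hP (1, 0) (fderiv ℝ cc s (0, 1)).1
  have h21 := hP (0, 1) (fderiv ℝ cc s (1, 0)).1
  have hs := hsym.eq (fderiv ℝ cc s (1, 0)).1 (fderiv ℝ cc s (0, 1)).1
  show inner ℝ (fderiv ℝ cc s (1, 0)).2 (fderiv ℝ cc s (0, 1)).1 -
    inner ℝ (fderiv ℝ cc s (0, 1)).2 (fderiv ℝ cc s (1, 0)).1 =
    inner ℝ (fderiv ℝ c s (1, 0)).2 (fderiv ℝ c s (0, 1)).1 -
    inner ℝ (fderiv ℝ c s (0, 1)).2 (fderiv ℝ c s (1, 0)).1
  rw [h12, h21, hs, hY (0, 1), hY (1, 0)]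
  ring

end Pool.Agent.DTW
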