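import Pool.Agent.DTW.Targets

/-!
# DTW: target SMH (small homogeneous perturbations of the identity)
-/

set_option autoImplicit false

open scoped ContDiff Topology NNReal

noncomputable section

namespace Pool.Agent.DTW

namespace SMH_

section

variable {E : Type} [NormedAddCommGroup E] [InnerProductSpace ℝ E]

/-- the homogeneous perturbation -/
def ww (u : E → E) (y : E) : E := ‖y‖ • u y

lemma ww_zero (u : E → E) : ww u 0 = 0 := by simp [ww]

lemma ww_smul {u : E → E} (hu : ∀ (c : ℝ) (y : E), 0 < c → y ≠ 0 → u (c • y) = u y) {c : ℝ}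
    (hc : 0 < c) (y : E) : ww u (c • y) = c • ww u y := by
  rcases eq_or_ne y 0 with rfl | hy
  · rw [smul_zero, ww_zero, smul_zero]
  · unfold ww
    rw [hu c y hc hy, norm_smul, Real.norm_of_nonneg hc.le, smul_smul]

lemma u_bd {u : E → E} (hu : ∀ (c : ℝ) (y : E), 0 < c → y ≠ 0 → u (c • y) = u y)
    (hb : ∀ y, ‖y‖ = 1 → ‖u y‖ ≤ 1 / 4 ∧ ‖fderiv ℝ u y‖ ≤ 1 / 4) {y : E} (hy : y ≠ 0) :
    ‖u y‖ ≤ 1 / 4 := by
  have h0 : 0 < ‖y‖ := norm_pos_iff.2 hy
  have h1 : ‖‖y‖⁻¹ • y‖ = 1 := by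
    rw [norm_smul, norm_inv, norm_norm, inv_mul_cancel₀ h0.ne']
  have h2 := (hb _ h1).1
  rwa [hu _ y (inv_pos.2 h0) hy] at h2

lemma du_bd {u : E → E} (hs : ContDiffOn ℝ ∞ u {0}ᶜ)
    (hu : ∀ (c : ℝ) (y : E), 0 < c → y ≠ 0 → u (c • y) = u y)
    (hb : ∀ y, ‖y‖ = 1 → ‖u y‖ ≤ 1 / 4 ∧ ‖fderiv ℝ u y‖ ≤ 1 / 4) {y : E} (hy : y ≠ 0) :
    ‖y‖ * ‖fderiv ℝ u y‖ ≤ 1 / 4 := by
  have h0 : 0 < ‖y‖ := norm_pos_iff.2 hy
  set x : E := ‖y‖⁻¹ • y with hx
  have h1 : ‖x‖ = 1 := by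
    rw [hx, norm_smul, norm_inv, norm_norm, inv_mul_cancel₀ h0.ne']
  have hx0 : x ≠ 0 := by
    intro h
    rw [h, norm_zero] at h1
    exact zero_ne_one h1
  have hyx : ‖y‖ • x = y := by
    rw [hx, smul_smul, mul_inv_cancel₀ h0.ne', one_smul]
  have hd : DifferentiableAt ℝ u y :=
    (hs.contDiffAt (isOpen_compl_singleton.mem_nhds hy)).differentiableAt (by simp)
  have h2 : HasFDerivAt (fun z : E => u (‖y‖ • z)) (‖y‖ • fderiv ℝ u y) x := by
    have h3 : HasFDerivAt (fun z : E => ‖y‖ • z) (‖y‖ • ContinuousLinearMap.id ℝ E) x :=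
      (hasFDerivAt_id x).const_smul ‖y‖
    have h4 : HasFDerivAt u (fderiv ℝ u y) (‖y‖ • x) := by
      rw [hyx]
      exact hd.hasFDerivAt
    have h5 := h4.comp x h3
    rw [ContinuousLinearMap.comp_smul, ContinuousLinearMap.comp_id] at h5
    exact h5
  have h6 : (fun z : E => u (‖y‖ • z)) =ᶠ[𝓝 x] u := by
    filter_upwards [isOpen_compl_singleton.mem_nhds hx0] with z hz
    exact hu _ z h0 hz
  have h7 : fderiv ℝ u x = ‖y‖ • fderiv ℝ u y := (h2.congr_of_eventuallyEq h6.symm).fderiv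
  have h8 := (hb x h1).2
  rw [h7, norm_smul, norm_norm] at h8
  exact h8

lemma ww_contDiffAt {u : E → E} (hs : ContDiffOn ℝ ∞ u {0}ᶜ) {y : E} (hy : y ≠ 0) :
    ContDiffAt ℝ ∞ (ww u) y :=
  (contDiffAt_norm ℝ hy).smul (hs.contDiffAt (isOpen_compl_singleton.mem_nhds hy))

lemma dww_bd {u : E → E} (hs : ContDiffOn ℝ ∞ u {0}ᶜ)
    (hu : ∀ (c : ℝ) (y : E), 0 < c → y ≠ 0 → u (c • y) = u y)
    (hb : ∀ y, ‖y‖ = 1 → ‖u y‖ ≤ 1 / 4 ∧ ‖fderiv ℝ u y‖ ≤ 1 / 4) {y : E} (hy : y ≠ 0) :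
    ‖fderiv ℝ (ww u) y‖ ≤ 1 / 2 := by
  have hd : DifferentiableAt ℝ u y :=
    (hs.contDiffAt (isOpen_compl_singleton.mem_nhds hy)).differentiableAt (by simp)
  have hn : DifferentiableAt ℝ (fun z : E => ‖z‖) y :=
    (contDiffAt_norm (n := ∞) ℝ hy).differentiableAt (by simp)
  have h1 : fderiv ℝ (ww u) y = ‖y‖ • fderiv ℝ u y +
      (fderiv ℝ (fun z : E => ‖z‖) y).smulRight (u y) := by
    exact (hn.hasFDerivAt.smul hd.hasFDerivAt).fderiv
  have h2 : ‖fderiv ℝ (fun z : E => ‖z‖) y‖ ≤ 1 := by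
    have := norm_fderiv_le_of_lipschitz ℝ (x₀ := y) (lipschitzWith_one_norm (E := E))
    simpa using this
  rw [h1]
  calc ‖‖y‖ • fderiv ℝ u y + (fderiv ℝ (fun z : E => ‖z‖) y).smulRight (u y)‖
      ≤ ‖‖y‖ • fderiv ℝ u y‖ + ‖(fderiv ℝ (fun z : E => ‖z‖) y).smulRight (u y)‖ :=
        norm_add_le _ _
    _ ≤ 1 / 4 + 1 / 4 := by
        refine add_le_add ?_ ?_
        · rw [norm_smul, norm_norm]
          exact du_bd hs hu hb hy
        · rw [ContinuousLinearMap.norm_smulRight_apply]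
          calc ‖fderiv ℝ (fun z : E => ‖z‖) y‖ * ‖u y‖ ≤ 1 * (1 / 4) :=
                mul_le_mul h2 (u_bd hu hb hy) (norm_nonneg _) zero_le_one
            _ = 1 / 4 := one_mul _
    _ = 1 / 2 := by norm_num

lemma ww_lip {u : E → E} (hs : ContDiffOn ℝ ∞ u {0}ᶜ)
    (hu : ∀ (c : ℝ) (y : E), 0 < c → y ≠ 0 → u (c • y) = u y)
    (hb : ∀ y, ‖y‖ = 1 → ‖u y‖ ≤ 1 / 4 ∧ ‖fderiv ℝ u y‖ ≤ 1 / 4) (y y' : E) :
    ‖ww u y' - ww u y‖ ≤ 1 / 2 * ‖y' - y‖ := by
  by_cases h0 : (0 : E) ∈ segment ℝ y y'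
  · have hw : ∀ z : E, ‖ww u z‖ ≤ 1 / 4 * ‖z‖ := by
      intro z
      rcases eq_or_ne z 0 with rfl | hz
      · rw [ww_zero]
        simp
      · unfold ww
        rw [norm_smul, norm_norm, mul_comm]
        exact mul_le_mul_of_nonneg_right (u_bd hu hb hz) (norm_nonneg _)
    obtain ⟨a, b, ha, hb', hab, h1⟩ := h0
    have e1 : y = b • (y - y') := by
      have h2 : y = y - (a • y + b • y') := by rw [h1, sub_zero]
      have h3 : a = 1 - b := by linarith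
      rw [h3] at h2
      have h4 : y - ((1 - b) • y + b • y') = b • (y - y') := by
        rw [sub_smul, one_smul, smul_sub]
        abel
      rw [h4] at h2
      exact h2
    have e2 : y' = a • (y' - y) := by
      have h2 : y' = y' - (a • y + b • y') := by rw [h1, sub_zero]
      have h3 : b = 1 - a := by linarith
      rw [h3] at h2
      have h4 : y' - (a • y + (1 - a) • y') = a • (y' - y) := by
        rw [sub_smul, one_smul, smul_sub]
        abel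
      rw [h4] at h2
      exact h2
    have n1 : ‖y‖ = b * ‖y' - y‖ := by
      have := congrArg norm e1
      rwa [norm_smul, Real.norm_of_nonneg hb', norm_sub_rev] at this
    have n2 : ‖y'‖ = a * ‖y' - y‖ := by
      have := congrArg norm e2
      rwa [norm_smul, Real.norm_of_nonneg ha] at this
    have n3 : ‖y'‖ + ‖y‖ = ‖y' - y‖ := by
      rw [n1, n2, ← add_mul, hab, one_mul]
    calc ‖ww u y' - ww u y‖ ≤ ‖ww u y'‖ + ‖ww u y‖ := norm_sub_le _ _
      _ ≤ 1 / 4 * ‖y'‖ + 1 / 4 * ‖y‖ := add_le_add (hw _) (hw _)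
      _ = 1 / 4 * ‖y' - y‖ := by rw [← n3]; ring
      _ ≤ 1 / 2 * ‖y' - y‖ := by
        have := norm_nonneg (y' - y)
        linarith
  · have hne : ∀ z ∈ segment ℝ y y', z ≠ 0 := fun z hz h => h0 (h ▸ hz)
    exact Convex.norm_image_sub_le_of_norm_fderiv_le (𝕜 := ℝ)
      (fun z hz => (ww_contDiffAt hs (hne z hz)).differentiableAt (by simp))
      (fun z hz => dww_bd hs hu hb (hne z hz)) (convex_segment y y')
      (left_mem_segment ℝ y y') (right_mem_segment ℝ y y')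

/-- the perturbation of the identity -/
def HH (u : E → E) (t : ℝ) (y : E) : E := y + sg t • ww u y

lemma HH_inj_est {u : E → E} (hs : ContDiffOn ℝ ∞ u {0}ᶜ)
    (hu : ∀ (c : ℝ) (y : E), 0 < c → y ≠ 0 → u (c • y) = u y)
    (hb : ∀ y, ‖y‖ = 1 → ‖u y‖ ≤ 1 / 4 ∧ ‖fderiv ℝ u y‖ ≤ 1 / 4) (t : ℝ) :
    Function.Injective (HH u t) := by
  intro y y' h
  have h1 : y' - y = -(sg t • (ww u y' - ww u y)) := by
    unfold HH at h
    have h2 : y' + sg t • ww u y' - (y + sg t • ww u y) = 0 := by rw [h, sub_self]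
    rw [smul_sub]
    rw [← sub_eq_zero]
    calc y' - y - -(sg t • ww u y' - sg t • ww u y)
        = y' + sg t • ww u y' - (y + sg t • ww u y) := by abel
      _ = 0 := h2
  have h3 : ‖y' - y‖ ≤ 1 / 2 * ‖y' - y‖ := by
    calc ‖y' - y‖ = ‖sg t • (ww u y' - ww u y)‖ := by rw [h1, norm_neg]
      _ = sg t * ‖ww u y' - ww u y‖ := by rw [norm_smul, Real.norm_of_nonneg (sg_nonneg t)]
      _ ≤ 1 * (1 / 2 * ‖y' - y‖) :=
        mul_le_mul (sg_le_one t) (ww_lip hs hu hb y y') (norm_nonneg _) zero_le_one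
      _ = 1 / 2 * ‖y' - y‖ := one_mul _
  have h4 : ‖y' - y‖ = 0 := by
    have := norm_nonneg (y' - y)
    linarith
  exact (sub_eq_zero.1 (norm_eq_zero.1 h4)).symm

lemma HH_surj [CompleteSpace E] {u : E → E} (hs : ContDiffOn ℝ ∞ u {0}ᶜ)
    (hu : ∀ (c : ℝ) (y : E), 0 < c → y ≠ 0 → u (c • y) = u y)
    (hb : ∀ y, ‖y‖ = 1 → ‖u y‖ ≤ 1 / 4 ∧ ‖fderiv ℝ u y‖ ≤ 1 / 4) (t : ℝ) :
    Function.Surjective (HH u t) := by
  intro z
  have hK : ContractingWith (1 / 2 : ℝ≥0) (fun y : E => z - sg t • ww u y) := by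
    refine ⟨by
      rw [← NNReal.coe_lt_coe]
      norm_num, LipschitzWith.of_dist_le_mul fun y y' => ?_⟩
    rw [dist_eq_norm, dist_eq_norm]
    have h1 : z - sg t • ww u y - (z - sg t • ww u y') = sg t • (ww u y' - ww u y) := by
      rw [smul_sub]
      abel
    rw [h1, norm_smul, Real.norm_of_nonneg (sg_nonneg t)]
    calc sg t * ‖ww u y' - ww u y‖ ≤ 1 * (1 / 2 * ‖y' - y‖) :=
        mul_le_mul (sg_le_one t) (ww_lip hs hu hb y y') (norm_nonneg _) zero_le_one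
      _ = ((1 / 2 : ℝ≥0) : ℝ) * ‖y - y'‖ := by
        rw [one_mul, norm_sub_rev]
        push_cast
        ring
  refine ⟨ContractingWith.fixedPoint _ hK, ?_⟩
  have h2 : z - sg t • ww u (ContractingWith.fixedPoint _ hK) = ContractingWith.fixedPoint _ hK :=
    ContractingWith.fixedPoint_isFixedPt hK
  unfold HH
  exact (sub_eq_iff_eq_add.1 h2).symm

lemma HH_zero (u : E → E) (t : ℝ) : HH u t 0 = 0 := by
  unfold HH
  rw [ww_zero, smul_zero, add_zero]

lemma HH_smul {u : E → E} (hu : ∀ (c : ℝ) (y : E), 0 < c → y ≠ 0 → u (c • y) = u y) {c : ℝ}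
    (hc : 0 < c) (t : ℝ) (y : E) : HH u t (c • y) = c • HH u t y := by
  unfold HH
  rw [ww_smul hu hc, smul_add, smul_comm (sg t) c]

/-- the joint map -/
def JJ (u : E → E) (w : ℝ × E) : ℝ × E := (w.1, HH u w.1 w.2)

lemma JJ_contDiffAt {u : E → E} (hs : ContDiffOn ℝ ∞ u {0}ᶜ) {w : ℝ × E} (hw : w.2 ≠ 0) :
    ContDiffAt ℝ ∞ (JJ u) w := by
  have h1 : ContDiffAt ℝ ∞ (fun w : ℝ × E => ww u w.2) w :=
    (ww_contDiffAt hs hw).comp w contDiffAt_snd
  have h2 : ContDiffAt ℝ ∞ (fun w : ℝ × E => sg w.1) w :=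
    sg_smooth.contDiffAt.comp w contDiffAt_fst
  exact contDiffAt_fst.prodMk (contDiffAt_snd.add (h2.smul h1))

lemma JJ_inj {u : E → E} (hs : ContDiffOn ℝ ∞ u {0}ᶜ)
    (hu : ∀ (c : ℝ) (y : E), 0 < c → y ≠ 0 → u (c • y) = u y)
    (hb : ∀ y, ‖y‖ = 1 → ‖u y‖ ≤ 1 / 4 ∧ ‖fderiv ℝ u y‖ ≤ 1 / 4) {w : ℝ × E} (hw : w.2 ≠ 0) :
    Function.Injective (fderiv ℝ (JJ u) w) := by
  have hw1 : DifferentiableAt ℝ (ww u) w.2 :=
    (ww_contDiffAt hs hw).differentiableAt (by simp)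
  have h1 : HasFDerivAt (fun w : ℝ × E => ww u w.2)
      ((fderiv ℝ (ww u) w.2).comp (ContinuousLinearMap.snd ℝ ℝ E)) w :=
    hw1.hasFDerivAt.comp w hasFDerivAt_snd
  have hsg : DifferentiableAt ℝ sg w.1 := (sg_smooth.differentiable (by simp)) w.1
  have h2 : HasFDerivAt (fun w : ℝ × E => sg w.1)
      ((fderiv ℝ sg w.1).comp (ContinuousLinearMap.fst ℝ ℝ E)) w :=
    hsg.hasFDerivAt.comp w hasFDerivAt_fst
  have h3 := hasFDerivAt_fst.prodMk (hasFDerivAt_snd.add (h2.smul h1))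
  have h4 : HasFDerivAt (JJ u) _ w := h3
  rw [h4.fderiv]
  rw [injective_iff_map_eq_zero]
  rintro ⟨τ, h⟩ h5
  have h6 : τ = 0 := congrArg Prod.fst h5
  have h7 := congrArg Prod.snd h5
  subst h6
  have h8 : h + sg w.1 • fderiv ℝ (ww u) w.2 h = 0 := by
    simpa using h7
  have h9 : ‖h‖ ≤ 1 / 2 * ‖h‖ := by
    have e1 : h = -(sg w.1 • fderiv ℝ (ww u) w.2 h) := eq_neg_of_add_eq_zero_left h8
    calc ‖h‖ = ‖sg w.1 • fderiv ℝ (ww u) w.2 h‖ := by
          conv_lhs => rw [e1, norm_neg]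
      _ = sg w.1 * ‖fderiv ℝ (ww u) w.2 h‖ := by
          rw [norm_smul, Real.norm_of_nonneg (sg_nonneg _)]
      _ ≤ 1 * (1 / 2 * ‖h‖) := by
          refine mul_le_mul (sg_le_one _) ?_ (norm_nonneg _) zero_le_one
          exact (ContinuousLinearMap.le_opNorm _ _).trans
            (mul_le_mul_of_nonneg_right (dww_bd hs hu hb hw) (norm_nonneg _))
      _ = 1 / 2 * ‖h‖ := one_mul _
  have h10 : ‖h‖ = 0 := by
    have := norm_nonneg h
    linarith
  rw [norm_eq_zero.1 h10]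
  rfl

end

end SMH_

variable (E : Type) [NormedAddCommGroup E] [InnerProductSpace ℝ E] [FiniteDimensional ℝ E]

open SMH_ in
theorem p_SMH : T_SMH E := by
  intro u hs hu hb
  have : CompleteSpace E := FiniteDimensional.complete ℝ E
  have hinj := HH_inj_est hs hu hb
  have hsurj := HH_surj hs hu hb
  choose k hk using hsurj
  have hk' : ∀ t y, k t (HH u t y) = y := fun t y => hinj t (hk t _)
  refine ⟨fun w => k w.1 w.2, ?_, ?_, ?_, ?_⟩
  · intro w hw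
    have hw0 : w.2 ≠ 0 := hw
    refine ContDiffAt.contDiffWithinAt ?_
    set a : ℝ × E := (w.1, k w.1 w.2) with ha
    have ha0 : a.2 ≠ 0 := by
      intro h
      apply hw0
      have h1 : k w.1 w.2 = 0 := h
      have h2 := hk w.1 w.2
      rw [h1, HH_zero] at h2
      exact h2.symm
    have hJa : JJ u a = w := by
      unfold JJ
      show (w.1, HH u w.1 (k w.1 w.2)) = w
      rw [hk]
    have hc : ContDiffAt ℝ ∞ (JJ u) a := JJ_contDiffAt hs ha0
    have hi : Function.Injective (fderiv ℝ (JJ u) a) := JJ_inj hs hu hb ha0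
    let L : (ℝ × E) ≃ₗ[ℝ] (ℝ × E) :=
      LinearEquiv.ofInjectiveEndo (fderiv ℝ (JJ u) a : (ℝ × E) →ₗ[ℝ] (ℝ × E)) hi
    let L' : (ℝ × E) ≃L[ℝ] (ℝ × E) := L.toContinuousLinearEquiv
    have hL : (L' : (ℝ × E) →L[ℝ] (ℝ × E)) = fderiv ℝ (JJ u) a := by
      ext v
      · rfl
      · rfl
      · rfl
      · rfl
    have hf' : HasFDerivAt (JJ u) (L' : (ℝ × E) →L[ℝ] (ℝ × E)) a := by
      rw [hL]
      exact (hc.differentiableAt (by simp)).hasFDerivAt
    have hn : (∞ : WithTop ℕ∞) ≠ 0 := by simp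
    have h1 : ContDiffAt ℝ ∞ (hc.localInverse hf' hn) (JJ u a) := hc.to_localInverse hf' hn
    have hst : HasStrictFDerivAt (JJ u) (L' : (ℝ × E) →L[ℝ] (ℝ × E)) a :=
      hc.hasStrictFDerivAt' hf' hn
    have h2 : ∀ᶠ v in 𝓝 (JJ u a), JJ u (hc.localInverse hf' hn v) = v :=
      hst.eventually_right_inverse
    rw [hJa] at h1 h2
    have h3 : (fun w : ℝ × E => k w.1 w.2) =ᶠ[𝓝 w] fun v => (hc.localInverse hf' hn v).2 := by
      filter_upwards [h2] with v hv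
      have h4 : (hc.localInverse hf' hn v).1 = v.1 := by
        have h6 := congrArg Prod.fst hv
        exact h6
      have h5 : HH u (hc.localInverse hf' hn v).1 (hc.localInverse hf' hn v).2 = v.2 := by
        have h6 := congrArg Prod.snd hv
        exact h6
      rw [h4] at h5
      show k v.1 v.2 = _
      rw [← h5, hk']
    exact (contDiffAt_snd.comp w h1).congr_of_eventuallyEq h3
  · intro t y
    exact hk' t y
  · intro t y
    exact hk t y
  · intro t c y hc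
    show k t (c • y) = c • k t y
    apply hinj t
    rw [hk, HH_smul hu hc, hk]

end Pool.Agent.DTW
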