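import Pool.Agent.DTW.Targets

/-!
# DTW, target SMP: small perturbations of the identity of the sphere
-/

set_option autoImplicit false

open scoped ContDiff

noncomputable section

namespace Pool.Agent.DTW

variable (E : Type) [NormedAddCommGroup E] [InnerProductSpace ℝ E] [FiniteDimensional ℝ E]

namespace SMP_

variable {E}

omit [FiniteDimensional ℝ E] in
theorem nrm_smul {y : E} (hy : ‖y‖ = 1) {c : ℝ} (hc : 0 < c) : ‖c • y‖⁻¹ • (c • y) = y := by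
  rw [norm_smul, hy, mul_one, Real.norm_of_nonneg hc.le, smul_smul, inv_mul_cancel₀ hc.ne',
    one_smul]

/-- the homogeneous map -/
def H (u : E → E) (t : ℝ) (y : E) : E := y + sg t • ‖y‖ • u y

omit [FiniteDimensional ℝ E] in
theorem H_hom {u : E → E} (hu : ∀ (c : ℝ) (y : E), 0 < c → y ≠ 0 → u (c • y) = u y) (t : ℝ)
    {c : ℝ} (hc : 0 < c) (y : E) : H u t (c • y) = c • H u t y := by
  unfold H
  rcases eq_or_ne y 0 with rfl | hy
  · simp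
  · rw [hu c y hc hy, norm_smul, Real.norm_of_nonneg hc.le, smul_add, mul_smul,
      smul_comm c (sg t)]

omit [FiniteDimensional ℝ E] in
theorem H_ne {u : E → E} {K : ℝ × E → E} (hK1 : ∀ t y, K (t, y + sg t • ‖y‖ • u y) = y) (t : ℝ)
    {y : E} (hy : y ≠ 0) : H u t y ≠ 0 := by
  intro h
  have h1 := hK1 t y
  have h2 := hK1 t 0
  unfold H at h
  rw [h] at h1
  simp only [norm_zero, zero_smul, smul_zero, add_zero] at h2
  exact hy (h1.symm.trans h2)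

omit [FiniteDimensional ℝ E] in
theorem K_ne {u : E → E} {K : ℝ × E → E}
    (hK2 : ∀ t y, K (t, y) + sg t • ‖K (t, y)‖ • u (K (t, y)) = y) (t : ℝ)
    {y : E} (hy : y ≠ 0) : K (t, y) ≠ 0 := by
  intro h
  have h1 := hK2 t y
  rw [h] at h1
  simp only [norm_zero, zero_smul, smul_zero, add_zero] at h1
  exact hy h1.symm

omit [InnerProductSpace ℝ E] [FiniteDimensional ℝ E] in
theorem S_ne (x : S E) : (x : E) ≠ 0 := by
  intro h
  have := S_norm x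
  rw [h, norm_zero] at this
  exact zero_ne_one this

/-- the permutation of the sphere -/
def per {u : E → E} {K : ℝ × E → E}
    (hu : ∀ (c : ℝ) (y : E), 0 < c → y ≠ 0 → u (c • y) = u y)
    (hK1 : ∀ t y, K (t, y + sg t • ‖y‖ • u y) = y)
    (hK2 : ∀ t y, K (t, y) + sg t • ‖K (t, y)‖ • u (K (t, y)) = y)
    (hK3 : ∀ (t c : ℝ) (y : E), 0 < c → K (t, c • y) = c • K (t, y)) (t : ℝ) :
    Equiv.Perm (S E) where
  toFun x := ⟨‖H u t x‖⁻¹ • H u t x, nrm_mem (norm_pos_iff.2 (H_ne hK1 t (S_ne x)))⟩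
  invFun x := ⟨‖K (t, x)‖⁻¹ • K (t, x), nrm_mem (norm_pos_iff.2 (K_ne hK2 t (S_ne x)))⟩
  left_inv x := Subtype.ext (by
    have h0 : 0 < ‖H u t x‖⁻¹ := inv_pos.2 (norm_pos_iff.2 (H_ne hK1 t (S_ne x)))
    have h1 : K (t, ‖H u t x‖⁻¹ • H u t x) = ‖H u t x‖⁻¹ • (x : E) := by
      rw [hK3 t _ _ h0]
      congr 1
      exact hK1 t x
    show ‖K (t, ‖H u t x‖⁻¹ • H u t x)‖⁻¹ • K (t, ‖H u t x‖⁻¹ • H u t x) = (x : E)
    rw [h1]
    exact nrm_smul (S_norm x) h0)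
  right_inv x := Subtype.ext (by
    have h0 : 0 < ‖K (t, x)‖⁻¹ := inv_pos.2 (norm_pos_iff.2 (K_ne hK2 t (S_ne x)))
    have h1 : H u t (‖K (t, x)‖⁻¹ • K (t, x)) = ‖K (t, x)‖⁻¹ • (x : E) := by
      rw [H_hom hu t h0]
      congr 1
      exact hK2 t x
    show ‖H u t (‖K (t, x)‖⁻¹ • K (t, x))‖⁻¹ • H u t (‖K (t, x)‖⁻¹ • K (t, x)) = (x : E)
    rw [h1]
    exact nrm_smul (S_norm x) h0)

end SMP_

open SMP_ in
theorem p_SMP (h_SMH : T_SMH E) : T_SMP E := by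
  intro u hu1 hu2 hu3
  obtain ⟨K, hK, hK1, hK2, hK3⟩ := h_SMH u hu1 hu2 hu3
  have hmem : ∀ w : ℝ × E, w ∈ (Set.univ ×ˢ S E : Set (ℝ × E)) → w.2 ≠ 0 := by
    intro w hw
    exact S_ne ⟨w.2, hw.2⟩
  have hHs : ContDiffOn ℝ ∞ (fun w : ℝ × E => H u w.1 w.2) (Set.univ ×ˢ S E) := by
    have h1 : ContDiffOn ℝ ∞ (fun w : ℝ × E => ‖w.2‖) (Set.univ ×ˢ S E) :=
      contDiffOn_snd.norm ℝ hmem
    have h2 : ContDiffOn ℝ ∞ (fun w : ℝ × E => u w.2) (Set.univ ×ˢ S E) :=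
      hu1.comp contDiffOn_snd fun w hw => hmem w hw
    have h3 : ContDiffOn ℝ ∞ (fun w : ℝ × E => sg w.1) (Set.univ ×ˢ S E) :=
      (sg_smooth.comp contDiff_fst).contDiffOn
    exact contDiffOn_snd.add (h3.smul (h1.smul h2))
  have hKs : ContDiffOn ℝ ∞ K (Set.univ ×ˢ S E) := hK.mono fun w hw => hmem w hw
  have hnH : ∀ w : ℝ × E, w ∈ (Set.univ ×ˢ S E : Set (ℝ × E)) → H u w.1 w.2 ≠ 0 :=
    fun w hw => H_ne hK1 w.1 (hmem w hw)
  have hnK : ∀ w : ℝ × E, w ∈ (Set.univ ×ˢ S E : Set (ℝ × E)) → K w ≠ 0 :=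
    fun w hw => K_ne hK2 w.1 (hmem w hw)
  refine ⟨per hu2 hK1 hK2 hK3 1, ⟨fun t => per hu2 hK1 hK2 hK3 t, ⟨?_, ?_⟩, ?_, rfl⟩, ?_⟩
  · refine (((hHs.norm ℝ hnH).inv fun w hw => norm_ne_zero_iff.2 (hnH w hw)).smul hHs).congr ?_
    rintro ⟨t, v⟩ hw
    rw [lift_of_mem _ hw.2]
    rfl
  · refine (((hKs.norm ℝ hnK).inv fun w hw => norm_ne_zero_iff.2 (hnK w hw)).smul hKs).congr ?_
    rintro ⟨t, v⟩ hw
    rw [lift_of_mem _ hw.2]
    rfl
  · refine Equiv.ext fun x => Subtype.ext ?_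
    show ‖H u 0 x‖⁻¹ • H u 0 x = (x : E)
    have h1 : H u 0 (x : E) = x := by
      unfold H
      rw [sg_zero, zero_smul, add_zero]
    rw [h1, S_norm, inv_one, one_smul]
  · intro y
    show ‖H u 1 y‖⁻¹ • H u 1 y = _
    have h1 : H u 1 (y : E) = y + u y := by
      unfold H
      rw [sg_one, one_smul, S_norm, one_smul]
    rw [h1]

end Pool.Agent.DTW
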