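import Pool.Agent.DTW.Targets

/-!
# DTW: target SUP
-/

set_option autoImplicit false

open scoped ContDiff

noncomputable section

namespace Pool.Agent.DTW

variable (E : Type) [NormedAddCommGroup E] [InnerProductSpace ℝ E] [FiniteDimensional ℝ E]

theorem SUP_inv {α : Type} (f : Equiv.Perm α) (x : α) : f (f⁻¹ x) = x :=
  f.apply_symm_apply x

variable {E} in
omit [FiniteDimensional ℝ E] in
theorem SUP_fix (a : S E) (φ : Equiv.Perm (S E)) (l : ℝ) (y : S E)
    (h : φ ((bst a l)⁻¹ y) = (bst a l)⁻¹ y) : (bst a l * φ * (bst a l)⁻¹) y = y := by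
  rw [Equiv.Perm.mul_apply, Equiv.Perm.mul_apply, h, SUP_inv]

theorem p_SUP (h_BSC : T_BSC E) : T_SUP E := by
  intro a φ hφ
  obtain ⟨-, h2, h3⟩ := h_BSC a
  refine ⟨fun l hl y hy => ?_, fun ε hε => ?_⟩
  · refine SUP_fix a φ l y (hφ _ ?_)
    have h4 := h2 l ((bst a l)⁻¹ y) hl
    rw [SUP_inv] at h4
    linarith
  · obtain ⟨L, hL, h4⟩ := h3 (3 / 4) (ε / 2) (by norm_num) (by linarith)
    refine ⟨L, hL, fun l hl y hy => SUP_fix a φ l y (hφ _ ?_)⟩
    by_contra h5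
    have h6 := h4 l hl ((bst a l)⁻¹ y) (not_lt.1 h5)
    rw [SUP_inv] at h6
    linarith

end Pool.Agent.DTW
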