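import Pool.Agent.DTW.Targets

/-!
# DTW-TRN: translations are symplectic and form smooth paths
-/

set_option autoImplicit false

open scoped ContDiff

noncomputable section

namespace Pool.Agent.DTW

variable (E : Type) [NormedAddCommGroup E] [InnerProductSpace ℝ E] [FiniteDimensional ℝ E]

namespace TRN_

/-- the formula for the translation -/
def tf {E : Type} [NormedAddCommGroup E] [InnerProductSpace ℝ E] (b : E) (z : E × E) : E × E :=
  (z.1, z.2 + b - inner ℝ b z.1 • z.1)

omit [FiniteDimensional ℝ E] in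
theorem lift_trn (b : E) {z : E × E} (hz : z ∈ TS E) : lift (TS E) (trn b) z = tf b z := by
  rw [lift_of_mem _ hz]
  rfl

omit [FiniteDimensional ℝ E] in
theorem aux (a : E) (μ : ℝ → ℝ) (hμ : ContDiff ℝ ∞ μ) :
    ContDiffOn ℝ ∞ (fun w : ℝ × (E × E) => lift (TS E) (trn (μ w.1 • a)) w.2)
      (Set.univ ×ˢ TS E) := by
  have h0 : ContDiff ℝ ∞ fun w : ℝ × (E × E) => μ w.1 • a :=
    (hμ.comp contDiff_fst).smul contDiff_const
  have hx : ContDiff ℝ ∞ fun w : ℝ × (E × E) => w.2.1 := contDiff_fst.comp contDiff_snd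
  have hp : ContDiff ℝ ∞ fun w : ℝ × (E × E) => w.2.2 := contDiff_snd.comp contDiff_snd
  have h1 : ContDiff ℝ ∞ fun w : ℝ × (E × E) => inner ℝ (μ w.1 • a) w.2.1 := h0.inner ℝ hx
  have h2 : ContDiff ℝ ∞ fun w : ℝ × (E × E) => tf (μ w.1 • a) w.2 :=
    hx.prodMk ((hp.add h0).sub (h1.smul hx))
  exact h2.contDiffOn.congr fun w hw => lift_trn E _ hw.2

omit [FiniteDimensional ℝ E] in
theorem symp (b : E) : IsSymp (trn (E := E) b) := by
  intro c hc hm s
  have e1 : (fun u => lift (TS E) (trn b) (c u)) = fun u => tf b (c u) :=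
    funext fun u => lift_trn E b (hm u)
  rw [e1]
  have hd : HasFDerivAt c (fderiv ℝ c s) s :=
    ((hc.differentiable (by simp)) s).hasFDerivAt
  have hx : HasFDerivAt (fun u => (c u).1)
      ((ContinuousLinearMap.fst ℝ E E).comp (fderiv ℝ c s)) s := hd.fst
  have hp : HasFDerivAt (fun u => (c u).2)
      ((ContinuousLinearMap.snd ℝ E E).comp (fderiv ℝ c s)) s := hd.snd
  have hb : HasFDerivAt (fun u => inner ℝ b (c u).1)
      ((innerSL ℝ b).comp ((ContinuousLinearMap.fst ℝ E E).comp (fderiv ℝ c s))) s :=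
    (innerSL ℝ b).hasFDerivAt.comp s hx
  have hq := (hp.add_const b).sub (hb.smul hx)
  have ht : HasFDerivAt (fun u => tf b (c u)) _ s := hx.prodMk hq
  rw [ht.fderiv]
  -- orthogonality
  have ho : ∀ v, inner ℝ (c s).1 (fderiv ℝ c s v).1 = 0 := by
    intro v
    have h1 : HasFDerivAt (fun u => inner ℝ (c u).1 (c u).1) _ s := hx.inner ℝ hx
    have h2 : (fun u => inner ℝ (c u).1 (c u).1) = fun _ => (1 : ℝ) := by
      funext u
      rw [real_inner_self_eq_norm_sq, (hm u).1, one_pow]
    rw [h2] at h1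
    have h3 := h1.unique (hasFDerivAt_const (1 : ℝ) s)
    have h4 := DFunLike.congr_fun h3 v
    simp only [ContinuousLinearMap.comp_apply, fderivInnerCLM_apply,
      ContinuousLinearMap.prod_apply, ContinuousLinearMap.coe_fst',
      ContinuousLinearMap.zero_apply] at h4
    rw [real_inner_comm (fderiv ℝ c s v).1 (c s).1] at h4
    rw [real_inner_comm]
    linarith
  generalize fderiv ℝ c s = L at *
  have o1 := ho (1, 0)
  have o2 := ho (0, 1)
  simp only [om, ContinuousLinearMap.prod_apply, ContinuousLinearMap.comp_apply,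
    ContinuousLinearMap.coe_fst', ContinuousLinearMap.coe_snd', ContinuousLinearMap.sub_apply,
    ContinuousLinearMap.add_apply, ContinuousLinearMap.smul_apply,
    ContinuousLinearMap.smulRight_apply, innerSL_apply_apply, inner_sub_left, inner_add_left,
    inner_smul_left, conj_trivial, o1, o2, mul_zero, add_zero]
  rw [real_inner_comm (L (1, 0)).1 (L (0, 1)).1]
  ring

end TRN_

omit [FiniteDimensional ℝ E] in
theorem p_TRN : T_TRN E := by
  intro a μ hμ
  refine ⟨⟨TRN_.aux E a μ hμ, ?_⟩, fun t => TRN_.symp E _⟩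
  have h := TRN_.aux E a (fun t => -μ t) hμ.neg
  simpa only [trn_inv, neg_smul] using h

end Pool.Agent.DTW
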