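import Pool.Agent.DTW.Targets

/-!
# DTW: proof of UNB
-/

set_option autoImplicit false

open scoped ContDiff

noncomputable section

namespace Pool.Agent.DTW

variable (E : Type) [NormedAddCommGroup E] [InnerProductSpace ℝ E] [FiniteDimensional ℝ E]

theorem p_UNB (h_PB1 : T_PB1 E) (h_PBL : T_PBL E) (h_PBN : T_PBN E) (h_PBB : T_PBB E)
    (h_BSP : T_BSP E) (h_SUP : T_SUP E) : T_UNB E := by
  intro a φ hφ hfix
  obtain ⟨M, hM0, hM⟩ := h_PBN φ hφ
  refine ⟨1 + 2 * M, by linarith, fun l z hl => ?_⟩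
  have hδ : IsDiffeo (S E) (bst a l) := (h_BSP a (fun _ => l) contDiff_const).isDiffeo 0
  have hU : IsOpen {y : E | inner ℝ y (a : E) < 3 / 4} :=
    isOpen_lt (continuous_id.inner continuous_const) continuous_const
  have hz0 := norm_nonneg z.1.2
  have hself : ∀ w : TS E, w = z → ‖w.1.2‖ ≤ (1 + 2 * M) * ‖z.1.2‖ := by
    rintro w rfl
    nlinarith
  have hpull : pull (bst a l * φ * (bst a l)⁻¹) = (pull (bst a l))⁻¹ * (pull φ * pull (bst a l)) := by
    rw [h_PB1.2.1 _ _ (hδ.mul hφ) hδ.inv, h_PB1.2.1 _ _ hδ hφ, (h_PB1.1 _ hδ).2]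
  by_cases hz : inner ℝ z.1.1 (a : E) < 3 / 4
  · refine hself _ ?_
    exact h_PBL _ _ ((hδ.mul hφ).mul hδ.inv) hU (fun y hy => (h_SUP a φ hfix).1 l hl y hy) z hz
  · set z₁ : TS E := pull (bst a l) z with hz1
    set z₂ : TS E := pull φ z₁ with hz2
    set z₃ : TS E := pull (bst a l * φ * (bst a l)⁻¹) z with hz3
    have h3 : z₃ = (pull (bst a l))⁻¹ z₂ := by
      rw [hz3, hpull]
      rfl
    have h32 : pull (bst a l) z₃ = z₂ := by
      rw [h3]
      exact (pull (bst a l)).apply_symm_apply z₂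
    have e1 : ‖z₁.1.2‖ * bD l (inner ℝ z₁.1.1 (a : E)) = ‖z.1.2‖ := h_PBB a l z
    have e2 : ‖z₂.1.2‖ * bD l (inner ℝ z₂.1.1 (a : E)) = ‖z₃.1.2‖ := by
      have := h_PBB a l z₃
      rw [h32] at this
      exact this
    by_cases h1 : inner ℝ z₁.1.1 (a : E) < 3 / 4
    · refine hself _ ?_
      have h4 : z₂ = z₁ := h_PBL φ _ hφ hU hfix z₁ h1
      rw [h3, h4, hz1]
      exact (pull (bst a l)).symm_apply_apply z
    · have hc1 : 3 / 4 ≤ inner ℝ z₁.1.1 (a : E) := not_lt.1 h1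
      have hs : 0 ≤ Real.sinh l := Real.sinh_nonneg_iff.2 hl
      have hch : 0 < Real.cosh l := Real.cosh_pos l
      have hsc : Real.sinh l ≤ Real.cosh l := (Real.sinh_lt_cosh l).le
      have hc2 : inner ℝ z₂.1.1 (a : E) ≤ 1 := by
        have := real_inner_le_norm z₂.1.1 (a : E)
        rw [z₂.2.1, S_norm, one_mul] at this
        exact this
      have b1 : Real.cosh l ≤ bD l (inner ℝ z₁.1.1 (a : E)) := by
        unfold bD
        nlinarith
      have b2 : bD l (inner ℝ z₂.1.1 (a : E)) ≤ 2 * Real.cosh l := by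
        unfold bD
        nlinarith
      have h5 : ‖z₂.1.2‖ ≤ M * ‖z₁.1.2‖ := hM z₁
      calc ‖z₃.1.2‖ = ‖z₂.1.2‖ * bD l (inner ℝ z₂.1.1 (a : E)) := e2.symm
        _ ≤ ‖z₂.1.2‖ * (2 * Real.cosh l) := mul_le_mul_of_nonneg_left b2 (norm_nonneg _)
        _ ≤ (M * ‖z₁.1.2‖) * (2 * Real.cosh l) := mul_le_mul_of_nonneg_right h5 (by linarith)
        _ = 2 * M * (‖z₁.1.2‖ * Real.cosh l) := by ring
        _ ≤ 2 * M * (‖z₁.1.2‖ * bD l (inner ℝ z₁.1.1 (a : E))) :=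
            mul_le_mul_of_nonneg_left (mul_le_mul_of_nonneg_left b1 (norm_nonneg _)) (by linarith)
        _ = 2 * M * ‖z.1.2‖ := by rw [e1]
        _ ≤ (1 + 2 * M) * ‖z.1.2‖ := mul_le_mul_of_nonneg_right (by linarith) hz0

end Pool.Agent.DTW
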