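import Pool.Agent.DTW.P_ALG
import Pool.Agent.DTW.P_BSC
import Pool.Agent.DTW.P_BSP
import Pool.Agent.DTW.P_CAP
import Pool.Agent.DTW.P_CMM
import Pool.Agent.DTW.P_CMP
import Pool.Agent.DTW.P_CPT
import Pool.Agent.DTW.P_DSC
import Pool.Agent.DTW.P_DTC
import Pool.Agent.DTW.P_DTI
import Pool.Agent.DTW.P_DTM
import Pool.Agent.DTW.P_DTS
import Pool.Agent.DTW.P_EXT
import Pool.Agent.DTW.P_FIN
import Pool.Agent.DTW.P_FLN
import Pool.Agent.DTW.P_GLD
import Pool.Agent.DTW.P_GLP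
import Pool.Agent.DTW.P_GRB
import Pool.Agent.DTW.P_GRM
import Pool.Agent.DTW.P_INB
import Pool.Agent.DTW.P_INT
import Pool.Agent.DTW.P_ISO
import Pool.Agent.DTW.P_LMP
import Pool.Agent.DTW.P_LOC
import Pool.Agent.DTW.P_MAI
import Pool.Agent.DTW.P_NRM
import Pool.Agent.DTW.P_PB1
import Pool.Agent.DTW.P_PBB
import Pool.Agent.DTW.P_PBL
import Pool.Agent.DTW.P_PBN
import Pool.Agent.DTW.P_PBP
import Pool.Agent.DTW.P_PBR
import Pool.Agent.DTW.P_PBS
import Pool.Agent.DTW.P_REF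
import Pool.Agent.DTW.P_SMH
import Pool.Agent.DTW.P_SMP
import Pool.Agent.DTW.P_SUP
import Pool.Agent.DTW.P_TRN
import Pool.Agent.DTW.P_UNB

/-!
# DTW: assembly
-/

set_option autoImplicit false
set_option linter.unusedSectionVars false

open scoped ContDiff

noncomputable section

namespace Pool.Agent.DTW

variable (E : Type) [NormedAddCommGroup E] [InnerProductSpace ℝ E] [FiniteDimensional ℝ E]

namespace All_

theorem EXT : T_EXT E := p_EXT E
theorem PB1 : T_PB1 E := p_PB1 E (EXT E)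
theorem PBP : T_PBP E := p_PBP E (EXT E) (PB1 E)
theorem PBS : T_PBS E := p_PBS E (EXT E) (PB1 E) (PBP E)
theorem PBL : T_PBL E := p_PBL E (PB1 E)
theorem PBN : T_PBN E := p_PBN E (EXT E) (PB1 E)
theorem PBR : T_PBR E := p_PBR E (PB1 E)
theorem BSP : T_BSP E := p_BSP E
theorem BSC : T_BSC E := p_BSC E
theorem PBB : T_PBB E := p_PBB E (EXT E) (PB1 E) (BSP E)
theorem LMP : T_LMP E := p_LMP E
theorem REF : T_REF E := p_REF E (LMP E)
theorem GLD : T_GLD E := p_GLD E (LMP E) (REF E)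
theorem GLP : T_GLP E := p_GLP E (LMP E) (GLD E)
theorem SMH : T_SMH E := p_SMH E
theorem SMP : T_SMP E := p_SMP E (SMH E)
theorem GRB : T_GRB E := p_GRB E
theorem GRM : T_GRM E := p_GRM E (EXT E) (SMP E) (GRB E)
theorem DSC : T_DSC E := p_DSC E (EXT E) (GRM E) (GLP E)
theorem CAP : T_CAP E := p_CAP E (DSC E) (BSP E) (BSC E) (REF E)
theorem DTS : T_DTS E := p_DTS E
theorem DTM : T_DTM E := p_DTM E
theorem DTC : T_DTC E := p_DTC E (DTS E) (DTM E)
theorem DTI : T_DTI E := p_DTI E (DTS E) (DTC E)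
theorem TRN : T_TRN E := p_TRN E
theorem NRM : T_NRM E := p_NRM E
theorem CPT : T_CPT E := p_CPT E
theorem CMM : T_CMM E := p_CMM E
theorem INB : T_INB E := p_INB E
theorem INT : T_INT E := p_INT E (INB E) (DTS E)
theorem SUP : T_SUP E := p_SUP E (BSC E)
theorem UNB : T_UNB E := p_UNB E (PB1 E) (PBL E) (PBN E) (PBB E) (BSP E) (SUP E)
theorem FLN : T_FLN E := p_FLN E (PB1 E) (UNB E) (BSP E)
theorem LOC : T_LOC E := p_LOC E (PBL E) (BSP E) (INT E) (SUP E) (FLN E) (DTS E)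
theorem ISO : T_ISO E := p_ISO E (PBP E) (PBS E) (CPT E)
theorem CMP : T_CMP E :=
  p_CMP E (BSP E) (PBL E) (PBP E) (PBS E) (SUP E) (TRN E) (CMM E) (DTC E) (INB E) (DTS E)
theorem MAI : T_MAI E :=
  p_MAI E (PB1 E) (PBS E) (PBL E) (CAP E) (DTS E) (DTC E) (NRM E) p_ALG (LOC E) (ISO E) (CMP E)
theorem FIN : T_FIN E :=
  p_FIN E (PB1 E) (PBS E) (PBR E) (DTC E) (DTI E) (NRM E) (MAI E)

end All_

end Pool.Agent.DTW
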