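import Pool.Agent.DTW.Defs

/-!
# DTW: basic facts
-/

set_option autoImplicit false

open scoped ContDiff

noncomputable section

namespace Pool.Agent.DTW

section lift

variable {V : Type} {A : Set V}

theorem lift_of_mem (g : Equiv.Perm A) {v : V} (h : v ∈ A) : lift A g v = g ⟨v, h⟩ :=
  dif_pos h

theorem lift_of_not (g : Equiv.Perm A) {v : V} (h : v ∉ A) : lift A g v = v := dif_neg h

@[simp] theorem lift_coe (g : Equiv.Perm A) (v : A) : lift A g v = g v :=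
  (lift_of_mem g v.2).trans (by rw [Subtype.coe_eta])

theorem lift_mem (g : Equiv.Perm A) {v : V} (h : v ∈ A) : lift A g v ∈ A := by
  rw [lift_of_mem g h]
  exact Subtype.coe_prop _

theorem lift_mapsTo (g : Equiv.Perm A) : Set.MapsTo (lift A g) A A := fun _ h => lift_mem g h

theorem lift_mul (g h : Equiv.Perm A) (v : V) : lift A (g * h) v = lift A g (lift A h v) := by
  by_cases hv : v ∈ A
  · rw [lift_of_mem _ hv, lift_of_mem h hv, lift_coe]
    rfl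
  · rw [lift_of_not _ hv, lift_of_not h hv, lift_of_not g hv]

@[simp] theorem lift_one (v : V) : lift A 1 v = v := by
  by_cases hv : v ∈ A
  · rw [lift_of_mem _ hv]
    rfl
  · rw [lift_of_not _ hv]

theorem lift_inv_self (g : Equiv.Perm A) (v : V) : lift A g⁻¹ (lift A g v) = v := by
  rw [← lift_mul, inv_mul_cancel, lift_one]

theorem lift_self_inv (g : Equiv.Perm A) (v : V) : lift A g (lift A g⁻¹ v) = v := by
  rw [← lift_mul, mul_inv_cancel, lift_one]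

end lift

section paths

variable {V : Type} [NormedAddCommGroup V] [NormedSpace ℝ V] {A : Set V}

theorem IsDiffeo.one : IsDiffeo A (1 : Equiv.Perm A) := by
  have h : ContDiffOn ℝ ∞ (lift A (1 : Equiv.Perm A)) A :=
    contDiffOn_id.congr fun v _ => lift_one v
  exact ⟨h, by rw [inv_one]; exact h⟩

theorem IsDiffeo.inv {g : Equiv.Perm A} (h : IsDiffeo A g) : IsDiffeo A g⁻¹ :=
  ⟨h.2, by rw [inv_inv]; exact h.1⟩

theorem IsDiffeo.mul {g h : Equiv.Perm A} (hg : IsDiffeo A g) (hh : IsDiffeo A h) :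
    IsDiffeo A (g * h) := by
  constructor
  · exact (hg.1.comp hh.1 (lift_mapsTo h)).congr fun v _ => lift_mul g h v
  · rw [mul_inv_rev]
    exact (hh.2.comp hg.2 (lift_mapsTo g⁻¹)).congr fun v _ => lift_mul h⁻¹ g⁻¹ v

theorem IsPath.inv {g : ℝ → Equiv.Perm A} (h : IsPath A g) : IsPath A fun t => (g t)⁻¹ :=
  ⟨h.2, by simpa only [inv_inv] using h.1⟩

theorem IsPath.mul_aux {g h : ℝ → Equiv.Perm A}
    (hg : ContDiffOn ℝ ∞ (fun w : ℝ × V => lift A (g w.1) w.2) (Set.univ ×ˢ A))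
    (hh : ContDiffOn ℝ ∞ (fun w : ℝ × V => lift A (h w.1) w.2) (Set.univ ×ˢ A)) :
    ContDiffOn ℝ ∞ (fun w : ℝ × V => lift A (g w.1 * h w.1) w.2) (Set.univ ×ˢ A) := by
  have h1 : ContDiffOn ℝ ∞ (fun w : ℝ × V => (w.1, lift A (h w.1) w.2)) (Set.univ ×ˢ A) :=
    contDiffOn_fst.prodMk hh
  have h2 := hg.comp h1 fun w hw => ⟨Set.mem_univ _, lift_mem _ hw.2⟩
  exact h2.congr fun w _ => lift_mul _ _ _

theorem IsPath.mul {g h : ℝ → Equiv.Perm A} (hg : IsPath A g) (hh : IsPath A h) :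
    IsPath A fun t => g t * h t := by
  refine ⟨IsPath.mul_aux hg.1 hh.1, ?_⟩
  have h1 := IsPath.mul_aux (g := fun t => (h t)⁻¹) (h := fun t => (g t)⁻¹) hh.2 hg.2
  simpa only [mul_inv_rev] using h1

theorem IsPath.const {g : Equiv.Perm A} (h : IsDiffeo A g) : IsPath A fun _ => g :=
  ⟨h.1.comp contDiffOn_snd fun _ hw => hw.2, h.2.comp contDiffOn_snd fun _ hw => hw.2⟩

theorem IsPath.one : IsPath A fun _ => (1 : Equiv.Perm A) := IsPath.const IsDiffeo.one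

theorem IsPath.isDiffeo {g : ℝ → Equiv.Perm A} (h : IsPath A g) (t : ℝ) :
    IsDiffeo A (g t) := by
  have h1 : ContDiffOn ℝ ∞ (fun v : V => ((t, v) : ℝ × V)) A :=
    contDiffOn_const.prodMk contDiffOn_id
  exact ⟨h.1.comp h1 fun v hv => ⟨Set.mem_univ _, hv⟩,
    h.2.comp h1 fun v hv => ⟨Set.mem_univ _, hv⟩⟩

theorem IsPath.reparam {g : ℝ → Equiv.Perm A} (h : IsPath A g) {σ : ℝ → ℝ}
    (hσ : ContDiff ℝ ∞ σ) : IsPath A fun t => g (σ t) := by
  have h1 : ContDiffOn ℝ ∞ (fun w : ℝ × V => (σ w.1, w.2)) (Set.univ ×ˢ A) :=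
    (hσ.comp contDiff_fst).contDiffOn.prodMk contDiffOn_snd
  exact ⟨h.1.comp h1 fun w hw => ⟨Set.mem_univ _, hw.2⟩,
    h.2.comp h1 fun w hw => ⟨Set.mem_univ _, hw.2⟩⟩

end paths

/-- a smooth function which is `0` for `t ≤ 0`, `1` for `t ≥ 1`, with values in `[0, 1]` -/
def sg : ℝ → ℝ := Real.smoothTransition

theorem sg_smooth : ContDiff ℝ ∞ sg := Real.smoothTransition.contDiff

theorem sg_zero : sg 0 = 0 := Real.smoothTransition.zero_of_nonpos le_rfl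

theorem sg_one : sg 1 = 1 := Real.smoothTransition.one_of_one_le le_rfl

theorem sg_nonneg (t : ℝ) : 0 ≤ sg t := Real.smoothTransition.nonneg t

theorem sg_le_one (t : ℝ) : sg t ≤ 1 := Real.smoothTransition.le_one t

variable {E : Type} [NormedAddCommGroup E] [InnerProductSpace ℝ E]

section symp

theorem IsSymp.one : IsSymp (1 : Equiv.Perm (TS E)) := by
  intro c _ _ s
  simp only [lift_one]

theorem comp_smooth {g : Equiv.Perm (TS E)} (hg : IsDiffeo (TS E) g) {c : ℝ × ℝ → E × E}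
    (hc : ContDiff ℝ ∞ c) (hm : ∀ s, c s ∈ TS E) :
    ContDiff ℝ ∞ fun u => lift (TS E) g (c u) := by
  rw [← contDiffOn_univ] at hc ⊢
  exact hg.1.comp hc fun s _ => hm s

theorem IsSymp.mul {g h : Equiv.Perm (TS E)} (hd : IsDiffeo (TS E) h) (hg : IsSymp g)
    (hh : IsSymp h) : IsSymp (g * h) := by
  intro c hc hm s
  have h1 := hg (fun u => lift (TS E) h (c u)) (comp_smooth hd hc hm)
    (fun s => lift_mem h (hm s)) s
  simp only [lift_mul]
  rw [h1]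
  exact hh c hc hm s

theorem IsSymp.inv {g : Equiv.Perm (TS E)} (hd : IsDiffeo (TS E) g) (hg : IsSymp g) :
    IsSymp g⁻¹ := by
  intro c hc hm s
  have h1 := hg (fun u => lift (TS E) g⁻¹ (c u)) (comp_smooth hd.inv hc hm)
    (fun s => lift_mem g⁻¹ (hm s)) s
  simp only [lift_self_inv] at h1
  exact h1.symm

/-- the group of symplectomorphisms -/
def SG (E : Type) [NormedAddCommGroup E] [InnerProductSpace ℝ E] :
    Subgroup (Equiv.Perm (TS E)) where
  carrier := {g | IsDiffeo (TS E) g ∧ IsSymp g}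
  one_mem' := ⟨IsDiffeo.one, IsSymp.one⟩
  mul_mem' := fun ha hb => ⟨ha.1.mul hb.1, ha.2.mul hb.1 hb.2⟩
  inv_mem' := fun ha => ⟨ha.1.inv, ha.2.inv ha.1⟩

theorem mem_SG {g : Equiv.Perm (TS E)} : g ∈ SG E ↔ IsDiffeo (TS E) g ∧ IsSymp g := Iff.rfl

/-- the group of compactly supported symplectomorphisms -/
def CG (E : Type) [NormedAddCommGroup E] [InnerProductSpace ℝ E] :
    Subgroup (Equiv.Perm (TS E)) where
  carrier := {g | SympC g}
  one_mem' := ⟨IsDiffeo.one, IsSymp.one, 0, fun _ _ => rfl⟩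
  mul_mem' := by
    rintro a b ⟨ha, ha', R, hR⟩ ⟨hb, hb', R', hR'⟩
    refine ⟨ha.mul hb, ha'.mul hb hb', max R R', fun z hz => ?_⟩
    rw [Equiv.Perm.mul_apply, hR' z (lt_of_le_of_lt (le_max_right _ _) hz),
      hR z (lt_of_le_of_lt (le_max_left _ _) hz)]
  inv_mem' := by
    rintro a ⟨ha, ha', R, hR⟩
    exact ⟨ha.inv, ha'.inv ha, R, fun z hz => by
      rw [Equiv.Perm.inv_eq_iff_eq, hR z hz]⟩

theorem mem_CG {g : Equiv.Perm (TS E)} : g ∈ CG E ↔ SympC g := Iff.rfl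

theorem CG_le_SG : CG E ≤ SG E := fun _ h => ⟨h.1, h.2.1⟩

theorem UCS.mul {g h : ℝ → Equiv.Perm (TS E)} (hg : UCS g) (hh : UCS h) :
    UCS fun t => g t * h t := by
  obtain ⟨R, hR⟩ := hg
  obtain ⟨R', hR'⟩ := hh
  refine ⟨max R R', fun t z hz => ?_⟩
  rw [Equiv.Perm.mul_apply, hR' t z (lt_of_le_of_lt (le_max_right _ _) hz),
    hR t z (lt_of_le_of_lt (le_max_left _ _) hz)]

theorem UCS.inv {g : ℝ → Equiv.Perm (TS E)} (hg : UCS g) : UCS fun t => (g t)⁻¹ := by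
  obtain ⟨R, hR⟩ := hg
  exact ⟨R, fun t z hz => by rw [Equiv.Perm.inv_eq_iff_eq, hR t z hz]⟩

/-- the identity component -/
def NG (E : Type) [NormedAddCommGroup E] [InnerProductSpace ℝ E] :
    Subgroup (Equiv.Perm (TS E)) where
  carrier := {g | Iso0 g}
  one_mem' := ⟨fun _ => 1, IsPath.one, fun _ => IsSymp.one, ⟨0, fun _ _ _ => rfl⟩, rfl, rfl⟩
  mul_mem' := by
    rintro a b ⟨h, h1, h2, h3, h4, h5⟩ ⟨k, k1, k2, k3, k4, k5⟩
    exact ⟨fun t => h t * k t, h1.mul k1, fun t => (h2 t).mul (k1.isDiffeo t) (k2 t),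
      h3.mul k3, by simp [h4, k4], by simp [h5, k5]⟩
  inv_mem' := by
    rintro a ⟨h, h1, h2, h3, h4, h5⟩
    exact ⟨fun t => (h t)⁻¹, h1.inv, fun t => (h2 t).inv (h1.isDiffeo t), h3.inv,
      by simp [h4], by simp [h5]⟩

theorem mem_NG {g : Equiv.Perm (TS E)} : g ∈ NG E ↔ Iso0 g := Iff.rfl

theorem NG_le_CG : NG E ≤ CG E := by
  rintro g ⟨h, h1, h2, ⟨R, h3⟩, h4, rfl⟩
  exact ⟨h1.isDiffeo 1, h2 1, R, fun z hz => h3 1 z hz⟩

/-- the group of diffeomorphisms of the sphere isotopic to the identity -/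
def IS (E : Type) [NormedAddCommGroup E] [InnerProductSpace ℝ E] :
    Subgroup (Equiv.Perm (S E)) where
  carrier := {g | IsoS g}
  one_mem' := ⟨fun _ => 1, IsPath.one, rfl, rfl⟩
  mul_mem' := by
    rintro a b ⟨h, h1, h2, h3⟩ ⟨k, k1, k2, k3⟩
    exact ⟨fun t => h t * k t, h1.mul k1, by simp [h2, k2], by simp [h3, k3]⟩
  inv_mem' := by
    rintro a ⟨h, h1, h2, h3⟩
    exact ⟨fun t => (h t)⁻¹, h1.inv, by simp [h2], by simp [h3]⟩

theorem mem_IS {g : Equiv.Perm (S E)} : g ∈ IS E ↔ IsoS g := Iff.rfl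

theorem IsoS.isDiffeo {φ : Equiv.Perm (S E)} (h : IsoS φ) : IsDiffeo (S E) φ := by
  obtain ⟨k, h1, h2, rfl⟩ := h
  exact h1.isDiffeo 1

theorem IS_conj {φ ψ : Equiv.Perm (S E)} (hφ : IsDiffeo (S E) φ) (hψ : ψ ∈ IS E) :
    φ * ψ * φ⁻¹ ∈ IS E := by
  obtain ⟨k, h1, h2, rfl⟩ := hψ
  exact ⟨fun t => φ * k t * φ⁻¹, ((IsPath.const hφ).mul h1).mul (IsPath.const hφ.inv),
    by simp [h2], rfl⟩

end symp

end Pool.Agent.DTW
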