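import Pool.Agent.DTW.Base

/-!
# DTW: boosts, translations, linear maps acting on the sphere, the special angle function
-/

set_option autoImplicit false

open scoped ContDiff

noncomputable section

namespace Pool.Agent.DTW

variable {E : Type} [NormedAddCommGroup E] [InnerProductSpace ℝ E]

omit [InnerProductSpace ℝ E] in
theorem S_norm (x : S E) : ‖(x : E)‖ = 1 := mem_sphere_zero_iff_norm.1 x.2

theorem S_inner_self (x : S E) : inner ℝ (x : E) (x : E) = 1 := by
  rw [real_inner_self_eq_norm_sq, S_norm, one_pow]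

omit [InnerProductSpace ℝ E] in
theorem mem_S {x : E} : x ∈ S E ↔ ‖x‖ = 1 := mem_sphere_zero_iff_norm

theorem S_inner_le (x y : S E) : inner ℝ (x : E) (y : E) ≤ 1 := by
  have := real_inner_le_norm (x : E) (y : E)
  rwa [S_norm, S_norm, one_mul] at this

theorem S_neg_le_inner (x y : S E) : -1 ≤ inner ℝ (x : E) (y : E) := by
  have := neg_le_of_abs_le (abs_real_inner_le_norm (x : E) (y : E))
  rwa [S_norm, S_norm, one_mul] at this

/-! ### boosts -/

/-- the denominator of the boost -/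
def bD (lam c : ℝ) : ℝ := Real.cosh lam + Real.sinh lam * c

theorem bD_pos (lam : ℝ) {c : ℝ} (h1 : -1 ≤ c) (h2 : c ≤ 1) : 0 < bD lam c := by
  unfold bD
  have h3 : 0 < Real.cosh lam + Real.sinh lam := by
    rw [Real.cosh_add_sinh]; exact Real.exp_pos _
  have h4 : 0 < Real.cosh lam - Real.sinh lam := by
    rw [Real.cosh_sub_sinh]; exact Real.exp_pos _
  have h5 : Real.cosh lam + Real.sinh lam * c =
      (1 + c) / 2 * (Real.cosh lam + Real.sinh lam) +
        (1 - c) / 2 * (Real.cosh lam - Real.sinh lam) := by ring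
  rw [h5]
  rcases eq_or_lt_of_le h2 with h6 | h6
  · rw [h6]
    linarith
  · have h7 : 0 < (1 - c) / 2 * (Real.cosh lam - Real.sinh lam) :=
      mul_pos (by linarith) h4
    have h8 : 0 ≤ (1 + c) / 2 * (Real.cosh lam + Real.sinh lam) :=
      mul_nonneg (by linarith) h3.le
    linarith

/-- the conformal flow of the sphere with repelling fixed point `- a` and attracting fixed
point `a` -/
def bstFun (a : E) (lam : ℝ) (y : E) : E :=
  (bD lam (inner ℝ y a))⁻¹ • (y + ((Real.cosh lam - 1) * inner ℝ y a + Real.sinh lam) • a)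

theorem bst_inner (a y : S E) (lam : ℝ) : inner ℝ (bstFun (a : E) lam y) (a : E) =
    (Real.cosh lam * inner ℝ (y : E) (a : E) + Real.sinh lam) /
      bD lam (inner ℝ (y : E) (a : E)) := by
  unfold bstFun
  rw [inner_smul_left, inner_add_left, inner_smul_left, S_inner_self]
  simp only [conj_trivial, mul_one]
  rw [div_eq_inv_mul]
  ring

theorem bst_norm (a y : S E) (lam : ℝ) : ‖bstFun (a : E) lam y‖ = 1 := by
  have hD := bD_pos lam (S_neg_le_inner y a) (S_inner_le y a)
  have h1 : ‖(y : E) + ((Real.cosh lam - 1) * inner ℝ (y : E) (a : E) + Real.sinh lam) •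
      (a : E)‖ ^ 2 = (bD lam (inner ℝ (y : E) (a : E))) ^ 2 := by
    rw [@norm_add_sq_real, norm_smul, inner_smul_right, S_norm, S_norm, mul_one,
      Real.norm_eq_abs, sq_abs]
    unfold bD
    have h2 := Real.cosh_sq lam
    linear_combination ((inner ℝ (y : E) (a : E)) ^ 2 - 1) * h2
  have h3 : ‖(y : E) + ((Real.cosh lam - 1) * inner ℝ (y : E) (a : E) + Real.sinh lam) •
      (a : E)‖ = bD lam (inner ℝ (y : E) (a : E)) :=
    (sq_eq_sq₀ (norm_nonneg _) hD.le).1 h1
  unfold bstFun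
  rw [norm_smul, h3, norm_inv, Real.norm_of_nonneg hD.le, inv_mul_cancel₀ hD.ne']

theorem bst_add (a y : S E) (lam mu : ℝ) :
    bstFun (a : E) mu (bstFun (a : E) lam y) = bstFun (a : E) (lam + mu) y := by
  have hD := bD_pos lam (S_neg_le_inner y a) (S_inner_le y a)
  have hD2 := bD_pos (lam + mu) (S_neg_le_inner y a) (S_inner_le y a)
  have hDne := hD.ne'
  have hD2ne := hD2.ne'
  have h1 : bD mu (inner ℝ (bstFun (a : E) lam y) (a : E)) =
      bD (lam + mu) (inner ℝ (y : E) (a : E)) / bD lam (inner ℝ (y : E) (a : E)) := by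
    rw [bst_inner, eq_div_iff hDne]
    have h2 : bD mu ((Real.cosh lam * inner ℝ (y : E) (a : E) + Real.sinh lam) /
        bD lam (inner ℝ (y : E) (a : E))) * bD lam (inner ℝ (y : E) (a : E)) =
        Real.cosh mu * bD lam (inner ℝ (y : E) (a : E)) +
          Real.sinh mu * (Real.cosh lam * inner ℝ (y : E) (a : E) + Real.sinh lam) := by
      rw [bD, add_mul, mul_assoc, div_mul_cancel₀ _ hDne]
    rw [h2]
    unfold bD
    rw [Real.cosh_add, Real.sinh_add]
    ring
  have h2 : bstFun (a : E) mu (bstFun (a : E) lam y) =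
      (bD mu (inner ℝ (bstFun (a : E) lam y) (a : E)))⁻¹ • (bstFun (a : E) lam y +
        ((Real.cosh mu - 1) * inner ℝ (bstFun (a : E) lam y) (a : E) + Real.sinh mu) •
          (a : E)) := rfl
  have h3 : ((Real.cosh mu - 1) * ((Real.cosh lam * inner ℝ (y : E) (a : E) + Real.sinh lam) /
      bD lam (inner ℝ (y : E) (a : E))) + Real.sinh mu) =
      (bD lam (inner ℝ (y : E) (a : E)))⁻¹ * (((Real.cosh (lam + mu) - 1) *
        inner ℝ (y : E) (a : E) + Real.sinh (lam + mu)) -
        ((Real.cosh lam - 1) * inner ℝ (y : E) (a : E) + Real.sinh lam)) := by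
    rw [div_eq_inv_mul, Real.cosh_add, Real.sinh_add]
    have h4 : Real.sinh mu = (bD lam (inner ℝ (y : E) (a : E)))⁻¹ *
        (Real.sinh mu * bD lam (inner ℝ (y : E) (a : E))) := by
      rw [mul_comm (Real.sinh mu), inv_mul_cancel_left₀ hDne]
    conv_lhs => rw [h4]
    unfold bD
    ring
  rw [h2, h1, bst_inner, inv_div, h3]
  unfold bstFun
  rw [mul_smul, ← smul_add, smul_smul]
  have e1 : bD lam (inner ℝ (y : E) (a : E)) / bD (lam + mu) (inner ℝ (y : E) (a : E)) *
      (bD lam (inner ℝ (y : E) (a : E)))⁻¹ = (bD (lam + mu) (inner ℝ (y : E) (a : E)))⁻¹ := by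
    rw [div_mul_eq_mul_div, mul_inv_cancel₀ hDne, one_div]
  rw [e1, add_assoc, ← add_smul, add_sub_cancel]

theorem bst_zero (a y : E) : bstFun a 0 y = y := by
  unfold bstFun bD
  simp

/-- the boost, as a permutation of the sphere -/
def bst (a : S E) (lam : ℝ) : Equiv.Perm (S E) where
  toFun y := ⟨bstFun a lam y, mem_S.2 (bst_norm a y lam)⟩
  invFun y := ⟨bstFun a (-lam) y, mem_S.2 (bst_norm a y (-lam))⟩
  left_inv y := Subtype.ext (by
    show bstFun (a : E) (-lam) (bstFun (a : E) lam y) = y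
    rw [bst_add, add_neg_cancel, bst_zero])
  right_inv y := Subtype.ext (by
    show bstFun (a : E) lam (bstFun (a : E) (-lam) y) = y
    rw [bst_add, neg_add_cancel, bst_zero])

theorem bst_inv (a : S E) (lam : ℝ) : (bst a lam)⁻¹ = bst a (-lam) := by
  refine Equiv.ext fun y => ?_
  rfl

/-! ### translations -/

theorem trn_mem (a : E) {z : E × E} (hz : z ∈ TS E) :
    (z.1, z.2 + a - inner ℝ a z.1 • z.1) ∈ TS E := by
  obtain ⟨h1, h2⟩ := hz
  refine ⟨h1, ?_⟩
  show inner ℝ z.1 (z.2 + a - inner ℝ a z.1 • z.1) = 0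
  rw [inner_sub_right, inner_add_right, inner_smul_right, h2, real_inner_self_eq_norm_sq, h1,
    real_inner_comm]
  ring

/-- the translation by the differential of the function `⟪a, x⟫` on the sphere -/
def trn (a : E) : Equiv.Perm (TS E) where
  toFun z := ⟨(z.1.1, z.1.2 + a - inner ℝ a z.1.1 • z.1.1), trn_mem a z.2⟩
  invFun z := ⟨(z.1.1, z.1.2 + -a - inner ℝ (-a) z.1.1 • z.1.1), trn_mem (-a) z.2⟩
  left_inv z := Subtype.ext (Prod.ext rfl (by
    show z.1.2 + a - inner ℝ a z.1.1 • z.1.1 + -a - inner ℝ (-a) z.1.1 • z.1.1 = z.1.2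
    rw [inner_neg_left, neg_smul]
    abel))
  right_inv z := Subtype.ext (Prod.ext rfl (by
    show z.1.2 + -a - inner ℝ (-a) z.1.1 • z.1.1 + a - inner ℝ a z.1.1 • z.1.1 = z.1.2
    rw [inner_neg_left, neg_smul]
    abel))

theorem trn_inv (a : E) : (trn a)⁻¹ = trn (-a) := Equiv.ext fun _ => rfl

/-! ### linear maps -/

theorem lin_pos (B : E ≃ₗ[ℝ] E) {x : E} (hx : ‖x‖ = 1) : 0 < ‖B x‖ := by
  refine norm_pos_iff.2 fun h => ?_
  rw [LinearEquiv.map_eq_zero_iff] at h
  rw [h, norm_zero] at hx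
  exact zero_ne_one hx

theorem lam_aux (B : E ≃ₗ[ℝ] E) (x : S E) :
    ‖B.symm (‖B x‖⁻¹ • B x)‖⁻¹ • B.symm (‖B x‖⁻¹ • B x) = (x : E) := by
  have h := lin_pos B (S_norm x)
  rw [map_smul, LinearEquiv.symm_apply_apply, norm_smul, S_norm, mul_one, norm_inv, norm_norm,
    inv_inv, smul_smul, mul_inv_cancel₀ h.ne', one_smul]

theorem nrm_mem {y : E} (h : 0 < ‖y‖) : ‖y‖⁻¹ • y ∈ S E := by
  rw [mem_S, norm_smul, norm_inv, norm_norm, inv_mul_cancel₀ h.ne']

/-- the action of an invertible linear map on the sphere (the space of rays) -/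
def lam (B : E ≃ₗ[ℝ] E) : Equiv.Perm (S E) where
  toFun x := ⟨‖B x‖⁻¹ • B x, nrm_mem (lin_pos B (S_norm x))⟩
  invFun x := ⟨‖B.symm x‖⁻¹ • B.symm x, nrm_mem (lin_pos B.symm (S_norm x))⟩
  left_inv x := Subtype.ext (lam_aux B x)
  right_inv x := Subtype.ext (lam_aux B.symm x)

/-! ### the special angle function -/

/-- `π` for `r ≤ 1`, `0` for `r ≥ 2`, and `π / 2` exactly for `r = 3 / 2` -/
def A0 : Angle where
  θ r := Real.pi * (1 - sg (r - 1))
  smooth := contDiff_const.mul (contDiff_const.sub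
    (sg_smooth.comp (contDiff_id.sub contDiff_const)))
  zero := ⟨1, one_pos, Or.inl fun r hr => by
    have : sg (r - 1) = 0 := Real.smoothTransition.zero_of_nonpos (by linarith)
    rw [this, sub_zero, mul_one]⟩
  inf := ⟨2, fun r hr => by
    have : sg (r - 1) = 1 := Real.smoothTransition.one_of_one_le (by linarith)
    rw [this, sub_self, mul_zero]⟩

end Pool.Agent.DTW
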