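import Mathlib

/-!
# Twisted Dehn twist commutators in `T*Sⁿ` (MP_05fd65_gt): definitions

`S E` is the unit sphere of a finite dimensional real inner product space `E`, and
`TS E = {(x, p) : |x| = 1, x ⊥ p}` is its cotangent bundle, as a submanifold of `E × E`; the
covector `p` at `x` is the linear form `ξ ↦ ⟪p, ξ⟫` on the tangent space `x^⊥`.  The canonical
symplectic form `∑ dpᵢ ∧ dxᵢ` is the restriction of `om`.
-/

set_option autoImplicit false

open scoped ContDiff

noncomputable section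

namespace Pool.Agent.DTW

/-- A permutation of a set `A`, extended by the identity. -/
def lift {V : Type} (A : Set V) (g : Equiv.Perm A) (v : V) : V :=
  open Classical in if h : v ∈ A then (g ⟨v, h⟩ : V) else v

section

variable {V : Type} [NormedAddCommGroup V] [NormedSpace ℝ V]

/-- The diffeomorphisms of a submanifold `A` of `V`: `g` and its inverse are smooth on `A`. -/
def IsDiffeo (A : Set V) (g : Equiv.Perm A) : Prop :=
  ContDiffOn ℝ ∞ (lift A g) A ∧ ContDiffOn ℝ ∞ (lift A g⁻¹) A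

/-- Smooth paths `g t`, `t ∈ ℝ`, of diffeomorphisms of a submanifold `A` of `V`: the maps
`(t, v) ↦ g t v` and `(t, v) ↦ (g t)⁻¹ v` are smooth on `ℝ × A`. -/
def IsPath (A : Set V) (g : ℝ → Equiv.Perm A) : Prop :=
  ContDiffOn ℝ ∞ (fun w : ℝ × V => lift A (g w.1) w.2) (Set.univ ×ˢ A) ∧
    ContDiffOn ℝ ∞ (fun w : ℝ × V => lift A (g w.1)⁻¹ w.2) (Set.univ ×ˢ A)

end

variable (E : Type) [NormedAddCommGroup E] [InnerProductSpace ℝ E]

/-- The unit sphere. -/
abbrev S : Set E := Metric.sphere (0 : E) 1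

/-- The cotangent bundle of the unit sphere. -/
def TS : Set (E × E) := {z | ‖z.1‖ = 1 ∧ inner ℝ z.1 z.2 = 0}

variable {E}

/-- The symplectic form `∑ dpᵢ ∧ dxᵢ` of `E × E` (a point is `(x, p)`). -/
def om (v w : E × E) : ℝ := inner ℝ v.2 w.1 - inner ℝ w.2 v.1

/-- `g` preserves the symplectic form of `T*S`: for every smooth map `c` of the plane in `T*S`
the pull-backs of the form under `c` and under `g ∘ c` agree. -/
def IsSymp (g : Equiv.Perm (TS E)) : Prop :=
  ∀ c : ℝ × ℝ → E × E, ContDiff ℝ ∞ c → (∀ s, c s ∈ TS E) → ∀ s,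
    om (fderiv ℝ (fun u => lift (TS E) g (c u)) s (1, 0))
        (fderiv ℝ (fun u => lift (TS E) g (c u)) s (0, 1)) =
      om (fderiv ℝ c s (1, 0)) (fderiv ℝ c s (0, 1))

/-- `g` is the identity outside a compact set, which does not depend on `t`. -/
def UCS (g : ℝ → Equiv.Perm (TS E)) : Prop :=
  ∃ R : ℝ, ∀ (t : ℝ) (z : TS E), R < ‖z.1.2‖ → g t z = z

/-- The compactly supported symplectomorphisms of `T*S`. -/
def SympC (g : Equiv.Perm (TS E)) : Prop :=
  IsDiffeo (TS E) g ∧ IsSymp g ∧ ∃ R : ℝ, ∀ z : TS E, R < ‖z.1.2‖ → g z = z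

/-- `g` is isotopic to the identity through compactly supported symplectomorphisms, that is, the
class of `g` in `π₀(Symp^c(T*S))` is trivial. -/
def Iso0 (g : Equiv.Perm (TS E)) : Prop :=
  ∃ h : ℝ → Equiv.Perm (TS E), IsPath (TS E) h ∧ (∀ t, IsSymp (h t)) ∧ UCS h ∧
    h 0 = 1 ∧ h 1 = g

/-- `φ` is isotopic to the identity through diffeomorphisms of the sphere. -/
def IsoS (φ : Equiv.Perm (S E)) : Prop :=
  ∃ h : ℝ → Equiv.Perm (S E), IsPath (S E) h ∧ h 0 = 1 ∧ h 1 = φ

/-- The extension of a map of the sphere to `E ∖ {0}` which is constant along the rays. -/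
def ext (φ : Equiv.Perm (S E)) (y : E) : E := lift (S E) φ (‖y‖⁻¹ • y)

/-- `φ` preserves the orientation of the sphere: for some `x` (equivalently, for every `x`) the
linear map which maps `x` to `φ x` and is `dφ` on the tangent space `x^⊥` has positive
determinant (it is the derivative at `x` of the extension of `φ` homogeneous of degree one). -/
def OrPres (φ : Equiv.Perm (S E)) : Prop :=
  ∃ x : S E, 0 < (fderiv ℝ (fun y => ‖y‖ • ext φ y) (x : E)).det

/-- The restriction of a linear isometry to the sphere. -/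
def rot (ρ : E ≃ₗᵢ[ℝ] E) : Equiv.Perm (S E) where
  toFun x := ⟨ρ x, by simp⟩
  invFun x := ⟨ρ.symm x, by simp⟩
  left_inv x := Subtype.ext (by simp)
  right_inv x := Subtype.ext (by simp)

/-- The radial extension is constant along the rays. -/
theorem fderiv_ext_self (φ : Equiv.Perm (S E)) (x : E) : fderiv ℝ (ext φ) x x = 0 := by
  by_cases hd : DifferentiableAt ℝ (ext φ) x
  · have h1 : HasDerivAt (fun t : ℝ => ext φ (x + t • x)) (fderiv ℝ (ext φ) x x) 0 := by
      have h2 : HasDerivAt (fun t : ℝ => x + t • x) x 0 := by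
        have := ((hasDerivAt_id (0 : ℝ)).smul_const x).const_add x
        simpa using this
      have h3 : HasFDerivAt (ext φ) (fderiv ℝ (ext φ) x) (x + (0 : ℝ) • x) := by
        simpa using hd.hasFDerivAt
      exact HasFDerivAt.comp_hasDerivAt (f := fun t : ℝ => x + t • x) (l := ext φ) (0 : ℝ) h3 h2
    have h4 : (fun t : ℝ => ext φ (x + t • x)) =ᶠ[nhds 0] fun _ => ext φ x := by
      filter_upwards [Ioo_mem_nhds (show (-1 : ℝ) < 0 by norm_num) (show (0 : ℝ) < 1 by norm_num)]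
        with t ht
      have h5 : (0 : ℝ) < 1 + t := by linarith [ht.1]
      have h6 : x + t • x = (1 + t) • x := by rw [add_smul, one_smul]
      unfold ext
      rw [h6, norm_smul, Real.norm_of_nonneg h5.le, smul_smul, mul_inv, mul_comm (1 + t)⁻¹,
        mul_assoc, inv_mul_cancel₀ h5.ne', mul_one]
    have h7 : HasDerivAt (fun t : ℝ => ext φ (x + t • x)) 0 0 :=
      (hasDerivAt_const (0 : ℝ) (ext φ x)).congr_of_eventuallyEq h4
    exact h1.unique h7
  · rw [fderiv_zero_of_not_differentiableAt hd]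
    rfl

section pull

variable [FiniteDimensional ℝ E]

/-- The pull-back of covectors `φ*(y, q) = (x, q ∘ dφ)` at `x = φ⁻¹ y`. -/
def pullFun (φ : Equiv.Perm (S E)) (z : TS E) : TS E :=
  ⟨((φ⁻¹ ⟨z.1.1, by simpa using z.2.1⟩ : S E),
    LinearMap.adjoint (fderiv ℝ (ext φ) (φ⁻¹ ⟨z.1.1, by simpa using z.2.1⟩ : S E) :
      E →ₗ[ℝ] E) z.1.2), by
    refine ⟨by simp, ?_⟩
    rw [real_inner_comm, LinearMap.adjoint_inner_left]
    show inner ℝ z.1.2 (fderiv ℝ (ext φ) _ _) = 0
    rw [fderiv_ext_self, inner_zero_right]⟩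

/-- The pull-back of covectors, as a permutation of `T*S` (for a diffeomorphism `φ`, otherwise
the value is not meaningful). -/
def pull (φ : Equiv.Perm (S E)) : Equiv.Perm (TS E) :=
  open Classical in
  if h : Function.Bijective (pullFun φ) then Equiv.ofBijective _ h else 1

end pull

/-! ### The Dehn twist -/

/-- The angle functions of the model Dehn twist and its inverse: smooth, constant `π` (or `- π`)
near `0` and `0` near infinity. -/
structure Angle where
  θ : ℝ → ℝ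
  smooth : ContDiff ℝ ∞ θ
  zero : ∃ ε > 0, (∀ r < ε, θ r = Real.pi) ∨ (∀ r < ε, θ r = -Real.pi)
  inf : ∃ R : ℝ, ∀ r, R ≤ r → θ r = 0

/-- The geodesic flow of the sphere (with unit speed) for the time `θ(|p|)`. -/
def dtFun (θ : ℝ → ℝ) (z : E × E) : E × E :=
  (Real.cos (θ ‖z.2‖) • z.1 + (Real.sin (θ ‖z.2‖) / ‖z.2‖) • z.2,
    Real.cos (θ ‖z.2‖) • z.2 - (‖z.2‖ * Real.sin (θ ‖z.2‖)) • z.1)

theorem dtFun_norm (θ : ℝ → ℝ) {z : E × E} (hz : z ∈ TS E) : ‖(dtFun θ z).2‖ = ‖z.2‖ := by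
  obtain ⟨h1, h2⟩ := hz
  have h3 : ‖(dtFun θ z).2‖ ^ 2 = ‖z.2‖ ^ 2 := by
    unfold dtFun
    simp only
    rw [@norm_sub_sq_real, norm_smul, norm_smul, inner_smul_left, inner_smul_right,
      real_inner_comm, h2, h1]
    simp only [mul_one, Real.norm_eq_abs, abs_mul, abs_norm, mul_zero, sub_zero, mul_pow, sq_abs,
      conj_trivial]
    nlinarith [Real.sin_sq_add_cos_sq (θ ‖z.2‖)]
  nlinarith [norm_nonneg (dtFun θ z).2, norm_nonneg z.2]

theorem dtFun_mem (θ : ℝ → ℝ) (h0 : Real.sin (θ 0) = 0) {z : E × E} (hz : z ∈ TS E) :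
    dtFun θ z ∈ TS E := by
  obtain ⟨h1, h2⟩ := hz
  have hs := Real.sin_sq_add_cos_sq (θ ‖z.2‖)
  have h2' : inner ℝ z.2 z.1 = 0 := by rw [real_inner_comm]; exact h2
  rcases eq_or_ne z.2 0 with h3 | h3
  · have h4 : Real.cos (θ 0) ^ 2 = 1 := by
      have := Real.sin_sq_add_cos_sq (θ 0)
      rw [h0] at this
      linarith
    have h5 : |Real.cos (θ 0)| = 1 := by
      rw [← Real.sqrt_sq_eq_abs, h4, Real.sqrt_one]
    constructor
    · unfold dtFun
      simp [h3, norm_smul, h5, h1]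
    · unfold dtFun
      simp [h3]
  · have h4 : ‖z.2‖ ≠ 0 := norm_ne_zero_iff.2 h3
    constructor
    · have h5 : ‖(dtFun θ z).1‖ ^ 2 = 1 := by
        unfold dtFun
        simp only
        rw [@norm_add_sq_real, norm_smul, norm_smul, inner_smul_left, inner_smul_right, h2, h1]
        simp only [mul_one, Real.norm_eq_abs, abs_div, abs_norm, mul_zero, add_zero, mul_pow,
          div_pow, sq_abs]
        field_simp
        linarith
      have h6 := norm_nonneg (dtFun θ z).1
      nlinarith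
    · unfold dtFun
      simp only [inner_add_left, inner_sub_right, inner_smul_left, inner_smul_right, h2, h2',
        real_inner_self_eq_norm_sq, h1, conj_trivial]
      field_simp
      ring

theorem dtFun_neg (θ : ℝ → ℝ) (h0 : Real.sin (θ 0) = 0) {z : E × E} (hz : z ∈ TS E) :
    dtFun (-θ) (dtFun θ z) = z := by
  have hn := dtFun_norm θ hz
  obtain ⟨h1, h2⟩ := hz
  have hs := Real.sin_sq_add_cos_sq (θ ‖z.2‖)
  rcases eq_or_ne z.2 0 with h3 | h3
  · have h4 : Real.cos (θ 0) * Real.cos (θ 0) = 1 := by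
      have := Real.sin_sq_add_cos_sq (θ 0)
      rw [h0] at this
      linarith
    have h5 : dtFun θ z = (Real.cos (θ 0) • z.1, 0) := by
      unfold dtFun
      simp [h3, h0]
    rw [h5]
    unfold dtFun
    refine Prod.ext ?_ ?_
    · simp [smul_smul, h4]
    · simp [h3]
  · have h4 : ‖z.2‖ ≠ 0 := norm_ne_zero_iff.2 h3
    have h6 : ∀ w : E × E, ‖w.2‖ = ‖z.2‖ → dtFun (-θ) w =
        (Real.cos (θ ‖z.2‖) • w.1 - (Real.sin (θ ‖z.2‖) / ‖z.2‖) • w.2,
          Real.cos (θ ‖z.2‖) • w.2 + (‖z.2‖ * Real.sin (θ ‖z.2‖)) • w.1) := by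
      intro w hw
      unfold dtFun
      rw [hw]
      simp only [Pi.neg_apply, Real.cos_neg, Real.sin_neg, neg_div, neg_smul, mul_neg,
        sub_neg_eq_add, ← sub_eq_add_neg]
    rw [h6 _ hn]
    unfold dtFun
    refine Prod.ext ?_ ?_
    · simp only [smul_add, smul_sub, smul_smul]
      have e1 : Real.sin (θ ‖z.2‖) / ‖z.2‖ * (‖z.2‖ * Real.sin (θ ‖z.2‖)) =
          Real.sin (θ ‖z.2‖) ^ 2 := by field_simp
      have e2 : Real.sin (θ ‖z.2‖) / ‖z.2‖ * Real.cos (θ ‖z.2‖) =
          Real.cos (θ ‖z.2‖) * (Real.sin (θ ‖z.2‖) / ‖z.2‖) := by ring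
      rw [e1, e2]
      have e3 : z.1 = (Real.cos (θ ‖z.2‖) * Real.cos (θ ‖z.2‖)) • z.1 +
          (Real.sin (θ ‖z.2‖) ^ 2) • z.1 := by
        rw [← add_smul]
        have : Real.cos (θ ‖z.2‖) * Real.cos (θ ‖z.2‖) + Real.sin (θ ‖z.2‖) ^ 2 = 1 := by
          linarith
        rw [this, one_smul]
      conv_rhs => rw [e3]
      abel
    · simp only [smul_add, smul_sub, smul_smul]
      have e1 : ‖z.2‖ * Real.sin (θ ‖z.2‖) * (Real.sin (θ ‖z.2‖) / ‖z.2‖) =
          Real.sin (θ ‖z.2‖) ^ 2 := by field_simp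
      have e2 : ‖z.2‖ * Real.sin (θ ‖z.2‖) * Real.cos (θ ‖z.2‖) =
          Real.cos (θ ‖z.2‖) * (‖z.2‖ * Real.sin (θ ‖z.2‖)) := by ring
      rw [e1, e2]
      have e3 : z.2 = (Real.cos (θ ‖z.2‖) * Real.cos (θ ‖z.2‖)) • z.2 +
          (Real.sin (θ ‖z.2‖) ^ 2) • z.2 := by
        rw [← add_smul]
        have : Real.cos (θ ‖z.2‖) * Real.cos (θ ‖z.2‖) + Real.sin (θ ‖z.2‖) ^ 2 = 1 := by
          linarith
        rw [this, one_smul]
      conv_rhs => rw [e3]
      abel

theorem Angle.sin_zero (A : Angle) : Real.sin (A.θ 0) = 0 := by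
  obtain ⟨ε, h1, h2 | h2⟩ := A.zero
  · rw [h2 0 h1, Real.sin_pi]
  · rw [h2 0 h1, Real.sin_neg, Real.sin_pi, neg_zero]

/-- The model Dehn twist of `T*S` (for an angle function which is `π` near `0`), or its inverse
(`- π` near `0`). -/
def dt (A : Angle) : Equiv.Perm (TS E) where
  toFun z := ⟨dtFun A.θ z, dtFun_mem A.θ A.sin_zero z.2⟩
  invFun z := ⟨dtFun (-A.θ) z, dtFun_mem (-A.θ) (by
    rw [Pi.neg_apply, Real.sin_neg, A.sin_zero, neg_zero]) z.2⟩
  left_inv z := Subtype.ext (dtFun_neg A.θ A.sin_zero z.2)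
  right_inv z := Subtype.ext (by
    have h := dtFun_neg (-A.θ) (by rw [Pi.neg_apply, Real.sin_neg, A.sin_zero, neg_zero]) z.2
    rw [neg_neg] at h
    exact h)

end Pool.Agent.DTW
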