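import Pool.Agent.DTW.Targets

/-!
# DTW: the group theory (ALG)
-/

set_option autoImplicit false

namespace Pool.Agent.DTW

namespace ALG_

/-- the computation in the quotient -/
theorem quot {Q : Type} [Group Q] (P : Set Q) (t f f' f'' z : Q) (m : ℕ)
    (ht : t ∈ P) (hz : z ∈ P) (ha : t⁻¹ * (f * t * f⁻¹) ∈ P)
    (h1 : ∀ g ∈ P, f * g * f⁻¹ = f' * g * f'⁻¹) (h2 : ∀ g ∈ P, f * g * f⁻¹ = f'' * g * f''⁻¹)
    (hc : f * f' = f' * f) (hzd : f' * (t⁻¹ * f * t) * f'⁻¹ * (t⁻¹ * f * t)⁻¹ = z)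
    (h3 : f'' * z = z * f'') (h4 : (t⁻¹ * f'' * t) * z = z * (t⁻¹ * f'' * t))
    (h5 : ∀ g ∈ P, f ^ m * g * (f ^ m)⁻¹ = g) :
    (t⁻¹ * (f * t * f⁻¹)) ^ (2 * m) = 1 := by
  obtain ⟨a, had⟩ : ∃ a, a = t⁻¹ * (f * t * f⁻¹) := ⟨_, rfl⟩
  rw [← had] at ha ⊢
  have hG : a * f = t⁻¹ * f * t := by rw [had]; group
  have e1 : f * a * f⁻¹ = z * a := by
    rw [h1 a ha, ← hzd, ← hG]
    have : f'⁻¹ * f⁻¹ = f⁻¹ * f'⁻¹ := by rw [← mul_inv_rev, ← mul_inv_rev, hc]
    calc f' * a * f'⁻¹ = f' * (a * f) * (f⁻¹ * f'⁻¹) := by group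
      _ = f' * (a * f) * (f'⁻¹ * f⁻¹) := by rw [this]
      _ = f' * (a * f) * f'⁻¹ * (a * f)⁻¹ * a := by group
  have e2 : f * z * f⁻¹ = z := by
    rw [h2 z hz, h3, mul_inv_cancel_right]
  have e3 : a * z = z * a := by
    have h6 : a = (t⁻¹ * f'' * t) * f''⁻¹ := by
      rw [had, h2 t ht]; group
    have h7 : f''⁻¹ * z = z * f''⁻¹ := by
      rw [inv_mul_eq_iff_eq_mul, ← mul_assoc, h3, mul_inv_cancel_right]
    rw [h6, mul_assoc, h7, ← mul_assoc, h4, mul_assoc]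
  have hcom : Commute a z := e3
  have e4 : ∀ k : ℕ, f ^ k * a = z ^ k * a * f ^ k := by
    intro k
    induction k with
    | zero => simp
    | succ k ih =>
      have h6 : f * z ^ k = z ^ k * f := by
        have : Commute f z := by
          rw [commute_iff_eq]
          calc f * z = f * z * f⁻¹ * f := by group
            _ = z * f := by rw [e2]
        exact (this.pow_right k).eq
      have h7 : f * a = z * a * f := by
        calc f * a = f * a * f⁻¹ * f := by group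
          _ = z * a * f := by rw [e1]
      calc f ^ (k + 1) * a = f * (f ^ k * a) := by rw [pow_succ']; group
        _ = f * (z ^ k * a * f ^ k) := by rw [ih]
        _ = (f * z ^ k) * a * f ^ k := by group
        _ = z ^ k * (f * a) * f ^ k := by rw [h6]; group
        _ = z ^ k * (z * a * f) * f ^ k := by rw [h7]
        _ = z ^ (k + 1) * a * f ^ (k + 1) := by rw [pow_succ z k, pow_succ' f k]; group
  have e5 : ∀ k : ℕ, (a * f) ^ k = z ^ (k.choose 2) * a ^ k * f ^ k := by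
    intro k
    induction k with
    | zero => simp
    | succ k ih =>
      have h6 : (k + 1).choose 2 = k.choose 2 + k := by
        rw [Nat.choose_succ_succ' k 1, Nat.choose_one_right, add_comm]
      have h7 : a ^ k * z ^ k = z ^ k * a ^ k := (hcom.pow_pow k k).eq
      calc (a * f) ^ (k + 1) = (a * f) ^ k * (a * f) := pow_succ _ _
        _ = z ^ (k.choose 2) * a ^ k * (f ^ k * a) * f := by rw [ih]; group
        _ = z ^ (k.choose 2) * (a ^ k * z ^ k) * a * f ^ k * f := by rw [e4]; group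
        _ = z ^ (k.choose 2) * z ^ k * (a ^ k * a) * (f ^ k * f) := by rw [h7]; group
        _ = z ^ ((k + 1).choose 2) * a ^ (k + 1) * f ^ (k + 1) := by
          rw [h6, pow_add, pow_succ a k, pow_succ f k]
  have hzm : z ^ m = 1 := by
    have h6 := h5 a ha
    rw [e4, mul_inv_cancel_right] at h6
    exact mul_eq_right.1 h6
  have hft : t⁻¹ * f ^ m * t = f ^ m := by
    have h6 := h5 t ht
    have h7 : f ^ m * t = t * f ^ m := by
      calc f ^ m * t = f ^ m * t * (f ^ m)⁻¹ * f ^ m := by group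
        _ = t * f ^ m := by rw [h6]
    rw [mul_assoc, h7, inv_mul_cancel_left]
  have hm : z ^ (m.choose 2) * a ^ m = 1 := by
    have h6 : (a * f) ^ m = f ^ m := by
      rw [hG, ← hft]
      have h8 : t⁻¹ * f * t = t⁻¹ * f * t⁻¹⁻¹ := by rw [inv_inv]
      rw [h8, conj_pow, inv_inv]
    rw [e5 m] at h6
    exact mul_eq_right.1 h6
  have h6 : a ^ m = (z ^ (m.choose 2))⁻¹ := (inv_eq_of_mul_eq_one_right hm).symm
  have h7 : 2 * m.choose 2 = m * (m - 1) := by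
    rw [Nat.choose_two_right]
    exact Nat.mul_div_cancel' (Nat.even_mul_pred_self m).two_dvd
  rw [mul_comm 2 m, pow_mul, h6, inv_pow, ← pow_mul, mul_comm (m.choose 2) 2, h7, pow_mul, hzm,
    one_pow, inv_one]

end ALG_

theorem p_ALG : T_ALG := by
  intro G _ S₀ C N hNC hCS hSC hSN t f f' f'' z₁ m ht hf hf' hf'' hz₁ h1 h2 hc h3 h4 h5 h6
  have hN : (N.subgroupOf S₀).Normal := by
    constructor
    intro n hn g
    rw [Subgroup.mem_subgroupOf] at hn ⊢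
    exact hSN g g.2 n hn
  let q : S₀ →* S₀ ⧸ N.subgroupOf S₀ := QuotientGroup.mk' _
  have hq : ∀ x y : S₀, (x : G) * (y : G)⁻¹ ∈ N → q x = q y := by
    intro x y hxy
    have h7 : x * y⁻¹ ∈ N.subgroupOf S₀ := by
      rw [Subgroup.mem_subgroupOf]
      simpa using hxy
    have h8 : q (x * y⁻¹) = 1 := (QuotientGroup.eq_one_iff _).2 h7
    rw [map_mul, map_inv, mul_inv_eq_one] at h8
    exact h8
  obtain ⟨t', ht'⟩ : ∃ t' : S₀, (t' : G) = t := ⟨⟨t, hCS ht⟩, rfl⟩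
  obtain ⟨f1, hf1⟩ : ∃ x : S₀, (x : G) = f := ⟨⟨f, hf⟩, rfl⟩
  obtain ⟨f2, hf2⟩ : ∃ x : S₀, (x : G) = f' := ⟨⟨f', hf'⟩, rfl⟩
  obtain ⟨f3, hf3⟩ : ∃ x : S₀, (x : G) = f'' := ⟨⟨f'', hf''⟩, rfl⟩
  obtain ⟨z, hz⟩ : ∃ x : S₀, (x : G) = z₁ := ⟨⟨z₁, hCS hz₁⟩, rfl⟩
  subst ht' hf1 hf2 hf3 hz
  have key := ALG_.quot (Q := S₀ ⧸ N.subgroupOf S₀) {x | ∃ g : S₀, (g : G) ∈ C ∧ q g = x}
    (q t') (q f1) (q f2) (q f3) (q z) m ⟨t', ht, rfl⟩ ⟨z, hz₁, rfl⟩
    ⟨t'⁻¹ * (f1 * t' * f1⁻¹), by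
      simpa using C.mul_mem (C.inv_mem ht) (hSC f1 f1.2 t' ht), by simp⟩
    (by
      rintro _ ⟨g, hg, rfl⟩
      have := hq (f1 * g * f1⁻¹) (f2 * g * f2⁻¹) (by simpa using h1 g hg)
      simpa using this)
    (by
      rintro _ ⟨g, hg, rfl⟩
      have := hq (f1 * g * f1⁻¹) (f3 * g * f3⁻¹) (by simpa using h2 g hg)
      simpa using this)
    (by
      have : f1 * f2 = f2 * f1 := Subtype.ext hc
      rw [← map_mul, this, map_mul])
    (by
      have := hq (f2 * (t'⁻¹ * f1 * t') * f2⁻¹ * (t'⁻¹ * f1 * t')⁻¹) z (by simpa using h3)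
      rw [← this]
      simp)
    (by
      have : f3 * z = z * f3 := Subtype.ext h4
      rw [← map_mul, this, map_mul])
    (by
      have : (t'⁻¹ * f3 * t') * z = z * (t'⁻¹ * f3 * t') := Subtype.ext h5
      rw [← map_inv, ← map_mul, ← map_mul, ← map_mul, this, map_mul])
    (by
      rintro _ ⟨g, hg, rfl⟩
      have := hq (f1 ^ m * g * (f1 ^ m)⁻¹) g (by simpa using h6 g hg)
      rw [← map_pow, ← map_inv, ← map_mul, ← map_mul, this])
  have h7 : q ((t'⁻¹ * (f1 * t' * f1⁻¹)) ^ (2 * m)) = 1 := by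
    rw [← key]
    simp
  have h8 := (QuotientGroup.eq_one_iff _).1 h7
  rw [Subgroup.mem_subgroupOf] at h8
  simpa using h8

end Pool.Agent.DTW
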