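import Pool.Agent.DTW.Targets

/-!
# DTW: linear maps with positive determinant are isotopic to the identity
-/

set_option autoImplicit false

open scoped ContDiff

noncomputable section

namespace Pool.Agent.DTW

variable (E : Type) [NormedAddCommGroup E] [InnerProductSpace ℝ E] [FiniteDimensional ℝ E]

namespace GLP_

variable {E}

omit [FiniteDimensional ℝ E] in
theorem lam_one : lam (1 : E ≃ₗ[ℝ] E) = 1 := by
  refine Equiv.ext fun x => Subtype.ext ?_
  show ‖(x : E)‖⁻¹ • (x : E) = x
  rw [S_norm, inv_one, one_smul]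

theorem lam_diffeo (hL : T_LMP E) (B : E ≃ₗ[ℝ] E) : IsDiffeo (S E) (lam B) := by
  have h1 : ContDiff ℝ ∞ (fun w : ℝ × E => B w.2) :=
    (LinearMap.toContinuousLinearMap (B : E →ₗ[ℝ] E)).contDiff.comp contDiff_snd
  have h2 : ContDiff ℝ ∞ (fun w : ℝ × E => B.symm w.2) :=
    (LinearMap.toContinuousLinearMap (B.symm : E →ₗ[ℝ] E)).contDiff.comp contDiff_snd
  exact (hL.2 (fun _ => B) h1 h2).isDiffeo 0

omit [FiniteDimensional ℝ E] in
theorem refl_sq (a : S E) : refl E a * refl E a = 1 := by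
  refine LinearEquiv.ext fun x => ?_
  exact (refl E a).left_inv x

/-- the transvection `x ↦ x + s ⟪v, x⟫ u` for `u ⊥ v` -/
def tv (u v : E) (h : inner ℝ v u = 0) (s : ℝ) : E ≃ₗ[ℝ] E where
  toFun x := x + (s * inner ℝ v x) • u
  map_add' x y := by rw [inner_add_right, mul_add, add_smul]; abel
  map_smul' c x := by
    rw [inner_smul_right, RingHom.id_apply, smul_add, smul_smul]
    congr 2
    ring
  invFun x := x - (s * inner ℝ v x) • u
  left_inv x := by
    simp only [inner_add_right, inner_smul_right, h]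
    module
  right_inv x := by
    simp only [inner_sub_right, inner_smul_right, h]
    module

omit [FiniteDimensional ℝ E] in
theorem tv_IS (hL : T_LMP E) (u v : E) (h : inner ℝ v u = 0) (s : ℝ) :
    lam (tv u v h s) ∈ IS E := by
  have h1 : ContDiff ℝ ∞ (fun w : ℝ × E => (sg w.1 * s * inner ℝ v w.2) • u) :=
    ((((sg_smooth.comp contDiff_fst).mul contDiff_const).mul
      ((contDiff_const (c := v)).inner ℝ contDiff_snd))).smul contDiff_const
  have h2 := hL.2 (fun t => tv u v h (sg t * s))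
    (contDiff_snd.add h1) (contDiff_snd.sub h1)
  refine ⟨_, h2, ?_, ?_⟩
  · have : tv u v h (sg 0 * s) = 1 := by
      refine LinearEquiv.ext fun x => ?_
      show x + (sg 0 * s * inner ℝ v x) • u = x
      rw [sg_zero, zero_mul, zero_mul, zero_smul, add_zero]
    show lam (tv u v h (sg 0 * s)) = 1
    rw [this, lam_one]
  · show lam (tv u v h (sg 1 * s)) = _
    rw [sg_one, one_mul]

theorem mul_case (hL : T_LMP E) (B1 B2 : E ≃ₗ[ℝ] E) (d1 d2 : ℝ)
    (hne : d1 < 0 → Nonempty (S E)) (h1 : d1 ≠ 0)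
    (hB1 : (0 < d1 → lam B1 ∈ IS E) ∧ (d1 < 0 → ∀ a : S E, lam (refl E a * B1) ∈ IS E))
    (hB2 : (0 < d2 → lam B2 ∈ IS E) ∧ (d2 < 0 → ∀ a : S E, lam (refl E a * B2) ∈ IS E)) :
    (0 < d1 * d2 → lam (B1 * B2) ∈ IS E) ∧
      (d1 * d2 < 0 → ∀ a : S E, lam (refl E a * (B1 * B2)) ∈ IS E) := by
  have hm := hL.1
  have hr : ∀ a : S E, lam (refl E a) * lam (refl E a) = 1 := fun a => by
    rw [← hm, refl_sq, lam_one]
  have hri : ∀ a : S E, (lam (refl E a))⁻¹ = lam (refl E a) := fun a =>
    inv_eq_of_mul_eq_one_left (hr a)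
  constructor
  · intro h
    rcases lt_or_gt_of_ne h1 with h3 | h3
    · have h4 : d2 < 0 := by
        by_contra h5
        exact absurd h (not_lt.2 (mul_nonpos_of_nonpos_of_nonneg h3.le (not_lt.1 h5)))
      obtain ⟨a⟩ := hne h3
      have e : lam (B1 * B2) = (lam (refl E a) * lam (refl E a * B1) * (lam (refl E a))⁻¹) *
          lam (refl E a * B2) := by
        rw [hri, hm, hm, hm, ← mul_assoc (lam (refl E a)) (lam (refl E a)) (lam B1), hr, one_mul,
          mul_assoc (lam B1), ← mul_assoc (lam (refl E a)) (lam (refl E a)) (lam B2), hr, one_mul]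
      rw [e]
      exact (IS E).mul_mem (IS_conj (lam_diffeo hL _) (hB1.2 h3 a)) (hB2.2 h4 a)
    · have h4 : 0 < d2 := by
        by_contra h5
        exact absurd h (not_lt.2 (mul_nonpos_of_nonneg_of_nonpos h3.le (not_lt.1 h5)))
      rw [hm]
      exact (IS E).mul_mem (hB1.1 h3) (hB2.1 h4)
  · intro h a
    rcases lt_or_gt_of_ne h1 with h3 | h3
    · have h4 : 0 < d2 := by
        by_contra h5
        exact absurd h (not_lt.2 (mul_nonneg_of_nonpos_of_nonpos h3.le (not_lt.1 h5)))
      rw [← mul_assoc, hm]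
      exact (IS E).mul_mem (hB1.2 h3 a) (hB2.1 h4)
    · have h4 : d2 < 0 := by
        by_contra h5
        exact absurd h (not_lt.2 (mul_nonneg h3.le (not_lt.1 h5)))
      have e : lam (refl E a * (B1 * B2)) = (lam (refl E a) * lam B1 * (lam (refl E a))⁻¹) *
          lam (refl E a * B2) := by
        rw [hm, hm, hm, mul_assoc _ _ (lam (refl E a) * lam B2), inv_mul_cancel_left, mul_assoc]
      rw [e]
      exact (IS E).mul_mem (IS_conj (lam_diffeo hL _) (hB1.1 h3)) (hB2.2 h4 a)

end GLP_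

open GLP_

theorem p_GLP (h_LMP : T_LMP E) (h_GLD : T_GLD E) : T_GLP E := by
  intro B hB
  set b := stdOrthonormalBasis ℝ E with hb
  have key : ∀ M : Matrix (Fin (Module.finrank ℝ E)) (Fin (Module.finrank ℝ E)) ℝ, M.det ≠ 0 →
      ∀ B : E ≃ₗ[ℝ] E, LinearMap.toMatrix b.toBasis b.toBasis (B : E →ₗ[ℝ] E) = M →
        (0 < M.det → lam B ∈ IS E) ∧ (M.det < 0 → ∀ a : S E, lam (refl E a * B) ∈ IS E) := by
    intro M hM
    refine Matrix.diagonal_transvection_induction_of_det_ne_zero
      (fun M => ∀ B : E ≃ₗ[ℝ] E, LinearMap.toMatrix b.toBasis b.toBasis (B : E →ₗ[ℝ] E) = M →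
        (0 < M.det → lam B ∈ IS E) ∧ (M.det < 0 → ∀ a : S E, lam (refl E a * B) ∈ IS E))
      M hM ?_ ?_ ?_
    · intro D hD B hB
      rw [Matrix.det_diagonal] at hD ⊢
      refine h_GLD _ b D B (fun i => (Finset.prod_ne_zero_iff.1 hD) i (Finset.mem_univ i)) ?_
      intro i
      have h1 := congrFun (congrArg (fun M => Matrix.toLin b.toBasis b.toBasis M) hB |>
        congrArg DFunLike.coe) (b i)
      simp only [Matrix.toLin_toMatrix] at h1
      rw [← OrthonormalBasis.coe_toBasis] at h1 ⊢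
      rw [Matrix.toLin_self] at h1
      rw [← LinearEquiv.coe_coe, h1, Finset.sum_eq_single i]
      · rw [Matrix.diagonal_apply_eq]
      · intro j _ hj
        rw [Matrix.diagonal_apply_ne _ hj, zero_smul]
      · intro h
        exact absurd (Finset.mem_univ i) h
    · intro t B hB
      have hdet : (t.toMatrix).det = 1 := t.det
      rw [hdet]
      refine ⟨fun _ => ?_, fun h => absurd h (by norm_num)⟩
      have hij : inner ℝ (b t.j) (b t.i) = 0 := b.orthonormal.2 t.hij.symm
      have e : B = tv (b t.i) (b t.j) hij t.c := by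
        apply LinearEquiv.toLinearMap_injective
        apply (LinearMap.toMatrix b.toBasis b.toBasis).injective
        rw [hB]
        ext k l
        rw [LinearMap.toMatrix_apply]
        simp only [OrthonormalBasis.coe_toBasis, OrthonormalBasis.coe_toBasis_repr_apply,
          LinearEquiv.coe_coe]
        rw [OrthonormalBasis.repr_apply_apply]
        show _ = inner ℝ (b k) (b l + (t.c * inner ℝ (b t.j) (b l)) • b t.i)
        rw [inner_add_right, inner_smul_right]
        have ho := orthonormal_iff_ite.1 b.orthonormal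
        rw [ho, ho, ho]
        simp only [Matrix.TransvectionStruct.toMatrix, Matrix.transvection, Matrix.add_apply,
          Matrix.one_apply, Matrix.single_apply]
        by_cases h1 : t.i = k
        · by_cases h2 : t.j = l
          · simp [h1, h2]
          · simp [h1, h2]
        · simp [h1, Ne.symm (Ne.intro h1)]
      rw [e]
      exact tv_IS h_LMP _ _ hij _
    · intro M1 M2 h1 h2 ih1 ih2 B hB
      obtain ⟨B1, hB1⟩ : ∃ B1 : E ≃ₗ[ℝ] E,
          LinearMap.toMatrix b.toBasis b.toBasis (B1 : E →ₗ[ℝ] E) = M1 :=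
        ⟨Matrix.toLinearEquiv b.toBasis M1 (isUnit_iff_ne_zero.2 h1), by
          rw [show ((Matrix.toLinearEquiv b.toBasis M1 (isUnit_iff_ne_zero.2 h1) : E ≃ₗ[ℝ] E) :
            E →ₗ[ℝ] E) = Matrix.toLin b.toBasis b.toBasis M1 from LinearMap.ext fun _ => rfl,
            LinearMap.toMatrix_toLin]⟩
      obtain ⟨B2, hB2⟩ : ∃ B2 : E ≃ₗ[ℝ] E,
          LinearMap.toMatrix b.toBasis b.toBasis (B2 : E →ₗ[ℝ] E) = M2 :=
        ⟨Matrix.toLinearEquiv b.toBasis M2 (isUnit_iff_ne_zero.2 h2), by
          rw [show ((Matrix.toLinearEquiv b.toBasis M2 (isUnit_iff_ne_zero.2 h2) : E ≃ₗ[ℝ] E) :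
            E →ₗ[ℝ] E) = Matrix.toLin b.toBasis b.toBasis M2 from LinearMap.ext fun _ => rfl,
            LinearMap.toMatrix_toLin]⟩
      have e : B = B1 * B2 := by
        apply LinearEquiv.toLinearMap_injective
        apply (LinearMap.toMatrix b.toBasis b.toBasis).injective
        rw [hB, show ((B1 * B2 : E ≃ₗ[ℝ] E) : E →ₗ[ℝ] E) = (B1 : E →ₗ[ℝ] E) ∘ₗ (B2 : E →ₗ[ℝ] E)
          from rfl, LinearMap.toMatrix_comp b.toBasis b.toBasis b.toBasis, hB1, hB2]
      rw [e, Matrix.det_mul]
      refine mul_case h_LMP B1 B2 M1.det M2.det ?_ h1 (ih1 B1 hB1) (ih2 B2 hB2)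
      intro h3
      have hn : Nonempty (Fin (Module.finrank ℝ E)) := by
        by_contra h4
        rw [not_nonempty_iff] at h4
        rw [Matrix.det_isEmpty] at h3
        exact absurd h3 (by norm_num)
      obtain ⟨i⟩ := hn
      exact ⟨⟨b i, mem_S.2 (b.orthonormal.1 i)⟩⟩
  have hd : (LinearMap.toMatrix b.toBasis b.toBasis (B : E →ₗ[ℝ] E)).det =
      LinearMap.det (B : E →ₗ[ℝ] E) := LinearMap.det_toMatrix b.toBasis _
  exact (key _ (by rw [hd]; exact hB.ne') B rfl).1 (by rw [hd]; exact hB)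

end Pool.Agent.DTW
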