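import Pool.Agent.DTW.Targets

/-!
# DTW: products of two reflections are isotopic to the identity
-/

set_option autoImplicit false
set_option linter.unusedSectionVars false

open scoped ContDiff

noncomputable section

namespace Pool.Agent.DTW

variable (E : Type) [NormedAddCommGroup E] [InnerProductSpace ℝ E] [FiniteDimensional ℝ E]

theorem REF_lam_one (h : T_LMP E) : lam (1 : E ≃ₗ[ℝ] E) = 1 := by
  have h1 := h.1 1 1
  rw [mul_one] at h1
  exact (mul_eq_left.1 h1.symm)

theorem REF_refl_sq (a : S E) : refl E a * refl E a = 1 := by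
  ext x
  exact (refl E a).left_inv x

/-- the segment from `a` to `b` -/
def REF_v (a b : S E) (t : ℝ) : E := (1 - sg t) • (a : E) + sg t • (b : E)

theorem REF_v_ne (a b : S E) (h : (b : E) ≠ -(a : E)) (t : ℝ) : REF_v E a b t ≠ 0 := by
  intro h0
  have h1 : (1 - sg t) • (a : E) = -(sg t • (b : E)) := eq_neg_of_add_eq_zero_left h0
  have h2 := congrArg norm h1
  have ha : ‖(a : E)‖ = 1 := by simp
  have hb : ‖(b : E)‖ = 1 := by simp
  rw [norm_neg, norm_smul, norm_smul, ha, hb, mul_one, mul_one, Real.norm_eq_abs,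
    Real.norm_eq_abs, abs_of_nonneg (by linarith [sg_le_one t]), abs_of_nonneg (sg_nonneg t)] at h2
  have h3 : sg t = 1 / 2 := by linarith
  rw [h3] at h1
  apply h
  have h4 : (1 / 2 : ℝ) • (a : E) = -((1 / 2 : ℝ) • (b : E)) := by
    convert h1 using 2; norm_num
  have h5 : (2 : ℝ) • ((1 / 2 : ℝ) • (a : E)) = (2 : ℝ) • (-((1 / 2 : ℝ) • (b : E))) := by rw [h4]
  rw [smul_neg, smul_smul, smul_smul] at h5
  norm_num at h5
  rw [h5, neg_neg]

/-- the normalised segment -/
def REF_c (a b : S E) (h : (b : E) ≠ -(a : E)) (t : ℝ) : S E :=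
  ⟨‖REF_v E a b t‖⁻¹ • REF_v E a b t, by
    rw [mem_sphere_zero_iff_norm, norm_smul, norm_inv, norm_norm,
      inv_mul_cancel₀ (norm_ne_zero_iff.2 (REF_v_ne E a b h t))]⟩

theorem REF_refl_c (a b : S E) (h : (b : E) ≠ -(a : E)) (t : ℝ) (x : E) :
    refl E (REF_c E a b h t) x = x - (2 * inner ℝ (REF_v E a b t) x /
      inner ℝ (REF_v E a b t) (REF_v E a b t)) • REF_v E a b t := by
  show x - (2 * inner ℝ (‖REF_v E a b t‖⁻¹ • REF_v E a b t) x) •
    (‖REF_v E a b t‖⁻¹ • REF_v E a b t) = _
  rw [inner_smul_left, smul_smul, real_inner_self_eq_norm_sq, conj_trivial]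
  congr 2
  have := norm_ne_zero_iff.2 (REF_v_ne E a b h t)
  field_simp

theorem REF_smooth (a b : S E) (h : (b : E) ≠ -(a : E)) (f : ℝ × E → E)
    (hf : ContDiff ℝ ∞ f) :
    ContDiff ℝ ∞ fun w : ℝ × E => refl E (REF_c E a b h w.1) (f w) := by
  have hv : ContDiff ℝ ∞ fun w : ℝ × E => REF_v E a b w.1 := by
    unfold REF_v
    have h1 : ContDiff ℝ ∞ fun w : ℝ × E => sg w.1 := sg_smooth.comp contDiff_fst
    exact ((contDiff_const.sub h1).smul contDiff_const).add (h1.smul contDiff_const)
  simp only [REF_refl_c]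
  refine hf.sub (ContDiff.smul ?_ hv)
  refine (contDiff_const.mul (hv.inner ℝ hf)).div (hv.inner ℝ hv) fun w => ?_
  exact inner_self_ne_zero.2 (REF_v_ne E a b h w.1)

theorem REF_smooth' (a : S E) (f : ℝ × E → E) (hf : ContDiff ℝ ∞ f) :
    ContDiff ℝ ∞ fun w : ℝ × E => refl E a (f w) := by
  show ContDiff ℝ ∞ fun w : ℝ × E => f w - (2 * inner ℝ (a : E) (f w)) • (a : E)
  exact hf.sub ((contDiff_const.mul (contDiff_const.inner ℝ hf)).smul contDiff_const)

theorem p_REF (h : T_LMP E) : T_REF E := by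
  intro a b
  by_cases hb : (b : E) = -(a : E)
  · have h1 : refl E b = refl E a := by
      ext x
      show x - (2 * inner ℝ (b : E) x) • (b : E) = x - (2 * inner ℝ (a : E) x) • (a : E)
      rw [hb, inner_neg_left, mul_neg, neg_smul, smul_neg, neg_neg]
    rw [h1, REF_refl_sq, REF_lam_one E h]
    exact one_mem _
  · refine ⟨fun t => lam (refl E a * refl E (REF_c E a b hb t)), ?_, ?_, ?_⟩
    · refine h.2 (fun t => refl E a * refl E (REF_c E a b hb t)) ?_ ?_
      · exact REF_smooth' E a _ (REF_smooth E a b hb _ contDiff_snd)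
      · exact REF_smooth E a b hb _ (REF_smooth' E a _ contDiff_snd)
    · have h1 : REF_c E a b hb 0 = a := by
        apply Subtype.ext
        show ‖REF_v E a b 0‖⁻¹ • REF_v E a b 0 = (a : E)
        have h2 : REF_v E a b 0 = (a : E) := by
          unfold REF_v
          rw [sg_zero, sub_zero, one_smul, zero_smul, add_zero]
        have ha : ‖(a : E)‖ = 1 := by simp
        rw [h2, ha, inv_one, one_smul]
      show lam (refl E a * refl E (REF_c E a b hb 0)) = 1
      rw [h1, REF_refl_sq, REF_lam_one E h]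
    · have h1 : REF_c E a b hb 1 = b := by
        apply Subtype.ext
        show ‖REF_v E a b 1‖⁻¹ • REF_v E a b 1 = (b : E)
        have h2 : REF_v E a b 1 = (b : E) := by
          unfold REF_v
          rw [sg_one, sub_self, one_smul, zero_smul, zero_add]
        have hb' : ‖(b : E)‖ = 1 := by simp
        rw [h2, hb', inv_one, one_smul]
      show lam (refl E a * refl E (REF_c E a b hb 1)) = _
      rw [h1]

end Pool.Agent.DTW
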