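import Pool.Agent.DTW.Core

/-!
# DTW: targets

`E` is a finite dimensional real inner product space.  Every target is a `Prop` depending on `E`;
write `theorem p_XXX (h1 : T_AAA E) ... : T_XXX E` with the same `variable` line.  Base.lean and
Core.lean contain the basic facts on `lift`, `IsPath`, `IsDiffeo`, `IsSymp`, the subgroups `SG`
(symplectomorphisms), `CG` (compactly supported), `NG` (isotopic to the identity) and `IS`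
(diffeomorphisms of the sphere isotopic to the identity), on `bst`, `trn`, `lam`, `A0`.
-/

set_option autoImplicit false

open scoped ContDiff

noncomputable section

namespace Pool.Agent.DTW

variable (E : Type) [NormedAddCommGroup E] [InnerProductSpace ℝ E] [FiniteDimensional ℝ E]

/-! ## Pull-backs -/

/-- EXT.  The radial extensions of a path are jointly smooth off zero.  `ext φ y =
lift φ (‖y‖⁻¹ • y)`; the map `(t, y) ↦ (t, ‖y‖⁻¹ • y)` is smooth for `y ≠ 0` and maps into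
`univ ×ˢ S`; compose with the first part of `IsPath`. -/
def T_EXT : Prop := ∀ φ : ℝ → Equiv.Perm (S E), IsPath (S E) φ →
  ContDiffOn ℝ ∞ (fun w : ℝ × E => ext (φ w.1) w.2) {w | w.2 ≠ 0}

/-- PB1 (from EXT).  Functoriality of the pull-back.  (1) `ext 1 y = ‖y‖⁻¹ • y` has at a unit
vector `x` the derivative `ξ ↦ ξ - ⟪x, ξ⟫ x`, which is self-adjoint and fixes `x^⊥`; so
`pullFun 1 z = z`.  (2) For diffeomorphisms `φ, ψ` and a unit vector `x`: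
`ext (φ ψ) = ext φ ∘ ext ψ` off zero (`ext ψ y` is a unit vector), so the chain rule gives
`D ext (φ ψ) (x) = D ext φ (ψ x) ∘ D ext ψ (x)` and `pullFun (φ ψ) = pullFun ψ ∘ pullFun φ`.
(3) Hence `pullFun φ` is bijective with inverse `pullFun φ⁻¹`. -/
def T_PB1 : Prop :=
  (∀ φ : Equiv.Perm (S E), IsDiffeo (S E) φ → (∀ z, pull φ z = pullFun φ z) ∧
    pull φ⁻¹ = (pull φ)⁻¹) ∧
  (∀ φ ψ : Equiv.Perm (S E), IsDiffeo (S E) φ → IsDiffeo (S E) ψ →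
    pull (φ * ψ) = pull ψ * pull φ) ∧ pull (1 : Equiv.Perm (S E)) = 1

/-- PBP (from EXT, PB1).  The pull-backs of a path are a path.  With an orthonormal basis `b`,
`adjoint L q = ∑ i, ⟪L (b i), q⟫ • b i`.  So on `univ ×ˢ TS` the map `(t, z) ↦ lift (pull (φ t)) z`
is `(x, ∑ i, ⟪D (ext (φ t)) x (b i), z.2⟫ • b i)` with `x = lift (φ t)⁻¹ z.1`, smooth in `(t, z)`
(second part of `IsPath`); the derivative `D (ext (φ t)) x ξ` in the second variable is the derivative of the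
map of EXT in the direction `(0, ξ)`, so it is smooth on the open set `{w | w.2 ≠ 0}`.  For the
inverse use `(pull φ)⁻¹ = pull φ⁻¹` and `IsPath.inv`. -/
def T_PBP : Prop := ∀ φ : ℝ → Equiv.Perm (S E), IsPath (S E) φ →
  IsPath (TS E) fun t => pull (φ t)

/-- PBS (from EXT, PB1, PBP).  Pull-backs are symplectic.  Smooth: PBP for a constant path.  Let
`c = (y, q)` be a smooth map of the plane in `TS`, `x = φ⁻¹ y`, `p = adjoint (D (ext φ) x) q`, so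
`y = ext φ x` and `⟪p, ξ⟫ = ⟪q, D (ext φ) x ξ⟫` for every `ξ ∈ E`.  Let `∂ᵢ`, `i = 1, 2` be the
derivatives in the directions `(1, 0)`, `(0, 1)`.  Then `∂ᵢ y = D (ext φ) x (∂ᵢ x)` and
`⟪∂ᵢ p, ξ⟫ = ⟪∂ᵢ q, D (ext φ) x ξ⟫ + ⟪q, D² (ext φ) x (∂ᵢ x, ξ)⟫`.  Put `ξ = ∂ⱼ x` and use the
symmetry of the second derivative (`ContDiffAt.isSymmSndFDerivAt` or similar):
`⟪∂₁ p, ∂₂ x⟫ - ⟪∂₂ p, ∂₁ x⟫ = ⟪∂₁ q, ∂₂ y⟫ - ⟪∂₂ q, ∂₁ y⟫`. -/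
def T_PBS : Prop := ∀ φ : Equiv.Perm (S E), IsDiffeo (S E) φ → pull φ ∈ SG E

/-- PBL (from EXT, PB1).  Locality.  If `φ = id` on `S ∩ U`, `U` open, then for `z ∈ TS` with
`z.1 ∈ U` also `φ⁻¹ z.1 = z.1`, and `ext φ` agrees with `ext 1` near `z.1` (the map
`y ↦ ‖y‖⁻¹ • y` is continuous at `z.1`), so `pullFun φ z = pullFun 1 z = z`. -/
def T_PBL : Prop := ∀ (φ : Equiv.Perm (S E)) (U : Set E), IsDiffeo (S E) φ → IsOpen U →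
  (∀ y : S E, (y : E) ∈ U → φ y = y) → ∀ z : TS E, z.1.1 ∈ U → pull φ z = z

/-- PBN (from EXT, PB1).  Boundedness: `‖adjoint L q‖ ≤ ‖L‖ ‖q‖` and `x ↦ ‖D (ext φ) x‖` is
continuous on the compact sphere. -/
def T_PBN : Prop := ∀ φ : Equiv.Perm (S E), IsDiffeo (S E) φ →
  ∃ M : ℝ, 0 ≤ M ∧ ∀ z : TS E, ‖(pull φ z).1.2‖ ≤ M * ‖z.1.2‖

/-- PBR (from EXT, PB1).  Rotations: `rot ρ` is a diffeomorphism (`lift (rot ρ) = ρ` on `S`);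
`ext (rot ρ) y = ‖y‖⁻¹ • ρ y`, so `pull (rot ρ) (y, q) = (ρ⁻¹ y, ρ⁻¹ q)`: the derivative at
`x = ρ⁻¹ y` is `ξ ↦ ρ (ξ - ⟪x, ξ⟫ x)`, with adjoint `q ↦ ρ⁻¹ q - ⟪x, ρ⁻¹ q⟫ x = ρ⁻¹ q`.  It
commutes with `dtFun` (linear combinations of `x`, `p` with coefficients depending on `‖p‖`). -/
def T_PBR : Prop := ∀ (ρ : E ≃ₗᵢ[ℝ] E) (A : Angle), IsDiffeo (S E) (rot ρ) ∧
  pull (rot ρ) * dt A = dt A * pull (rot ρ)

/-- BSP.  Boosts form a smooth path: explicit formula, `bD ≠ 0` on the sphere (`bD_pos`);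
`(bst a l)⁻¹ = bst a (- l)` (`bst_inv`). -/
def T_BSP : Prop := ∀ (a : S E) (μ : ℝ → ℝ), ContDiff ℝ ∞ μ → IsPath (S E) fun t => bst a (μ t)

/-- BSC.  Products of boosts and the movement of the height `⟪y, a⟫` (`bst_add`, `bst_inner`):
`c ↦ (cosh l · c + sinh l) / (cosh l + sinh l · c)` is increasing on `[-1, 1]`, `≥ c` for
`l ≥ 0`, and for fixed `c > -1` tends to `1` as `l → ∞`: it is
`1 - (1 - c) e^{-l} / bD l c` and `bD l c ≥ (1 + c) e^l / 2`. -/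
def T_BSC : Prop := ∀ (a : S E), (∀ l k : ℝ, bst a l * bst a k = bst a (l + k)) ∧
  (∀ (l : ℝ) (y : S E), 0 ≤ l → inner ℝ (y : E) (a : E) ≤ inner ℝ (bst a l y : E) (a : E)) ∧
  (∀ c ε : ℝ, -1 < c → 0 < ε → ∃ L : ℝ, 0 ≤ L ∧ ∀ l, L ≤ l → ∀ y : S E,
    c ≤ inner ℝ (y : E) (a : E) → 1 - ε ≤ inner ℝ (bst a l y : E) (a : E))

/-- PBB (from EXT, PB1, BSP).  The boost `δ = bst a l` is conformal: for a unit vector `x`, with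
`D = bD l ⟪x, a⟫`, and `ξ ⊥ x`: `‖dδ_x ξ‖ = ‖ξ‖ / D`.  (`δ x = u / D`,
`u = x + ((ch - 1) c + sh) a`, `‖u‖ = D`, `dδ ξ = (ξ + (ch - 1) ξ₀ a) / D - sh ξ₀ u / D²` with
`ξ₀ = ⟪ξ, a⟫`; `‖ξ + (ch-1) ξ₀ a‖² = ‖ξ‖² + sh² ξ₀²`, `⟪ξ + (ch-1) ξ₀ a, u⟫ = sh ξ₀ D`.)  So
`dδ_x : x^⊥ → (δ x)^⊥` is `1/D` times an isometry (the dimensions are equal), and so is its
adjoint: for `z = (y, q)`, `x = δ⁻¹ y`, `‖q ∘ dδ_x‖ = ‖q‖ / D`.  (If `p = adjoint (..) q ∈ x^⊥`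
then `⟪p, ξ⟫ = ⟪q, dδ ξ⟫` for all `ξ ⊥ x`; `q = dδ ξ` for some `ξ ⊥ x` by surjectivity, then
`⟪p, η⟫ = ⟪dδ ξ, dδ η⟫ = ⟪ξ, η⟫ / D²` by polarisation, so `p = ξ / D²`, `‖p‖ = ‖q‖ / D`.) -/
def T_PBB : Prop := ∀ (a : S E) (l : ℝ) (z : TS E),
  ‖(pull (bst a l) z).1.2‖ * bD l (inner ℝ (pull (bst a l) z).1.1 (a : E)) = ‖z.1.2‖

/-! ## Linear maps -/

/-- LMP.  `lam` is multiplicative and maps smooth families to paths: on `univ ×ˢ S` the map is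
`‖B w.1 w.2‖⁻¹ • B w.1 w.2`, and `(lam B)⁻¹ = lam B.symm` by definition. -/
def T_LMP : Prop := (∀ B C : E ≃ₗ[ℝ] E, lam (B * C) = lam B * lam C) ∧
  ∀ B : ℝ → (E ≃ₗ[ℝ] E), ContDiff ℝ ∞ (fun w : ℝ × E => B w.1 w.2) →
    ContDiff ℝ ∞ (fun w : ℝ × E => (B w.1).symm w.2) → IsPath (S E) fun t => lam (B t)

/-- the reflection in the hyperplane `a^⊥` -/
def refl (a : S E) : E ≃ₗ[ℝ] E where
  toFun x := x - (2 * inner ℝ (a : E) x) • (a : E)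
  map_add' x y := by rw [inner_add_right, mul_add, add_smul]; abel
  map_smul' c x := by
    rw [inner_smul_right, RingHom.id_apply, smul_sub, smul_smul]
    congr 2
    ring
  invFun x := x - (2 * inner ℝ (a : E) x) • (a : E)
  left_inv x := by
    simp only [inner_sub_right, inner_smul_right, S_inner_self]
    module
  right_inv x := by
    simp only [inner_sub_right, inner_smul_right, S_inner_self]
    module

/-- REF (from LMP).  Products of two reflections are isotopic to the identity.  If `b ≠ - a`: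
`a(t) = (1 - sg t) a + sg t b` is never zero on the relevant interval (if `a, b` are linearly
independent, or `a = b`), normalise it; the path `refl a * refl (a(t))` starts at `1` and ends at
`refl a * refl b`.  If `b = - a` then `refl b = refl a`.  (`refl a` is an involution.) -/
def T_REF : Prop := ∀ a b : S E, lam (refl E a * refl E b) ∈ IS E

/-- GLD (from LMP, REF).  Diagonal maps.  Let `b` be an orthonormal basis, `B (b i) = d i • b i`,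
`d i ≠ 0`.  The map with entries `|d i|` is isotopic to `1` (entries
`(1 - sg t) + sg t |d i| > 0`); the map with entries `sign (d i)` is the product of the
commuting reflections `refl (b i)` over `i` with `d i < 0`; modulo the normal subgroup `IS`
(IS_conj) all reflections are equal and of order two.  The sign of `∏ d i` is the parity of
their number: so `lam B ∈ IS` if `∏ d i > 0` and `lam (refl a * B) ∈ IS` if `∏ d i < 0`. -/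
def T_GLD : Prop := ∀ (n : ℕ) (b : OrthonormalBasis (Fin n) ℝ E) (d : Fin n → ℝ)
  (B : E ≃ₗ[ℝ] E), (∀ i, d i ≠ 0) → (∀ i, B (b i) = d i • b i) →
  (0 < ∏ i, d i → lam B ∈ IS E) ∧ (∏ i, d i < 0 → ∀ a : S E, lam (refl E a * B) ∈ IS E)

/-- GLP (from LMP, REF, GLD).  Maps with positive determinant are isotopic to the identity.
Matrices in an orthonormal basis, `Matrix.diagonal_transvection_induction_of_det_ne_zero` for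
the property: every `B` with this matrix satisfies
`(0 < det B → lam B ∈ IS) ∧ (det B < 0 → ∀ a, lam (refl a * B) ∈ IS)`.  Diagonal: GLD.
Transvections `1 + c E_{ij}` have determinant one and are isotopic to `1` by `1 + sg t c E_{ij}`.
Products: `IS` is normal (IS_conj) and `lam (refl a * refl b) ∈ IS`. -/
def T_GLP : Prop := ∀ B : E ≃ₗ[ℝ] E, 0 < LinearMap.det (B : E →ₗ[ℝ] E) → lam B ∈ IS E

/-! ## The disc theorem -/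

/-- SMH.  Small homogeneous perturbations of the identity of `E`.  `w y = ‖y‖ • u y` (`w 0 = 0`)
satisfies `‖w y‖ ≤ ‖y‖ / 4` and `‖D w y‖ ≤ 1/2` for `y ≠ 0` (`D u` is homogeneous of degree `-1`),
so it is Lipschitz with constant `1/2` on `E` (if `0` is on the segment from `y` to `y'` use
`‖w y‖ + ‖w y'‖ ≤ (‖y‖ + ‖y'‖) / 4`, otherwise the mean value inequality on the segment).
`H_t = id + sg t • w` is bijective (`ApproximatesLinearOn.toHomeomorph` or the Banach fixed point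
theorem); `H (t, y) = (t, H_t y)` is a continuous bijection of `ℝ × E` with continuous inverse
(`‖y - y'‖ ≤ 2 ‖H_t y - H_t y'‖`), smooth with invertible derivative where `y ≠ 0`, so the inverse is
smooth off `y = 0` (inverse function theorem, e.g. `OpenPartialHomeomorph.contDiffAt_symm`).  `H_t`
is positively homogeneous, and so is its inverse. -/
def T_SMH : Prop := ∀ u : E → E, ContDiffOn ℝ ∞ u {0}ᶜ →
  (∀ (c : ℝ) (y : E), 0 < c → y ≠ 0 → u (c • y) = u y) →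
  (∀ y, ‖y‖ = 1 → ‖u y‖ ≤ 1 / 4 ∧ ‖fderiv ℝ u y‖ ≤ 1 / 4) →
  ∃ K : ℝ × E → E, ContDiffOn ℝ ∞ K {w | w.2 ≠ 0} ∧
    (∀ t y, K (t, y + sg t • ‖y‖ • u y) = y) ∧
    (∀ t y, K (t, y) + sg t • ‖K (t, y)‖ • u (K (t, y)) = y) ∧
    ∀ (t c : ℝ) (y : E), 0 < c → K (t, c • y) = c • K (t, y)

/-- SMP (from SMH).  Small perturbations of the identity of the sphere.  With
`H_t y = y + sg t • ‖y‖ • u y` (positively homogeneous, nonzero for `y ≠ 0`) the permutation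
`y ↦ ‖H_t y‖⁻¹ • H_t y` of the sphere has the inverse `y ↦ ‖K (t, y)‖⁻¹ • K (t, y)`; both are smooth
in `(t, y)` off `y = 0`.  It is a path from `1` to the map in question. -/
def T_SMP : Prop := ∀ u : E → E, ContDiffOn ℝ ∞ u {0}ᶜ →
  (∀ (c : ℝ) (y : E), 0 < c → y ≠ 0 → u (c • y) = u y) →
  (∀ y, ‖y‖ = 1 → ‖u y‖ ≤ 1 / 4 ∧ ‖fderiv ℝ u y‖ ≤ 1 / 4) →
  ∃ ψ ∈ IS E, ∀ y : S E, (ψ y : E) = ‖(y : E) + u y‖⁻¹ • ((y : E) + u y)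

/-- GRB.  Cutting off.  `‖D v y‖ ≤ C ‖y - x‖` and `‖v y‖ ≤ C ‖y - x‖²` near `x` (`D v` is `C¹`, so
Lipschitz near `x`; mean value inequality).  Let `n = ‖y‖⁻¹ • y`,
`w y = ‖n - x‖² = 2 - 2 ⟪n, x⟫`, `χ = 1 - sg (w / δ² - 1)` (`1` if `w ≤ δ²`, `0` if `w ≥ 2 δ²`); for
`‖y‖ = 1` one has `D w y ξ = 2 ⟪n - x, D n ξ⟫`, `‖D w y‖ ≤ 2 ‖y - x‖`, so `‖D χ‖ ≤ C' / δ` on the
support of `χ`.  `u = χ v` (zero where `w > 2 δ²`) satisfies `‖u‖ ≤ 2 C δ²` and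
`‖D u‖ ≤ ‖D χ‖ ‖v‖ + χ ‖D v‖ = O(δ)` on the sphere.  Take `δ` small, `κ = δ² / 2`. -/
def T_GRB : Prop := ∀ (x : S E) (v : E → E), ContDiffOn ℝ ∞ v {0}ᶜ →
  (∀ (c : ℝ) (y : E), 0 < c → y ≠ 0 → v (c • y) = v y) → v x = 0 → fderiv ℝ v x = 0 →
  ∃ u : E → E, ContDiffOn ℝ ∞ u {0}ᶜ ∧
    (∀ (c : ℝ) (y : E), 0 < c → y ≠ 0 → u (c • y) = u y) ∧
    (∀ y, ‖y‖ = 1 → ‖u y‖ ≤ 1 / 4 ∧ ‖fderiv ℝ u y‖ ≤ 1 / 4) ∧
    ∃ κ > 0, ∀ y : S E, 1 - κ < inner ℝ (y : E) (x : E) → u y = v y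

/-- GRM (from EXT, PB1, SMP, GRB).  A diffeomorphism with `φ x = x` and `dφ_x = id` can be made the
identity near `x`.  `g = ext φ⁻¹`; by the chain rule (`ext φ⁻¹ ∘ ext φ = ext 1`) also
`D g (x) ξ = ξ` for `ξ ⊥ x`.  `v y = g y - ‖y‖⁻¹ • y` is smooth off zero, constant along rays,
`v x = 0`, `D v (x) = 0` (also `D v (x) x = 0`, fderiv_ext_self).  GRB gives `u, κ`; SMP for `u`
gives `ψ`.  If `⟪y, x⟫ > 1 - κ` then `y + u y = φ⁻¹ y`, so `ψ y = φ⁻¹ y`.  `φ` is continuous at `x`,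
so `⟪φ y, x⟫ > 1 - κ` if `⟪y, x⟫ > 1 - κ'` (`‖y - x‖² = 2 - 2 ⟪y, x⟫`), and then `ψ (φ y) = y`. -/
def T_GRM : Prop := ∀ (φ : Equiv.Perm (S E)) (x : S E), IsDiffeo (S E) φ → φ x = x →
  (∀ ξ : E, inner ℝ (x : E) ξ = 0 → fderiv ℝ (ext φ) (x : E) ξ = ξ) →
  ∃ ψ ∈ IS E, ∃ κ > 0, ∀ y : S E, 1 - κ < inner ℝ (y : E) (x : E) → (ψ * φ) y = y

/-- DSC (from EXT, GRM, GLP, LMP).  Every orientation preserving diffeomorphism is isotopic to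
one which is the identity near some point.  Let `x` be as in `OrPres`,
`M = fderiv (fun y => ‖y‖ • ext φ y) x`, so `M x = φ x` and `M ξ = D (ext φ) x ξ` for `ξ ⊥ x`.
`B` the linear equivalence with `B = M`; `lam B.symm ∈ IS` by GLP (`det B.symm = (det B)⁻¹`).
`φ₀ = lam B.symm * φ` fixes `x` (`B.symm (φ x) = x`), and `ext φ₀ y = ‖v‖⁻¹ • v`,
`v = B.symm (ext φ y)`; at `x` the derivative on `ξ ⊥ x` is `B.symm (M ξ) = ξ` (the derivative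
of `v ↦ ‖v‖⁻¹ • v` at the unit vector `x` fixes `x^⊥`).  Apply GRM. -/
def T_DSC : Prop := ∀ φ : Equiv.Perm (S E), IsDiffeo (S E) φ → OrPres φ →
  ∃ x : S E, ∃ ψ ∈ IS E, ∃ κ > 0, ∀ y : S E, 1 - κ < inner ℝ (y : E) (x : E) → (ψ * φ) y = y

/-- CAP (from DSC, BSP, BSC, GLP, LMP, REF).  ... and even to one which is supported in a given
small cap around `w`.  By DSC `φ₁ = ψ φ` is the identity on `{⟪y, x⟫ > 1 - κ}`.  With the boosts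
`δ = bst (-x) l` towards `- x`: `δ φ₁ δ⁻¹` moves `y` only if `δ⁻¹ y` is moved by `φ₁`, so
`⟪δ⁻¹ y, -x⟫ ≥ -1 + κ`, so `⟪y, -x⟫ ≥ 1 - η` for large `l` (BSC); and
`δ φ₁ δ⁻¹ = (δ (φ₁ δ⁻¹ φ₁⁻¹)) φ₁ ∈ IS φ` since `δ ∈ IS` (BSP with `μ t = t l`) and IS_conj.  Then
conjugate in the same way with `R = lam (refl a * refl b) ∈ IS`, a linear isometry with
`R (-x) = w`: if `w ≠ x` take `b = - x`, `a` the normalised `w - x`; if `w = x` take `b = - x` and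
`a ⊥ x`; this needs dimension at least two.  `⟪R⁻¹ y, -x⟫ = ⟪y, w⟫`. -/
def T_CAP : Prop := 2 ≤ Module.finrank ℝ E → ∀ φ : Equiv.Perm (S E), IsDiffeo (S E) φ →
  OrPres φ → ∀ (w : S E) (η : ℝ), 0 < η → ∃ ψ ∈ IS E, ∀ y : S E,
    inner ℝ (y : E) (w : E) < 1 - η → (ψ * φ) y = y

/-! ## The Dehn twist -/

/-- DTS.  Smoothness of the geodesic flow with a time depending on `‖p‖` (and on a parameter).
Where `z.2 ≠ 0` all functions in the formula are smooth; where `‖z.2‖ < ε` the angle is the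
constant `k π`, so `dtFun _ z = (cos (k π) z.1, cos (k π) z.2)` (`sin (k π) = 0`). -/
def T_DTS : Prop := ∀ Θ : ℝ × ℝ → ℝ, ContDiff ℝ ∞ Θ →
  (∃ ε > 0, ∃ k : ℤ, ∀ t r, r < ε → Θ (t, r) = k * Real.pi) →
  ContDiff ℝ ∞ fun w : ℝ × (E × E) => dtFun (fun r => Θ (w.1, r)) w.2

/-- DTM (from DTS).  The flow is symplectic.  Let `c = (x, p)` be a smooth map of the plane in
`TS`.  Near a point with `p = 0` the flow is `± 1` times the identity.  Let `p ≠ 0`,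
`r = ‖p‖`, `u = p / r`, `C = cos θ(r)`, `S = sin θ(r)`, `e₁ = C u - S x`, `e₂ = S u + C x`; the image is
`x' = e₂`, `p' = r e₁`.  With `∂ᵢ`: `θᵢ = θ'(r) rᵢ`, `∂ᵢ x' = θᵢ e₁ + (C xᵢ + S uᵢ)`,
`∂ᵢ p' = rᵢ e₁ - r θᵢ e₂ + r (C uᵢ - S xᵢ)`.  From `⟪x,x⟫ = ⟪u,u⟫ = 1`, `⟪x,u⟫ = 0`:
`⟪x,xᵢ⟫ = ⟪u,uᵢ⟫ = 0`, `⟪u,xᵢ⟫ = kᵢ = - ⟪x,uᵢ⟫`; `⟪e₁, C xᵢ + S uᵢ⟫ = kᵢ`,
`⟪e₂, C xᵢ + S uᵢ⟫ = 0`, `⟪e₁, C uᵢ - S xᵢ⟫ = 0`, `⟪e₁,e₂⟫ = 0`, so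
`⟪∂₁ p', ∂₂ x'⟫ - ⟪∂₂ p', ∂₁ x'⟫ = (r₁ θ₂ - r₂ θ₁) + (r₁ k₂ - r₂ k₁) + r (⟪u₁,x₂⟫ - ⟪u₂,x₁⟫)`
and the first bracket is zero; `∂ᵢ p = rᵢ u + r uᵢ` gives the same for `⟪p₁,x₂⟫ - ⟪p₂,x₁⟫`. -/
def T_DTM : Prop := ∀ θ : ℝ → ℝ, ContDiff ℝ ∞ θ →
  (∃ ε > 0, ∃ k : ℤ, ∀ r, r < ε → θ r = k * Real.pi) →
  ∀ c : ℝ × ℝ → E × E, ContDiff ℝ ∞ c → (∀ s, c s ∈ TS E) → ∀ s,
    om (fderiv ℝ (fun u => dtFun θ (c u)) s (1, 0)) (fderiv ℝ (fun u => dtFun θ (c u)) s (0, 1)) =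
      om (fderiv ℝ c s (1, 0)) (fderiv ℝ c s (0, 1))

/-- DTC (from DTS, DTM).  `dt A` is a compactly supported symplectomorphism; `(dt A)⁻¹` is given
by `dtFun (-θ)`; for `‖z.2‖ ≥ R` the angle is `0` and `dtFun θ z = z`. -/
def T_DTC : Prop := ∀ A : Angle, dt A ∈ CG E

/-- DTI (from DTS, DTM, DTC).  Two angle functions of the same kind give isotopic Dehn twists: the
angles `(1 - sg t) θ_B + sg t θ_A` (path `dt (A_t) * (dt B)⁻¹`). -/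
def T_DTI : Prop := ∀ A B : Angle, A.θ 0 = B.θ 0 →
  (dt A : Equiv.Perm (TS E)) * (dt B)⁻¹ ∈ NG E

/-- TRN.  Translations are symplectic and form smooth paths.  For `c = (x, p)`:
`p' = p + a - ⟪a,x⟫ x`, `∂ᵢ p' = ∂ᵢ p - ⟪a,xᵢ⟫ x - ⟪a,x⟫ xᵢ`, and `⟪x,xⱼ⟫ = 0`, so
`⟪p'₁,x₂⟫ - ⟪p'₂,x₁⟫ = ⟪p₁,x₂⟫ - ⟪p₂,x₁⟫ - ⟪a,x⟫ (⟪x₁,x₂⟫ - ⟪x₂,x₁⟫)`. -/
def T_TRN : Prop := ∀ (a : E) (μ : ℝ → ℝ), ContDiff ℝ ∞ μ →
  (IsPath (TS E) fun t => trn (μ t • a)) ∧ ∀ t, IsSymp (trn (E := E) (μ t • a))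

/-! ## Isotopies of symplectomorphisms -/

/-- NRM.  Normality: for a compactly supported `g` (support in `‖p‖ ≤ R`), `Φ g Φ⁻¹` is the
identity off the image under `Φ` of the compact set `{z ∈ TS : ‖z.2‖ ≤ R}`, which is bounded;
paths: `Φ (g t) Φ⁻¹`. -/
def T_NRM : Prop := ∀ Φ ∈ SG E, (∀ g ∈ CG E, Φ * g * Φ⁻¹ ∈ CG E) ∧
  ∀ g ∈ NG E, Φ * g * Φ⁻¹ ∈ NG E

/-- CPT (from NRM).  Conjugation by a path: `t ↦ (Φ (sg t) g Φ (sg t)⁻¹) (Φ 0 g (Φ 0)⁻¹)⁻¹`; the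
supports are bounded since `{Φ s z : s ∈ [0,1], z ∈ TS, ‖z.2‖ ≤ R}` is the continuous image of a
compact set. -/
def T_CPT : Prop := ∀ Φ : ℝ → Equiv.Perm (TS E), IsPath (TS E) Φ → (∀ t, IsSymp (Φ t)) →
  ∀ g ∈ CG E, (Φ 1 * g * (Φ 1)⁻¹) * (Φ 0 * g * (Φ 0)⁻¹)⁻¹ ∈ NG E

/-- CMM.  Commutators of paths whose supports meet in a compact set.  If `z` is not in
`K ∪ f_s(K) ∪ g_s(K)` then `f_s g_s f_s⁻¹ g_s⁻¹ z = z`: let `v = g⁻¹ z`, `w = f⁻¹ v`.  If `z ∉ Q`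
then `v = z` (`g` maps the complement of `Q` identically to itself); if `w ∉ Q` then `g w = w`, so
the value is `f w = z`; if `w ∈ Q` then `w ∉ P` (else `w ∈ K`, `z = f w`), so `w = v = z`,
a contradiction.  If `z ∈ Q` then `v ∈ Q`; `v ∉ P` (else `v ∈ K`, `z = g v`), so `w = v`,
`g w = z`, and `z ∉ P` (else `z ∈ K`), so `f z = z`.  Path:
`t ↦ [f (sg t), g (sg t)] [f 0, g 0]⁻¹`; the supports are bounded since `[0,1] × K` is compact. -/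
def T_CMM : Prop := ∀ (f g : ℝ → Equiv.Perm (TS E)) (P Q : Set (TS E)) (K : Set (E × E)),
  IsPath (TS E) f → (∀ t, IsSymp (f t)) → IsPath (TS E) g → (∀ t, IsSymp (g t)) →
  (∀ t, ∀ z ∉ P, f t z = z) → (∀ t, ∀ z ∉ Q, g t z = z) → IsCompact K → K ⊆ TS E →
  (∀ z : TS E, z ∈ P → z ∈ Q → (z : E × E) ∈ K) →
  f 1 * g 1 * (f 1)⁻¹ * (g 1)⁻¹ ∈ CG E ∧
  (f 1 * g 1 * (f 1)⁻¹ * (g 1)⁻¹) * (f 0 * g 0 * (f 0)⁻¹ * (g 0)⁻¹)⁻¹ ∈ NG E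

end Pool.Agent.DTW

namespace Pool.Agent.DTW

/-- ALG.  Group theory.  `N ≤ C` are subgroups normalised by `S₀` (`C ≤ S₀`).  Work in `S₀ / N` or
with congruences modulo `N`; write `g ≡ h` for `g h⁻¹ ∈ N` (`g, h ∈ S₀`), a congruence.  Let
`G = t⁻¹ f t`, `a = G f⁻¹ ∈ C`, `z = f' G f'⁻¹ G⁻¹ ≡ z₁`.  (i) `f a f⁻¹ ≡ f' a f'⁻¹` (hypothesis on
`f, f'`) `= f' G f'⁻¹ f⁻¹ = z a` (`f' f⁻¹ = f⁻¹ f'`).  (ii) `f z f⁻¹ ≡ f'' z₁ f''⁻¹ = z₁ ≡ z`.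
(iii) `a = t⁻¹ (f t f⁻¹) ≡ t⁻¹ (f'' t f''⁻¹) = (t⁻¹ f'' t) f''⁻¹`, which commutes with `z₁`; so
`a z ≡ z a`.  (iv) By induction `f^k a f^{-k} ≡ z^k a`, and
`(a f)^k ≡ z^{k(k-1)/2} a^k f^k`.  (v) `f^m a f^{-m} ≡ a` gives `z^m ≡ 1`.  (vi)
`(a f)^m = (t⁻¹ f t)^m = t⁻¹ f^m t` and `f^m t f^{-m} ≡ t` give `(a f)^m ≡ f^m`, so
`z^{m(m-1)/2} a^m ≡ 1`, and squaring `z^{m(m-1)} a^{2m} ≡ 1`, `a^{2m} ≡ 1`. -/
def T_ALG : Prop := ∀ (G : Type) [Group G] (S₀ C N : Subgroup G), N ≤ C → C ≤ S₀ →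
  (∀ s ∈ S₀, ∀ g ∈ C, s * g * s⁻¹ ∈ C) → (∀ s ∈ S₀, ∀ g ∈ N, s * g * s⁻¹ ∈ N) →
  ∀ (t f f' f'' z₁ : G) (m : ℕ), t ∈ C → f ∈ S₀ → f' ∈ S₀ → f'' ∈ S₀ → z₁ ∈ C →
  (∀ g ∈ C, (f * g * f⁻¹) * (f' * g * f'⁻¹)⁻¹ ∈ N) →
  (∀ g ∈ C, (f * g * f⁻¹) * (f'' * g * f''⁻¹)⁻¹ ∈ N) → f * f' = f' * f →
  (f' * (t⁻¹ * f * t) * f'⁻¹ * (t⁻¹ * f * t)⁻¹) * z₁⁻¹ ∈ N →
  f'' * z₁ = z₁ * f'' → (t⁻¹ * f'' * t) * z₁ = z₁ * (t⁻¹ * f'' * t) →
  (∀ g ∈ C, (f ^ m * g * (f ^ m)⁻¹) * g⁻¹ ∈ N) →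
  (t⁻¹ * (f * t * f⁻¹)) ^ (2 * m) ∈ N

variable (E : Type) [NormedAddCommGroup E] [InnerProductSpace ℝ E] [FiniteDimensional ℝ E]

/-! ## Localisation -/

/-- INB.  The supports meet in a bounded set: for `‖z.2‖ ≥ 2` the angle of `A0` is `0`, so
`dt A0 z = z`, and `⟪z.1, a⟫ ≥ 3/4`, `⟪z.1, b⟫ ≥ 3/4` is impossible for orthonormal `a`, `b`
(Bessel's inequality). -/
def T_INB : Prop := ∀ (a b : S E), inner ℝ (a : E) (b : E) = 0 → ∀ z : TS E,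
  3 / 4 ≤ inner ℝ z.1.1 (a : E) → 3 / 4 ≤ inner ℝ (dtFun A0.θ z.1).1 (b : E) → ‖z.1.2‖ < 2

/-- INT (from INB, DTS).  The two fibres meet only in the point `(a, (3/2) b)`, and nearby fibres
meet only near it.  Otherwise there are `z_k ∈ TS` with `⟪z_k.1, a⟫ ≥ 1 - 1/k`,
`⟪(dtFun z_k).1, b⟫ ≥ 1 - 1/k` outside the neighbourhood `V`; by INB they are bounded, a
subsequence converges to some `z ∈ TS`, `z.1 = a`, `(dtFun z).1 = b` (norm one and inner product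
`≥ 1`), `dtFun` being continuous (DTS).  `cos θ a + (sin θ / r) p = b`, inner product with `a`:
`cos θ(r) = 0`, and `0 ≤ θ ≤ π`, so `θ(r) = π/2`, `sg (r - 1) = 1/2`, which means
`expNegInvGlue (r - 1) = expNegInvGlue (2 - r)`, both positive, so `r = 3/2` and `p = r b`. -/
def T_INT : Prop := ∀ (a b : S E), inner ℝ (a : E) (b : E) = 0 →
  ∀ V ∈ nhds (((a : E), (3 / 2 : ℝ) • (b : E)) : E × E), ∃ ε > 0, ∀ z : TS E,
    1 - ε ≤ inner ℝ z.1.1 (a : E) → 1 - ε ≤ inner ℝ (dtFun A0.θ z.1).1 (b : E) → z.1 ∈ V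

/-- SUP (from BSC, BSP).  Supports of the conjugates by boosts.  `δ = bst a l`, `l ≥ 0`.  If
`δ φ δ⁻¹` moves `y` then `φ` moves `δ⁻¹ y`, so `⟪δ⁻¹ y, a⟫ ≥ 3/4`, so `⟪y, a⟫ ≥ 3/4`, and `≥ 1 - ε`
for `l ≥ L`, by BSC. -/
def T_SUP : Prop := ∀ (a : S E) (φ : Equiv.Perm (S E)),
  (∀ y : S E, inner ℝ (y : E) (a : E) < 3 / 4 → φ y = y) →
  (∀ l : ℝ, 0 ≤ l → ∀ y : S E, inner ℝ (y : E) (a : E) < 3 / 4 →
    (bst a l * φ * (bst a l)⁻¹) y = y) ∧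
  ∀ ε : ℝ, 0 < ε → ∃ L : ℝ, 0 ≤ L ∧ ∀ l, L ≤ l → ∀ y : S E,
    inner ℝ (y : E) (a : E) < 1 - ε → (bst a l * φ * (bst a l)⁻¹) y = y

/-- UNB (from PB1, PBL, PBN, PBB, BSP, SUP).  The lifts of the conjugates are uniformly bounded.
`δ = bst a l`, `pull (δ φ δ⁻¹) = pull δ⁻¹ * pull φ * pull δ` where `pull δ⁻¹ = (pull δ)⁻¹`.  Let
`z ∈ TS`, `y = z.1`.  If `⟪y, a⟫ < 3/4` then `z` is fixed (SUP, PBL with the open set
`{⟪y, a⟫ < 3/4}`).  Otherwise let `z₁ = pull δ z`, `x₁ = δ⁻¹ y`, `z₂ = pull φ z₁`, `x₂ = φ⁻¹ x₁`,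
`z₃ = pull δ⁻¹ z₂`, so `pull δ z₃ = z₂`.  PBB: `‖z₁.2‖ bD l ⟪x₁,a⟫ = ‖z.2‖` and
`‖z₂.2‖ bD l ⟪x₂,a⟫ = ‖z₃.2‖`.  Either
`⟪x₁, a⟫ < 3/4`, then `z₂ = z₁` (PBL) and `z₃ = z`; or `⟪x₁,a⟫ ≥ 3/4 > 0`, then
`bD l ⟪x₁,a⟫ ≥ cosh l`, `bD l ⟪x₂,a⟫ ≤ e^l ≤ 2 cosh l`, so `‖z₃.2‖ ≤ 2 M ‖z.2‖` with `M` from PBN. -/
def T_UNB : Prop := ∀ (a : S E) (φ : Equiv.Perm (S E)), IsDiffeo (S E) φ →
  (∀ y : S E, inner ℝ (y : E) (a : E) < 3 / 4 → φ y = y) →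
  ∃ M : ℝ, 0 ≤ M ∧ ∀ (l : ℝ) (z : TS E), 0 ≤ l →
    ‖(pull (bst a l * φ * (bst a l)⁻¹) z).1.2‖ ≤ M * ‖z.1.2‖

/-- the lift of the conjugate of `φ` by the boost, conjugated by the translation by `p` -/
def fl {E : Type} [NormedAddCommGroup E] [InnerProductSpace ℝ E] [FiniteDimensional ℝ E]
    (a : S E) (p : E) (φ : Equiv.Perm (S E)) (l : ℝ) : Equiv.Perm (TS E) :=
  trn p * pull (bst a l * φ * (bst a l)⁻¹) * (trn p)⁻¹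

/-- FLN (from PB1, UNB, BSP).  `fl a p φ l` maps points near `(a, p)` over the small cap to points
near `(a, p)`, uniformly in `l` (`p ⊥ a`).  `(trn p)⁻¹ (x, q) = (x, q')`,
`q' = q - p + ⟪p, x⟫ x`, is near `(a, 0)` if `(x, q)` is near `(a, p)`: `‖q'‖` is small.  The lift
gives `(x'', q'')` with `‖q''‖ ≤ M ‖q'‖` (UNB), and `x'' = (δ φ⁻¹ δ⁻¹) x` satisfies
`⟪x'', a⟫ ≥ 1 - ε`: otherwise `δ φ δ⁻¹` fixes `x''`, so `x = x''`, a contradiction.  So `x''` is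
near `a` (`‖x'' - a‖² = 2 - 2 ⟪x'', a⟫`), and `trn p (x'', q'') = (x'', q'' + p - ⟪p, x''⟫ x'')` is
near `(a, p)`. -/
def T_FLN : Prop := ∀ (a : S E) (p : E) (φ : Equiv.Perm (S E)), IsDiffeo (S E) φ →
  inner ℝ (a : E) p = 0 → (∀ y : S E, inner ℝ (y : E) (a : E) < 3 / 4 → φ y = y) →
  ∀ V ∈ nhds (((a : E), p) : E × E), ∃ W ∈ nhds (((a : E), p) : E × E), ∃ ε > 0,
    ∀ (l : ℝ) (z : TS E), 0 ≤ l → (∀ y : S E, inner ℝ (y : E) (a : E) < 1 - ε →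
      (bst a l * φ * (bst a l)⁻¹) y = y) → z.1 ∈ W → 1 - ε ≤ inner ℝ z.1.1 (a : E) →
      (fl a p φ l z).1 ∈ V

/-- LOC (from PBL, PB1, INT, SUP, FLN, DTS).  Localisation.  `P = (a, (3/2) b)`,
`Q = dt A0 P = (b, -(3/2) a)` (angle `π/2` at `3/2`: `sg (1/2) = 1/2`).  `f = fl a ((3/2) b) φ l`,
`g = τ⁻¹ (fl b (-(3/2) a) ψ l) τ`, `τ = dt A0`.  FLN for `f` at `P` gives `W, ε`; FLN for the second
lift at `Q` with the preimage of `V` under `dtFun (-θ)` (continuous) gives `W', ε'`.  INT gives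
`ε''` for the neighbourhood `V ∩ W ∩ dtFun⁻¹ W'` of `P`.  Let `e = min ε ε' ε''`; SUP for both gives
`l`.  The supports of `f`, `g` are in `{1 - e ≤ ⟪z.1, a⟫}`, `{1 - e ≤ ⟪(τ z).1, b⟫}` (PBL,
translations preserve the base point); on their intersection `K` (a subset of
`V ∩ W ∩ dtFun⁻¹ W'` by INT) `f(K), g(K) ⊆ V`.  As in CMM `[f, g] z = z` if `z` is not in
`K ∪ f(K) ∪ g(K)`, in particular if `z ∉ V`. -/
def T_LOC : Prop := ∀ (a b : S E) (φ ψ : Equiv.Perm (S E)), inner ℝ (a : E) (b : E) = 0 →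
  IsDiffeo (S E) φ → IsDiffeo (S E) ψ →
  (∀ y : S E, inner ℝ (y : E) (a : E) < 3 / 4 → φ y = y) →
  (∀ y : S E, inner ℝ (y : E) (b : E) < 3 / 4 → ψ y = y) →
  ∀ V ∈ nhds (((a : E), (3 / 2 : ℝ) • (b : E)) : E × E), ∃ l : ℝ, 0 ≤ l ∧ ∀ z : TS E, z.1 ∉ V →
    (fl a ((3 / 2 : ℝ) • (b : E)) φ l *
      ((dt A0)⁻¹ * fl b (-(3 / 2 : ℝ) • (a : E)) ψ l * dt A0) *
      (fl a ((3 / 2 : ℝ) • (b : E)) φ l)⁻¹ *
      ((dt A0)⁻¹ * fl b (-(3 / 2 : ℝ) • (a : E)) ψ l * dt A0)⁻¹ : Equiv.Perm (TS E)) z = z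

/-- ISO (from PB1, PBP, PBS, CPT).  Isotopic diffeomorphisms act in the same way by conjugation:
`ψ ∈ IS`, path `ψ_t` from `1`, `Φ t = pull (ψ_t φ)`. -/
def T_ISO : Prop := ∀ φ ψ : Equiv.Perm (S E), IsDiffeo (S E) φ → ψ ∈ IS E → ∀ g ∈ CG E,
  (pull (ψ * φ) * g * (pull (ψ * φ))⁻¹) * (pull φ * g * (pull φ)⁻¹)⁻¹ ∈ NG E

/-- CMP (from PB1, PBL, PBP, PBS, BSP, SUP, TRN, CMM, DTC, INB, DTS).  The deformation of the
commutator.  `p = (3/2) b`, `q = -(3/2) a`.  `f s = fl a (sg s • p) φ (sg s * l)`,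
`g s = τ⁻¹ (fl b (sg s • q) ψ (sg s * l)) τ`.  These are paths of symplectomorphisms (products of
paths), `f 0 = pull φ` (`trn 0 = 1`, `bst a 0 = 1`), `f 1` and `g 1` are as in LOC.  `f s` fixes `z`
if `⟪z.1, a⟫ < 3/4` and `g s` fixes `z` if `⟪(τ z).1, b⟫ < 3/4` (SUP, PBL); the intersection of
the complements is closed in `TS` and bounded by INB, so compact.  Apply CMM. -/
def T_CMP : Prop := ∀ (a b : S E) (φ ψ : Equiv.Perm (S E)) (l : ℝ), 0 ≤ l →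
  inner ℝ (a : E) (b : E) = 0 → IsDiffeo (S E) φ → IsDiffeo (S E) ψ →
  (∀ y : S E, inner ℝ (y : E) (a : E) < 3 / 4 → φ y = y) →
  (∀ y : S E, inner ℝ (y : E) (b : E) < 3 / 4 → ψ y = y) →
  ∀ f g : Equiv.Perm (TS E), f = fl a ((3 / 2 : ℝ) • (b : E)) φ l →
  g = (dt A0)⁻¹ * fl b (-(3 / 2 : ℝ) • (a : E)) ψ l * dt A0 →
  f * g * f⁻¹ * g⁻¹ ∈ CG E ∧
  (pull φ * ((dt A0)⁻¹ * pull ψ * dt A0) * (pull φ)⁻¹ * ((dt A0)⁻¹ * pull ψ * dt A0)⁻¹) *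
    (f * g * f⁻¹ * g⁻¹)⁻¹ ∈ NG E

/-- MAI (from everything).  The theorem for the special angle function. -/
def T_MAI : Prop := 2 ≤ Module.finrank ℝ E → ∀ (φ : Equiv.Perm (S E)) (m : ℕ),
  IsDiffeo (S E) φ → OrPres φ → IsoS (φ ^ m) →
  Iso0 (((dt A0)⁻¹ * (pull φ * dt A0 * (pull φ)⁻¹)) ^ (2 * m))

/-- FIN (from everything).  The theorem. -/
def T_FIN : Prop := 2 ≤ Module.finrank ℝ E → ∀ (A : Angle) (φ : Equiv.Perm (S E))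
  (ρ : E ≃ₗᵢ[ℝ] E) (m : ℕ), IsDiffeo (S E) φ → OrPres (rot ρ * φ) →
  IsoS ((rot ρ * φ) ^ m) → Iso0 (((dt A)⁻¹ * (pull φ * dt A * pull φ⁻¹)) ^ (2 * m))

end Pool.Agent.DTW
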